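import Pool.Agent.Lib.MP_d9d638_lc.KS.OmB

/-!
# KS, module AddIdx: adding an index; a first condition

PROOF. If `k ∈ p.D` take `p`. Otherwise `q = ⟨p.ht, p.e, insert k p.D, f, c⟩` with `f k = 0`,
`c k = ∅` and `f j = p.f j`, `c j = p.c j` for `j ≠ k`. (`clo` for `k`: the empty set is not
cofinal in a limit.) First condition: height the least element of `Om` (`exists_bot`), `e = 0`,
`D = {nil}`, `f = 0`, `c = ∅`; the least element is not a limit.
-/

set_option autoImplicit false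

namespace Pool.Agent.KSt

open Pool.Agent.Lib.SymModel Set

theorem add_idx {G : Glo} (p : Cnd G) (k : Idx) :
    ∃ q : Cnd G, q ≤ p ∧ q.1.ht = p.1.ht ∧ q.1.D = insert k p.1.D := by
  classical
  obtain ⟨P, hP⟩ := p
  by_cases hk : k ∈ P.D
  · exact ⟨⟨P, hP⟩, le_rfl, rfl, (Set.insert_eq_of_mem hk).symm⟩
  obtain ⟨Q, hQ⟩ : ∃ Q : Raw, Q = ⟨P.ht, P.e, insert k P.D, fun j => if j = k then 0 else P.f j,
      fun j => if j = k then ∅ else P.c j⟩ := ⟨_, rfl⟩
  have hht : Q.ht = P.ht := by rw [hQ]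
  have he : Q.e = P.e := by rw [hQ]
  have hD : Q.D = insert k P.D := by rw [hQ]
  have hfk : Q.f k = 0 := by rw [hQ]; exact if_pos rfl
  have hck : Q.c k = ∅ := by rw [hQ]; exact if_pos rfl
  have hf : ∀ j ≠ k, Q.f j = P.f j := by
    intro j hj; rw [hQ]; exact if_neg hj
  have hc : ∀ j ≠ k, Q.c j = P.c j := by
    intro j hj; rw [hQ]; exact if_neg hj
  have hne : ∀ j ∈ P.D, j ≠ k := fun j hj h => hk (h ▸ hj)
  have hle : Q ≤ P := by
    refine ⟨hht.ge, fun δ _ => by rw [he], ?_, ?_, ?_⟩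
    · rw [hD]; exact Set.subset_insert _ _
    · intro j hj ξ _; rw [hf j (hne j hj)]
    · intro j hj δ _; rw [hc j (hne j hj)]
  have hcond : IsCond G Q := by
    refine ⟨?_, ?_, ?_, ?_, ?_, ?_, ?_, ?_⟩
    · rw [hD]; exact Or.inr hP.nil
    · rw [hD]; exact hP.cnt.insert k
    · intro δ hδ n ξ hξ
      rw [hht] at hδ
      rw [he]
      exact hP.supp δ hδ n ξ hξ
    · intro j hj ξ hξ
      by_cases hjk : j = k
      · subst hjk
        left
        rw [hfk]; rfl
      · have hj' : j ∈ P.D := by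
          rw [hD] at hj
          exact hj.resolve_left hjk
        rw [hht] at hξ
        rw [hf j hjk]
        rcases hP.pre j hj' ξ hξ with h | h
        · exact Or.inl h
        · exact Or.inr ⟨h.1, hle.trans h.2⟩
    · intro j hj δ hδ
      by_cases hjk : j = k
      · subst hjk
        rw [hck] at hδ
        exact absurd hδ (Set.notMem_empty δ)
      · have hj' : j ∈ P.D := by
          rw [hD] at hj
          exact hj.resolve_left hjk
        rw [hc j hjk] at hδ
        rw [hht]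
        exact hP.lim j hj' δ hδ
    · intro j hj δ hδ hlim hcof
      by_cases hjk : j = k
      · subst hjk
        obtain ⟨a, ha⟩ := hlim.1
        obtain ⟨b, hb, -⟩ := hcof a ha
        rw [hck] at hb
        exact absurd hb (Set.notMem_empty b)
      · have hj' : j ∈ P.D := by
          rw [hD] at hj
          exact hj.resolve_left hjk
        rw [hht] at hδ
        rw [hc j hjk] at hcof ⊢
        exact hP.clo j hj' δ hδ hlim hcof
    · intro δ hδ hlim
      rw [hht] at hδ
      rw [he]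
      exact hP.gcl δ hδ hlim
    · intro j hj δ hδc hδ
      by_cases hjk : j = k
      · subst hjk
        rw [hck] at hδc
        exact absurd hδc (Set.notMem_empty δ)
      · have hj' : j ∈ P.D := by
          rw [hD] at hj
          exact hj.resolve_left hjk
        rw [hc j hjk] at hδc
        rw [hht] at hδ
        rw [he, hf j hjk, hc j hjk]
        exact hP.kcl j hj' δ hδc hδ
  exact ⟨⟨Q, hcond⟩, hle, hht, hD⟩

theorem exists_cond (G : Glo) : ∃ p : Cnd G, p.1.D = {Idx.nil} := by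
  obtain ⟨o, ho⟩ := exists_bot
  have hno : ∀ δ ≤ o, ¬ IsLim δ := by
    rintro δ hδ ⟨⟨a, ha⟩, -⟩
    exact absurd (ha.trans_le hδ) (not_lt.mpr (ho a))
  obtain ⟨Q, hQ⟩ : ∃ Q : Raw, Q = ⟨o, fun _ _ _ => 0, {Idx.nil}, fun _ _ => 0, fun _ => ∅⟩ :=
    ⟨_, rfl⟩
  have hht : Q.ht = o := by rw [hQ]
  have he : ∀ δ n ξ, Q.e δ n ξ = 0 := by intro δ n ξ; rw [hQ]
  have hD : Q.D = {Idx.nil} := by rw [hQ]
  have hf : ∀ j ξ, Q.f j ξ = 0 := by intro j ξ; rw [hQ]
  have hc : ∀ j δ, δ ∉ Q.c j := by intro j δ; rw [hQ]; exact Set.notMem_empty δ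
  refine ⟨⟨Q, ?_⟩, hD⟩
  refine ⟨?_, ?_, ?_, ?_, ?_, ?_, ?_, ?_⟩
  · rw [hD]; exact Set.mem_singleton _
  · rw [hD]; exact Set.countable_singleton _
  · intro δ _ n ξ _; exact he δ n ξ
  · intro j _ ξ _; exact Or.inl (hf j ξ)
  · intro j _ δ hδ; exact absurd hδ (hc j δ)
  · intro j _ δ hδ hlim _
    rw [hht] at hδ
    exact absurd hlim (hno δ hδ)
  · intro δ hδ hlim
    rw [hht] at hδ
    exact absurd hlim (hno δ hδ)
  · intro j _ δ hδ _; exact absurd hδ (hc j δ)

end Pool.Agent.KSt
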