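import Pool.Agent.Lib.MP_d9d638_lc.KS.Defs

/-!
# KS, module OmB: basic facts on the countable ordinals

`Om` is `MP_d9d638_lc.Om`; use `MP_d9d638_lc.OmBasic` (`Om.bdd`, `Om.iio`, `Om.exists_gt`,
`Om.least`) and `wellFounded_lt`.
-/

set_option autoImplicit false

namespace Pool.Agent.KSt

open Pool.Agent.Lib.SymModel Set

private theorem OmB_least {S : Set Om} (hS : S.Nonempty) : ∃ m ∈ S, ∀ x ∈ S, m ≤ x :=
  MP_d9d638_lc.Om.least hS

theorem exists_sc : ∃ s : Om → Om, ∀ a, a < s a ∧ ∀ b, a < b → s a ≤ b := by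
  have h : ∀ a : Om, ∃ m, a < m ∧ ∀ b, a < b → m ≤ b := by
    intro a
    obtain ⟨m, h1, h2⟩ := OmB_least (S := {b | a < b}) (MP_d9d638_lc.Om.exists_gt a)
    exact ⟨m, h1, fun b hb => h2 b hb⟩
  choose s hs using h
  exact ⟨s, hs⟩

/-- The successor. -/
noncomputable def sc : Om → Om := Classical.choose exists_sc

theorem lt_sc (a : Om) : a < sc a := (Classical.choose_spec exists_sc a).1

theorem sc_le {a b : Om} (h : a < b) : sc a ≤ b := (Classical.choose_spec exists_sc a).2 b h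

theorem lt_sc_iff {a b : Om} : b < sc a ↔ b ≤ a := by
  constructor
  · intro h
    by_contra h1
    exact absurd (sc_le (not_le.mp h1)) (not_le.mpr h)
  · intro h
    exact h.trans_lt (lt_sc a)

theorem not_isLim_sc (a : Om) : ¬ IsLim (sc a) := by
  rintro ⟨-, h⟩
  obtain ⟨b, h1, h2⟩ := h a (lt_sc a)
  exact absurd (sc_le h1) (not_le.mpr h2)

/-- An element is minimal, a successor, or a limit. -/
theorem om_cases (a : Om) : (∀ b, a ≤ b) ∨ (∃ b, a = sc b) ∨ IsLim a := by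
  by_cases h0 : ∀ b, a ≤ b
  · exact Or.inl h0
  refine Or.inr ?_
  by_cases h1 : ∀ b < a, ∃ c, b < c ∧ c < a
  · push Not at h0
    exact Or.inr ⟨h0, h1⟩
  · push Not at h1
    obtain ⟨b, h2, h3⟩ := h1
    exact Or.inl ⟨b, le_antisymm (h3 _ (lt_sc b)) (sc_le h2)⟩

theorem exists_bot : ∃ o : Om, ∀ a, o ≤ a := by
  obtain ⟨m, -, h⟩ := OmB_least (S := (univ : Set Om)) ⟨Classical.arbitrary Om, mem_univ _⟩
  exact ⟨m, fun a => h a (mem_univ a)⟩

/-- Suprema of strictly increasing sequences. -/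
theorem exists_sup (s : ℕ → Om) (hs : ∀ n, s n < s (n + 1)) :
    ∃ δ, IsLim δ ∧ (∀ n, s n < δ) ∧ ∀ a < δ, ∃ n, a < s n := by
  obtain ⟨δ, h1, h2⟩ := OmB_least (S := {u : Om | ∀ n, s n < u}) (MP_d9d638_lc.Om.bdd s)
  have h3 : ∀ a < δ, ∃ n, a < s n := by
    intro a ha
    by_contra h
    push Not at h
    have h4 : ∀ n, s n < a := fun n => (hs n).trans_le (h (n + 1))
    exact absurd (h2 a h4) (not_le.mpr ha)
  refine ⟨δ, ⟨⟨s 0, h1 0⟩, fun a ha => ?_⟩, h1, h3⟩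
  obtain ⟨n, hn⟩ := h3 a ha
  exact ⟨s n, hn, h1 n⟩

theorem cofinal_seq {δ : Om} (h : IsLim δ) :
    ∃ s : ℕ → Om, (∀ n, s n < s (n + 1)) ∧ (∀ n, s n < δ) ∧ ∀ a < δ, ∃ n, a < s n := by
  obtain ⟨e, he⟩ := (MP_d9d638_lc.Om.iio δ).exists_eq_range h.1
  have he1 : ∀ n, e n < δ := fun n => by
    have : e n ∈ Iio δ := by
      rw [he]
      exact mem_range_self n
    exact this
  have h2 : ∀ a b : Om, a < δ → b < δ → ∃ c, c < δ ∧ a < c ∧ b < c := by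
    intro a b ha hb
    obtain ⟨c, h3, h4⟩ := h.2 (max a b) (max_lt ha hb)
    exact ⟨c, h4, (le_max_left _ _).trans_lt h3, (le_max_right _ _).trans_lt h3⟩
  choose g hg1 hg2 hg3 using h2
  obtain ⟨t, ht⟩ : ∃ t : ℕ → {x : Om // x < δ}, t = fun n => Nat.rec ⟨e 0, he1 0⟩
      (fun n x => ⟨g x.1 (e n) x.2 (he1 n), hg1 _ _ _ _⟩) n := ⟨_, rfl⟩
  have hs : ∀ n, (t (n + 1)).1 = g (t n).1 (e n) (t n).2 (he1 n) := fun n => by
    rw [ht]
  refine ⟨fun n => (t n).1, fun n => ?_, fun n => (t n).2, fun a ha => ?_⟩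
  · change (t n).1 < (t (n + 1)).1
    rw [hs]
    exact hg2 _ _ _ _
  · have : a ∈ range e := by
      rw [← he]
      exact ha
    obtain ⟨n, rfl⟩ := this
    refine ⟨n + 1, ?_⟩
    change e n < (t (n + 1)).1
    rw [hs]
    exact hg3 _ _ _ _

theorem exists_enum : ∃ en : Om → ℕ → Om, ∀ β ξ, ξ < β → ∃ n, en β n = ξ := by
  have h : ∀ β : Om, ∃ e : ℕ → Om, ∀ ξ, ξ < β → ∃ n, e n = ξ := by
    intro β
    rcases (Iio β).eq_empty_or_nonempty with h0 | h0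
    · refine ⟨fun _ => β, fun ξ hξ => ?_⟩
      have : ξ ∈ Iio β := hξ
      rw [h0] at this
      exact absurd this (Set.notMem_empty ξ)
    · obtain ⟨e, he⟩ := (MP_d9d638_lc.Om.iio β).exists_eq_range h0
      refine ⟨e, fun ξ hξ => ?_⟩
      have : ξ ∈ Iio β := hξ
      rw [he] at this
      exact this
  choose en hen using h
  exact ⟨en, hen⟩

/-- A set closed under limits `≤ δ`, nonempty and not cofinal below `δ`, has a largest element
below `δ`. -/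
theorem exists_max {C : Set Om} {δ : Om} (h0 : ∃ γ ∈ C, γ < δ)
    (hcl : ∀ ε ≤ δ, IsLim ε → (∀ a < ε, ∃ b ∈ C, a < b ∧ b < ε) → ε ∈ C)
    (hnc : ¬ ∀ a < δ, ∃ b ∈ C, a < b ∧ b < δ) : ∃ γ ∈ C, γ < δ ∧ ∀ γ' ∈ C, γ' < δ → γ' ≤ γ := by
  push Not at hnc
  obtain ⟨a, ha, hab⟩ := hnc
  obtain ⟨γ₀, hγ₀, hγ₀'⟩ := h0
  obtain ⟨m, h1, h2⟩ := OmB_least (S := {u : Om | ∀ γ ∈ C, γ < δ → γ ≤ u}) ⟨a, fun γ hγ hγ' => by
    by_contra h
    exact absurd (hab γ hγ (not_le.mp h)) (not_le.mpr hγ')⟩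
  have hma : m ≤ a := h2 a fun γ hγ hγ' => by
    by_contra h
    exact absurd (hab γ hγ (not_le.mp h)) (not_le.mpr hγ')
  have hmδ : m < δ := hma.trans_lt ha
  by_cases hm : m ∈ C
  · exact ⟨m, hm, hmδ, h1⟩
  have h3 : ∀ γ ∈ C, γ < δ → γ < m := fun γ hγ hγ' =>
    lt_of_le_of_ne (h1 γ hγ hγ') fun h => hm (h ▸ hγ)
  have h4 : ∀ a' < m, ∃ b ∈ C, a' < b ∧ b < m := by
    intro a' ha'
    by_contra h
    push Not at h
    refine absurd (h2 a' fun γ hγ hγ' => ?_) (not_le.mpr ha')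
    by_contra h5
    exact absurd (h γ hγ (not_le.mp h5)) (not_le.mpr (h3 γ hγ hγ'))
  have h5 : IsLim m := by
    refine ⟨⟨γ₀, h3 γ₀ hγ₀ hγ₀'⟩, fun a' ha' => ?_⟩
    obtain ⟨b, -, h6, h7⟩ := h4 a' ha'
    exact ⟨b, h6, h7⟩
  exact absurd (hcl m hmδ.le h5 h4) hm

end Pool.Agent.KSt
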