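import Pool.Agent.Lib.MP_d9d638_lc.KS.Res
import Pool.Agent.Lib.MP_d9d638_lc.KS.OmB

/-!
# KS, module Amal: amalgamation

PROOF. `r = ⟨q.ht, q.e, p.D ∪ q.D, f, c⟩`, for `k ∈ q.D`: `f k = q.f k`, `c k = q.c k`; for
`k ∉ q.D` (so for `k ∈ p.D`, `k ∉ B`, since `p.D ∩ B ⊆ q.D`): `f k ξ = p.f k ξ` if `ξ < p.ht`,
`0` otherwise, `c k = p.c k ∩ Iic p.ht`. `q ≤ p.res B` says that `q` agrees with `p` on `B` and on
`e` up to `p.ht ≤ q.ht`. `r ≤ p`, `r ≤ q` are direct; `pre` for `k ∈ q.D`: `r ≤ q ≤ k.pre _`; for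
the others: `f k ξ = 0` or `ξ < p.ht` and `r ≤ p ≤ k.pre _`. Closure requirements for `k ∉ q.D`
occur only at `δ ≤ p.ht`, where everything is as in `p`. Last claim: `r.D ∩ B ⊆ q.D`.
-/

set_option autoImplicit false

namespace Pool.Agent.KSt

open Pool.Agent.Lib.SymModel Set

open Classical in
/-- the functions of the amalgamation -/
private noncomputable def Amal_f (p q : Raw) (k : Idx) (ξ : Om) : Ordinal.{0} :=
  if k ∈ q.D then q.f k ξ else if ξ < p.ht then p.f k ξ else 0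

open Classical in
/-- the closed sets of the amalgamation -/
private noncomputable def Amal_c (p q : Raw) (k : Idx) : Set Om :=
  if k ∈ q.D then q.c k else p.c k ∩ Iic p.ht

/-- the amalgamation -/
private noncomputable def Amal_r (p q : Raw) : Raw :=
  ⟨q.ht, q.e, p.D ∪ q.D, Amal_f p q, Amal_c p q⟩

private theorem Amal_fq {p q : Raw} {k : Idx} (hk : k ∈ q.D) : Amal_f p q k = q.f k :=
  funext fun _ => if_pos hk

private theorem Amal_fp {p q : Raw} {k : Idx} (hk : k ∉ q.D) {ξ : Om} (hξ : ξ < p.ht) :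
    Amal_f p q k ξ = p.f k ξ := (if_neg hk).trans (if_pos hξ)

private theorem Amal_f0 {p q : Raw} {k : Idx} (hk : k ∉ q.D) {ξ : Om} (hξ : ¬ ξ < p.ht) :
    Amal_f p q k ξ = 0 := (if_neg hk).trans (if_neg hξ)

private theorem Amal_cq {p q : Raw} {k : Idx} (hk : k ∈ q.D) : Amal_c p q k = q.c k := if_pos hk

private theorem Amal_cp {p q : Raw} {k : Idx} (hk : k ∉ q.D) :
    Amal_c p q k = p.c k ∩ Iic p.ht := if_neg hk

private theorem Amal_le_p {B : Set Idx} {p q : Raw} (hq : q.D ⊆ B) (h : q ≤ p.res B) :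
    Amal_r p q ≤ p := by
  refine ⟨h.ht, h.e, subset_union_left, ?_, ?_⟩
  · intro k hk ξ hξ
    by_cases hkq : k ∈ q.D
    · exact (congrFun (Amal_fq hkq) ξ).trans (h.f k ⟨hk, hq hkq⟩ ξ hξ)
    · exact Amal_fp hkq hξ
  · intro k hk δ hδ
    change δ ∈ Amal_c p q k ↔ _
    by_cases hkq : k ∈ q.D
    · rw [Amal_cq hkq]
      exact h.c k ⟨hk, hq hkq⟩ δ hδ
    · rw [Amal_cp hkq]
      exact ⟨fun h1 => h1.1, fun h1 => ⟨h1, hδ⟩⟩

private theorem Amal_le_q {p q : Raw} : Amal_r p q ≤ q := by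
  refine ⟨le_rfl, fun _ _ => rfl, subset_union_right, ?_, ?_⟩
  · intro k hk ξ _
    exact congrFun (Amal_fq hk) ξ
  · intro k hk δ _
    change δ ∈ Amal_c p q k ↔ _
    rw [Amal_cq hk]

private theorem Amal_cond {G : Glo} {B : Set Idx} {p q : Raw} (hp : IsCond G p)
    (hq' : IsCond G q) (hq : q.D ⊆ B) (h : q ≤ p.res B) : IsCond G (Amal_r p q) := by
  have hrp := Amal_le_p hq h
  have hrq : Amal_r p q ≤ q := Amal_le_q
  refine ⟨Or.inl hp.nil, hp.cnt.union hq'.cnt, hq'.supp, ?_, ?_, ?_, hq'.gcl, ?_⟩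
  · intro k hk ξ hξ
    change Amal_f p q k ξ = 0 ∨ (Amal_f p q k ξ < k.lam ∧ Amal_r p q ≤ k.pre (Amal_f p q k ξ))
    by_cases hkq : k ∈ q.D
    · rw [Amal_fq hkq]
      rcases hq'.pre k hkq ξ hξ with h1 | h1
      · exact Or.inl h1
      · exact Or.inr ⟨h1.1, le_trans hrq h1.2⟩
    · have hkp : k ∈ p.D := hk.resolve_right hkq
      by_cases hξp : ξ < p.ht
      · rw [Amal_fp hkq hξp]
        rcases hp.pre k hkp ξ hξp with h1 | h1
        · exact Or.inl h1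
        · exact Or.inr ⟨h1.1, le_trans hrp h1.2⟩
      · exact Or.inl (Amal_f0 hkq hξp)
  · intro k hk δ hδ hδ'
    change δ ∈ Amal_c p q k at hδ
    by_cases hkq : k ∈ q.D
    · rw [Amal_cq hkq] at hδ
      exact hq'.lim k hkq δ hδ hδ'
    · rw [Amal_cp hkq] at hδ
      exact hp.lim k (hk.resolve_right hkq) δ hδ.1 hδ.2
  · intro k hk δ hδ hl h1
    change ∀ a < δ, ∃ b ∈ Amal_c p q k, a < b ∧ b < δ at h1
    change δ ∈ Amal_c p q k
    by_cases hkq : k ∈ q.D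
    · rw [Amal_cq hkq] at h1 ⊢
      exact hq'.clo k hkq δ hδ hl h1
    · rw [Amal_cp hkq] at h1 ⊢
      have hδp : δ ≤ p.ht := by
        by_contra h2
        obtain ⟨b, hb, hb1, _⟩ := h1 p.ht (not_le.mp h2)
        exact absurd hb1 (not_lt.mpr hb.2)
      refine ⟨hp.clo k (hk.resolve_right hkq) δ hδp hl fun a ha => ?_, hδp⟩
      obtain ⟨b, hb, hb1, hb2⟩ := h1 a ha
      exact ⟨b, hb.1, hb1, hb2⟩
  · intro k hk δ hδ hδ'
    change δ ∈ Amal_c p q k at hδ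
    change ClosedAt δ (q.e δ) (k.op δ (tre δ q.e) (trf δ (Amal_f p q k)) (Amal_c p q k ∩ Iio δ))
    by_cases hkq : k ∈ q.D
    · rw [Amal_cq hkq] at hδ ⊢
      rw [Amal_fq hkq]
      exact hq'.kcl k hkq δ hδ hδ'
    · rw [Amal_cp hkq] at hδ ⊢
      have hδp : δ ≤ p.ht := hδ.2
      have e1 : q.e δ = p.e δ := h.e δ hδp
      have e2 : tre δ q.e = tre δ p.e := by
        unfold tre
        funext ε n
        split_ifs with h1
        · exact congrFun (h.e ε (h1.le.trans hδp)) n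
        · rfl
      have e3 : trf δ (Amal_f p q k) = trf δ (p.f k) := by
        unfold trf
        funext ξ
        split_ifs with h1
        · exact Amal_fp hkq (h1.trans_le hδp)
        · rfl
      have e4 : p.c k ∩ Iic p.ht ∩ Iio δ = p.c k ∩ Iio δ := by
        ext ξ
        exact ⟨fun h1 => ⟨h1.1.1, h1.2⟩, fun h1 => ⟨⟨h1.1, (le_of_lt h1.2).trans hδp⟩, h1.2⟩⟩
      rw [e1, e2, e3, e4]
      exact hp.kcl k (hk.resolve_right hkq) δ hδ.1 hδp

theorem amal {G : Glo} {B : Set Idx} (hB : Clsd B) (p q : Cnd G) (hq : q.1.D ⊆ B)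
    (h : q.1 ≤ p.1.res B) : ∃ r : Cnd G, r ≤ p ∧ r ≤ q ∧ r.1.ht = q.1.ht ∧
      r.1.D = p.1.D ∪ q.1.D ∧ q.1 ≤ r.1.res B := by
  refine ⟨⟨Amal_r p.1 q.1, Amal_cond p.2 q.2 hq h⟩, Amal_le_p hq h, Amal_le_q, rfl, rfl, ?_⟩
  have hD : ∀ k ∈ ((Amal_r p.1 q.1).res B).D, k ∈ q.1.D := by
    rintro k ⟨h1, h2⟩
    rcases h1 with h1 | h1
    · exact h.D ⟨h1, h2⟩
    · exact h1
  refine ⟨le_rfl, fun _ _ => rfl, hD, ?_, ?_⟩
  · intro k hk ξ _
    exact (congrFun (Amal_fq (hD k hk)) ξ).symm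
  · intro k hk δ _
    change _ ↔ δ ∈ Amal_c p.1 q.1 k
    rw [Amal_cq (hD k hk)]

end Pool.Agent.KSt
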