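import Pool.Agent.Lib.SymModel.RO
import Pool.Agent.Lib.MP_d9d638_lc.OmBasic

/-!
# KS, module Iface: the interface between the forcing and the Boolean-valued model

`P` is a preorder of conditions (`q ≤ p`: `q` is stronger), `RO P` its complete Boolean algebra
of regular sets; `p ∈ U` for `U : RO P` means that `p` forces the statement `U`.

A function from `ω₁` to `ω` in the extension is given by `v : Om → ℕ → RO P`, `v γ m` being the
value of `v(γ) = m`. An `ω₁`-tree in the extension is given by a *system* `π`: the levels are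
enumerated by `ω` (not necessarily injectively), and `π γ γ' m' m` (for `γ ≤ γ'`) is the value of:
the node of level `γ` below (or equal to) the node number `m'` of level `γ'` has least number `m`.
A cofinal branch is a name `b` of the function which assigns to `γ` the least number of the node
of the branch of level `γ`.
-/

set_option autoImplicit false

namespace Pool.Agent.KSt

open Pool.Agent.Lib.SymModel

/-- The well-ordered type with order type `ω₁`. -/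
abbrev Om : Type := MP_d9d638_lc.Om

variable {P : Type 1} [Preorder P]

/-- Below `q`, the family `v` is a name of a function from `ω₁` to `ω`. -/
structure IsNm (q : P) (v : Om → ℕ → RO P) : Prop where
  tot : ∀ γ, ∀ r ≤ q, ∃ r' ≤ r, ∃ m, r' ∈ v γ m
  uni : ∀ γ m m', ∀ r ≤ q, r ∈ v γ m → r ∈ v γ m' → m = m'

/-- Below `q`, `π` is a system: an `ω₁`-tree with enumerated levels. -/
structure IsSys (q : P) (π : Om → Om → ℕ → ℕ → RO P) : Prop where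
  tot : ∀ γ γ' m', γ ≤ γ' → ∀ r ≤ q, ∃ r' ≤ r, ∃ m, r' ∈ π γ γ' m' m
  uni : ∀ γ γ' m' m n, γ ≤ γ' → ∀ r ≤ q, r ∈ π γ γ' m' m → r ∈ π γ γ' m' n → m = n
  coh : ∀ γ γ' γ'' m'' m' m, γ ≤ γ' → γ' ≤ γ'' → ∀ r ≤ q, r ∈ π γ' γ'' m'' m' →
    r ∈ π γ γ' m' m → r ∈ π γ γ'' m'' m

/-- Below `q`, `b` is a cofinal branch of the system `π`. -/
structure IsBr (q : P) (π : Om → Om → ℕ → ℕ → RO P) (b : Om → ℕ → RO P) : Prop where
  nm : IsNm q b
  coh : ∀ γ γ' m' m, γ ≤ γ' → ∀ r ≤ q, r ∈ b γ' m' → r ∈ π γ γ' m' m → r ∈ b γ m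

/-- Below `q`, the system `π` has many branches: no family of names of branches indexed by a
small type contains all of them. (Such families have size at most `ω₁` in the extension.) -/
def Kur (q : P) (π : Om → Om → ℕ → ℕ → RO P) : Prop :=
  ∀ (I : Type) (b : I → Om → ℕ → RO P), ∀ r ≤ q, ∃ r' ≤ r, ∃ c, IsBr r' π c ∧
    ∀ i, ∀ q' ≤ r', IsBr q' π (b i) → ∃ q'' ≤ q', ∃ γ m, q'' ∈ c γ m ∧ q'' ∉ b i γ m

/-- Below `q`, `ρ` is a continuous map from the space of branches of `π` onto the space of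
subsets of `ω₁`: `ρ b ξ` is the value of `ξ ∈ F(b)`. -/
structure IsStr (q : P) (π : Om → Om → ℕ → ℕ → RO P) (ρ : (Om → ℕ → RO P) → Om → RO P) :
    Prop where
  ext : ∀ r ≤ q, ∀ b b', (∀ γ m, ∀ r' ≤ r, r' ∈ b γ m ↔ r' ∈ b' γ m) → ∀ ξ,
    r ∈ ρ b ξ → r ∈ ρ b' ξ
  cont : ∀ r ≤ q, ∀ b, IsBr r π b → ∀ α, ∃ r' ≤ r, ∃ γ, ∀ b', ∀ s ≤ r', IsBr s π b' →
    (∀ γ' < γ, ∀ m, s ∈ b γ' m → s ∈ b' γ' m) → ∀ ξ < α, (s ∈ ρ b ξ ↔ s ∈ ρ b' ξ)
  surj : ∀ r ≤ q, ∀ Y : Om → RO P, ∃ r' ≤ r, ∃ b, IsBr r' π b ∧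
    ∀ ξ, ∀ s ≤ r', (s ∈ ρ b ξ ↔ s ∈ Y ξ)

/-- What is needed of the preorder. -/
structure Facts (P : Type 1) [Preorder P] : Prop where
  ne : Nonempty P
  clo : ∀ s : ℕ → P, (∀ n, s (n + 1) ≤ s n) → ∃ q, ∀ n, q ≤ s n
  col : ∀ (I : Type) [Nonempty I], ∃ g : Om → I → RO P, (∀ η, ∀ p, ∃ p' ≤ p, ∃ i, p' ∈ g η i) ∧
    (∀ η i j, ∀ p, p ∈ g η i → p ∈ g η j → i = j) ∧ (∀ i, ∀ p, ∃ p' ≤ p, ∃ η, p' ∈ g η i)
  kt : ∃ π : Om → Om → ℕ → ℕ → RO P, (∀ q, IsSys q π) ∧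
    ∀ (r : P) (b : Om → Om → ℕ → RO P), ∃ r' ≤ r, ∃ c, IsBr r' π c ∧
      ∀ i, ∀ s ≤ r', IsBr s π (b i) → ∃ t ≤ s, ∃ γ m, t ∈ c γ m ∧ t ∉ b i γ m
  main : ∀ (q : P) (π : Om → Om → ℕ → ℕ → RO P), IsSys q π → Kur q π →
    ∀ r ≤ q, ∃ r' ≤ r, ∃ ρ, IsStr r' π ρ

end Pool.Agent.KSt
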