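import Pool.Agent.Lib.MP_d9d638_lc.KS.BName
import Pool.Agent.Lib.MP_d9d638_lc.KS.Amal

/-!
# KS, module BBr: the name is a branch of the system

PROOF. `nm`: `bnm_nm`. `coh`: let `r ≤ p`, `r ∈ b γ' m'`, `r ∈ π γ γ' m' m` (`b = bnm ..`); by
regularity (`RO.mem_of_dense`) it suffices to find for `r₀ ≤ r` some `r₂ ≤ r₀` in `b γ m`.
`bnm_ex`: `r₁ ≤ r₀` in `bset γ' m'`; `IsNm.tot` and `bnm_ex`: `r₂ ≤ r₁` in `bset γ m₂` for some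
`m₂`,
and `r₂ ∈ bset γ' m'` (`bset_down`). Let `c` be the condition `cond` of `r₂` at the larger of the
two `η`'s: `c ∈ cv γ' m'`, `c ∈ cv γ m₂` (`cond_mono`, `xp_valid`), `c ≤ q0`, `r₂ ≤ c.res B`
(`le_cond_res`), indices in `B'`. `res B r₂ ≤ q1` (`res_le`), so there is `t ≤ res B r₂` with
indices in `B` and `t ∈ π γ γ' m' m₃`. `amal` for `r₂` and `t`: `r₃ ≤ r₂`, `r₃ ≤ t`, so `m₃ = m`
(`hsys.uni`). `amal` for `c` and `t` (`t ≤ r₂.res B ≤ c.res B`, `le_res_res`): `r₄ ≤ c`, `r₄ ≤ t`;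
`hcv.coh`: `r₄ ∈ cv γ m`, and `r₄ ∈ cv γ m₂`, so `m₂ = m`.
-/

set_option autoImplicit false

namespace Pool.Agent.KSt

open Pool.Agent.Lib.SymModel Set

theorem bnm_br {B B' : Set Idx} {A : Prm G0} {k ky : Idx} {dec : Ordinal.{0} → Om × ℕ}
    {q p q1 : Cnd G0} {y : Om → ℕ → RO (Cnd G0)} (hS : Setup B B' A k) (hy : IsNm q y)
    (hY : IsY q y ky dec) (hk : k ∈ p.1.D) (hky : ky ∈ p.1.D) (hp : p ≤ A.q0) (hq : p ≤ q)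
    {π : Om → Om → ℕ → ℕ → RO (Cnd G0)} (hsys : IsSys q1 π) (hq1 : q1.1.D ⊆ B)
    (h01 : A.q0 ≤ q1) (hcv : IsBr A.q0 π A.cv)
    (hbase : ∀ γ γ' m', γ ≤ γ' → ∀ t : Cnd G0, t.1.D ⊆ B → t ≤ q1 →
      ∃ r ≤ t, r.1.D ⊆ B ∧ ∃ m, r ∈ π γ γ' m' m) :
    IsBr p π (bnm A k ky dec q) := by
  have hnm := bnm_nm hS hy hY hk hky hp hq
  refine ⟨hnm, ?_⟩
  intro γ γ' m' m hγ r hr hb' hπ
  refine RO.mem_of_dense _ fun r₀ hr₀ => ?_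
  obtain ⟨r₁, hr₁, h1⟩ := bnm_ex hy hY (RO.down _ hb' hr₀)
  obtain ⟨r₁', hr₁', m₂, h2⟩ := hnm.tot γ r₁ (hr₁.trans (hr₀.trans hr))
  obtain ⟨r₂, hr₂, h3⟩ := bnm_ex hy hY h2
  have h1' : r₂ ∈ bset A k ky dec q γ' m' := bset_down hy hY (hr₂.trans hr₁') h1
  have hr20 : r₂ ≤ r₀ := hr₂.trans (hr₁'.trans hr₁)
  obtain ⟨hk2, hky2, hq02, hq2, θ₁, hθ₁, hθ₁h, η₁, hη₁, hl₁, hc₁⟩ := h1'
  have h3' := h3
  obtain ⟨-, -, -, -, θ₂, hθ₂, hθ₂h, η₂, hη₂, hl₂, hc₂⟩ := h3'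
  have hv₁ := valid_mono hl₁.le (xp_valid hS hy hY hk2 hky2 hq2 hθ₁ hθ₁h)
  have hv₂ := valid_mono hl₂.le (xp_valid hS hy hY hk2 hky2 hq2 hθ₂ hθ₂h)
  obtain ⟨η, hη, hηh, hv, hcγ', hcγ⟩ : ∃ η ∈ A.isE (dat r₂.1 k), η < r₂.1.ht ∧
      Valid r₂.1.e (A.isE (dat r₂.1 k)) η (xp A k ky dec r₂.1) ∧
      A.cond (r₂.1.f k) (A.isE (dat r₂.1 k)) η (xp A k ky dec r₂.1) ∈ A.cv γ' m' ∧
      A.cond (r₂.1.f k) (A.isE (dat r₂.1 k)) η (xp A k ky dec r₂.1) ∈ A.cv γ m₂ := by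
    rcases lt_trichotomy η₁ η₂ with h | h | h
    · exact ⟨η₂, hη₂, hl₂.trans_le hθ₂h, hv₂,
        RO.down _ hc₁ (cond_mono (d := dat r₂.1 k) hη₂ hη₁ h hv₂), hc₂⟩
    · subst h
      exact ⟨η₁, hη₁, hl₁.trans_le hθ₁h, hv₁, hc₁, hc₂⟩
    · exact ⟨η₁, hη₁, hl₁.trans_le hθ₁h, hv₁, hc₁,
        RO.down _ hc₂ (cond_mono (d := dat r₂.1 k) hη₁ hη₂ h hv₁)⟩
  set c := A.cond (r₂.1.f k) (A.isE (dat r₂.1 k)) η (xp A k ky dec r₂.1) with hc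
  have hcq0 : c ≤ A.q0 := cond_le_q0 (d := dat r₂.1 k) hη hv
  have hrc : r₂.1 ≤ c.1.res B := le_cond_res hS hk2 hη hηh
  have hq12 : r₂ ≤ q1 := hq02.trans h01
  obtain ⟨t, ht, htB, m₃, hm₃⟩ := hbase γ γ' m' hγ (Cnd.res hS.hB r₂)
    (fun j hj => hj.2) (res_le hq1 hq12)
  obtain ⟨r₃, hr₃, hr₃t, -⟩ := amal hS.hB r₂ t htB ht
  have e3 : m₃ = m := hsys.uni γ γ' m' m₃ m hγ r₃ (hr₃.trans hq12) (RO.down _ hm₃ hr₃t)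
    (RO.down _ hπ (hr₃.trans (hr20.trans hr₀)))
  rw [e3] at hm₃
  obtain ⟨r₄, hr₄, hr₄t, -⟩ := amal hS.hB c t htB
    (le_trans (show t.1 ≤ r₂.1.res B from ht) (le_res_res hrc))
  have e4 : m₂ = m := hcv.nm.uni γ m₂ m r₄ (hr₄.trans hcq0) (RO.down _ hcγ hr₄)
    (hcv.coh γ γ' m' m hγ r₄ (hr₄.trans hcq0) (RO.down _ hcγ' hr₄) (RO.down _ hm₃ hr₄t))
  rw [e4] at h3
  exact ⟨r₂, hr20, mem_bnm h3⟩

end Pool.Agent.KSt
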