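import Pool.Agent.Lib.MP_d9d638_lc.KS.CofC

/-!
# KS, module BName: the name of the branch given by a name of a function

PROOF. `bset_down`: `p' ≤ p` has the same `θ`, `η` (`cp_ext`, `isE_ext`) and the same condition
`cond` at `η` (`cond_congr`, `xp_ext` at `η' ≤ η < θ`). `bnm_ex`: `mem_gen`, `bset_down`.
`bset_lev`: `γ < η₁ < η₂ < θ` in `E` (`LimE`), `Acc.lev` at `η₂` for `x = xp` (valid at `η₂` by
`xp_valid`, `valid_mono`) and `n = x η₂`. `bset_uni`: let `η₁ ≤ η₂`, both below their `θ`'s;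
`cond η₂ ≤ cond η₁` (`cond_mono`), `cond η₂ ≤ q0` (`cond_le_q0`), `Setup.nm.uni`. `bnm_nm`:
total: `cofC` above `γ` and `bset_lev`; unique: `bnm_ex` twice, `bset_down`, `bset_uni`.
-/

set_option autoImplicit false

namespace Pool.Agent.KSt

open Pool.Agent.Lib.SymModel Set

variable {B B' : Set Idx} {A : Prm G0} {k ky : Idx} {dec : Ordinal.{0} → Om × ℕ} {q p p' : Cnd G0}
  {y : Om → ℕ → RO (Cnd G0)} {θ γ : Om} {m m' : ℕ}

/-- The conditions which decide the value `m` of the branch at `γ`. -/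
noncomputable def bset (A : Prm G0) (k ky : Idx) (dec : Ordinal.{0} → Om × ℕ) (q : Cnd G0)
    (γ : Om) (m : ℕ) : Set (Cnd G0) :=
  {p | k ∈ p.1.D ∧ ky ∈ p.1.D ∧ p ≤ A.q0 ∧ p ≤ q ∧ ∃ θ ∈ cp A k ky dec p.1, θ ≤ p.1.ht ∧
    ∃ η ∈ A.isE (dat p.1 k), η < θ ∧
      A.cond (p.1.f k) (A.isE (dat p.1 k)) η (xp A k ky dec p.1) ∈ A.cv γ m}

/-- The name of the branch. -/
noncomputable def bnm (A : Prm G0) (k ky : Idx) (dec : Ordinal.{0} → Om × ℕ) (q : Cnd G0)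
    (γ : Om) (m : ℕ) : RO (Cnd G0) := gen (bset A k ky dec q γ m)

theorem bset_down (hy : IsNm q y) (hY : IsY q y ky dec) (hp : p' ≤ p)
    (h : p ∈ bset A k ky dec q γ m) : p' ∈ bset A k ky dec q γ m := by
  obtain ⟨hk, hky, h0, hq, θ, hθ, hθp, η, hη, hηθ, hc⟩ := h
  have hp' : Raw.Le p'.1 p.1 := hp
  have hηp : η < p.1.ht := hηθ.trans_le hθp
  have hx : ∀ ξ < θ, xp A k ky dec p'.1 ξ = xp A k ky dec p.1 ξ := fun ξ hξ =>
    xp_ext hy hY hk hky hp (hp.trans hq) hθ hθp hξ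
  have hcond : A.cond (p'.1.f k) (A.isE (dat p'.1 k)) η (xp A k ky dec p'.1) =
      A.cond (p.1.f k) (A.isE (dat p.1 k)) η (xp A k ky dec p.1) :=
    cond_congr A (hp'.f k hk η hηp) (fun ξ hξ => isE_ext A hp' hk ξ (hξ.trans hηp))
      (fun ξ _ hξ => hx ξ (hξ.trans hηθ)) (hx η hηθ)
  refine ⟨hp'.D hk, hp'.D hky, hp.trans h0, hp.trans hq, θ, (cp_ext hk hky hp hθp).2 hθ,
    hθp.trans hp'.ht, η, (isE_ext A hp' hk η hηp).2 hη, hηθ, ?_⟩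
  rw [hcond]
  exact hc

theorem mem_bnm (h : p ∈ bset A k ky dec q γ m) : p ∈ bnm A k ky dec q γ m :=
  mem_gen.2 fun q' hq' => ⟨q', le_rfl, p, h, hq'⟩

theorem bnm_ex (hy : IsNm q y) (hY : IsY q y ky dec) (h : p ∈ bnm A k ky dec q γ m) :
    ∃ p' ≤ p, p' ∈ bset A k ky dec q γ m := by
  obtain ⟨r, hr, t, ht, hrt⟩ := mem_gen.1 h p le_rfl
  exact ⟨r, hr, bset_down hy hY hrt ht⟩

theorem bset_lev (hS : Setup B B' A k) (hy : IsNm q y) (hY : IsY q y ky dec) (hk : k ∈ p.1.D)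
    (hky : ky ∈ p.1.D) (hp : p ≤ A.q0) (hq : p ≤ q) (hθ : θ ∈ cp A k ky dec p.1)
    (hθp : θ ≤ p.1.ht) (hL : LimE (A.isE (dat p.1 k)) θ) (hγ : γ < θ) :
    ∃ m, p ∈ bset A k ky dec q γ m := by
  obtain ⟨η₁, h1, h2, h3⟩ := hL.2 γ hγ
  obtain ⟨η₂, h4, h5, h6⟩ := hL.2 η₁ h3
  have hv : Valid p.1.e (A.isE (dat p.1 k)) η₂ (xp A k ky dec p.1) :=
    valid_mono h6.le (xp_valid hS hy hY hk hky hq hθ hθp)
  have hacc := (isE_iff A (dat p.1 k) η₂).1 h4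
  obtain ⟨m, hm⟩ := hacc.lev (xp A k ky dec p.1) hv (xp A k ky dec p.1 η₂) η₁ h1 h5 γ h2.le
  exact ⟨m, hk, hky, hp, hq, θ, hθ, hθp, η₂, h4, h6, hm⟩

theorem bset_uni (hS : Setup B B' A k) (hy : IsNm q y) (hY : IsY q y ky dec)
    (h : p ∈ bset A k ky dec q γ m) (h' : p ∈ bset A k ky dec q γ m') : m = m' := by
  obtain ⟨hk, hky, h0, hq, θ, hθ, hθp, η, hη, hηθ, hc⟩ := h
  obtain ⟨-, -, -, -, θ', hθ', hθp', η', hη', hηθ', hc'⟩ := h'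
  have key : ∀ {θ₂ η₁ η₂ : Om} {m₁ m₂ : ℕ}, θ₂ ∈ cp A k ky dec p.1 → θ₂ ≤ p.1.ht →
      η₁ ∈ A.isE (dat p.1 k) → η₂ ∈ A.isE (dat p.1 k) → η₁ ≤ η₂ → η₂ < θ₂ →
      A.cond (p.1.f k) (A.isE (dat p.1 k)) η₁ (xp A k ky dec p.1) ∈ A.cv γ m₁ →
      A.cond (p.1.f k) (A.isE (dat p.1 k)) η₂ (xp A k ky dec p.1) ∈ A.cv γ m₂ → m₁ = m₂ := by
    intro θ₂ η₁ η₂ m₁ m₂ g1 g2 g3 g4 g5 g6 g7 g8
    have hv : Valid p.1.e (A.isE (dat p.1 k)) η₂ (xp A k ky dec p.1) :=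
      valid_mono g6.le (xp_valid hS hy hY hk hky hq g1 g2)
    have hle : A.cond (p.1.f k) (A.isE (dat p.1 k)) η₂ (xp A k ky dec p.1) ≤
        A.cond (p.1.f k) (A.isE (dat p.1 k)) η₁ (xp A k ky dec p.1) := by
      rcases eq_or_lt_of_le g5 with g9 | g9
      · rw [g9]
      · exact cond_mono (d := dat p.1 k) g4 g3 g9 hv
    exact hS.nm.uni γ m₁ m₂ _ (cond_le_q0 (d := dat p.1 k) g4 hv)
      ((A.cv γ m₁).down g7 hle) g8
  rcases le_total η η' with hle | hle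
  · exact key hθ' hθp' hη hη' hle hηθ' hc hc'
  · exact (key hθ hθp hη' hη hle hηθ hc' hc).symm

theorem bnm_nm (hS : Setup B B' A k) (hy : IsNm q y) (hY : IsY q y ky dec) (hk : k ∈ p.1.D)
    (hky : ky ∈ p.1.D) (hp : p ≤ A.q0) (hq : p ≤ q) : IsNm p (bnm A k ky dec q) := by
  constructor
  · intro γ r hr
    have hr' : Raw.Le r.1 p.1 := hr
    obtain ⟨r', h1, θ, h2, h3, -, h4, h5⟩ := cofC hS hY (hr'.D hk) (hr'.D hky) (hr.trans hp)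
      (hr.trans hq) γ
    have h6 : Raw.Le r'.1 r.1 := h1
    obtain ⟨m, hm⟩ := bset_lev hS hy hY (h6.D (hr'.D hk)) (h6.D (hr'.D hky))
      ((h1.trans hr).trans hp) ((h1.trans hr).trans hq) h2 h4 h5 h3
    exact ⟨r', h1, m, mem_bnm hm⟩
  · intro γ m m' r hr h h'
    obtain ⟨r1, h1, h2⟩ := bnm_ex hy hY h
    obtain ⟨r2, h3, h4⟩ := bnm_ex hy hY ((bnm A k ky dec q γ m').down h' h1)
    exact bset_uni hS hy hY (bset_down hy hY h3 h2) h4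

end Pool.Agent.KSt
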