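import Pool.Agent.Lib.MP_d9d638_lc.KS.Uniq

/-!
# KS, module RhoL: the continuous map is locally determined

PROOF. `rho_ext`: `mem_gen`; if `r' ≤ r` is below `t` in the generating set of `b` with `δ, s`,
then `r'` itself is in the generating set of `b'` (`k ∈ r'.D`, `r' ∈ b γ (s γ)`, `fv_ext`).
`rho_det` (←): `p` is in the generating set. (→): `mem_gen` at `q = p`: `r ≤ p`, `r ≤ t`, `t` in
the
generating set with `δ₁, s₁` and `η₁ < δ₁`, `x₁` live, `Ann`; move everything to `r` (`live_ext`,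
`ann_ext`, `fv_ext`); `s` and `s₁` agree below `δ` and `δ₁` (`IsNm.uni` at `r ≤ p`).
If `Det` holds by a live `x` at `η < δ` with `x η` odd, `α ≤ base η`: if `η₁ < δ` then `x₁` is
live for `s` (`live_congr_s`) and `ann_indep`; if `δ ≤ η₁` then `x` is live for `s₁` and
`ann_indep`; in both cases `Ann x η ξ`. If no `x` is live at `η ∈ isE`, `η < δ`: `η ≤ η₁` would
make `x₁` live at `η` for `s₁` (`live_mono`), hence for `s`; so `η₁ < η < δ` and `x₁` is live at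
`η₁` for `s`.
-/

set_option autoImplicit false

namespace Pool.Agent.KSt

open Pool.Agent.Lib.SymModel Set

variable {G : Glo} {A : Prm G} {k : Idx} {p p' : Cnd G} {b b' : Om → ℕ → RO (Cnd G)}
  {s : Om → ℕ} {δ ξ α : Om}

/-- The image of the branch is determined up to `α`. -/
def Prm.Det (A : Prm G) (d : Dat) (δ : Om) (s : Om → ℕ) (α : Om) : Prop :=
  (∃ η < δ, ∃ x, A.Live d η x s ∧ x η % 2 = 1 ∧ α ≤ base (A.isE d) η) ∨
    ∃ η < δ, η ∈ A.isE d ∧ ¬ ∃ x, A.Live d η x s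

theorem det_ext (hp : p' ≤ p) (hk : k ∈ p.1.D) (hδ : δ ≤ p.1.ht) :
    A.Det (dat p'.1 k) δ s α ↔ A.Det (dat p.1 k) δ s α := by
  have hE : ∀ η < p.1.ht, (η ∈ A.isE (dat p'.1 k) ↔ η ∈ A.isE (dat p.1 k)) :=
    isE_ext A (show p'.1 ≤ p.1 from hp) hk
  have hb : ∀ η < δ, base (A.isE (dat p'.1 k)) η = base (A.isE (dat p.1 k)) η := fun η hη =>
    base_congr fun ξ hξ => hE ξ ((hξ.trans hη).trans_le hδ)
  have hL : ∀ η < δ, ∀ x, (A.Live (dat p'.1 k) η x s ↔ A.Live (dat p.1 k) η x s) :=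
    fun η hη x => live_ext hp hk (hη.trans_le hδ)
  constructor
  · rintro (⟨η, hη, x, h1, h2, h3⟩ | ⟨η, hη, h1, h2⟩)
    · refine Or.inl ⟨η, hη, x, (hL η hη x).mp h1, h2, ?_⟩
      rwa [hb η hη] at h3
    · refine Or.inr ⟨η, hη, (hE η (hη.trans_le hδ)).mp h1, ?_⟩
      rintro ⟨x, hx⟩
      exact h2 ⟨x, (hL η hη x).mpr hx⟩
  · rintro (⟨η, hη, x, h1, h2, h3⟩ | ⟨η, hη, h1, h2⟩)
    · refine Or.inl ⟨η, hη, x, (hL η hη x).mpr h1, h2, ?_⟩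
      rwa [hb η hη]
    · refine Or.inr ⟨η, hη, (hE η (hη.trans_le hδ)).mpr h1, ?_⟩
      rintro ⟨x, hx⟩
      exact h2 ⟨x, (hL η hη x).mp hx⟩

theorem rho_ext (h : ∀ γ m, ∀ r' ≤ p, (r' ∈ b γ m ↔ r' ∈ b' γ m)) (hρ : p ∈ A.rho k b ξ) :
    p ∈ A.rho k b' ξ := by
  refine mem_gen.mpr fun q hq => ?_
  obtain ⟨r, hr, t, ⟨hkt, δ, hδ, s, hs, hF⟩, hrt⟩ := mem_gen.mp hρ q hq
  have hrt' : Raw.Le r.1 t.1 := hrt
  refine ⟨r, hr, r, ⟨hrt'.D hkt, δ, hδ.trans hrt'.ht, s, fun γ hγ => ?_, ?_⟩, le_rfl⟩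
  · exact (h γ (s γ) r (hr.trans hq)).mp ((b γ (s γ)).down (hs γ hγ) hrt)
  · exact (fv_ext hrt hkt hδ).mpr hF

theorem rho_det (hk : k ∈ p.1.D) (hb : IsNm p b) (hδ : δ ≤ p.1.ht)
    (hs : ∀ γ < δ, p ∈ b γ (s γ)) (hd : A.Det (dat p.1 k) δ s α) (hξ : ξ < α) :
    p ∈ A.rho k b ξ ↔ A.Fv (dat p.1 k) δ s ξ := by
  constructor
  · intro hρ
    obtain ⟨r, hr, t, ⟨hkt, δ₁, hδ₁, s₁, hs₁, hF⟩, hrt⟩ := mem_gen.mp hρ p le_rfl
    refine (fv_ext hr hk hδ).mp ?_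
    have hd' := (det_ext (A := A) (s := s) (α := α) hr hk hδ).mpr hd
    obtain ⟨η₁, hη₁, x₁, hL₁, hA₁⟩ := (fv_ext hrt hkt hδ₁).mpr hF
    have hss : ∀ γ, γ < δ → γ < δ₁ → s γ = s₁ γ := fun γ h1 h2 =>
      hb.uni γ (s γ) (s₁ γ) r hr ((b γ (s γ)).down (hs γ h1) hr)
        ((b γ (s₁ γ)).down (hs₁ γ h2) hrt)
    rcases lt_or_ge η₁ δ with h1 | h1
    · refine ⟨η₁, h1, x₁, live_congr_s (fun γ hγ => ?_) hL₁, hA₁⟩
      exact (hss γ (hγ.trans_lt h1) (hγ.trans_lt hη₁)).symm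
    · rcases hd' with ⟨η, hη, x, hL, ho, hα⟩ | ⟨η, hη, hE, hno⟩
      · have hL' : A.Live (dat r.1 k) η x s₁ := live_congr_s (fun γ hγ =>
          hss γ (hγ.trans_lt hη) ((hγ.trans_lt (hη.trans_le h1)).trans hη₁)) hL
        exact ⟨η, hη, x, hL, (ann_indep hL' hL₁ ho hA₁.1 (hξ.trans_le hα) hA₁.2.1).mpr hA₁⟩
      · exfalso
        have hL' := live_mono hL₁ hE (hη.trans_le h1).le
        exact hno ⟨x₁, live_congr_s (fun γ hγ =>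
          (hss γ (hγ.trans_lt hη) ((hγ.trans_lt (hη.trans_le h1)).trans hη₁)).symm) hL'⟩
  · intro hF
    exact mem_gen.mpr fun q hq => ⟨q, le_rfl, p, ⟨hk, δ, hδ, s, hs, hF⟩, hq⟩

end Pool.Agent.KSt
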