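import Pool.Agent.Lib.MP_d9d638_lc.KS.BName
import Pool.Agent.Lib.MP_d9d638_lc.KS.RhoL

/-!
# KS, module BRho: the branch is mapped to the given function

PROOF. It is enough to find for every `t ≤ p` some `t' ≤ t` with
`t' ∈ rho b ξ ↔ t' ∈ y ξ 1` for all smaller conditions than `t'` (then both directions follow by
regularity `RO.mem_of_dense` and `RO.down`). `cofC` twice: `t' ≤ t` and `θ₁ < θ₂` in `cp t'`,
`ξ < θ₁`, `θ₂ ≤ t'.ht`, both limit points of `E = isE (dat t' k)` (`cp_ext`, `isE_ext`). Let `x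
= xp t'`.
Let `η` be the least element of `E` with `θ₁ ≤ η`; `η < θ₂`, `base E η = θ₁ ∈ cp t'`
(`base_of_lim`). For `γ < θ₂` choose `s γ` with `t' ∈ bset γ (s γ)` (`bset_lev`). Then
`x` is live at `η` for `s`: `valid` (`xp_valid`, `valid_mono`), `ok` (`xp_ok`), `agree`: if
`cond η' x ∈ cv γ m`, then `t' ∈ bset γ m`, so `m = s γ` (`bset_uni`). `x η` is odd (`xpath_odd`),
so `Det (dat t' k) (sc η) s θ₁` and `rho_det` (`δ = sc η ≤ θ₂ ≤ t'.ht`, `mem_bnm`, `bnm_nm`):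
`t' ∈ rho b ξ` iff `Fv (dat t' k) (sc η) s ξ` iff `Ann x η ξ` (`ann_indep`) iff the decoded
value at
`ξ` is `1` (`x_ann`, `xh_of`) iff `t' ∈ y ξ 1` (`y_val`: `θ₁ ∈ Cyd`, so `ξ` is decided below
`t'.ht`; `IsNm.uni`). The same argument applies to all conditions below `t'` (or repeat it:
prove the equivalence for every `t'` for which such `θ₁ < θ₂` exist; this property passes to
smaller conditions).
-/

set_option autoImplicit false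

namespace Pool.Agent.KSt

open Pool.Agent.Lib.SymModel Set

private theorem BRho_key {B B' : Set Idx} {A : Prm G0} {k ky : Idx}
    {dec : Ordinal.{0} → Om × ℕ} {q t : Cnd G0} {y : Om → ℕ → RO (Cnd G0)}
    (hS : Setup B B' A k) (hy : IsNm q y) (hY : IsY q y ky dec) (hk : k ∈ t.1.D)
    (hky : ky ∈ t.1.D) (hp : t ≤ A.q0) (hq : t ≤ q) (ξ θ₁ θ₂ : Om)
    (h1 : θ₁ ∈ cp A k ky dec t.1) (h2 : θ₂ ∈ cp A k ky dec t.1) (hξ : ξ < θ₁) (h12 : θ₁ < θ₂)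
    (h2t : θ₂ ≤ t.1.ht) (hL1 : LimE (A.isE (dat t.1 k)) θ₁)
    (hL2 : LimE (A.isE (dat t.1 k)) θ₂) :
    t ∈ A.rho k (bnm A k ky dec q) ξ ↔ t ∈ y ξ 1 := by
  classical
  have hne : ({η | η ∈ A.isE (dat t.1 k) ∧ θ₁ ≤ η} : Set Om).Nonempty := by
    obtain ⟨η, hη, h3, _⟩ := hL2.2 θ₁ h12
    exact ⟨η, hη, h3.le⟩
  obtain ⟨η, ⟨hηE, hη1⟩, hmin⟩ := MP_d9d638_lc.Om.least hne
  have hη2 : η < θ₂ := by
    obtain ⟨η', hη', h3, h4⟩ := hL2.2 θ₁ h12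
    exact (hmin η' ⟨hη', h3.le⟩).trans_lt h4
  have hbase : base (A.isE (dat t.1 k)) η = θ₁ :=
    base_of_lim hL1 hη1 fun η' hη' h3 => not_lt.2 (hmin η' ⟨hη', h3⟩)
  have hlev : ∀ γ, γ < θ₂ → ∃ m, t ∈ bset A k ky dec q γ m := fun γ hγ =>
    bset_lev hS hy hY hk hky hp hq h2 h2t hL2 hγ
  obtain ⟨s, hs⟩ : ∃ s : Om → ℕ, ∀ γ < θ₂, t ∈ bset A k ky dec q γ (s γ) := by
    refine ⟨fun γ => if h : γ < θ₂ then Classical.choose (hlev γ h) else 0, fun γ hγ => ?_⟩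
    simp only [dif_pos hγ]
    exact Classical.choose_spec (hlev γ hγ)
  have hlive : A.Live (dat t.1 k) η (xp A k ky dec t.1) s := by
    refine ⟨hηE, valid_mono hη2.le (xp_valid hS hy hY hk hky hq h2 h2t),
      xp_ok hS hy hY hk hky hq h2 h2t hηE hη2, ?_⟩
    intro η' hη' hle γ hγ m hm
    have hlt : η' < θ₂ := hle.trans_lt hη2
    have hb : t ∈ bset A k ky dec q γ m := ⟨hk, hky, hp, hq, θ₂, h2, h2t, η', hη', hlt, hm⟩
    exact bset_uni hS hy hY (hs γ (hγ.trans_lt hlt)) hb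
  have hbC : base (A.isE (dat t.1 k)) η ∈
      CC (A.isE (dat t.1 k)) (Cyd dec (t.1.f ky) (t.1.c ky)) := by
    rw [hbase]
    exact h1
  have hodd : xp A k ky dec t.1 η % 2 = 1 := xpath_odd hηE hbC
  have hdet : A.Det (dat t.1 k) θ₂ s θ₁ :=
    Or.inl ⟨η, hη2, _, hlive, hodd, hbase.ge⟩
  rw [rho_det hk (bnm_nm hS hy hY hk hky hp hq) h2t (fun γ hγ => mem_bnm (hs γ hγ)) hdet hξ]
  have hξb : ξ < base (A.isE (dat t.1 k)) η := by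
    rw [hbase]
    exact hξ
  have hFv : A.Fv (dat t.1 k) θ₂ s ξ ↔
      Ann (dat t.1 k).e (A.isE (dat t.1 k)) (xp A k ky dec t.1) η ξ := by
    constructor
    · rintro ⟨η', _, x', hl', ha'⟩
      exact (ann_indep hlive hl' hodd ha'.1 hξb ha'.2.1).mpr ha'
    · intro h
      exact ⟨η, hη2, _, hlive, h⟩
  rw [hFv]
  have hann : Ann (dat t.1 k).e (A.isE (dat t.1 k)) (xp A k ky dec t.1) η ξ ↔
      ydec dec (trf t.1.ht (t.1.f ky)) ξ = 1 :=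
    x_ann (xh_of hS hy hY hk hky hq) hηE (hη2.trans_le h2t) hbC hξb
  rw [hann]
  have hC : θ₁ ∈ Cyd dec (t.1.f ky) (t.1.c ky) := by
    rcases h1 with h | h
    · exact absurd (h ξ) (not_le.2 hξ)
    · exact h.2
  have hex : ∃ η < t.1.ht, t.1.f ky η ≠ 0 ∧ (dec (t.1.f ky η)).1 = ξ := by
    obtain ⟨η', h3, h4, h5⟩ := hC.2 ξ hξ
    exact ⟨η', h3.trans (h12.trans_le h2t), h4, h5⟩
  have hv := y_val hY hky hex
  constructor
  · intro h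
    rwa [h] at hv
  · intro h
    exact hy.uni ξ _ _ t hq hv h

private theorem BRho_dense {B B' : Set Idx} {A : Prm G0} {k ky : Idx}
    {dec : Ordinal.{0} → Om × ℕ} {q p : Cnd G0} {y : Om → ℕ → RO (Cnd G0)}
    (hS : Setup B B' A k) (hy : IsNm q y) (hY : IsY q y ky dec) (hk : k ∈ p.1.D)
    (hky : ky ∈ p.1.D) (hp : p ≤ A.q0) (hq : p ≤ q) (ξ : Om) :
    ∃ t ≤ p, (t ∈ A.rho k (bnm A k ky dec q) ξ ↔ t ∈ y ξ 1) := by
  obtain ⟨t₁, ht₁, θ₁, hc₁, hξ, _, hθ₁, hL₁⟩ := cofC hS hY hk hky hp hq ξ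
  have ht₁' : Raw.Le t₁.1 p.1 := ht₁
  obtain ⟨t₂, ht₂, θ₂, hc₂, h12, _, hθ₂, hL₂⟩ := cofC hS hY (ht₁'.D hk) (ht₁'.D hky)
    (ht₁.trans hp) (ht₁.trans hq) θ₁
  have ht₂' : Raw.Le t₂.1 t₁.1 := ht₂
  refine ⟨t₂, ht₂.trans ht₁, ?_⟩
  refine BRho_key hS hy hY (ht₂'.D (ht₁'.D hk)) (ht₂'.D (ht₁'.D hky))
    ((ht₂.trans ht₁).trans hp) ((ht₂.trans ht₁).trans hq) ξ θ₁ θ₂
    ((cp_ext (ht₁'.D hk) (ht₁'.D hky) ht₂ hθ₁).mpr hc₁) hc₂ hξ h12 hθ₂ ?_ hL₂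
  refine (limE_congr fun η hη => ?_).mpr hL₁
  exact isE_ext A (show t₂.1 ≤ t₁.1 from ht₂) (ht₁'.D hk) η (hη.trans_le hθ₁)

theorem bnm_rho {B B' : Set Idx} {A : Prm G0} {k ky : Idx} {dec : Ordinal.{0} → Om × ℕ}
    {q p : Cnd G0} {y : Om → ℕ → RO (Cnd G0)} (hS : Setup B B' A k) (hy : IsNm q y)
    (hY : IsY q y ky dec) (hk : k ∈ p.1.D) (hky : ky ∈ p.1.D) (hp : p ≤ A.q0) (hq : p ≤ q)
    (ξ : Om) : p ∈ A.rho k (bnm A k ky dec q) ξ ↔ p ∈ y ξ 1 := by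
  constructor
  · intro h
    refine RO.mem_of_dense _ fun r hr => ?_
    have hr' : Raw.Le r.1 p.1 := hr
    obtain ⟨t, ht, he⟩ := BRho_dense hS hy hY (hr'.D hk) (hr'.D hky) (hr.trans hp)
      (hr.trans hq) ξ
    exact ⟨t, ht, he.mp (RO.down _ h (ht.trans hr))⟩
  · intro h
    refine RO.mem_of_dense _ fun r hr => ?_
    have hr' : Raw.Le r.1 p.1 := hr
    obtain ⟨t, ht, he⟩ := BRho_dense hS hy hY (hr'.D hk) (hr'.D hky) (hr.trans hp)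
      (hr.trans hq) ξ
    exact ⟨t, ht, he.mpr (RO.down _ h (ht.trans hr))⟩

end Pool.Agent.KSt
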