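import Pool.Agent.Lib.MP_d9d638_lc.KS.Defs2
import Pool.Agent.Lib.MP_d9d638_lc.KS.OmB

/-!
# KS, module BaseL: the base of an acceptance time

PROOF. `WellFounded.min_mem`, `WellFounded.not_lt_min`. `base_of_lim`: `γ` is in the set, and no
smaller `δ` is, since `E` is cofinal in `γ ≤ η`.
-/

set_option autoImplicit false

namespace Pool.Agent.KSt

open Pool.Agent.Lib.SymModel Set

variable {E E' : Set Om} {η η' γ : Om}

private theorem BaseL_mem (E : Set Om) (η : Om) :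
    base E η ∈ {δ : Om | ∀ η' ∈ E, δ ≤ η' → ¬ η' < η} :=
  WellFounded.min_mem _ _ _

private theorem BaseL_le {δ : Om} (h : ∀ η' ∈ E, δ ≤ η' → ¬ η' < η) : base E η ≤ δ :=
  not_lt.1 (WellFounded.not_lt_min _ {δ : Om | ∀ η' ∈ E, δ ≤ η' → ¬ η' < η} h)

theorem base_le (E : Set Om) (η : Om) : base E η ≤ η :=
  BaseL_le fun _ _ h => not_lt.2 h

theorem not_mem_base (h1 : η' ∈ E) (h2 : base E η ≤ η') (h3 : η' < η) : False :=
  BaseL_mem E η η' h1 h2 h3

theorem exists_mem_base {δ : Om} (h : δ < base E η) : ∃ η' ∈ E, δ ≤ η' ∧ η' < base E η := by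
  by_contra hc
  push Not at hc
  refine absurd (BaseL_le (E := E) (η := η) fun η' h1 h2 h3 => ?_) (not_le.2 h)
  exact not_mem_base h1 (hc η' h1 h2) h3

theorem base_mono (h : η ≤ η') : base E η ≤ base E η' :=
  BaseL_le fun _ h1 h2 h3 => not_mem_base h1 h2 (h3.trans_le h)

theorem base_gt (h1 : η ∈ E) (h2 : η < η') : η < base E η' := by
  by_contra hc
  exact not_mem_base h1 (not_lt.1 hc) h2

theorem base_of_lim (hl : LimE E γ) (h : γ ≤ η) (hn : ∀ η' ∈ E, γ ≤ η' → ¬ η' < η) :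
    base E η = γ := by
  refine le_antisymm (BaseL_le hn) ?_
  by_contra hc
  obtain ⟨η', h1, h2, h3⟩ := hl.2 _ (not_le.1 hc)
  exact not_mem_base h1 h2.le (h3.trans_le h)

theorem base_congr (h : ∀ ξ < η, (ξ ∈ E ↔ ξ ∈ E')) : base E η = base E' η :=
  le_antisymm
    (BaseL_le fun ξ h1 h2 h3 => not_mem_base ((h ξ h3).1 h1) h2 h3)
    (BaseL_le fun ξ h1 h2 h3 => not_mem_base ((h ξ h3).2 h1) h2 h3)

/-- If the base is a limit, it is a limit point of `E`. -/
theorem limE_base (h : IsLim (base E η)) : LimE E (base E η) := by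
  refine ⟨h, fun a ha => ?_⟩
  obtain ⟨b, h1, h2⟩ := h.2 a ha
  obtain ⟨η', h3, h4, h5⟩ := exists_mem_base h2
  exact ⟨η', h3, h1.trans_le h4, h5⟩

end Pool.Agent.KSt
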