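import Pool.Agent.Lib.MP_d9d638_lc.KS.LimPath
import Pool.Agent.Lib.MP_d9d638_lc.KS.BaseL

/-!
# KS, module BelowR: a condition below the chain along a valid path

PROOF. Let `E = isE (dat p k)`, `δ₁ = base E δ ≤ δ`: no element of `E` is in `[δ₁, δ)`
(`not_mem_base`), and for every `a < δ₁` there is `η ∈ E`, `a ≤ η < δ₁` (`exists_mem_base`).
`om_cases δ₁`: if `δ₁` is minimal, `E` has no element below `δ`: take `A.q0`
(`p ≤ q0 ≤ q0.res B`). If `δ₁ = sc η`, then `η ∈ E` is the largest element of `E` below `δ`: take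
`A.cond _ E η x` (`cond_le_q0`, `cond_mono`, `le_cond_res`, `Setup.tbD`; `η < δ ≤ p.ht`). If `δ₁`
is a limit, `LimE E δ₁` (`limE_base`) and `lim_path` (with `valid_mono`) gives `r`; every
`η ∈ E`, `η < δ` is `< δ₁`.
-/

set_option autoImplicit false

namespace Pool.Agent.KSt

open Pool.Agent.Lib.SymModel Set

theorem exists_below {G : Glo} {B B' : Set Idx} {A : Prm G} {k : Idx} (hS : Setup B B' A k)
    {p : Cnd G} (hk : k ∈ p.1.D) (hp : p ≤ A.q0) {δ : Om} (hδ : δ ≤ p.1.ht) {x : Om → ℕ}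
    (hx : Valid p.1.e (A.isE (dat p.1 k)) δ x) :
    ∃ r : Cnd G, r.1.D ⊆ B' ∧ r ≤ A.q0 ∧
      (∀ η ∈ A.isE (dat p.1 k), η < δ → r ≤ A.cond (p.1.f k) (A.isE (dat p.1 k)) η x) ∧
      p.1 ≤ r.1.res B := by
  have hb : ∀ η ∈ A.isE (dat p.1 k), η < δ → η < base (A.isE (dat p.1 k)) δ :=
    fun η h1 h2 => base_gt h1 h2
  have hbδ : base (A.isE (dat p.1 k)) δ ≤ δ := base_le _ _
  rcases om_cases (base (A.isE (dat p.1 k)) δ) with h0 | ⟨η₀, h0⟩ | h0
  · refine ⟨A.q0, hS.q0D, le_rfl, fun η h1 h2 => ?_,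
      le_trans (show p.1 ≤ A.q0.1 from hp) (le_res _)⟩
    exact absurd (hb η h1 h2) (not_lt.2 (h0 η))
  · have hη₀ : η₀ < base (A.isE (dat p.1 k)) δ := by
      rw [h0]
      exact lt_sc η₀
    obtain ⟨η', h1, h2, h3⟩ := exists_mem_base hη₀
    have hlt : η' < δ := h3.trans_le hbδ
    have hmax : ∀ η ∈ A.isE (dat p.1 k), η < δ → η ≤ η' := fun η h4 h5 => by
      have h6 := hb η h4 h5
      rw [h0] at h6
      exact (lt_sc_iff.1 h6).trans h2
    have hv : Valid p.1.e (A.isE (dat p.1 k)) η' x := valid_mono hlt.le hx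
    refine ⟨A.cond (p.1.f k) (A.isE (dat p.1 k)) η' x, hS.tbD _ _ _,
      cond_le_q0 (d := dat p.1 k) h1 hv, fun η h4 h5 => ?_,
      le_cond_res hS hk h1 (hlt.trans_le hδ)⟩
    rcases (hmax η h4 h5).lt_or_eq with h6 | h6
    · exact cond_mono (d := dat p.1 k) h1 h4 h6 hv
    · rw [h6]
  · obtain ⟨r, hrD, hr, hpr⟩ := lim_path hS hk hp (hbδ.trans hδ) (limE_base h0)
      (valid_mono hbδ hx)
    exact ⟨r, hrD, hr _ (Or.inl rfl),
      fun η h1 h2 => hr _ (Or.inr ⟨η, h1, hb η h1 h2, rfl⟩), hpr⟩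

end Pool.Agent.KSt
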