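import Pool.Agent.Lib.MP_d9d638_lc.KS.Defs

/-!
# KS, module Res: restriction of conditions to a closed set of indices

PROOF. Direct: `e`, `f`, `c` are unchanged; `pre`: for `k ∈ p.D ∩ B` and `a = p.f k ξ < k.lam` the
indices of `k.pre a` are in `B` (`Clsd`), so `p ≤ k.pre a` gives `p.res B ≤ k.pre a`.
-/

set_option autoImplicit false

namespace Pool.Agent.KSt

open Pool.Agent.Lib.SymModel Set

variable {G : Glo} {B : Set Idx}

private theorem Res_le {p q : Raw} (hq : q.D ⊆ B) (h : p ≤ q) : p.res B ≤ q := by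
  have h' : Raw.Le p q := h
  exact ⟨h'.ht, h'.e, fun k hk => ⟨h'.D hk, hq hk⟩, h'.f, h'.c⟩

theorem res_isCond (hB : Clsd B) {p : Raw} (hp : IsCond G p) : IsCond G (p.res B) := by
  refine ⟨⟨hp.nil, hB.1⟩, hp.cnt.mono inter_subset_left, hp.supp, ?_, ?_, ?_, hp.gcl, ?_⟩
  · intro k hk ξ hξ
    rcases hp.pre k hk.1 ξ hξ with h | ⟨h1, h2⟩
    · exact Or.inl h
    · exact Or.inr ⟨h1, Res_le (hB.2 k hk.2 _ h1) h2⟩
  · exact fun k hk δ hδ hle => hp.lim k hk.1 δ hδ hle
  · exact fun k hk δ hle hl hc => hp.clo k hk.1 δ hle hl hc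
  · exact fun k hk δ hδ hle => hp.kcl k hk.1 δ hδ hle

/-- The restriction of a condition to a closed set of indices. -/
def Cnd.res (hB : Clsd B) (p : Cnd G) : Cnd G := ⟨p.1.res B, res_isCond hB p.2⟩

theorem le_res (p : Raw) : p ≤ p.res B :=
  show Raw.Le p (p.res B) from
    ⟨le_rfl, fun _ _ => rfl, inter_subset_left, fun _ _ _ _ => rfl, fun _ _ _ _ => Iff.rfl⟩

theorem res_mono {p q : Raw} (h : p ≤ q) : p.res B ≤ q.res B := by
  have h' : Raw.Le p q := h
  exact show Raw.Le (p.res B) (q.res B) from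
    ⟨h'.ht, h'.e, fun k hk => ⟨h'.D hk.1, hk.2⟩, fun k hk => h'.f k hk.1,
      fun k hk => h'.c k hk.1⟩

theorem res_le {p q : Raw} (hq : q.D ⊆ B) (h : p ≤ q) : p.res B ≤ q := Res_le hq h

theorem le_res_res {p q : Raw} (h : p ≤ q.res B) : p.res B ≤ q.res B :=
  Res_le inter_subset_right h

end Pool.Agent.KSt
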