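import Pool.Agent.Lib.MP_d9d638_lc.KS.MskL
import Pool.Agent.Lib.MP_d9d638_lc.KS.Res

/-!
# KS, module Chn: the chain of conditions along a path

PROOF. `cond_le_q0`, `cond_mono`: `isE_iff`, `Acc.leq`, `Acc.lec` with `n = x η` (`Prm.cond`).
`le_cond_res`: `Acc.ne`, `IsCond.pre`, `Setup.pre`. `chn_D`: `Setup.q0D`, `Setup.tbD`.
`chn_isChain`:
`valid_mono`. `chn_res`: `le_cond_res`, and `p ≤ q0 ≤ q0.res B` (`le_res`). `limE_mem_c`: for
`a < δ` take `η' < η` in `E` between `a` and `δ`; `Acc.sep` gives `ε ∈ c`, `a < ε < δ`; so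
`IsCond.clo` applies. `chn_congr`: `cond_congr`.
-/

set_option autoImplicit false

namespace Pool.Agent.KSt

open Pool.Agent.Lib.SymModel Set

variable {G : Glo} {B B' : Set Idx} {A : Prm G} {k : Idx} {p : Cnd G} {x x' : Om → ℕ}
  {η η' δ : Om} {d : Dat} {f f' : Om → Ordinal.{0}} {E E' : Set Om}

theorem cond_le_q0 (hη : η ∈ A.isE d) (hx : Valid d.e (A.isE d) η x) :
    A.cond d.f (A.isE d) η x ≤ A.q0 := by
  exact ((isE_iff A d η).mp hη).leq x hx (x η)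

theorem cond_mono (hη : η ∈ A.isE d) (hη' : η' ∈ A.isE d) (h : η' < η)
    (hx : Valid d.e (A.isE d) η x) :
    A.cond d.f (A.isE d) η x ≤ A.cond d.f (A.isE d) η' x := by
  exact ((isE_iff A d η).mp hη).lec x hx (x η) η' hη' h

theorem le_cond_res (hS : Setup B B' A k) (hk : k ∈ p.1.D) (hη : η ∈ A.isE (dat p.1 k))
    (hlt : η < p.1.ht) :
    p.1 ≤ (A.cond (p.1.f k) (A.isE (dat p.1 k)) η x).1.res B := by
  have hA := (isE_iff A (dat p.1 k) η).mp hη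
  have h0 : p.1.f k η ≠ 0 := hA.ne
  rcases p.2.pre k hk η hlt with h1 | ⟨h1, h2⟩
  · exact absurd h1 h0
  · exact h2.trans (hS.pre _ h0 h1 _ _)

theorem chn_D (hS : Setup B B' A k) : ∀ r ∈ A.chn f E δ x, r.D ⊆ B' := by
  rintro r (rfl | ⟨η, -, -, rfl⟩)
  · exact hS.q0D
  · exact hS.tbD _ _ _

theorem chn_isCond : ∀ r ∈ A.chn f E δ x, IsCond G r := by
  rintro r (rfl | ⟨η, -, -, rfl⟩)
  · exact A.q0.2
  · exact (A.cond f E η x).2

theorem chn_countable : (A.chn f E δ x).Countable := by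
  refine Set.Countable.insert _ ?_
  refine ((MP_d9d638_lc.Om.iio δ).image fun η => (A.cond f E η x).1).mono ?_
  rintro r ⟨η, -, hη, rfl⟩
  exact ⟨η, hη, rfl⟩

theorem chn_isChain (hx : Valid d.e (A.isE d) δ x) :
    IsChain (· ≤ ·) (A.chn d.f (A.isE d) δ x) := by
  have h1 : ∀ η ∈ A.isE d, η < δ → (A.cond d.f (A.isE d) η x).1 ≤ A.q0.1 := fun η hη hlt =>
    cond_le_q0 hη (valid_mono hlt.le hx)
  have h2 : ∀ η ∈ A.isE d, ∀ η' ∈ A.isE d, η < δ → η' < η →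
      (A.cond d.f (A.isE d) η x).1 ≤ (A.cond d.f (A.isE d) η' x).1 := fun η hη η' hη' hlt h =>
    cond_mono hη hη' h (valid_mono hlt.le hx)
  rintro r (rfl | ⟨η, hη, hlt, rfl⟩) r' (rfl | ⟨η', hη', hlt', rfl⟩) hne
  · exact absurd rfl hne
  · exact Or.inr (h1 η' hη' hlt')
  · exact Or.inl (h1 η hη hlt)
  · rcases lt_trichotomy η η' with h | h | h
    · exact Or.inr (h2 η' hη' η hη hlt' h)
    · rw [h] at hne
      exact absurd rfl hne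
    · exact Or.inl (h2 η hη η' hη' hlt h)

theorem chn_res (hS : Setup B B' A k) (hk : k ∈ p.1.D) (hp : p ≤ A.q0) (hδ : δ ≤ p.1.ht) :
    ∀ r ∈ A.chn (p.1.f k) (A.isE (dat p.1 k)) δ x, p.1 ≤ r.res B := by
  rintro r (rfl | ⟨η, hη, hlt, rfl⟩)
  · exact le_trans (show p.1 ≤ A.q0.1 from hp) (le_res _)
  · exact le_cond_res hS hk hη (hlt.trans_le hδ)

theorem limE_mem_c (hk : k ∈ p.1.D) (hδ : δ ≤ p.1.ht) (hL : LimE (A.isE (dat p.1 k)) δ) :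
    δ ∈ p.1.c k := by
  refine p.2.clo k hk δ hδ hL.1 fun a ha => ?_
  obtain ⟨η', hη', h1, h2⟩ := hL.2 a ha
  obtain ⟨η, hη, h3, h4⟩ := hL.2 η' h2
  obtain ⟨ε, hε, h5, h6⟩ := ((isE_iff A (dat p.1 k) η).mp hη).sep η' hη' h3
  exact ⟨ε, hε, h1.trans h5, h6.trans_lt h4⟩

theorem chn_congr (hf : ∀ ξ < δ, f ξ = f' ξ) (hE : ∀ ξ < δ, (ξ ∈ E ↔ ξ ∈ E'))
    (hx : ∀ ξ ∈ E, ξ < δ → x ξ = x' ξ) : A.chn f E δ x = A.chn f' E' δ x' := by
  have key : ∀ η ∈ E, η < δ → A.cond f E η x = A.cond f' E' η x' := fun η hη hlt =>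
    cond_congr A (hf η hlt) (fun ξ hξ => hE ξ (hξ.trans hlt))
      (fun ξ hξ hξη => hx ξ hξ (hξη.trans hlt)) (hx η hη hlt)
  unfold Prm.chn
  congr 1
  ext r
  constructor
  · rintro ⟨η, hη, hlt, rfl⟩
    exact ⟨η, (hE η hlt).mp hη, hlt, by rw [key η hη hlt]⟩
  · rintro ⟨η, hη, hlt, rfl⟩
    exact ⟨η, (hE η hlt).mpr hη, hlt, by rw [key η ((hE η hlt).mpr hη) hlt]⟩

end Pool.Agent.KSt
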