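import Pool.Agent.Lib.MP_d9d638_lc.KS.Defs

/-!
# KS, module CloE: countable closure

PROOF. `N 0 = {0} ∪ {tr δ z | z ∈ Z}`, `N (m+1) = N m ∪ {tr δ (F i l n) | l a list of elements of
N m}`: all countable (lists of elements of a countable set: `Set.Countable` of
`{l | ∀ z ∈ l, z ∈ N}`), the union `N` is countable and nonempty, `E` an enumeration
(`Set.Countable.exists_eq_range`). A list of elements of `N` is a list of elements of some `N m`.
All elements of `N` have support below `δ` (`tr`).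
-/

set_option autoImplicit false

namespace Pool.Agent.KSt

open Pool.Agent.Lib.SymModel Set

/-- One step of the closure. -/
private def CloE_step (δ : Om) (F : ℕ → List (Om → ℕ) → ℕ → Om → ℕ) (N : Set (Om → ℕ)) :
    Set (Om → ℕ) :=
  N ∪ ⋃ i : ℕ, ⋃ n : ℕ, (fun l => tr δ (F i l n)) '' {l : List (Om → ℕ) | ∀ y ∈ l, y ∈ N}

private theorem CloE_cnt (δ : Om) (F : ℕ → List (Om → ℕ) → ℕ → Om → ℕ) {N : Set (Om → ℕ)}
    (hN : N.Countable) : (CloE_step δ F N).Countable := by
  haveI := hN.to_subtype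
  have hL : {l : List (Om → ℕ) | ∀ y ∈ l, y ∈ N}.Countable := by
    rw [← Set.range_list_map_coe]
    exact countable_range _
  exact hN.union (countable_iUnion fun i => countable_iUnion fun n => hL.image _)

theorem exists_closed (δ : Om) (F : ℕ → List (Om → ℕ) → ℕ → Om → ℕ) (Z : Set (Om → ℕ))
    (hZ : Z.Countable) : ∃ E : ℕ → Om → ℕ, (∀ n ξ, δ ≤ ξ → E n ξ = 0) ∧
      (∀ z ∈ Z, tr δ z ∈ range E) ∧ ∀ i, ClosedAt δ E (F i) := by
  classical
  let N : ℕ → Set (Om → ℕ) := fun m =>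
    Nat.rec ((fun z => tr δ z) '' (insert 0 Z)) (fun _ S => CloE_step δ F S) m
  have hN0 : N 0 = (fun z => tr δ z) '' (insert 0 Z) := rfl
  have hNs : ∀ m, N (m + 1) = CloE_step δ F (N m) := fun m => rfl
  have hcnt : ∀ m, (N m).Countable := by
    intro m
    induction m with
    | zero => rw [hN0]; exact (hZ.insert 0).image _
    | succ m ih => rw [hNs]; exact CloE_cnt δ F ih
  have hmono : Monotone N := monotone_nat_of_le_succ fun m => by
    rw [hNs]; exact subset_union_left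
  have hUc : (⋃ m, N m).Countable := countable_iUnion hcnt
  have hUn : (⋃ m, N m).Nonempty :=
    ⟨tr δ 0, mem_iUnion.2 ⟨0, by rw [hN0]; exact ⟨0, mem_insert _ _, rfl⟩⟩⟩
  have htr : ∀ (z : Om → ℕ) ξ, δ ≤ ξ → tr δ z ξ = 0 := fun z ξ h => by
    simp [tr, not_lt.2 h]
  have hsupp : ∀ m, ∀ z ∈ N m, ∀ ξ, δ ≤ ξ → z ξ = 0 := by
    intro m
    induction m with
    | zero =>
      rw [hN0]
      rintro _ ⟨z, _, rfl⟩ ξ h
      exact htr z ξ h
    | succ m ih =>
      rw [hNs]
      rintro z (hz | hz) ξ h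
      · exact ih z hz ξ h
      · obtain ⟨i, hz⟩ := mem_iUnion.1 hz
        obtain ⟨n, l, _, rfl⟩ := mem_iUnion.1 hz
        exact htr _ ξ h
  obtain ⟨E, hE⟩ := hUc.exists_eq_range hUn
  have hmem : ∀ z, z ∈ range E ↔ ∃ m, z ∈ N m := fun z => by rw [← hE, mem_iUnion]
  refine ⟨E, fun n ξ h => ?_, fun z hz => ?_, fun i l hl n => ?_⟩
  · obtain ⟨m, hm⟩ := (hmem (E n)).1 ⟨n, rfl⟩
    exact hsupp m _ hm ξ h
  · exact (hmem _).2 ⟨0, by rw [hN0]; exact ⟨z, mem_insert_of_mem _ hz, rfl⟩⟩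
  · have hex : ∃ m, ∀ z ∈ l, z ∈ N m := by
      clear n
      induction l with
      | nil => exact ⟨0, fun z hz => by simp at hz⟩
      | cons a l ih =>
        obtain ⟨m, hm⟩ := ih fun z hz => hl z (List.mem_cons_of_mem _ hz)
        obtain ⟨k, hk⟩ := (hmem a).1 (hl a List.mem_cons_self)
        refine ⟨max m k, fun z hz => ?_⟩
        rcases List.mem_cons.1 hz with rfl | hz
        · exact hmono (le_max_right m k) hk
        · exact hmono (le_max_left m k) (hm z hz)
    obtain ⟨m, hm⟩ := hex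
    refine (hmem _).2 ⟨m + 1, ?_⟩
    rw [hNs]
    exact Or.inr (mem_iUnion.2 ⟨i, mem_iUnion.2 ⟨n, l, hm, rfl⟩⟩)

end Pool.Agent.KSt
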