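import Pool.Agent.Lib.MP_d9d638_lc.KS.Defs

/-!
# KS, module SmCl: small closed sets of indices

PROOF. First, by induction on `k : Idx` (structural), there is a small `B` with `Clsd B`, `k ∈ B`:
for `nil` take `{nil}` (`nil.lam = 0`); for `mk lam u D Φ` take
`insert k (insert nil (⋃ a ∈ Iio lam, ⋃ n, B (D a n)))`: small since `Iio lam` is small
(`Ordinal.small_Iio`), `ℕ` is small, and unions of small families of small sets are small
(`small_iUnion`, `small_biUnion`, `small_insert`-like); the indices of `k.pre a` are the `D a n`.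
For a small set `A` take the union over `k ∈ A` and add `nil` (a union of closed sets that contains
`nil` is closed).
-/

set_option autoImplicit false

namespace Pool.Agent.KSt

open Pool.Agent.Lib.SymModel Set

private theorem SmCl_one (k : Idx) : ∃ B : Set Idx, k ∈ B ∧ Small.{0} B ∧ Clsd B := by
  induction k with
  | nil =>
    refine ⟨{Idx.nil}, mem_singleton _, inferInstance, mem_singleton _, ?_⟩
    rintro k rfl a ha
    exact absurd ha (not_lt_of_ge zero_le)
  | mk lam u D Φ ih =>
    choose Bf h1 h2 h3 using ih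
    have hsm : ∀ a : Iio lam, Small.{0} (⋃ n : ℕ, Bf a.1 n) := fun a => by
      have := fun n => h2 a.1 n
      exact small_iUnion _
    have hsm2 : Small.{0} (⋃ a : Iio lam, ⋃ n : ℕ, Bf a.1 n) := small_iUnion _
    refine ⟨insert (Idx.mk lam u D Φ) (insert Idx.nil (⋃ a : Iio lam, ⋃ n : ℕ, Bf a.1 n)),
      mem_insert _ _, inferInstance, mem_insert_of_mem _ (mem_insert _ _), ?_⟩
    intro k hk a ha
    rcases mem_insert_iff.1 hk with rfl | hk
    · rintro j ⟨n, rfl⟩
      refine mem_insert_of_mem _ (mem_insert_of_mem _ ?_)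
      exact mem_iUnion.2 ⟨⟨a, ha⟩, mem_iUnion.2 ⟨n, h1 a n⟩⟩
    · rcases mem_insert_iff.1 hk with rfl | hk
      · exact absurd ha (not_lt_of_ge zero_le)
      · obtain ⟨b, hb⟩ := mem_iUnion.1 hk
        obtain ⟨n, hn⟩ := mem_iUnion.1 hb
        intro j hj
        refine mem_insert_of_mem _ (mem_insert_of_mem _ ?_)
        exact mem_iUnion.2 ⟨b, mem_iUnion.2 ⟨n, (h3 b.1 n).2 k hn a ha hj⟩⟩

theorem small_clsd (A : Set Idx) [Small.{0} A] : ∃ B : Set Idx, A ⊆ B ∧ Small.{0} B ∧ Clsd B := by
  choose Bf h1 h2 h3 using SmCl_one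
  have hsm : Small.{0} (⋃ k : A, Bf k.1) := by
    have := fun k => h2 k
    exact small_iUnion _
  refine ⟨insert Idx.nil (⋃ k : A, Bf k.1), ?_, inferInstance, mem_insert _ _, ?_⟩
  · intro k hk
    exact mem_insert_of_mem _ (mem_iUnion.2 ⟨⟨k, hk⟩, h1 k⟩)
  · intro k hk a ha
    rcases mem_insert_iff.1 hk with rfl | hk
    · exact absurd ha (not_lt_of_ge zero_le)
    · obtain ⟨b, hb⟩ := mem_iUnion.1 hk
      intro j hj
      exact mem_insert_of_mem _ (mem_iUnion.2 ⟨b, (h3 b.1).2 k hb a ha hj⟩)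

end Pool.Agent.KSt
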