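import Pool.Agent.Lib.MP_d9d638_lc.KS.SmCnd
import Pool.Agent.Lib.MP_d9d638_lc.KS.SmCl
import Pool.Agent.Lib.MP_d9d638_lc.KS.OmB

/-!
# KS, module CloseOff: reflecting dense sets to a small set of indices

PROOF. Choose `ext j q ≤ q` with `T j (ext j q)` for `q ≤ q0`. For a small `B` let `Γ B` be a small
closed set that contains `B` and the indices of `ext j (en i)` for all `j : J`, `i : I` with
`en i ≤ q0`, where `I, en` are given by `small_cnd` for `B` (small unions of countable sets;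
`small_clsd`). Define by well-founded recursion on `a : Om` small sets
`Bs a = A ∪ ⋃ b < a, Γ (Bs b)` (monotone in `a`) and `B = ⋃ a, Bs a` (`Om` is small), which is
closed: `B = ⋃ a, Γ (Bs a)`. If `q.D ⊆ B`, `q ≤ q0`, then `q.D` is countable, so `q.D ⊆ Bs a` for
some `a` (`Om.bdd`); `q` is equivalent to `en i` for `Bs a`, and `ext j (en i)` has its indices in
`Γ (Bs a) ⊆ B`; `ext j (en i) ≤ en i ≤ q`.
-/

set_option autoImplicit false

namespace Pool.Agent.KSt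

open Pool.Agent.Lib.SymModel Set

private theorem closeOff_step {G : Glo} (q0 : Cnd G) (J : Type) (T : J → Cnd G → Prop)
    (hd : ∀ j, ∀ q ≤ q0, ∃ r ≤ q, T j r) (B : Set Idx) [Small.{0} B] :
    ∃ C : Set Idx, B ⊆ C ∧ Small.{0} C ∧ Clsd C ∧
      ∀ j, ∀ q : Cnd G, q.1.D ⊆ B → q ≤ q0 → ∃ r ≤ q, r.1.D ⊆ C ∧ T j r := by
  obtain ⟨I, en, hen, hcov⟩ := small_cnd (G := G) B
  choose ext hext hT using hd
  let S : J × I → Set Idx := fun x => {k | ∃ h : en x.2 ≤ q0, k ∈ (ext x.1 (en x.2) h).1.D}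
  have hS : ∀ x, Small.{0} (S x) := by
    intro x
    by_cases h : en x.2 ≤ q0
    · have h1 : (S x).Countable := by
        refine ((ext x.1 (en x.2) h).2.cnt).mono ?_
        rintro k ⟨_, hk⟩
        exact hk
      have h2 : Countable (S x) := h1.to_subtype
      exact Countable.toSmall _
    · have h1 : S x = ∅ := by
        refine Set.eq_empty_of_forall_notMem ?_
        rintro k ⟨h', _⟩
        exact h h'
      rw [h1]
      exact Countable.toSmall _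
  have hU : Small.{0} (⋃ x, S x : Set Idx) := small_iUnion S
  have hBU : Small.{0} (B ∪ ⋃ x, S x : Set Idx) := small_union B _
  obtain ⟨C, hC1, hC2, hC3⟩ := small_clsd (B ∪ ⋃ x, S x)
  refine ⟨C, fun k hk => hC1 (Or.inl hk), hC2, hC3, ?_⟩
  intro j q hq hq0
  obtain ⟨i, hi1, hi2⟩ := hcov q hq
  have h0 : en i ≤ q0 := hi2.trans hq0
  refine ⟨ext j (en i) h0, (hext j (en i) h0).trans hi2, ?_, hT j (en i) h0⟩
  intro k hk
  exact hC1 (Or.inr (Set.mem_iUnion.2 ⟨(j, i), ⟨h0, hk⟩⟩))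

theorem close_off {G : Glo} (q0 : Cnd G) (J : Type) (T : J → Cnd G → Prop)
    (hd : ∀ j, ∀ q ≤ q0, ∃ r ≤ q, T j r) (A : Set Idx) [Small.{0} A] :
    ∃ B : Set Idx, A ⊆ B ∧ Small.{0} B ∧ Clsd B ∧
      ∀ j, ∀ q : Cnd G, q.1.D ⊆ B → q ≤ q0 → ∃ r ≤ q, r.1.D ⊆ B ∧ T j r := by
  have key : ∀ X : {B : Set Idx // Small.{0} B}, ∃ C : {B : Set Idx // Small.{0} B},
      X.1 ⊆ C.1 ∧ Clsd C.1 ∧
      ∀ j, ∀ q : Cnd G, q.1.D ⊆ X.1 → q ≤ q0 → ∃ r ≤ q, r.1.D ⊆ C.1 ∧ T j r := by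
    rintro ⟨X, hX⟩
    obtain ⟨C, h1, h2, h3, h4⟩ := closeOff_step q0 J T hd X
    exact ⟨⟨C, h2⟩, h1, h3, h4⟩
  choose Γ hΓ1 hΓ2 hΓ3 using key
  have hsm : ∀ (a : Om) (ih : ∀ b : Om, b < a → {B : Set Idx // Small.{0} B}),
      Small.{0} (A ∪ ⋃ b : {b : Om // b < a}, (Γ (ih b.1 b.2)).1 : Set Idx) := by
    intro a ih
    have h1 : ∀ b : {b : Om // b < a}, Small.{0} (Γ (ih b.1 b.2)).1 := fun b => (Γ (ih b.1 b.2)).2
    have h2 : Small.{0} (⋃ b : {b : Om // b < a}, (Γ (ih b.1 b.2)).1 : Set Idx) :=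
      small_iUnion _
    exact small_union A _
  let F : Om → {B : Set Idx // Small.{0} B} :=
    (wellFounded_lt (α := Om)).fix (fun a ih =>
      ⟨A ∪ ⋃ b : {b : Om // b < a}, (Γ (ih b.1 b.2)).1, hsm a ih⟩)
  have hF : ∀ a, (F a).1 = A ∪ ⋃ b : {b : Om // b < a}, (Γ (F b.1)).1 := by
    intro a
    exact congrArg Subtype.val ((wellFounded_lt (α := Om)).fix_eq (fun a ih =>
      (⟨A ∪ ⋃ b : {b : Om // b < a}, (Γ (ih b.1 b.2)).1, hsm a ih⟩ :
        {B : Set Idx // Small.{0} B})) a)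
  have hlt : ∀ {b a : Om}, b < a → (Γ (F b)).1 ⊆ (F a).1 := by
    intro b a hba k hk
    rw [hF a]
    exact Or.inr (Set.mem_iUnion.2 ⟨⟨b, hba⟩, hk⟩)
  have o : Om := Classical.arbitrary Om
  refine ⟨⋃ a, (Γ (F a)).1, ?_, ?_, ⟨?_, ?_⟩, ?_⟩
  · intro k hk
    refine Set.mem_iUnion.2 ⟨o, hΓ1 (F o) ?_⟩
    rw [hF o]
    exact Or.inl hk
  · have h1 : ∀ a : Om, Small.{0} (Γ (F a)).1 := fun a => (Γ (F a)).2
    exact small_iUnion _
  · exact Set.mem_iUnion.2 ⟨o, (hΓ2 (F o)).1⟩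
  · intro k hk x hx
    obtain ⟨a, ha⟩ := Set.mem_iUnion.1 hk
    exact ((hΓ2 (F a)).2 k ha x hx).trans (Set.subset_iUnion (fun a => (Γ (F a)).1) a)
  · intro j q hq hq0
    have hcnt : q.1.D.Countable := q.2.cnt
    have := hcnt.to_subtype
    have h1 : ∀ k : q.1.D, ∃ a : Om, k.1 ∈ (Γ (F a)).1 := fun k => Set.mem_iUnion.1 (hq k.2)
    choose f hf using h1
    obtain ⟨u, hu⟩ := MP_d9d638_lc.Om.bdd f
    have h2 : q.1.D ⊆ (F u).1 := fun k hk => hlt (hu ⟨k, hk⟩) (hf ⟨k, hk⟩)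
    obtain ⟨r, hr1, hr2, hr3⟩ := hΓ3 (F u) j q h2 hq0
    exact ⟨r, hr1, hr2.trans (Set.subset_iUnion (fun a => (Γ (F a)).1) u), hr3⟩

end Pool.Agent.KSt
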