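import Pool.Agent.Lib.MP_d9d638_lc.KS.SeqLim

/-!
# KS, module Closed: the forcing is countably closed

PROOF. If the heights are not bounded by one of them (`∀ N, ∃ n, (s N).1.ht < (s n).1.ht`), a
subsequence with strictly increasing heights has a lower bound by `seq_lim`, which is a lower bound
of all. Otherwise some `N` has the largest height `h`; for `n ≥ N` all heights are `h`, and with
`S = range fun n => (s n).1` the raw condition `⟨h, (s N).1.e, limD S, limf S, limc S⟩` is a
condition below all `s n`: everything at a place `≤ h` and an index `k` is decided by some `s n`,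
`n ≥ N`, with `k ∈ (s n).1.D` (`limf_eq`, `mem_limc`), where the requirements hold.
-/

set_option autoImplicit false

namespace Pool.Agent.KSt

open Pool.Agent.Lib.SymModel Set

theorem Closed_anti {G : Glo} {s : ℕ → Cnd G} (hs : ∀ n, s (n + 1) ≤ s n) {m n : ℕ}
    (h : m ≤ n) : s n ≤ s m := antitone_nat_of_succ_le hs h

theorem Closed_ht {G : Glo} {s : ℕ → Cnd G} (hs : ∀ n, s (n + 1) ≤ s n) {m n : ℕ}
    (h : m ≤ n) : (s m).1.ht ≤ (s n).1.ht :=
  (Cnd.le_def.mp (Closed_anti hs h)).ht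

theorem Closed_unbounded (G : Glo) (s : ℕ → Cnd G) (hs : ∀ n, s (n + 1) ≤ s n)
    (hu : ∀ N, ∃ n, (s N).1.ht < (s n).1.ht) : ∃ q : Cnd G, ∀ n, q ≤ s n := by
  choose nx hnx using hu
  have hlt : ∀ N, N < nx N := by
    intro N
    by_contra hcon
    exact absurd (Closed_ht hs (not_lt.mp hcon)) (not_le.mpr (hnx N))
  let g : ℕ → ℕ := fun m => nx^[m] 0
  have hg : ∀ m, g (m + 1) = nx (g m) := fun m => Function.iterate_succ_apply' nx m 0
  have hgm : ∀ m, m ≤ g m := by
    intro m
    induction m with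
    | zero => exact Nat.zero_le _
    | succ m ih =>
      rw [hg]
      have := hlt (g m)
      omega
  obtain ⟨q, hq, -⟩ := seq_lim (fun m => s (g m))
    (fun m => by
      change s (g (m + 1)) ≤ s (g m)
      rw [hg]
      exact Closed_anti hs (hlt (g m)).le)
    (fun m => by
      change (s (g m)).1.ht < (s (g (m + 1))).1.ht
      rw [hg]
      exact hnx (g m)) ∅ Set.countable_empty
  exact ⟨q, fun n => le_trans (hq n) (Closed_anti hs (hgm n))⟩

theorem Closed_chain {G : Glo} {s : ℕ → Cnd G} (hs : ∀ n, s (n + 1) ≤ s n) :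
    IsChain (· ≤ ·) (range fun n => (s n).1) := by
  rintro _ ⟨m, rfl⟩ _ ⟨n, rfl⟩ -
  rcases le_total m n with h | h
  · exact Or.inr (Cnd.le_def.mp (Closed_anti hs h))
  · exact Or.inl (Cnd.le_def.mp (Closed_anti hs h))

theorem Closed_bounded (G : Glo) (s : ℕ → Cnd G) (hs : ∀ n, s (n + 1) ≤ s n) (N : ℕ)
    (hN : ∀ n, (s n).1.ht ≤ (s N).1.ht) : ∃ q : Cnd G, ∀ n, q ≤ s n := by
  classical
  set S : Set Raw := range fun n => (s n).1 with hSdef
  have hS : IsChain (· ≤ ·) S := Closed_chain hs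
  have hmem : ∀ n, (s n).1 ∈ S := fun n => ⟨n, rfl⟩
  have hht : ∀ n, N ≤ n → (s n).1.ht = (s N).1.ht := fun n hn =>
    le_antisymm (hN n) (Closed_ht hs hn)
  have heq : ∀ n, ∀ δ ≤ (s n).1.ht, (s N).1.e δ = (s n).1.e δ := by
    intro n δ hδ
    rcases le_total n N with h | h
    · exact (Cnd.le_def.mp (Closed_anti hs h)).e δ hδ
    · exact ((Cnd.le_def.mp (Closed_anti hs h)).e δ (hδ.trans (hN n))).symm
  -- every index occurs at a late stage
  have hlate : ∀ k ∈ limD S, ∃ n, N ≤ n ∧ k ∈ (s n).1.D := by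
    rintro k ⟨_, ⟨m, rfl⟩, hk⟩
    refine ⟨max m N, le_max_right _ _, ?_⟩
    exact (Cnd.le_def.mp (Closed_anti hs (le_max_left m N))).D hk
  let q : Raw := ⟨(s N).1.ht, (s N).1.e, limD S, limf S, limc S⟩
  have hle : ∀ n, q ≤ (s n).1 := by
    intro n
    refine ⟨hN n, fun δ hδ => heq n δ hδ, fun k hk => ⟨(s n).1, hmem n, hk⟩,
      fun k hk ξ hξ => limf_eq hS (hmem n) hk hξ, fun k hk δ hδ => mem_limc hS (hmem n) hk hδ⟩
  have hcond : IsCond G q := by
    refine ⟨?_, ?_, ?_, ?_, ?_, ?_, ?_, ?_⟩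
    · exact ⟨(s N).1, hmem N, (s N).2.nil⟩
    · have h1 : limD S = ⋃ n, (s n).1.D := by
        ext k
        constructor
        · rintro ⟨_, ⟨m, rfl⟩, hk⟩
          exact mem_iUnion.mpr ⟨m, hk⟩
        · intro hk
          obtain ⟨m, hm⟩ := mem_iUnion.mp hk
          exact ⟨(s m).1, hmem m, hm⟩
      change (limD S).Countable
      rw [h1]
      exact countable_iUnion fun n => (s n).2.cnt
    · exact (s N).2.supp
    · intro k hk ξ hξ
      obtain ⟨n, hn, hkn⟩ := hlate k hk
      have hξn : ξ < (s n).1.ht := by rw [hht n hn]; exact hξ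
      have h1 : q.f k ξ = (s n).1.f k ξ := limf_eq hS (hmem n) hkn hξn
      rw [h1]
      rcases (s n).2.pre k hkn ξ hξn with h2 | ⟨h2, h3⟩
      · exact Or.inl h2
      · exact Or.inr ⟨h2, le_trans (hle n) h3⟩
    · intro k hk δ hδ hδh
      obtain ⟨n, hn, hkn⟩ := hlate k hk
      have hδn : δ ≤ (s n).1.ht := by rw [hht n hn]; exact hδh
      exact (s n).2.lim k hkn δ ((mem_limc hS (hmem n) hkn hδn).mp hδ) hδn
    · intro k hk δ hδh hlim hcof
      obtain ⟨n, hn, hkn⟩ := hlate k hk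
      have hδn : δ ≤ (s n).1.ht := by rw [hht n hn]; exact hδh
      refine (mem_limc hS (hmem n) hkn hδn).mpr ((s n).2.clo k hkn δ hδn hlim fun a ha => ?_)
      obtain ⟨b, hb, hab, hbδ⟩ := hcof a ha
      exact ⟨b, (mem_limc hS (hmem n) hkn (hbδ.le.trans hδn)).mp hb, hab, hbδ⟩
    · exact (s N).2.gcl
    · intro k hk δ hδ hδh
      obtain ⟨n, hn, hkn⟩ := hlate k hk
      have hδn : δ ≤ (s n).1.ht := by rw [hht n hn]; exact hδh
      have hδc := (mem_limc hS (hmem n) hkn hδn).mp hδ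
      have h1 := (s n).2.kcl k hkn δ hδc hδn
      have e1 : tre δ (s n).1.e = tre δ q.e := by
        funext ε m
        unfold tre
        by_cases h : ε < δ
        · rw [if_pos h, if_pos h]
          exact congrFun (heq n ε (h.le.trans hδn)).symm m
        · rw [if_neg h, if_neg h]
      have e2 : trf δ ((s n).1.f k) = trf δ (q.f k) := by
        funext ξ
        unfold trf
        by_cases h : ξ < δ
        · rw [if_pos h, if_pos h]
          exact (limf_eq hS (hmem n) hkn (lt_of_lt_of_le h hδn)).symm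
        · rw [if_neg h, if_neg h]
      have e3 : (s n).1.c k ∩ Iio δ = q.c k ∩ Iio δ := by
        ext ε
        constructor
        · rintro ⟨h, h'⟩
          exact ⟨(mem_limc hS (hmem n) hkn ((le_of_lt h').trans hδn)).mpr h, h'⟩
        · rintro ⟨h, h'⟩
          exact ⟨(mem_limc hS (hmem n) hkn ((le_of_lt h').trans hδn)).mp h, h'⟩
      have e4 : (s n).1.e δ = q.e δ := (heq n δ hδn).symm
      rw [e1, e2, e3, e4] at h1
      exact h1
  exact ⟨⟨q, hcond⟩, fun n => Cnd.le_def.mpr (hle n)⟩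

theorem cnd_closed (G : Glo) (s : ℕ → Cnd G) (hs : ∀ n, s (n + 1) ≤ s n) :
    ∃ q : Cnd G, ∀ n, q ≤ s n := by
  by_cases hu : ∀ N, ∃ n, (s N).1.ht < (s n).1.ht
  · exact Closed_unbounded G s hs hu
  · push Not at hu
    obtain ⟨N, hN⟩ := hu
    exact Closed_bounded G s hs N hN

end Pool.Agent.KSt
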