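import Pool.Agent.Lib.MP_d9d638_lc.KS.MskL

/-!
# KS, module CntMask: there are countably many valid paths

PROOF. Induction on `δ`, `om_cases`: minimal `δ`: `msk E δ x = 0`. `δ = sc δ₀`:
`msk E δ x` is determined by `msk E δ₀ x` and `x δ₀`, so the set is contained in the image of a
countable set (the set for `δ₀`, `valid_mono`, times `ℕ`). Limit `δ`: if `LimE E δ` then
`msk E δ x ∈ range (e δ)`; otherwise some `a < δ` has no element of `E` in `(a, δ)`, and
`msk E δ x = msk E (sc a) x`, `sc a < δ`.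
-/

set_option autoImplicit false

namespace Pool.Agent.KSt

open Pool.Agent.Lib.SymModel Set

private theorem CntMask_pos {E : Set Om} {δ ξ : Om} {x : Om → ℕ} (h : ξ ∈ E ∧ ξ < δ) :
    msk E δ x ξ = x ξ := by
  unfold msk
  exact if_pos h

private theorem CntMask_neg {E : Set Om} {δ ξ : Om} {x : Om → ℕ} (h : ¬ (ξ ∈ E ∧ ξ < δ)) :
    msk E δ x ξ = 0 := by
  unfold msk
  exact if_neg h

theorem countable_valid (e : Om → ℕ → Om → ℕ) (E : Set Om) (δ : Om) :
    {z | ∃ x, Valid e E δ x ∧ z = msk E δ x}.Countable := by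
  classical
  induction δ using WellFoundedLT.induction with
  | ind δ ih =>
    rcases om_cases δ with h | ⟨b, rfl⟩ | h
    · refine (countable_singleton (0 : Om → ℕ)).mono ?_
      rintro z ⟨x, -, rfl⟩
      rw [mem_singleton_iff]
      funext ξ
      exact CntMask_neg fun h1 => absurd (h ξ) (not_le.2 h1.2)
    · have h1 : ((fun p : (Om → ℕ) × ℕ => fun ξ => if ξ = b then p.2 else p.1 ξ) ''
          ({z | ∃ x, Valid e E b x ∧ z = msk E b x} ×ˢ univ)).Countable :=
        ((ih b (lt_sc b)).prod countable_univ).image _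
      refine h1.mono ?_
      rintro z ⟨x, hx, rfl⟩
      refine ⟨(msk E b x, msk E (sc b) x b), ⟨⟨x, fun δ' h' hL => hx δ' (h'.trans (lt_sc b).le) hL,
        rfl⟩, mem_univ _⟩, ?_⟩
      funext ξ
      show (if ξ = b then msk E (sc b) x b else msk E b x ξ) = msk E (sc b) x ξ
      by_cases h2 : ξ = b
      · rw [if_pos h2, h2]
      · rw [if_neg h2]
        by_cases h3 : ξ ∈ E ∧ ξ < b
        · rw [CntMask_pos h3, CntMask_pos ⟨h3.1, h3.2.trans (lt_sc b)⟩]
        · rw [CntMask_neg h3, CntMask_neg]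
          rintro ⟨h4, h5⟩
          exact h3 ⟨h4, lt_of_le_of_ne (lt_sc_iff.1 h5) h2⟩
    · by_cases hL : LimE E δ
      · refine (countable_range (e δ)).mono ?_
        rintro z ⟨x, hx, rfl⟩
        exact hx δ le_rfl hL
      · have h1 : ∃ a < δ, ∀ η ∈ E, a < η → ¬ η < δ := by
          by_contra hcon
          push Not at hcon
          exact hL ⟨h, fun a ha => by
            obtain ⟨η, h2, h3, h4⟩ := hcon a ha
            exact ⟨η, h2, h3, h4⟩⟩
        obtain ⟨a, ha, h2⟩ := h1
        obtain ⟨b, hab, hb⟩ := h.2 a ha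
        have h3 : sc a < δ := (sc_le hab).trans_lt hb
        refine (ih (sc a) h3).mono ?_
        rintro z ⟨x, hx, rfl⟩
        refine ⟨x, fun δ' h' hL' => hx δ' (h'.trans h3.le) hL', ?_⟩
        funext ξ
        by_cases h4 : ξ ∈ E ∧ ξ < δ
        · have h5 : ξ < sc a := lt_sc_iff.2 (not_lt.1 fun h6 => h2 ξ h4.1 h6 h4.2)
          rw [CntMask_pos h4, CntMask_pos ⟨h4.1, h5⟩]
        · rw [CntMask_neg h4, CntMask_neg]
          rintro ⟨h5, h6⟩
          exact h4 ⟨h5, h6.trans h3⟩

end Pool.Agent.KSt
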