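import Pool.Agent.Lib.MP_d9d638_lc.KS.Ext

/-!
# KS, module Fusion: meeting countably many dense sets below the limit height

PROOF. Build `p = p 0 ≥ p 1 ≥ ...` with strictly increasing heights: at step `n = Nat.pair i j`
let `ξ = en (p i).1.ht j` (`exists_enum`; `i ≤ n`), extend `p n` first to satisfy `T ξ`, then
`U n`, then increase the height (`succ_step` with `k = nil`, `a = 0`). `seq_lim` gives `q`; every
`ξ < q.ht` is below some `(p i).1.ht`, so `ξ = en (p i).1.ht j` for some `j` and `T ξ` was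
satisfied at step `Nat.pair i j`.
-/

set_option autoImplicit false

namespace Pool.Agent.KSt

open Pool.Agent.Lib.SymModel Set

theorem fusion {G : Glo} (p : Cnd G) (T : Om → Cnd G → Prop) (U : ℕ → Cnd G → Prop)
    (hTo : ∀ ξ q r, r ≤ q → T ξ q → T ξ r) (hT : ∀ ξ, ∀ q ≤ p, ∃ r ≤ q, T ξ r)
    (hUo : ∀ n q r, r ≤ q → U n q → U n r) (hU : ∀ n, ∀ q ≤ p, ∃ r ≤ q, U n r) :
    ∃ q : Cnd G, q ≤ p ∧ p.1.ht < q.1.ht ∧ IsLim q.1.ht ∧ (∀ k ∈ q.1.D, q.1.ht ∈ q.1.c k) ∧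
      (∀ ξ < q.1.ht, T ξ q) ∧ ∀ n, U n q := by
  obtain ⟨en, hen⟩ := exists_enum
  have step : ∀ (n : ℕ) (s : {c : Cnd G // c ≤ p} × (ℕ → ℕ → Om)), ∃ c : {c : Cnd G // c ≤ p},
      c.1 ≤ s.1.1 ∧ s.1.1.1.ht < c.1.1.ht ∧ T (s.2 (Nat.unpair n).1 (Nat.unpair n).2) c.1 ∧
        U n c.1 := by
    rintro n ⟨⟨c, hc⟩, g⟩
    obtain ⟨r1, h1, h2⟩ := hT (g (Nat.unpair n).1 (Nat.unpair n).2) c hc
    obtain ⟨r2, h3, h4⟩ := hU n r1 (h1.trans hc)
    obtain ⟨r3, h5, h6, -, -⟩ := succ_step r2 Idx.nil 0 (Or.inl rfl)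
    have h7 : r3 ≤ r1 := h5.trans h3
    refine ⟨⟨r3, h7.trans (h1.trans hc)⟩, h7.trans h1, ?_, hTo _ _ _ h7 h2, hUo _ _ _ h5 h4⟩
    have h8 : c.1.ht ≤ r2.1.ht := (Cnd.le_def.1 (h3.trans h1)).ht
    change c.1.ht < r3.1.ht
    rw [h6]
    exact h8.trans_lt (lt_sc _)
  choose F hF1 hF2 hF3 hF4 using step
  obtain ⟨st, hst0, hst⟩ : ∃ st : ℕ → {c : Cnd G // c ≤ p} × (ℕ → ℕ → Om),
      st 0 = (⟨p, le_rfl⟩, fun _ => en p.1.ht) ∧ ∀ n, st (n + 1) =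
        (F n (st n), fun i => if i ≤ n then (st n).2 i else en (F n (st n)).1.1.ht) :=
    ⟨fun n => Nat.rec (⟨p, le_rfl⟩, fun _ => en p.1.ht)
      (fun n s => (F n s, fun i => if i ≤ n then s.2 i else en (F n s).1.1.ht)) n,
      rfl, fun n => rfl⟩
  have hg : ∀ n, ∀ i ≤ n, (st n).2 i = en (st i).1.1.1.ht := by
    intro n
    induction n with
    | zero =>
      intro i hi
      obtain rfl : i = 0 := by omega
      rw [hst0]
    | succ n ih =>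
      intro i hi
      rcases Nat.lt_or_ge n i with h | h
      · obtain rfl : i = n + 1 := by omega
        rw [hst n]
        exact if_neg (by omega)
      · rw [hst n]
        exact (if_pos h).trans (ih i h)
  have hs1 : ∀ n, (st (n + 1)).1 = F n (st n) := fun n => by rw [hst n]
  obtain ⟨q, hq1, hq2, hq3, hq4, -, hq6, -⟩ := seq_lim (fun n => (st n).1.1)
    (fun n => by rw [hs1]; exact hF1 n _) (fun n => by rw [hs1]; exact hF2 n _) ∅ countable_empty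
  have h0 : (st 0).1.1 = p := by rw [hst0]
  refine ⟨q, ?_, ?_, hq2, hq6, fun ξ hξ => ?_, fun n => ?_⟩
  · exact h0 ▸ hq1 0
  · exact h0 ▸ hq3 0
  · obtain ⟨i, hi⟩ := hq4 ξ hξ
    obtain ⟨j, hj⟩ := hen _ _ hi
    have h1 := hF3 (Nat.pair i j) (st (Nat.pair i j))
    rw [Nat.unpair_pair, hg _ i (Nat.left_le_pair i j), hj, ← hs1] at h1
    exact hTo _ _ _ (hq1 _) h1
  · have h1 := hF4 n (st n)
    rw [← hs1] at h1
    exact hUo _ _ _ (hq1 _) h1

end Pool.Agent.KSt
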