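import Pool.Agent.Lib.MP_d9d638_lc.KS.XVal

/-!
# KS, module XOk: the path of a function is parsed correctly

PROOF. `x = xpath e E Cy y`, `C = CC E Cy`. For `η ∈ E`: `x η` is odd iff `base E η ∈ C`. If
`base E η ∈ C`, `η < θ`, then `e (base E η) (x η / 2) ξ = y ξ` for all `ξ < base E η`: if
`base E η` is minimal there is no `ξ`; otherwise `base E η ∈ Cy`, `tr (base E η) y` is in the
range
(`hy`), and `numF` finds it (`Nat.find_spec`). This gives `coh` (with `base_mono`) and `x_ann`.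
`inj`: let `η₁ < η₂` in `E` without announcements in `[η₁, η₂]`. No `γ ∈ C` has `η₁ < γ ≤ η₂`:
otherwise `LimE E γ`; the least `η₃ ∈ E` with `γ ≤ η₃` is `≤ η₂` and has `base E η₃ = γ`
(`base_of_lim`), so `x η₃` is odd. So `nxt C η₁ = nxt C η₂ =: γ'` (`nxt_spec`; `θ ∈ C` is above
both), `x η_i = 2 * aa γ' η_i`, and `aa γ'` is injective below `γ'` (`exists_cohInj`).
-/

set_option autoImplicit false

namespace Pool.Agent.KSt

open Pool.Agent.Lib.SymModel Set

variable {e : Om → ℕ → Om → ℕ} {E Cy : Set Om} {y : Om → ℕ} {θ η ξ : Om}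

private theorem XOk_pos (hη : η ∈ E) (hb : base E η ∈ CC E Cy) :
    xpath e E Cy y η = 2 * numF (e (base E η)) (tr (base E η) y) + 1 := by
  unfold xpath
  rw [if_pos hη, if_pos hb]

private theorem XOk_neg (hη : η ∈ E) (hb : base E η ∉ CC E Cy) :
    xpath e E Cy y η = 2 * aa (nxt (CC E Cy) η) η := by
  unfold xpath
  rw [if_pos hη, if_neg hb]

theorem xpath_odd (hη : η ∈ E) (hb : base E η ∈ CC E Cy) : xpath e E Cy y η % 2 = 1 := by
  rw [XOk_pos hη hb]
  omega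

private theorem XOk_base (hη : η ∈ E) (h : xpath e E Cy y η % 2 = 1) :
    base E η ∈ CC E Cy := by
  by_contra hb
  rw [XOk_neg hη hb] at h
  omega

private theorem XOk_val (h : XH e E Cy y θ) (hη : η ∈ E) (hlt : η < θ)
    (hb : base E η ∈ CC E Cy) (hξ : ξ < base E η) :
    e (base E η) (xpath e E Cy y η / 2) ξ = y ξ := by
  classical
  have h1 : xpath e E Cy y η / 2 = numF (e (base E η)) (tr (base E η) y) := by
    rw [XOk_pos hη hb]
    omega
  rw [h1]
  rcases hb with hb | hb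
  · exact absurd hξ (not_lt.2 (hb ξ))
  · have h2 : ∃ n, e (base E η) n = tr (base E η) y :=
      h.hy _ ((base_le E η).trans hlt.le) hb.2
    have h3 : e (base E η) (numF (e (base E η)) (tr (base E η) y)) = tr (base E η) y := by
      unfold numF
      rw [dif_pos h2]
      exact Nat.find_spec h2
    rw [h3]
    unfold tr
    exact if_pos hξ

theorem x_ok (h : XH e E Cy y θ) (hθ : θ ∈ CC E Cy) (hη : η ∈ E) (hlt : η < θ) :
    Ok e E (xpath e E Cy y) η := by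
  constructor
  · intro η₁ h1 η₂ h2 h12 h2η o1 o2 ξ hξ
    have b1 := XOk_base h1 o1
    have b2 := XOk_base h2 o2
    rw [XOk_val h h1 ((h12.trans_le h2η).trans hlt) b1 hξ,
      XOk_val h h2 (h2η.trans_lt hlt) b2 (hξ.trans_le (base_mono h12.le))]
  · intro η₁ h1 η₂ h2 h12 h2η hno heq
    have n1 : base E η₁ ∉ CC E Cy := fun hb => hno η₁ h1 le_rfl h12.le (xpath_odd h1 hb)
    have n2 : base E η₂ ∉ CC E Cy := fun hb => hno η₂ h2 h12.le le_rfl (xpath_odd h2 hb)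
    have hmid : ∀ γ ∈ CC E Cy, η₁ < γ → ¬ γ ≤ η₂ := by
      intro γ hγ h1γ hγ2
      have hlim : LimE E γ := by
        rcases hγ with hγ | hγ
        · exact absurd h1γ (not_lt.2 (hγ η₁))
        · exact hγ.1
      have hex : ({η' : Om | η' ∈ E ∧ γ ≤ η'}).Nonempty := ⟨η₂, h2, hγ2⟩
      obtain ⟨η₃, hη₃⟩ : ∃ η₃, η₃ = (wellFounded_lt : WellFounded ((· < ·) : Om → Om → Prop)).min
        {η' : Om | η' ∈ E ∧ γ ≤ η'} hex := ⟨_, rfl⟩
      have hm : η₃ ∈ {η' : Om | η' ∈ E ∧ γ ≤ η'} := by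
        rw [hη₃]
        exact WellFounded.min_mem _ _ _
      have hle : ∀ η' ∈ E, γ ≤ η' → ¬ η' < η₃ := by
        intro η' h3 h4
        rw [hη₃]
        exact WellFounded.not_lt_min _ {η' : Om | η' ∈ E ∧ γ ≤ η'} ⟨h3, h4⟩
      have hb : base E η₃ = γ := base_of_lim hlim hm.2 hle
      have hb' : base E η₃ ∈ CC E Cy := by
        rw [hb]
        exact hγ
      exact hno η₃ hm.1 (h1γ.le.trans hm.2) (not_lt.1 (hle η₂ h2 hγ2)) (xpath_odd hm.1 hb')
    have h2θ : η₂ < θ := h2η.trans_lt hlt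
    obtain ⟨c1, d1, m1⟩ := nxt_spec (C := CC E Cy) (η := η₁) ⟨θ, hθ, h12.trans h2θ⟩
    obtain ⟨c2, d2, m2⟩ := nxt_spec (C := CC E Cy) (η := η₂) ⟨θ, hθ, h2θ⟩
    have h3 : η₂ < nxt (CC E Cy) η₁ := not_le.1 (hmid _ c1 d1)
    have h4 : nxt (CC E Cy) η₁ = nxt (CC E Cy) η₂ :=
      le_antisymm (m1 _ c2 (h12.trans d2)) (m2 _ c1 h3)
    rw [XOk_neg h1 n1, XOk_neg h2 n2, ← h4] at heq
    have h5 : aa (nxt (CC E Cy) η₁) η₁ = aa (nxt (CC E Cy) η₁) η₂ := by omega
    exact h12.ne ((Classical.choose_spec exists_cohInj).1 _ _ _ d1 h3 h5)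

theorem x_ann (h : XH e E Cy y θ) (hη : η ∈ E) (hlt : η < θ) (hb : base E η ∈ CC E Cy)
    (hξ : ξ < base E η) : Ann e E (xpath e E Cy y) η ξ ↔ y ξ = 1 := by
  constructor
  · rintro ⟨-, -, h3⟩
    rw [XOk_val h hη hlt hb hξ] at h3
    exact h3
  · intro hy
    refine ⟨xpath_odd hη hb, hξ, ?_⟩
    rw [XOk_val h hη hlt hb hξ]
    exact hy

end Pool.Agent.KSt
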