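import Pool.Agent.Lib.MP_d9d638_lc.KS.Defs2

/-!
# KS, module YLem: the decoded function and its closed set

PROOF. `y_val`: unfold `ydec` (`trf p.ht f` is `f` below the height, `0` above, so the witnesses
are `< p.ht`), `IsY.val`; this needs no uniqueness. `y_uniq`: both values are forced by `p`
(`IsNm.uni`). `y_mem`, `c_mem`: `IsCond.kcl` for `k` at `δ ∈ p.c k` with the empty list and the
numbers `0`, `1`, `IsY.op`: `tr δ (ydec dec (trf δ (p.f k)))` and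
`tr δ (ind (Cyd dec (trf δ (p.f k)) (p.c k ∩ Iio δ)))` are in the range of `p.e δ`; for `ξ < δ`
some `η < δ` decides `ξ`, so `ydec` of `trf δ f` and of `trf p.ht f` agree at `ξ` (`y_uniq`-like:
both are forced by `p`). `c_clo`: `IsCond.clo` and the definition of `Cyd`. `cyd_ext`, `y_ext`:
the data of `p' ≤ p` agree with those of `p` below (up to) `p.ht`.
-/

set_option autoImplicit false

namespace Pool.Agent.KSt

open Pool.Agent.Lib.SymModel Set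

variable {G : Glo} {q : Cnd G} {y : Om → ℕ → RO (Cnd G)} {k : Idx} {dec : Ordinal.{0} → Om × ℕ}

private theorem YLem_trf_lt {δ η : Om} (f : Om → Ordinal.{0}) (h : η < δ) : trf δ f η = f η := by
  unfold trf
  rw [if_pos h]

private theorem YLem_trf_ne {δ η : Om} {f : Om → Ordinal.{0}} (h : trf δ f η ≠ 0) : η < δ := by
  by_contra h1
  apply h
  unfold trf
  rw [if_neg h1]

private theorem YLem_val (h : IsY q y k dec) {p : Cnd G} (hk : k ∈ p.1.D) {δ : Om}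
    (hδ : δ ≤ p.1.ht) {ξ : Om} (hξ : ∃ η < δ, p.1.f k η ≠ 0 ∧ (dec (p.1.f k η)).1 = ξ) :
    p ∈ y ξ (ydec dec (trf δ (p.1.f k)) ξ) := by
  have hex : ∃ m η, trf δ (p.1.f k) η ≠ 0 ∧ dec (trf δ (p.1.f k) η) = (ξ, m) := by
    obtain ⟨η, h1, h2, h3⟩ := hξ
    refine ⟨(dec (p.1.f k η)).2, η, ?_, ?_⟩
    · rw [YLem_trf_lt _ h1]
      exact h2
    · rw [YLem_trf_lt _ h1, ← h3]
  have hdec : ydec dec (trf δ (p.1.f k)) ξ = Classical.choose hex := by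
    unfold ydec
    rw [dif_pos hex]
  obtain ⟨η, h1, h2⟩ := Classical.choose_spec hex
  have h3 := YLem_trf_ne h1
  rw [YLem_trf_lt _ h3] at h1 h2
  have h4 := h.val p hk η (h3.trans_le hδ) h1
  rw [h2] at h4
  rw [hdec]
  exact h4

theorem y_val (h : IsY q y k dec) {p : Cnd G} (hk : k ∈ p.1.D) {ξ : Om}
    (hξ : ∃ η < p.1.ht, p.1.f k η ≠ 0 ∧ (dec (p.1.f k η)).1 = ξ) :
    p ∈ y ξ (ydec dec (trf p.1.ht (p.1.f k)) ξ) :=
  YLem_val h hk le_rfl hξ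

theorem y_mem (hy : IsNm q y) (h : IsY q y k dec) {p : Cnd G} (hp : p ≤ q) (hk : k ∈ p.1.D)
    {δ : Om} (hδ : δ ≤ p.1.ht) (hC : δ ∈ Cyd dec (p.1.f k) (p.1.c k)) :
    tr δ (ydec dec (trf p.1.ht (p.1.f k))) ∈ range (p.1.e δ) := by
  have h1 := p.2.kcl k hk δ hC.1 hδ [] (fun z hz => absurd hz List.not_mem_nil) 0
  rw [h.op] at h1
  have h2 : tr δ (ydec dec (trf p.1.ht (p.1.f k))) =
      tr δ (yop dec δ (tre δ p.1.e) (trf δ (p.1.f k)) (p.1.c k ∩ Iio δ) [] 0) := by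
    funext ξ
    unfold tr
    by_cases hξ : ξ < δ
    · rw [if_pos hξ, if_pos hξ]
      change _ = (if (0 : ℕ) = 0 then ydec dec (trf δ (p.1.f k))
        else ind (Cyd dec (trf δ (p.1.f k)) (p.1.c k ∩ Iio δ))) ξ
      rw [if_pos rfl]
      obtain ⟨η, h3, h4, h5⟩ := hC.2 ξ hξ
      exact hy.uni ξ _ _ p hp (YLem_val h hk le_rfl ⟨η, h3.trans_le hδ, h4, h5⟩)
        (YLem_val h hk hδ ⟨η, h3, h4, h5⟩)
    · rw [if_neg hξ, if_neg hξ]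
  rw [h2]
  exact h1

theorem c_mem (h : IsY q y k dec) {p : Cnd G} (hk : k ∈ p.1.D) {δ : Om} (hδ : δ ≤ p.1.ht)
    (hC : δ ∈ Cyd dec (p.1.f k) (p.1.c k)) :
    IsLim δ ∧ ind (Cyd dec (p.1.f k) (p.1.c k) ∩ Iio δ) ∈ range (p.1.e δ) := by
  refine ⟨p.2.lim k hk δ hC.1 hδ, ?_⟩
  have h1 := p.2.kcl k hk δ hC.1 hδ [] (fun z hz => absurd hz List.not_mem_nil) 1
  rw [h.op] at h1
  have h2 : ind (Cyd dec (p.1.f k) (p.1.c k) ∩ Iio δ) =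
      tr δ (yop dec δ (tre δ p.1.e) (trf δ (p.1.f k)) (p.1.c k ∩ Iio δ) [] 1) := by
    funext ξ
    change _ = tr δ (if (1 : ℕ) = 0 then ydec dec (trf δ (p.1.f k))
        else ind (Cyd dec (trf δ (p.1.f k)) (p.1.c k ∩ Iio δ))) ξ
    rw [if_neg one_ne_zero]
    unfold tr ind
    by_cases hξ : ξ < δ
    · rw [if_pos hξ]
      have h3 : ξ ∈ Cyd dec (p.1.f k) (p.1.c k) ∩ Iio δ ↔
          ξ ∈ Cyd dec (trf δ (p.1.f k)) (p.1.c k ∩ Iio δ) := by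
        constructor
        · rintro ⟨⟨h4, h5⟩, -⟩
          refine ⟨⟨h4, hξ⟩, fun ζ hζ => ?_⟩
          obtain ⟨η, h6, h7, h8⟩ := h5 ζ hζ
          refine ⟨η, h6, ?_, ?_⟩
          · rw [YLem_trf_lt _ (h6.trans hξ)]
            exact h7
          · rw [YLem_trf_lt _ (h6.trans hξ)]
            exact h8
        · rintro ⟨⟨h4, -⟩, h5⟩
          refine ⟨⟨h4, fun ζ hζ => ?_⟩, hξ⟩
          obtain ⟨η, h6, h7, h8⟩ := h5 ζ hζ
          rw [YLem_trf_lt _ (h6.trans hξ)] at h7 h8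
          exact ⟨η, h6, h7, h8⟩
      by_cases h9 : ξ ∈ Cyd dec (p.1.f k) (p.1.c k) ∩ Iio δ
      · rw [if_pos h9, if_pos (h3.1 h9)]
      · rw [if_neg h9, if_neg (fun h10 => h9 (h3.2 h10))]
    · rw [if_neg hξ, if_neg (fun h3 => hξ h3.2)]
  rw [h2]
  exact h1

theorem c_clo {p : Cnd G} (hk : k ∈ p.1.D) {δ : Om} (hδ : δ ≤ p.1.ht) (hl : IsLim δ)
    (hc : ∀ a < δ, ∃ b ∈ Cyd dec (p.1.f k) (p.1.c k), a < b ∧ b < δ) :
    δ ∈ Cyd dec (p.1.f k) (p.1.c k) := by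
  refine ⟨?_, ?_⟩
  · apply p.2.clo k hk δ hδ hl
    intro a ha
    obtain ⟨b, hb, h1⟩ := hc a ha
    exact ⟨b, hb.1, h1⟩
  · intro ξ hξ
    obtain ⟨b, hb, h1, h2⟩ := hc ξ hξ
    obtain ⟨η, h3, h4⟩ := hb.2 ξ h1
    exact ⟨η, h3.trans h2, h4⟩

theorem cyd_ext {p p' : Cnd G} (hp : p' ≤ p) (hk : k ∈ p.1.D) {δ : Om} (hδ : δ ≤ p.1.ht) :
    δ ∈ Cyd dec (p'.1.f k) (p'.1.c k) ↔ δ ∈ Cyd dec (p.1.f k) (p.1.c k) := by
  have hle : Raw.Le p'.1 p.1 := hp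
  have hf : ∀ η < δ, p'.1.f k η = p.1.f k η := fun η hη => hle.f k hk η (hη.trans_le hδ)
  constructor
  · rintro ⟨h1, h2⟩
    refine ⟨(hle.c k hk δ hδ).1 h1, fun ξ hξ => ?_⟩
    obtain ⟨η, h3, h4, h5⟩ := h2 ξ hξ
    rw [hf η h3] at h4 h5
    exact ⟨η, h3, h4, h5⟩
  · rintro ⟨h1, h2⟩
    refine ⟨(hle.c k hk δ hδ).2 h1, fun ξ hξ => ?_⟩
    obtain ⟨η, h3, h4, h5⟩ := h2 ξ hξ
    rw [← hf η h3] at h4 h5
    exact ⟨η, h3, h4, h5⟩

theorem y_ext (hy : IsNm q y) (h : IsY q y k dec) {p p' : Cnd G} (hp : p' ≤ p) (hq : p' ≤ q)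
    (hk : k ∈ p.1.D) {ξ : Om} (hξ : ∃ η < p.1.ht, p.1.f k η ≠ 0 ∧ (dec (p.1.f k η)).1 = ξ) :
    ydec dec (trf p'.1.ht (p'.1.f k)) ξ = ydec dec (trf p.1.ht (p.1.f k)) ξ := by
  have hle : Raw.Le p'.1 p.1 := hp
  have h1 : p' ∈ y ξ (ydec dec (trf p.1.ht (p.1.f k)) ξ) := (y ξ _).down (y_val h hk hξ) hp
  obtain ⟨η, h2, h3, h4⟩ := hξ
  have h5 : p' ∈ y ξ (ydec dec (trf p'.1.ht (p'.1.f k)) ξ) := by
    apply y_val h (hle.D hk)
    refine ⟨η, h2.trans_le hle.ht, ?_, ?_⟩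
    · rw [hle.f k hk η h2]
      exact h3
    · rw [hle.f k hk η h2]
      exact h4
  exact hy.uni ξ _ _ p' hq h5 h1

end Pool.Agent.KSt
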