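import Pool.Agent.Lib.MP_d9d638_lc.KS.Chn
import Pool.Agent.Lib.MP_d9d638_lc.KS.YLem
import Pool.Agent.Lib.MP_d9d638_lc.KS.XOk

/-!
# KS, module XpP: the path of a name of a function, computed from a condition

PROOF. `xh_of`: `supp`, `gcl`: `IsCond`. `hE`: `limE_mem_c`, `IsCond.kcl` for `k` with the empty
list (`Setup.op`, `Prm.op0`), `isE_tr`. `hy`, `hC`, `clo`: `y_mem`, `c_mem`, `c_clo`. `xp_valid`,
`xp_ok`: `x_valid`, `x_ok` with `XH` up to `θ` (monotone in `θ`). `cp_ext`: `isE_ext`, `cyd_ext`,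
`cc_congr`. `xp_ext`: `xpath_congr`; for `ξ < θ`, `θ ∈ Cyd` (or `θ` minimal), the value at `ξ` is
decided below `θ ≤ p.ht`, so `y_ext`.
-/

set_option autoImplicit false

namespace Pool.Agent.KSt

open Pool.Agent.Lib.SymModel Set

variable {B B' : Set Idx} {A : Prm G0} {k ky : Idx} {dec : Ordinal.{0} → Om × ℕ} {q p p' : Cnd G0}
  {y : Om → ℕ → RO (Cnd G0)} {θ η ξ : Om}

/-- The path computed from the condition `p`. -/
noncomputable def xp (A : Prm G0) (k ky : Idx) (dec : Ordinal.{0} → Om × ℕ) (p : Raw) : Om → ℕ :=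
  xpath p.e (A.isE (dat p k)) (Cyd dec (p.f ky) (p.c ky)) (ydec dec (trf p.ht (p.f ky)))

/-- The announcing stages computed from the condition `p`. -/
def cp (A : Prm G0) (k ky : Idx) (dec : Ordinal.{0} → Om × ℕ) (p : Raw) : Set Om :=
  CC (A.isE (dat p k)) (Cyd dec (p.f ky) (p.c ky))

theorem xh_of (hS : Setup B B' A k) (hy : IsNm q y) (hY : IsY q y ky dec) (hk : k ∈ p.1.D)
    (hky : ky ∈ p.1.D) (hq : p ≤ q) : XH p.1.e (A.isE (dat p.1 k))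
      (Cyd dec (p.1.f ky) (p.1.c ky)) (ydec dec (trf p.1.ht (p.1.f ky))) p.1.ht := by
  refine ⟨p.2.supp, p.2.gcl, fun δ hδ hL => ?_, fun δ hδ hC => y_mem hy hY hq hky hδ hC,
    fun δ hδ hC => c_mem hY hky hδ hC, fun δ hδ hl hc => c_clo hky hδ hl hc⟩
  have h1 := p.2.kcl k hk δ (limE_mem_c hk hδ hL) hδ [] (fun z hz => absurd hz List.not_mem_nil) 0
  rw [hS.op] at h1
  have h2 : ind (A.isE (dat p.1 k) ∩ Iio δ) =
      tr δ (A.op0 δ (tre δ p.1.e) (trf δ (p.1.f k)) (p.1.c k ∩ Iio δ) [] 0) := by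
    funext ξ
    change _ = tr δ (ind (A.isE ⟨tre δ p.1.e, trf δ (p.1.f k), p.1.c k ∩ Iio δ⟩ ∩ Iio δ)) ξ
    unfold tr ind
    by_cases hξ : ξ < δ
    · rw [if_pos hξ]
      by_cases h3 : ξ ∈ A.isE (dat p.1 k)
      · rw [if_pos ⟨h3, hξ⟩, if_pos ⟨(isE_tr A p.1 k δ ξ hξ).2 h3, hξ⟩]
      · rw [if_neg (fun h4 => h3 h4.1), if_neg (fun h4 => h3 ((isE_tr A p.1 k δ ξ hξ).1 h4.1))]
    · rw [if_neg hξ, if_neg (fun h3 => hξ h3.2)]
  rw [h2]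
  exact h1

theorem xh_mono {e : Om → ℕ → Om → ℕ} {E Cy : Set Om} {z : Om → ℕ} {θ' : Om}
    (h : XH e E Cy z θ') (hθ : θ ≤ θ') : XH e E Cy z θ := by
  exact ⟨fun δ hδ => h.supp δ (hδ.trans hθ), fun δ hδ => h.gcl δ (hδ.trans hθ),
    fun δ hδ => h.hE δ (hδ.trans hθ), fun δ hδ => h.hy δ (hδ.trans hθ),
    fun δ hδ => h.hC δ (hδ.trans hθ), fun δ hδ => h.clo δ (hδ.trans hθ)⟩

theorem xp_valid (hS : Setup B B' A k) (hy : IsNm q y) (hY : IsY q y ky dec) (hk : k ∈ p.1.D)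
    (hky : ky ∈ p.1.D) (hq : p ≤ q) (hθ : θ ∈ cp A k ky dec p.1) (hθp : θ ≤ p.1.ht) :
    Valid p.1.e (A.isE (dat p.1 k)) θ (xp A k ky dec p.1) := by
  exact x_valid (xh_mono (xh_of hS hy hY hk hky hq) hθp) hθ

theorem xp_ok (hS : Setup B B' A k) (hy : IsNm q y) (hY : IsY q y ky dec) (hk : k ∈ p.1.D)
    (hky : ky ∈ p.1.D) (hq : p ≤ q) (hθ : θ ∈ cp A k ky dec p.1) (hθp : θ ≤ p.1.ht)
    (hη : η ∈ A.isE (dat p.1 k)) (hlt : η < θ) :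
    Ok p.1.e (A.isE (dat p.1 k)) (xp A k ky dec p.1) η := by
  exact x_ok (xh_mono (xh_of hS hy hY hk hky hq) hθp) hθ hη hlt

theorem cp_ext (hk : k ∈ p.1.D) (hky : ky ∈ p.1.D) (hp : p' ≤ p) (hθp : θ ≤ p.1.ht) :
    θ ∈ cp A k ky dec p'.1 ↔ θ ∈ cp A k ky dec p.1 := by
  exact cc_congr (fun ξ hξ => isE_ext A hp hk ξ (hξ.trans_le hθp)) (cyd_ext hp hky hθp)

theorem xp_ext (hy : IsNm q y) (hY : IsY q y ky dec) (hk : k ∈ p.1.D) (hky : ky ∈ p.1.D)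
    (hp : p' ≤ p) (hq : p' ≤ q) (hθ : θ ∈ cp A k ky dec p.1) (hθp : θ ≤ p.1.ht) (hlt : η < θ) :
    xp A k ky dec p'.1 η = xp A k ky dec p.1 η := by
  have hle : Raw.Le p'.1 p.1 := hp
  refine (xpath_congr hθ hlt (fun ε hε => (hle.e ε (hε.le.trans hθp)).symm)
    (fun ξ hξ => (isE_ext A hp hk ξ (hξ.trans_le hθp)).symm)
    (fun ξ hξ => (cyd_ext hp hky (hξ.trans hθp)).symm) fun ξ hξ => ?_).symm
  rcases hθ with h1 | ⟨-, -, h1⟩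
  · exact absurd hξ (not_lt.2 (h1 ξ))
  · obtain ⟨ζ, h2, h3⟩ := h1 ξ hξ
    exact (y_ext hy hY hp hq hky ⟨ζ, h2.trans_le hθp, h3⟩).symm

end Pool.Agent.KSt
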