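import Pool.Agent.Lib.MP_d9d638_lc.KS.Progress
import Pool.Agent.Lib.MP_d9d638_lc.KS.Fusion
import Pool.Agent.Lib.MP_d9d638_lc.KS.XpP

/-!
# KS, module CofC: the announcing stages are unbounded

PROOF. First `ht_ext` above `a`. Then `fusion` with
`T ξ r = (k ∈ r.D ∧ ky ∈ r.D ∧ (∃ η < r.ht, r.f ky η ≠ 0 ∧ (dec (r.f ky η)).1 = ξ) ∧
∃ η ∈ A.isE (dat r k), ξ ≤ η ∧ η < r.ht)` (open: `isE_ext`; dense: `ht_ext` above `ξ`, `progress`,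
`IsY.dense`), `U = fun _ _ => True`. The result `p'` has limit height `θ = p'.ht`, `θ ∈ p'.c ky`,
`θ ∈ Cyd` and `LimE E θ` (for `b < θ` use `T (sc b)`, `sc b < θ`).
-/

set_option autoImplicit false

namespace Pool.Agent.KSt

open Pool.Agent.Lib.SymModel Set

theorem cofC {B B' : Set Idx} {A : Prm G0} {k ky : Idx} {dec : Ordinal.{0} → Om × ℕ}
    {q p : Cnd G0} {y : Om → ℕ → RO (Cnd G0)} (hS : Setup B B' A k) (hY : IsY q y ky dec)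
    (hk : k ∈ p.1.D) (hky : ky ∈ p.1.D) (hp : p ≤ A.q0) (hq : p ≤ q) (a : Om) :
    ∃ p' ≤ p, ∃ θ ∈ cp A k ky dec p'.1, a < θ ∧ p.1.ht < θ ∧ θ ≤ p'.1.ht ∧
      LimE (A.isE (dat p'.1 k)) θ := by
  obtain ⟨p₀, hp₀, ha₀, -⟩ := ht_ext p a
  have h0 : p₀.1 ≤ p.1 := hp₀
  obtain ⟨p', hp', hlt, hlim, hc, hT, -⟩ := fusion p₀
    (fun ξ r => k ∈ r.1.D ∧ ky ∈ r.1.D ∧
      (∃ η < r.1.ht, r.1.f ky η ≠ 0 ∧ (dec (r.1.f ky η)).1 = ξ) ∧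
      ∃ η ∈ A.isE (dat r.1 k), ξ ≤ η ∧ η < r.1.ht) (fun _ _ => True)
    (fun ξ t r hrt h => by
      obtain ⟨h1, h2, ⟨η, h3, h4, h5⟩, η', h6, h7, h8⟩ := h
      have hle : r.1 ≤ t.1 := hrt
      have hht : t.1.ht ≤ r.1.ht := hle.ht
      refine ⟨hle.D h1, hle.D h2, ⟨η, h3.trans_le hht, ?_, ?_⟩, η', ?_, h7,
        h8.trans_le hht⟩
      · rwa [hle.f ky h2 η h3]
      · rwa [hle.f ky h2 η h3]
      · exact (isE_ext A hle h1 η' h8).2 h6)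
    (fun ξ t ht => by
      obtain ⟨r₁, hr₁, hξ₁, -⟩ := ht_ext t ξ
      have h1 : r₁ ≤ p := hr₁.trans (ht.trans hp₀)
      have h1' : r₁.1 ≤ p.1 := h1
      obtain ⟨r₂, hr₂, η, hη, hη₁, hη₂⟩ := progress hS (h1'.D hk) (h1.trans hp)
      have h2 : r₂ ≤ p := hr₂.trans h1
      have h2' : r₂.1 ≤ p.1 := h2
      obtain ⟨r₃, hr₃, η', hη', hf, hd⟩ := hY.dense r₂ (h2.trans hq) (h2'.D hky) ξ
      have h3' : r₃.1 ≤ r₂.1 := hr₃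
      have h3 : r₃.1 ≤ p.1 := hr₃.trans h2
      exact ⟨r₃, hr₃.trans (hr₂.trans hr₁), h3.D hk, h3.D hky, ⟨η', hη', hf, hd⟩, η,
        (isE_ext A h3' (h2'.D hk) η hη₂).2 hη, hξ₁.le.trans hη₁,
        hη₂.trans_le h3'.ht⟩)
    (fun _ _ _ _ _ => trivial) (fun _ t _ => ⟨t, le_rfl, trivial⟩)
  have h1 : p'.1 ≤ p₀.1 := hp'
  have h2 : p'.1 ≤ p.1 := h1.trans h0
  have hL : LimE (A.isE (dat p'.1 k)) p'.1.ht := by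
    refine ⟨hlim, fun b hb => ?_⟩
    obtain ⟨c, hbc, hcθ⟩ := hlim.2 b hb
    obtain ⟨-, -, -, η, h3, h4, h5⟩ := hT c hcθ
    exact ⟨η, h3, hbc.trans_le h4, h5⟩
  refine ⟨p', hp'.trans hp₀, p'.1.ht, Or.inr ⟨hL, hc ky (h2.D hky), fun ξ hξ => ?_⟩,
    ha₀.trans hlt, h0.ht.trans_lt hlt, le_rfl, hL⟩
  exact (hT ξ hξ).2.2.1

end Pool.Agent.KSt
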