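import Pool.Agent.Lib.MP_d9d638_lc.Coh
import Pool.Agent.Lib.MP_d9d638_lc.KS.Iface

/-!
# KS, module CohInj: coherent injections

PROOF. `exists_coherent` (`MP_d9d638_lc.Coh`) gives coherent finite-to-one `e δ`. Put
`a δ ξ = Nat.pair (e δ ξ) c` with `c` the number of `η < ξ` with `e δ η = e δ ξ` (a finite set:
`{η | η < δ ∧ e δ η ≤ m}` is finite). Injective: if `ξ < η < δ` have the same first coordinate,
then the set for `ξ` is a proper subset of the set for `η`. Coherent (`γ ≤ δ`): let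
`X = {ξ < γ | e γ ξ ≠ e δ ξ}`, finite, and let `L` be the finite set of values `e γ ξ`, `e δ ξ`,
`ξ ∈ X`. If `ξ < γ` is not in `X` and `e γ ξ ∉ L` then the two counting sets are equal; and the
`ξ < γ` with `e γ ξ ∈ L` are finitely many.
-/

set_option autoImplicit false

namespace Pool.Agent.KSt

open Pool.Agent.Lib.SymModel Set

theorem exists_cohInj : ∃ a : Om → Om → ℕ,
    (∀ δ ξ η, ξ < δ → η < δ → a δ ξ = a δ η → ξ = η) ∧
    ∀ γ δ, γ ≤ δ → {ξ | ξ < γ ∧ a γ ξ ≠ a δ ξ}.Finite := by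
  classical
  obtain ⟨e, he1, he2⟩ := MP_d9d638_lc.exists_coherent
  have hfin : ∀ δ m, {η | η < δ ∧ e δ η = m}.Finite := fun δ m =>
    (he1 δ m).subset (fun η h => ⟨h.1, h.2.le⟩)
  obtain ⟨cnt, hcnt⟩ : ∃ cnt : Om → Om → ℕ,
      ∀ δ ξ, cnt δ ξ = {η | η < ξ ∧ e δ η = e δ ξ}.ncard := ⟨_, fun _ _ => rfl⟩
  refine ⟨fun δ ξ => Nat.pair (e δ ξ) (cnt δ ξ), ?_, ?_⟩
  · intro δ ξ η hξ hη h
    obtain ⟨h1, h2⟩ := Nat.pair_eq_pair.1 h
    have key : ∀ ξ η, ξ < η → η < δ → e δ ξ = e δ η → cnt δ ξ < cnt δ η := by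
      intro ξ η hlt hη h1
      rw [hcnt, hcnt]
      refine Set.ncard_lt_ncard ⟨fun x hx => ⟨hx.1.trans hlt, hx.2.trans h1⟩, fun hs => ?_⟩ ?_
      · have h3 := hs (show ξ ∈ {x | x < η ∧ e δ x = e δ η} from ⟨hlt, h1⟩)
        exact lt_irrefl _ h3.1
      · exact (hfin δ (e δ η)).subset fun x hx => ⟨hx.1.trans hη, hx.2⟩
    rcases lt_trichotomy ξ η with h3 | h3 | h3
    · exact absurd h2 (key ξ η h3 hη h1).ne
    · exact h3
    · exact absurd h2.symm (key η ξ h3 hξ h1.symm).ne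
  · intro γ δ hγδ
    obtain ⟨X, hX⟩ : ∃ X : Set Om, X = {ξ | ξ < γ ∧ e γ ξ ≠ e δ ξ} := ⟨_, rfl⟩
    have hXf : X.Finite := hX ▸ he2 γ δ hγδ
    have hL : ((e γ '' X) ∪ (e δ '' X)).Finite := (hXf.image _).union (hXf.image _)
    refine (hXf.union (Set.Finite.biUnion hL (fun m _ => hfin γ m))).subset ?_
    rintro ξ ⟨hξ, hne⟩
    by_contra hcon
    have h1 : ξ ∉ X := fun h => hcon (Or.inl h)
    have h2 : e γ ξ ∉ (e γ '' X) ∪ (e δ '' X) := fun h =>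
      hcon (Or.inr (Set.mem_biUnion h ⟨hξ, rfl⟩))
    have hXm : ∀ x, x < γ → x ∉ X → e γ x = e δ x := by
      intro x hx hxX
      by_contra hxe
      exact hxX (hX ▸ ⟨hx, hxe⟩)
    have h3 := hXm ξ hξ h1
    apply hne
    change Nat.pair (e γ ξ) (cnt γ ξ) = Nat.pair (e δ ξ) (cnt δ ξ)
    rw [hcnt, hcnt, h3]
    congr 2
    ext η
    constructor
    · rintro ⟨hη, h4⟩
      have h5 : η ∉ X := fun h => h2 (Or.inl ⟨η, h, h4.trans h3.symm⟩)
      exact ⟨hη, (hXm η (hη.trans hξ) h5).symm.trans h4⟩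
    · rintro ⟨hη, h4⟩
      have h5 : η ∉ X := fun h => h2 (Or.inr ⟨η, h, h4.trans h3.symm⟩)
      exact ⟨hη, (hXm η (hη.trans hξ) h5).trans h4⟩

end Pool.Agent.KSt
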