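import Pool.Agent.Lib.MP_d9d638_lc.KS.OmB

/-!
# KS, module Succ: the successor step

PROOF. `q = ⟨sc p.ht, e, p.D, f, c⟩` with `e δ = p.e δ` for `δ ≤ p.ht` and `e δ = 0` otherwise;
`f j ξ = p.f j ξ` for `ξ < p.ht`, and for `ξ ≥ p.ht`: `a` if `j = k`, `0` otherwise;
`c j = p.c j ∩ Iic p.ht`. `sc p.ht` is not a limit (`not_isLim_sc`), so there are no new closure
requirements; `tre`, `trf`, `c ∩ Iio δ` for `δ ≤ p.ht` do not change. `pre` at `ξ = p.ht`: `q ≤ p ≤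
k.pre a`. If `k ∉ p.D` (or `a = 0`) nothing special is needed.
-/

set_option autoImplicit false

namespace Pool.Agent.KSt

open Pool.Agent.Lib.SymModel Set

open Classical in
/-- the condition `q` -/
private noncomputable def Succ_q (p : Raw) (k : Idx) (a : Ordinal.{0}) : Raw where
  ht := sc p.ht
  e := fun δ => if δ ≤ p.ht then p.e δ else 0
  D := p.D
  f := fun j ξ => if ξ < p.ht then p.f j ξ else if j = k then a else 0
  c := fun j => p.c j ∩ Iic p.ht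

private theorem Succ_e (p : Raw) (k : Idx) (a : Ordinal.{0}) {δ : Om} (h : δ ≤ p.ht) :
    (Succ_q p k a).e δ = p.e δ := if_pos h

private theorem Succ_e' (p : Raw) (k : Idx) (a : Ordinal.{0}) {δ : Om} (h : ¬ δ ≤ p.ht) :
    (Succ_q p k a).e δ = 0 := if_neg h

private theorem Succ_f (p : Raw) (k : Idx) (a : Ordinal.{0}) (j : Idx) {ξ : Om}
    (h : ξ < p.ht) : (Succ_q p k a).f j ξ = p.f j ξ := if_pos h

private theorem Succ_fk (p : Raw) (k : Idx) (a : Ordinal.{0}) {ξ : Om}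
    (h : ¬ ξ < p.ht) : (Succ_q p k a).f k ξ = a := (if_neg h).trans (if_pos rfl)

private theorem Succ_fj (p : Raw) (k : Idx) (a : Ordinal.{0}) {j : Idx} (hj : j ≠ k) {ξ : Om}
    (h : ¬ ξ < p.ht) : (Succ_q p k a).f j ξ = 0 := (if_neg h).trans (if_neg hj)

private theorem Succ_le (p : Raw) (k : Idx) (a : Ordinal.{0}) : Succ_q p k a ≤ p := by
  have h : Raw.Le (Succ_q p k a) p := by
    refine ⟨(lt_sc p.ht).le, fun δ hδ => Succ_e p k a hδ, subset_rfl,
      fun j _ ξ hξ => Succ_f p k a j hξ, fun j _ δ hδ => ?_⟩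
    exact ⟨fun h => h.1, fun h => ⟨h, hδ⟩⟩
  exact h

private theorem Succ_tre (p : Raw) (k : Idx) (a : Ordinal.{0}) {δ : Om} (h : δ ≤ p.ht) :
    tre δ (Succ_q p k a).e = tre δ p.e := by
  classical
  funext ε n
  unfold tre
  by_cases h1 : ε < δ
  · rw [if_pos h1, if_pos h1, Succ_e p k a (h1.le.trans h)]
  · rw [if_neg h1, if_neg h1]

private theorem Succ_trf (p : Raw) (k : Idx) (a : Ordinal.{0}) (j : Idx) {δ : Om}
    (h : δ ≤ p.ht) : trf δ ((Succ_q p k a).f j) = trf δ (p.f j) := by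
  classical
  funext ξ
  unfold trf
  by_cases h1 : ξ < δ
  · rw [if_pos h1, if_pos h1, Succ_f p k a j (h1.trans_le h)]
  · rw [if_neg h1, if_neg h1]

private theorem Succ_c (p : Raw) (k : Idx) (a : Ordinal.{0}) (j : Idx) {δ : Om}
    (h : δ ≤ p.ht) : (Succ_q p k a).c j ∩ Iio δ = p.c j ∩ Iio δ := by
  ext ξ
  exact ⟨fun h1 => ⟨h1.1.1, h1.2⟩, fun h1 => ⟨⟨h1.1, (le_of_lt h1.2).trans h⟩, h1.2⟩⟩

private theorem Succ_lim {p : Raw} {δ : Om} (h : δ ≤ sc p.ht) (hl : IsLim δ) : δ ≤ p.ht := by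
  rcases h.lt_or_eq with h1 | h1
  · exact lt_sc_iff.1 h1
  · rw [h1] at hl
    exact absurd hl (not_isLim_sc _)

theorem succ_step {G : Glo} (p : Cnd G) (k : Idx) (a : Ordinal.{0})
    (ha : a = 0 ∨ (a < k.lam ∧ p.1 ≤ k.pre a)) :
    ∃ q : Cnd G, q ≤ p ∧ q.1.ht = sc p.1.ht ∧ q.1.D = p.1.D ∧
      (k ∈ p.1.D → q.1.f k p.1.ht = a) := by
  have hp := p.2
  have hq : IsCond G (Succ_q p.1 k a) := by
    refine ⟨hp.nil, hp.cnt, ?_, ?_, ?_, ?_, ?_, ?_⟩
    · intro δ _ n ξ hξ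
      by_cases h : δ ≤ p.1.ht
      · rw [Succ_e _ _ _ h]
        exact hp.supp δ h n ξ hξ
      · rw [Succ_e' _ _ _ h]
        rfl
    · intro j hj ξ hξ
      by_cases h : ξ < p.1.ht
      · rw [Succ_f _ _ _ _ h]
        rcases hp.pre j hj ξ h with h1 | h1
        · exact Or.inl h1
        · exact Or.inr ⟨h1.1, (Succ_le p.1 k a).trans h1.2⟩
      · by_cases h2 : j = k
        · subst h2
          rw [Succ_fk _ _ _ h]
          rcases ha with h1 | h1
          · exact Or.inl h1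
          · exact Or.inr ⟨h1.1, (Succ_le p.1 j a).trans h1.2⟩
        · exact Or.inl (Succ_fj _ _ _ h2 h)
    · intro j hj δ hδ _
      exact hp.lim j hj δ hδ.1 hδ.2
    · intro j hj δ hδ hl hcof
      have h := Succ_lim hδ hl
      refine ⟨hp.clo j hj δ h hl fun b hb => ?_, h⟩
      obtain ⟨c, hc, h1⟩ := hcof b hb
      exact ⟨c, hc.1, h1⟩
    · intro δ hδ hl
      have h := Succ_lim hδ hl
      rw [Succ_e _ _ _ h, Succ_tre _ _ _ h]
      exact hp.gcl δ h hl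
    · intro j hj δ hδ _
      have h : δ ≤ p.1.ht := hδ.2
      rw [Succ_e _ _ _ h, Succ_tre _ _ _ h, Succ_trf _ _ _ _ h, Succ_c _ _ _ _ h]
      exact hp.kcl j hj δ hδ.1 h
  exact ⟨⟨Succ_q p.1 k a, hq⟩, Succ_le p.1 k a, rfl, rfl,
    fun _ => Succ_fk _ _ _ (lt_irrefl _)⟩

end Pool.Agent.KSt
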