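import Pool.Agent.Lib.MP_d9d638_lc.KS.SeqLim
import Pool.Agent.Lib.MP_d9d638_lc.KS.Succ

/-!
# KS, module Ext: extending the height

PROOF. `lim_ext`: iterate `succ_step` (with `k = nil`, `a = 0`) `ω` times and take `seq_lim`.
`ht_ext`: induction on `a` (`WellFoundedLT.induction`): for all `p` there is `q ≤ p` with
`a < q.ht`, `q.D = p.D`; minimal `a`: `lim_ext`; `a = sc b`: `ht_ext` for `b`, then `succ_step`;
limit `a`: a cofinal sequence (`cofinal_seq`), build a descending sequence with heights above its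
members (strictly increasing), `seq_lim` has height `≥ a`, one `succ_step` more.
-/

set_option autoImplicit false

namespace Pool.Agent.KSt

open Pool.Agent.Lib.SymModel Set

private theorem Ext_succ {G : Glo} (p : Cnd G) :
    ∃ q : Cnd G, q ≤ p ∧ q.1.ht = sc p.1.ht ∧ q.1.D = p.1.D := by
  obtain ⟨q, h1, h2, h3, -⟩ := succ_step p Idx.nil 0 (Or.inl rfl)
  exact ⟨q, h1, h2, h3⟩

private theorem Ext_seq {G : Glo} (p : Cnd G) (R : ℕ → Cnd G → Prop)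
    (h : ∀ n (r : Cnd G), ∃ q : Cnd G, q ≤ r ∧ r.1.ht < q.1.ht ∧ q.1.D = r.1.D ∧ R n q) :
    ∃ s : ℕ → Cnd G, s 0 = p ∧ (∀ n, s (n + 1) ≤ s n) ∧ (∀ n, (s n).1.ht < (s (n + 1)).1.ht) ∧
      (∀ n, (s n).1.D = p.1.D) ∧ ∀ n, R n (s (n + 1)) := by
  choose f h1 h2 h3 h4 using h
  obtain ⟨s, hs⟩ : ∃ s : ℕ → Cnd G, s = fun n => Nat.rec p (fun n r => f n r) n := ⟨_, rfl⟩
  have h0 : s 0 = p := by
    rw [hs]
    rfl
  have hs1 : ∀ n, s (n + 1) = f n (s n) := fun n => by rw [hs]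
  refine ⟨s, h0, fun n => ?_, fun n => ?_, fun n => ?_, fun n => ?_⟩
  · rw [hs1]
    exact h1 n _
  · rw [hs1]
    exact h2 n _
  · induction n with
    | zero => rw [h0]
    | succ n ih => rw [hs1, h3, ih]
  · rw [hs1]
    exact h4 n _

theorem lim_ext {G : Glo} (p : Cnd G) (Z : Set (Om → ℕ)) (hZ : Z.Countable) :
    ∃ q : Cnd G, q ≤ p ∧ p.1.ht < q.1.ht ∧ IsLim q.1.ht ∧ q.1.D = p.1.D ∧
      (∀ k ∈ q.1.D, q.1.ht ∈ q.1.c k) ∧ ∀ z ∈ Z, tr q.1.ht z ∈ range (q.1.e q.1.ht) := by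
  obtain ⟨s, h0, h1, h2, h3, -⟩ := Ext_seq p (fun _ _ => True) fun n r => by
    obtain ⟨q, hq1, hq2, hq3⟩ := Ext_succ r
    exact ⟨q, hq1, hq2 ▸ lt_sc _, hq3, trivial⟩
  obtain ⟨q, g1, g2, g3, -, g5, g6, g7⟩ := seq_lim s h1 h2 Z hZ
  refine ⟨q, h0 ▸ g1 0, h0 ▸ g3 0, g2, ?_, g6, g7⟩
  ext k
  rw [g5 k]
  exact ⟨fun ⟨n, hn⟩ => h3 n ▸ hn, fun h => ⟨0, (h3 0).symm ▸ h⟩⟩

theorem ht_ext {G : Glo} (p : Cnd G) (a : Om) :
    ∃ q : Cnd G, q ≤ p ∧ a < q.1.ht ∧ q.1.D = p.1.D := by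
  revert p
  induction a using WellFoundedLT.induction with
  | ind a ih =>
    intro p
    rcases om_cases a with ha | ⟨b, rfl⟩ | ha
    · obtain ⟨q, h1, h2, h3⟩ := Ext_succ p
      exact ⟨q, h1, (ha p.1.ht).trans_lt (h2 ▸ lt_sc _), h3⟩
    · obtain ⟨r, h1, h2, h3⟩ := ih b (lt_sc b) p
      obtain ⟨q, g1, g2, g3⟩ := Ext_succ r
      exact ⟨q, g1.trans h1, (sc_le h2).trans_lt (g2 ▸ lt_sc _), g3.trans h3⟩
    · obtain ⟨t, ht1, ht2, ht3⟩ := cofinal_seq ha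
      obtain ⟨s, h0, h1, h2, h3, h4⟩ := Ext_seq p (fun n q => t n < q.1.ht) fun n r => by
        obtain ⟨r', e1, e2, e3⟩ := ih (t n) (ht2 n) r
        obtain ⟨q, g1, g2, g3⟩ := Ext_succ r'
        have hlt : r'.1.ht < q.1.ht := g2 ▸ lt_sc _
        exact ⟨q, g1.trans e1, (Cnd.le_def.1 e1).ht.trans_lt hlt, g3.trans e3, e2.trans hlt⟩
      obtain ⟨r, g1, g2, g3, -, g5, -, -⟩ := seq_lim s h1 h2 ∅ countable_empty
      have har : a ≤ r.1.ht := by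
        by_contra hc
        obtain ⟨n, hn⟩ := ht3 _ (not_le.1 hc)
        exact absurd ((hn.trans (h4 n)).trans (g3 (n + 1))) (lt_irrefl _)
      have hD : r.1.D = p.1.D := by
        ext k
        rw [g5 k]
        exact ⟨fun ⟨n, hn⟩ => h3 n ▸ hn, fun h => ⟨0, (h3 0).symm ▸ h⟩⟩
      obtain ⟨q, e1, e2, e3⟩ := Ext_succ r
      exact ⟨q, e1.trans (h0 ▸ g1 0), har.trans_lt (e2 ▸ lt_sc _), e3.trans hD⟩

end Pool.Agent.KSt
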