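import Pool.Agent.Lib.MP_d9d638_lc.KS.OrdCode
import Pool.Agent.Lib.MP_d9d638_lc.KS.Ext
import Pool.Agent.Lib.MP_d9d638_lc.KS.AddIdx

/-!
# KS, module Col: the largest condition; small sets are collapsed

PROOF. `exists_top`: the condition of `exists_cond` can be taken of least height (`exists_bot`)
with `e = 0`, `f = 0`, `c = ∅`: every condition `q` is below it, because at the least `δ` one has
`q.e δ = 0` (`IsCond.supp`), there is no `ξ < δ`, and `δ` is not a limit (`IsCond.lim`).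
`col`: `exists_idx_fam I (fun _ => top)`, fix `i₀ : I`, and
`g η i = gen {p | k ∈ p.D ∧ η < p.ht ∧ (p.f k η = 0 ∧ i = i₀ ∨ p.f k η ≠ 0 ∧
  dcd (p.f k η) = some i)}`.
Total: `add_idx`, `ht_ext`, `IsCond.pre`. Unique: two conditions above a common one have the same
value `f k η`. Onto: `add_idx`, `succ_step` with the `a` of `i` (`p ≤ top`, so `p ≤ k.pre a`).
-/

set_option autoImplicit false

namespace Pool.Agent.KSt

open Pool.Agent.Lib.SymModel Set

private theorem Col_not_lim {o δ : Om} (ho : ∀ a, o ≤ a) (h : δ ≤ o) : ¬ IsLim δ := by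
  rintro ⟨⟨a, ha⟩, -⟩
  exact absurd (ha.trans_le h) (not_lt.mpr (ho a))

/-- the raw condition of least height -/
private def Col_top (o : Om) : Raw := ⟨o, 0, {Idx.nil}, 0, fun _ => ∅⟩

private theorem Col_cond (G : Glo) {o : Om} (ho : ∀ a, o ≤ a) : IsCond G (Col_top o) := by
  refine ⟨rfl, countable_singleton _, fun δ _ n ξ _ => rfl, ?_, ?_, ?_, ?_, ?_⟩
  · intro k _ ξ _
    exact Or.inl rfl
  · intro k _ δ hδ _
    exact absurd hδ (notMem_empty δ)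
  · intro k _ δ hδ hl _
    exact absurd hl (Col_not_lim ho hδ)
  · intro δ hδ hl
    exact absurd hl (Col_not_lim ho hδ)
  · intro k _ δ hδ _
    exact absurd hδ (notMem_empty δ)

private theorem Col_le {G : Glo} {o : Om} (ho : ∀ a, o ≤ a) (q : Cnd G) :
    q.1 ≤ Col_top o := by
  have hq := q.2
  have h : Raw.Le q.1 (Col_top o) := by
    refine ⟨ho _, ?_, ?_, ?_, ?_⟩
    · intro δ hδ
      funext n ξ
      exact hq.supp δ (le_trans hδ (ho _)) n ξ (le_trans hδ (ho ξ))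
    · rintro k rfl
      exact hq.nil
    · intro k _ ξ hξ
      exact absurd hξ (not_lt.mpr (ho ξ))
    · rintro k rfl δ hδ
      constructor
      · intro h1
        exact absurd (hq.lim _ hq.nil δ h1 (le_trans hδ (ho _))) (Col_not_lim ho hδ)
      · intro h1
        exact absurd h1 (notMem_empty δ)
  exact h

theorem exists_top (G : Glo) : ∃ p : Cnd G, p.1.D = {Idx.nil} ∧ ∀ q : Cnd G, q ≤ p := by
  obtain ⟨o, ho⟩ := exists_bot
  exact ⟨⟨Col_top o, Col_cond G ho⟩, rfl, fun q => Col_le ho q⟩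

private theorem Col_mem_gen {G : Glo} {s : Set (Cnd G)} {p : Cnd G} (h : p ∈ s) : p ∈ gen s :=
  mem_gen.mpr fun q hq => ⟨q, le_rfl, p, h, hq⟩

theorem col (G : Glo) (I : Type) [Nonempty I] : ∃ g : Om → I → RO (Cnd G),
    (∀ η, ∀ p, ∃ p' ≤ p, ∃ i, p' ∈ g η i) ∧ (∀ η i j, ∀ p, p ∈ g η i → p ∈ g η j → i = j) ∧
    (∀ i, ∀ p, ∃ p' ≤ p, ∃ η, p' ∈ g η i) := by
  classical
  obtain ⟨top, -, htop⟩ := exists_top G
  obtain ⟨k, dcd, -, h1, h2⟩ := exists_idx_fam I (fun _ => top)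
    (fun _ => fun _ _ _ _ _ _ _ => 0)
  obtain ⟨i₀⟩ : Nonempty I := inferInstance
  refine ⟨fun η i => gen {p : Cnd G | k ∈ p.1.D ∧ η < p.1.ht ∧
    ((p.1.f k η = 0 ∧ i = i₀) ∨ (p.1.f k η ≠ 0 ∧ dcd (p.1.f k η) = some i))}, ?_, ?_, ?_⟩
  · intro η p
    obtain ⟨q, hq, -, hqD⟩ := add_idx p k
    obtain ⟨r, hr, hrη, hrD⟩ := ht_ext q η
    have hk : k ∈ r.1.D := by
      rw [hrD, hqD]
      exact mem_insert _ _
    by_cases h0 : r.1.f k η = 0
    · exact ⟨r, hr.trans hq, i₀, Col_mem_gen ⟨hk, hrη, Or.inl ⟨h0, rfl⟩⟩⟩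
    · rcases r.2.pre k hk η hrη with h3 | ⟨h3, -⟩
      · exact absurd h3 h0
      · obtain ⟨i, hi, -⟩ := h1 _ h0 h3
        exact ⟨r, hr.trans hq, i, Col_mem_gen ⟨hk, hrη, Or.inr ⟨h0, hi⟩⟩⟩
  · intro η i j p hi hj
    obtain ⟨r, hr, t, ht, hrt⟩ := mem_gen.mp hi p le_rfl
    obtain ⟨r', hr', t', ht', hrt'⟩ := mem_gen.mp hj r hr
    have e1 : r'.1.f k η = t.1.f k η := (hr'.trans hrt).f k ht.1 η ht.2.1
    have e2 : r'.1.f k η = t'.1.f k η := hrt'.f k ht'.1 η ht'.2.1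
    have e3 : t.1.f k η = t'.1.f k η := e1.symm.trans e2
    rcases ht.2.2 with ⟨h3, h4⟩ | ⟨h3, h4⟩
    · rcases ht'.2.2 with ⟨h5, h6⟩ | ⟨h5, h6⟩
      · rw [h4, h6]
      · exact absurd (e3.symm.trans h3) h5
    · rcases ht'.2.2 with ⟨h5, h6⟩ | ⟨h5, h6⟩
      · exact absurd (e3.trans h5) h3
      · rw [e3, h6] at h4
        exact (Option.some.inj h4).symm
  · intro i p
    obtain ⟨a, ha0, hal, hai⟩ := h2 i
    obtain ⟨i', -, hi'⟩ := h1 a ha0 hal
    obtain ⟨q, hq, -, hqD⟩ := add_idx p k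
    have hk : k ∈ q.1.D := by
      rw [hqD]
      exact mem_insert _ _
    obtain ⟨r, hr, hrh, hrD, hra⟩ := succ_step q k a
      (Or.inr ⟨hal, (hi' q.1).1.mpr (htop q)⟩)
    refine ⟨r, hr.trans hq, q.1.ht, Col_mem_gen ⟨?_, ?_, Or.inr ?_⟩⟩
    · rw [hrD]
      exact hk
    · rw [hrh]
      exact lt_sc _
    · rw [hra hk]
      exact ⟨ha0, hai⟩

end Pool.Agent.KSt
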