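import Pool.Agent.Lib.MP_d9d638_lc.KS.NoWait

/-!
# KS, module Cont: continuity

PROOF. `det_dense` gives `r' ≤ r`, `δ`, `s`; `γ = δ`. For `t ≤ r'` and `b'`: `t ∈ b γ' (s γ')` for
`γ' < δ`, hence `t ∈ b' γ' (s γ')`; `det_ext` and `rho_det` for `b` and for `b'` give the same
right-hand side. (`IsNm` passes to smaller conditions.)
-/

set_option autoImplicit false

namespace Pool.Agent.KSt

open Pool.Agent.Lib.SymModel Set

theorem rho_cont {G : Glo} {B B' : Set Idx} {A : Prm G} {k : Idx} (hS : Setup B B' A k)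
    {r : Cnd G} (hk : k ∈ r.1.D) (hr : r ≤ A.q0) {b : Om → ℕ → RO (Cnd G)} (hb : IsNm r b)
    (α : Om) : ∃ r' ≤ r, ∃ γ, ∀ b', ∀ t ≤ r', IsNm t b' →
      (∀ γ' < γ, ∀ m, t ∈ b γ' m → t ∈ b' γ' m) →
        ∀ ξ < α, (t ∈ A.rho k b ξ ↔ t ∈ A.rho k b' ξ) := by
  obtain ⟨r', hr', δ, hδ, s, hs, hd⟩ := det_dense hS hk hr hb α
  refine ⟨r', hr', δ, fun b' t ht hb' hag ξ hξ => ?_⟩
  have h1 : t.1.Le r'.1 := ht
  have h2 : r'.1.Le r.1 := hr'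
  have hk' : k ∈ r'.1.D := h2.D hk
  have hkt : k ∈ t.1.D := h1.D hk'
  have hδt : δ ≤ t.1.ht := hδ.trans h1.ht
  have hst : ∀ γ < δ, t ∈ b γ (s γ) := fun γ hγ => (b γ (s γ)).down (hs γ hγ) ht
  have hbt : IsNm t b := ⟨fun γ u hu => hb.tot γ u ((hu.trans ht).trans hr'),
    fun γ m m' u hu => hb.uni γ m m' u ((hu.trans ht).trans hr')⟩
  have hdt : A.Det (dat t.1 k) δ s α := (det_ext ht hk' hδ).2 hd
  rw [rho_det hkt hbt hδt hst hdt hξ,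
    rho_det hkt hb' hδt (fun γ hγ => hag γ hγ _ (hst γ hγ)) hdt hξ]

end Pool.Agent.KSt
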