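import Pool.Agent.Lib.MP_d9d638_lc.KS.Defs2
import Pool.Agent.Lib.MP_d9d638_lc.KS.Amal
import Pool.Agent.Lib.MP_d9d638_lc.KS.Ext

/-!
# KS, module DecAll: deciding the branch up to a level

PROOF. As in `Split`: `P = res B p`, `amal` for `r`, `P`: `q₁ ≤ r`, `q₁ ≤ P`, indices in `B'`.
Inside the conditions with indices in `B'` build a descending sequence from `q₁` with strictly
increasing heights, the first one above `α` (`ht_ext`), which decides `cv γ` for all `γ ≤ α` (a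
countable set, `Om.iic`; `hS.base` and then `succ_step` with `k = nil`, `a = 0` to increase the
height); `seq_lim` gives `r'` with indices in `B'`. `r' ≤ q₁ ≤ P`, so `r'.res B ≤ p.res B`, and
`amal` for `p`, `res B r'` gives `p' ≤ p`, `p' ≤ res B r'`.
-/

set_option autoImplicit false

namespace Pool.Agent.KSt

open Pool.Agent.Lib.SymModel Set

/-- one step: decide the branch at one level, increase the height -/
private theorem DecAll_step {G : Glo} {B B' : Set Idx} {A : Prm G} {k : Idx}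
    (hS : Setup B B' A k) (γ : Om) (q : Cnd G) (hq : q.1.D ⊆ B') (hq0 : q ≤ A.q0) :
    ∃ q' : Cnd G, q' ≤ q ∧ q'.1.D ⊆ B' ∧ q.1.ht < q'.1.ht ∧ ∃ m, q' ∈ A.cv γ m := by
  obtain ⟨r, hr, hrD, m, hm⟩ := hS.base γ q hq hq0
  obtain ⟨q', h1, h2, h3, -⟩ := succ_step r Idx.nil 0 (Or.inl rfl)
  have h4 : q.1.ht ≤ r.1.ht := (Cnd.le_def.1 hr).ht
  refine ⟨q', h1.trans hr, ?_, ?_, m, (A.cv γ m).down hm h1⟩
  · rw [h3]
    exact hrD
  · rw [h2]
    exact h4.trans_lt (lt_sc _)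

theorem dec_all {G : Glo} {B B' : Set Idx} {A : Prm G} {k : Idx} (hS : Setup B B' A k)
    (p r : Cnd G) (hr : r.1.D ⊆ B') (hr0 : r ≤ A.q0) (hp : p.1 ≤ r.1.res B) (α : Om) :
    ∃ p' ≤ p, ∃ r' ≤ r, r'.1.D ⊆ B' ∧ p'.1 ≤ r'.1.res B ∧ α ≤ r'.1.ht ∧
      ∀ γ ≤ α, ∃ m, r' ∈ A.cv γ m := by
  -- the first condition
  obtain ⟨q1, hq1r, hq1P, -, hq1D, -⟩ := amal hS.hB r (Cnd.res hS.hB p)
    (inter_subset_right) (le_res_res hp)
  have hq1B : q1.1.D ⊆ B' := by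
    rw [hq1D]
    exact union_subset hr (inter_subset_right.trans hS.sub)
  obtain ⟨q2, hq2, hα, hq2D⟩ := ht_ext q1 α
  have hq2B : q2.1.D ⊆ B' := hq2D ▸ hq1B
  -- the levels
  obtain ⟨g, hg⟩ := (MP_d9d638_lc.Om.iic α).exists_eq_range ⟨α, self_mem_Iic⟩
  -- the sequence
  have hstep : ∀ (n : ℕ) (q : {q : Cnd G // q.1.D ⊆ B' ∧ q ≤ q1}),
      ∃ q' : {q : Cnd G // q.1.D ⊆ B' ∧ q ≤ q1}, q'.1 ≤ q.1 ∧ q.1.1.ht < q'.1.1.ht ∧
        ∃ m, q'.1 ∈ A.cv (g n) m := by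
    intro n q
    obtain ⟨q', h1, h2, h3, h4⟩ := DecAll_step hS (g n) q.1 q.2.1
      ((q.2.2.trans hq1r).trans hr0)
    exact ⟨⟨q', h2, h1.trans q.2.2⟩, h1, h3, h4⟩
  choose F hF1 hF2 hF3 using hstep
  obtain ⟨s, hs0, hs⟩ : ∃ s : ℕ → {q : Cnd G // q.1.D ⊆ B' ∧ q ≤ q1},
      s 0 = ⟨q2, hq2B, hq2⟩ ∧ ∀ n, s (n + 1) = F n (s n) :=
    ⟨fun n => Nat.rec ⟨q2, hq2B, hq2⟩ (fun n x => F n x) n, rfl, fun _ => rfl⟩
  obtain ⟨r', h1, -, h3, -, h5, -, -⟩ := seq_lim (fun n => (s n).1)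
    (fun n => by rw [hs]; exact hF1 n (s n)) (fun n => by rw [hs]; exact hF2 n (s n)) ∅
    countable_empty
  have hr'D : r'.1.D ⊆ B' := by
    intro j hj
    obtain ⟨n, hn⟩ := (h5 j).1 hj
    exact (s n).2.1 hn
  have hr'q1 : r' ≤ q1 := (h1 0).trans (s 0).2.2
  have h6 : r'.1.res B ≤ p.1.res B := by
    have h7 : r' ≤ Cnd.res hS.hB p := hr'q1.trans hq1P
    exact le_res_res (Cnd.le_def.1 h7)
  obtain ⟨p', h8, h9, -, -, -⟩ := amal hS.hB p (Cnd.res hS.hB r') (inter_subset_right) h6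
  refine ⟨p', h8, r', hr'q1.trans hq1r, hr'D, Cnd.le_def.1 h9, ?_, ?_⟩
  · have h10 : (s 0).1.1.ht < r'.1.ht := h3 0
    rw [hs0] at h10
    exact (hα.trans h10).le
  · intro γ hγ
    have : γ ∈ range g := by
      rw [← hg]
      exact hγ
    obtain ⟨n, rfl⟩ := this
    obtain ⟨m, hm⟩ := hF3 n (s n)
    refine ⟨m, (A.cv (g n) m).down hm ?_⟩
    rw [← hs]
    exact h1 (n + 1)

end Pool.Agent.KSt
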