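import Pool.Agent.Lib.MP_d9d638_lc.KS.Fusion

/-!
# KS, module DecSeg: deciding an initial segment of a name of a function

PROOF. `fusion` with `T ξ r = ∃ m, r ∈ b ξ m` (`IsNm.tot`, `RO.down`), `U = fun _ _ => True`;
choose `s`.
-/

set_option autoImplicit false

namespace Pool.Agent.KSt

open Pool.Agent.Lib.SymModel Set

theorem dec_seg {G : Glo} {p : Cnd G} {b : Om → ℕ → RO (Cnd G)} (hb : IsNm p b) :
    ∃ p' ≤ p, p.1.ht < p'.1.ht ∧ ∃ s : Om → ℕ, ∀ γ < p'.1.ht, p' ∈ b γ (s γ) := by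
  obtain ⟨q, hq, hht, -, -, hT, -⟩ := fusion p (fun ξ r => ∃ m, r ∈ b ξ m) (fun _ _ => True)
    (fun ξ q r hr ⟨m, hm⟩ => ⟨m, (b ξ m).down hm hr⟩) (fun ξ q hq => hb.tot ξ q hq)
    (fun _ _ _ _ h => h) (fun _ q _ => ⟨q, le_rfl, trivial⟩)
  classical
  choose! s hs using hT
  exact ⟨q, hq, hht, s, hs⟩

end Pool.Agent.KSt
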