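import Pool.Agent.Lib.MP_d9d638_lc.KS.Iface

/-!
# KS, module Defs: indices, conditions, the forcing

A condition has a height `ht : Om`, and for every `δ ≤ ht` a countable set
`M_δ = range (e δ)` of functions `Om → ℕ` with support below `δ`; it has a countable set `D` of
indices, and for every index `k ∈ D` a function `f k` on the ordinals `< ht` and a closed set `c k`
of limits `≤ ht`.

An index `k` codes (well-foundedly) an ordinal `k.lam`, for every `0 < a < k.lam` a condition
`k.pre a`, and an operation `k.op`. A condition which contains `k` promises: `f k ξ = a ≠ 0` only if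
the condition is stronger than `k.pre a`; for `δ ∈ c k` the set `M_δ` is closed under the operation
`k.op`, which may use everything known about `k` below `δ`.
-/

set_option autoImplicit false

namespace Pool.Agent.KSt

open Pool.Agent.Lib.SymModel Set

/-- `δ` is a limit. -/
def IsLim (δ : Om) : Prop := (∃ a, a < δ) ∧ ∀ a < δ, ∃ b, a < b ∧ b < δ

/-- Restriction of a function to the ordinals below `δ` (zero elsewhere). -/
noncomputable def tr (δ : Om) (z : Om → ℕ) : Om → ℕ := by
  classical exact fun ξ => if ξ < δ then z ξ else 0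

/-- Restriction of a sequence `e` to the ordinals below `δ`. -/
noncomputable def tre (δ : Om) (e : Om → ℕ → Om → ℕ) : Om → ℕ → Om → ℕ := by
  classical exact fun ε n => if ε < δ then e ε n else 0

/-- Restriction of a function with values in the ordinals. -/
noncomputable def trf (δ : Om) (f : Om → Ordinal.{0}) : Om → Ordinal.{0} := by
  classical exact fun ξ => if ξ < δ then f ξ else 0

/-- An operation on functions with support below `δ`; its arguments are `δ`, the sequence `e`
below `δ`, a function, a set, a list of functions with support below `δ`, a number. -/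
abbrev Op : Type 1 := Om → (Om → ℕ → Om → ℕ) → (Om → Ordinal.{0}) → Set Om →
  List (Om → ℕ) → ℕ → Om → ℕ

/-- Raw data of a condition whose indices are numbered. -/
structure PreData : Type 1 where
  /-- height -/
  ht : Om
  /-- the countable sets -/
  e : Om → ℕ → Om → ℕ
  /-- the functions -/
  f : ℕ → Om → Ordinal.{0}
  /-- the closed sets -/
  c : ℕ → Set Om

/-- Indices. -/
inductive Idx : Type 1
  | nil : Idx
  | mk (lam : Ordinal.{0}) (u : Ordinal.{0} → PreData) (D : Ordinal.{0} → ℕ → Idx) (Φ : Op) : Idx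

/-- Raw conditions. -/
structure Raw : Type 1 where
  /-- height -/
  ht : Om
  /-- the countable sets `M_δ = range (e δ)` -/
  e : Om → ℕ → Om → ℕ
  /-- the indices -/
  D : Set Idx
  /-- the functions -/
  f : Idx → Om → Ordinal.{0}
  /-- the closed sets -/
  c : Idx → Set Om

/-- The order of raw conditions: `p ≤ q` if `p` extends `q`. -/
structure Raw.Le (p q : Raw) : Prop where
  ht : q.ht ≤ p.ht
  e : ∀ δ ≤ q.ht, p.e δ = q.e δ
  D : q.D ⊆ p.D
  f : ∀ k ∈ q.D, ∀ ξ < q.ht, p.f k ξ = q.f k ξ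
  c : ∀ k ∈ q.D, ∀ δ ≤ q.ht, (δ ∈ p.c k ↔ δ ∈ q.c k)

instance : Preorder Raw where
  le := Raw.Le
  le_refl p := ⟨le_rfl, fun _ _ => rfl, subset_rfl, fun _ _ _ _ => rfl, fun _ _ _ _ => Iff.rfl⟩
  le_trans p q r h1 h2 :=
    ⟨h2.ht.trans h1.ht, fun δ hδ => (h1.e δ (hδ.trans h2.ht)).trans (h2.e δ hδ), h2.D.trans h1.D,
      fun k hk ξ hξ => (h1.f k (h2.D hk) ξ (hξ.trans_le h2.ht)).trans (h2.f k hk ξ hξ),
      fun k hk δ hδ => (h1.c k (h2.D hk) δ (hδ.trans h2.ht)).trans (h2.c k hk δ hδ)⟩

/-- The number of an index in a numbered family. -/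
noncomputable def num (D : ℕ → Idx) (j : Idx) : ℕ := by
  classical exact if h : ∃ n, D n = j then Nat.find h else 0

/-- The ordinal of an index. -/
def Idx.lam : Idx → Ordinal.{0}
  | .nil => 0
  | .mk lam _ _ _ => lam

/-- The conditions of an index. -/
noncomputable def Idx.pre : Idx → Ordinal.{0} → Raw
  | .nil, _ => ⟨(Classical.arbitrary Om), 0, ∅, 0, fun _ => ∅⟩
  | .mk _ u D _, a => ⟨(u a).ht, (u a).e, range (D a), fun j => (u a).f (num (D a) j),
      fun j => (u a).c (num (D a) j)⟩

/-- The operation of an index. -/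
def Idx.op : Idx → Op
  | .nil => fun _ _ _ _ _ _ _ => 0
  | .mk _ _ _ Φ => Φ

/-- The set enumerated by `E` is closed under the operation `F`. -/
def ClosedAt (δ : Om) (E : ℕ → Om → ℕ) (F : List (Om → ℕ) → ℕ → Om → ℕ) : Prop :=
  ∀ l : List (Om → ℕ), (∀ z ∈ l, z ∈ range E) → ∀ n, tr δ (F l n) ∈ range E

/-- A global operation on functions with support below `δ`. -/
abbrev Glo : Type := Om → (Om → ℕ → Om → ℕ) → List (Om → ℕ) → ℕ → Om → ℕ

/-- Conditions, for a global operation `G`. -/
structure IsCond (G : Glo) (p : Raw) : Prop where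
  nil : Idx.nil ∈ p.D
  cnt : p.D.Countable
  supp : ∀ δ ≤ p.ht, ∀ n ξ, δ ≤ ξ → p.e δ n ξ = 0
  pre : ∀ k ∈ p.D, ∀ ξ < p.ht, p.f k ξ = 0 ∨ (p.f k ξ < k.lam ∧ p ≤ k.pre (p.f k ξ))
  lim : ∀ k ∈ p.D, ∀ δ ∈ p.c k, δ ≤ p.ht → IsLim δ
  clo : ∀ k ∈ p.D, ∀ δ ≤ p.ht, IsLim δ → (∀ a < δ, ∃ b ∈ p.c k, a < b ∧ b < δ) → δ ∈ p.c k
  gcl : ∀ δ ≤ p.ht, IsLim δ → ClosedAt δ (p.e δ) (G δ (tre δ p.e))
  kcl : ∀ k ∈ p.D, ∀ δ ∈ p.c k, δ ≤ p.ht →
    ClosedAt δ (p.e δ) (k.op δ (tre δ p.e) (trf δ (p.f k)) (p.c k ∩ Iio δ))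

/-- The forcing. -/
def Cnd (G : Glo) : Type 1 := {p : Raw // IsCond G p}

instance (G : Glo) : Preorder (Cnd G) := inferInstanceAs (Preorder {p : Raw // IsCond G p})

theorem Cnd.le_def {G : Glo} {p q : Cnd G} : p ≤ q ↔ p.1 ≤ q.1 := Iff.rfl

/-- A set of indices closed under mentioned indices. -/
def Clsd (B : Set Idx) : Prop := Idx.nil ∈ B ∧ ∀ k ∈ B, ∀ a < k.lam, (k.pre a).D ⊆ B

/-! ### Restriction to a set of indices -/

/-- The restriction of a raw condition to a set of indices. -/
def Raw.res (B : Set Idx) (p : Raw) : Raw := ⟨p.ht, p.e, p.D ∩ B, p.f, p.c⟩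

/-! ### Limits of chains of raw conditions -/

/-- The indices which occur in a set of conditions. -/
def limD (S : Set Raw) : Set Idx := {k | ∃ r ∈ S, k ∈ r.D}

/-- The union of the functions of the conditions of a chain. -/
noncomputable def limf (S : Set Raw) (k : Idx) (ξ : Om) : Ordinal.{0} := by
  classical exact if h : ∃ r, r ∈ S ∧ k ∈ r.D ∧ ξ < r.ht then (Classical.choose h).f k ξ else 0

/-- The union of the closed sets of the conditions of a chain. -/
def limc (S : Set Raw) (k : Idx) : Set Om := {ε | ∃ r ∈ S, k ∈ r.D ∧ ε ≤ r.ht ∧ ε ∈ r.c k}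

/-- The union of the sequences of the conditions of a chain. -/
noncomputable def lime (S : Set Raw) (ε : Om) : ℕ → Om → ℕ := by
  classical exact if h : ∃ r, r ∈ S ∧ ε ≤ r.ht then (Classical.choose h).e ε else 0

/-- The limit of a chain: height `δ`, the set at `δ` is enumerated by `E`, and `δ` is put into
the closed sets of the indices in `K`. -/
noncomputable def limR (S : Set Raw) (δ : Om) (E : ℕ → Om → ℕ) (K : Set Idx) : Raw := by
  classical exact ⟨δ, fun ε => if ε = δ then E else lime S ε, limD S, limf S,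
    fun k => limc S k ∪ {ε | ε = δ ∧ k ∈ K}⟩

end Pool.Agent.KSt
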