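import Pool.Agent.Lib.MP_d9d638_lc.KS.Defs
import Pool.Agent.Lib.MP_d9d638_lc.KS.CohInj

/-!
# KS, module Defs2: the recursion, the parsing of paths, the global operation
-/

set_option autoImplicit false

namespace Pool.Agent.KSt

open Pool.Agent.Lib.SymModel Set

/-! ### Generalities -/

/-- The regular set generated by a set of conditions. -/
def gen {P : Type 1} [Preorder P] (s : Set P) : RO P :=
  RO.mkOf {p | ∃ q ∈ s, p ≤ q} fun _ hp _ hq => by
    obtain ⟨r, hr, h⟩ := hp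
    exact ⟨r, hr, hq.trans h⟩

theorem mem_gen {P : Type 1} [Preorder P] {s : Set P} {p : P} :
    p ∈ gen s ↔ ∀ q ≤ p, ∃ r ≤ q, ∃ t ∈ s, r ≤ t := Iff.rfl

/-- The indicator function of a set. -/
noncomputable def ind (X : Set Om) : Om → ℕ := by
  classical exact fun ξ => if ξ ∈ X then 1 else 0

/-- The set with a given indicator function. -/
def dei (z : Om → ℕ) : Set Om := {ξ | z ξ = 1}

/-- The restriction of `x` to the elements of `E` below `δ`, zero elsewhere. -/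
noncomputable def msk (E : Set Om) (δ : Om) (x : Om → ℕ) : Om → ℕ := by
  classical exact fun ξ => if ξ ∈ E ∧ ξ < δ then x ξ else 0

/-- `δ` is a limit point of `E`. -/
def LimE (E : Set Om) (δ : Om) : Prop := IsLim δ ∧ ∀ a < δ, ∃ η ∈ E, a < η ∧ η < δ

/-- `x` is valid at `δ`: at all limit points of `E` up to `δ` its restriction is in `M`. -/
def Valid (e : Om → ℕ → Om → ℕ) (E : Set Om) (δ : Om) (x : Om → ℕ) : Prop :=
  ∀ δ' ≤ δ, LimE E δ' → msk E δ' x ∈ range (e δ')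

/-- An enumeration of a set of indices. -/
noncomputable def enumI (D : Set Idx) : ℕ → Idx := by
  classical exact if h : ∃ s : ℕ → Idx, range s = D then Classical.choose h else fun _ => .nil

/-- An enumeration of a set of functions. -/
noncomputable def enumF (X : Set (Om → ℕ)) : ℕ → Om → ℕ := by
  classical exact if h : ∃ s : ℕ → Om → ℕ, range s = X then Classical.choose h else 0

/-! ### Names of functions -/

/-- The function decoded from `f`. -/
noncomputable def ydec (dec : Ordinal.{0} → Om × ℕ) (f : Om → Ordinal.{0}) (ξ : Om) : ℕ := by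
  classical exact if h : ∃ m η, f η ≠ 0 ∧ dec (f η) = (ξ, m) then Classical.choose h else 0

/-- The closed set belonging to a name of a function. -/
def Cyd (dec : Ordinal.{0} → Om × ℕ) (f : Om → Ordinal.{0}) (c : Set Om) : Set Om :=
  {ε | ε ∈ c ∧ ∀ ξ < ε, ∃ η < ε, f η ≠ 0 ∧ (dec (f η)).1 = ξ}

/-- The operation of the index of a name of a function. -/
noncomputable def yop (dec : Ordinal.{0} → Om × ℕ) : Op := fun _ _ f c _ n =>
  if n = 0 then ydec dec f else ind (Cyd dec f c)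

/-- The index `k` enumerates the decisions of the name `y`. -/
structure IsY {G : Glo} (q : Cnd G) (y : Om → ℕ → RO (Cnd G)) (k : Idx)
    (dec : Ordinal.{0} → Om × ℕ) : Prop where
  val : ∀ p : Cnd G, k ∈ p.1.D → ∀ η < p.1.ht, p.1.f k η ≠ 0 →
    p ∈ y (dec (p.1.f k η)).1 (dec (p.1.f k η)).2
  op : k.op = yop dec
  dense : ∀ p ≤ q, k ∈ p.1.D → ∀ ξ, ∃ p' ≤ p, ∃ η < p'.1.ht, p'.1.f k η ≠ 0 ∧
    (dec (p'.1.f k η)).1 = ξ

/-! ### The recursion -/

/-- The data of an index. -/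
structure Dat : Type 1 where
  /-- the sequence of countable sets -/
  e : Om → ℕ → Om → ℕ
  /-- the function -/
  f : Om → Ordinal.{0}
  /-- the closed set -/
  c : Set Om

/-- The data of the index `k` of a condition. -/
def dat (p : Raw) (k : Idx) : Dat := ⟨p.e, p.f k, p.c k⟩

/-- The parameters of the recursion. -/
structure Prm (G : Glo) : Type 1 where
  /-- the largest condition -/
  q0 : Cnd G
  /-- the name of a branch -/
  cv : Om → ℕ → RO (Cnd G)
  /-- the tables coded by ordinals -/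
  tb : Ordinal.{0} → (Om → ℕ) → ℕ → Cnd G

variable {G : Glo}

/-- The condition on the path `x` chosen at the acceptance time `η`. -/
noncomputable def Prm.cond (A : Prm G) (f : Om → Ordinal.{0}) (E : Set Om) (η : Om)
    (x : Om → ℕ) : Cnd G := A.tb (f η) (msk E η x) (x η)

/-- The requirements for the acceptance of the move at `η` (only `E ∩ Iio η` matters). -/
structure Prm.Acc (A : Prm G) (d : Dat) (E : Set Om) (η : Om) : Prop where
  ne : d.f η ≠ 0
  sep : ∀ η' ∈ E, η' < η → ∃ ε ∈ d.c, η' < ε ∧ ε ≤ η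
  leq : ∀ x, Valid d.e E η x → ∀ n, A.tb (d.f η) (msk E η x) n ≤ A.q0
  lec : ∀ x, Valid d.e E η x → ∀ n, ∀ η' ∈ E, η' < η →
    A.tb (d.f η) (msk E η x) n ≤ A.cond d.f E η' x
  htl : ∀ x, Valid d.e E η x → ∀ n, ∀ η' ∈ E, η' < η → η' ≤ (A.tb (d.f η) (msk E η x) n).1.ht
  htu : ∀ x, Valid d.e E η x → ∀ n, (A.tb (d.f η) (msk E η x) n).1.ht ≤ η
  lev : ∀ x, Valid d.e E η x → ∀ n, ∀ η' ∈ E, η' < η → ∀ γ ≤ η',
    ∃ m, A.tb (d.f η) (msk E η x) n ∈ A.cv γ m
  spl : ∀ x, Valid d.e E η x → ∀ n n', n ≠ n' → ∃ γ ≤ η, ∃ m m', m ≠ m' ∧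
    A.tb (d.f η) (msk E η x) n ∈ A.cv γ m ∧ A.tb (d.f η) (msk E η x) n' ∈ A.cv γ m'

/-- The set of acceptance times. -/
def Prm.isE (A : Prm G) (d : Dat) : Set Om :=
  {η | (wellFounded_lt : WellFounded ((· < ·) : Om → Om → Prop)).fix (C := fun _ => Prop)
    (fun η ih => A.Acc d {η' | ∃ h : η' < η, ih η' h} η) η}

/-- The chain of conditions along `x` below `δ`. -/
def Prm.chn (A : Prm G) (f : Om → Ordinal.{0}) (E : Set Om) (δ : Om) (x : Om → ℕ) : Set Raw :=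
  insert A.q0.1 {r | ∃ η ∈ E, η < δ ∧ r = (A.cond f E η x).1}

/-- The operation of the main index. -/
noncomputable def Prm.op0 (A : Prm G) : Op := fun δ e f c l n =>
  match l with
  | [] => ind (A.isE ⟨e, f, c⟩ ∩ Iio δ)
  | x :: l' =>
    let S := A.chn f (A.isE ⟨e, f, c⟩) δ x
    let k := enumI (limD S) n.unpair.1
    k.op δ e (trf δ (limf S k)) (limc S k ∩ Iio δ) l' n.unpair.2

/-- The standing assumptions about the main index `k`. -/
structure Setup (B B' : Set Idx) (A : Prm G) (k : Idx) : Prop where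
  hB : Clsd B
  hB' : Clsd B'
  sub : B ⊆ B'
  q0D : A.q0.1.D ⊆ B'
  tbD : ∀ a x n, (A.tb a x n).1.D ⊆ B'
  pre : ∀ a, a ≠ 0 → a < k.lam → ∀ x n, k.pre a ≤ (A.tb a x n).1.res B
  op : k.op = A.op0
  full : ∀ (R : (Om → ℕ) → ℕ → Cnd G) (s : Cnd G), (∀ x n, (R x n).1.D ⊆ B') → s.1.D ⊆ B →
    (∀ x n, s.1 ≤ (R x n).1.res B) → ∃ a, a ≠ 0 ∧ a < k.lam ∧ s.1 ≤ k.pre a ∧
      ∀ x n, A.tb a x n ≤ R x n ∧ R x n ≤ A.tb a x n
  nm : IsNm A.q0 A.cv
  base : ∀ γ, ∀ q : Cnd G, q.1.D ⊆ B' → q ≤ A.q0 → ∃ r ≤ q, r.1.D ⊆ B' ∧ ∃ m, r ∈ A.cv γ m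
  new : ∀ N : Om → ℕ → Set (Cnd G), (∀ γ m, ∀ n ∈ N γ m, n.1.D ⊆ B) → ∀ q ≤ A.q0,
    ¬ ∀ γ m, ∀ t ≤ q, (t ∈ A.cv γ m ↔ ∀ t' ≤ t, ∃ t'' ≤ t', ∃ n ∈ N γ m, t'' ≤ n)

/-! ### Parsing paths -/

/-- The least `δ` such that `E` has no element in `[δ, η)`. -/
noncomputable def base (E : Set Om) (η : Om) : Om :=
  (wellFounded_lt : WellFounded ((· < ·) : Om → Om → Prop)).min {δ | ∀ η' ∈ E, δ ≤ η' → ¬ η' < η}
    ⟨η, fun _ _ h => not_lt.2 h⟩

/-- The announcements of `x` up to `η` are coherent, and `x` does not repeat a value between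
announcements. -/
structure Ok (e : Om → ℕ → Om → ℕ) (E : Set Om) (x : Om → ℕ) (η : Om) : Prop where
  coh : ∀ η₁ ∈ E, ∀ η₂ ∈ E, η₁ < η₂ → η₂ ≤ η → x η₁ % 2 = 1 → x η₂ % 2 = 1 →
    ∀ ξ < base E η₁, e (base E η₂) (x η₂ / 2) ξ = e (base E η₁) (x η₁ / 2) ξ
  inj : ∀ η₁ ∈ E, ∀ η₂ ∈ E, η₁ < η₂ → η₂ ≤ η →
    (∀ η₃ ∈ E, η₁ ≤ η₃ → η₃ ≤ η₂ → x η₃ % 2 ≠ 1) → x η₁ ≠ x η₂

/-- The path announces at `η` that the value at `ξ` is `1`. -/
def Ann (e : Om → ℕ → Om → ℕ) (E : Set Om) (x : Om → ℕ) (η ξ : Om) : Prop :=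
  x η % 2 = 1 ∧ ξ < base E η ∧ e (base E η) (x η / 2) ξ = 1

/-- `s` agrees with what is decided by the conditions along `x`. -/
def Prm.Agree (A : Prm G) (f : Om → Ordinal.{0}) (E : Set Om) (η : Om) (x : Om → ℕ)
    (s : Om → ℕ) : Prop := ∀ γ ≤ η, ∀ m, A.cond f E η x ∈ A.cv γ m → s γ = m

/-- `x` is the path of the branch `s`, up to `η`. -/
structure Prm.Live (A : Prm G) (d : Dat) (η : Om) (x : Om → ℕ) (s : Om → ℕ) : Prop where
  mem : η ∈ A.isE d
  valid : Valid d.e (A.isE d) η x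
  ok : Ok d.e (A.isE d) x η
  agree : ∀ η' ∈ A.isE d, η' ≤ η → A.Agree d.f (A.isE d) η' x s

/-- The value at `ξ` is `1`, decided below `δ`. -/
def Prm.Fv (A : Prm G) (d : Dat) (δ : Om) (s : Om → ℕ) (ξ : Om) : Prop :=
  ∃ η < δ, ∃ x, A.Live d η x s ∧ Ann d.e (A.isE d) x η ξ

/-- The continuous map. -/
def Prm.rho (A : Prm G) (k : Idx) (b : Om → ℕ → RO (Cnd G)) (ξ : Om) : RO (Cnd G) :=
  gen {p | k ∈ p.1.D ∧ ∃ δ ≤ p.1.ht, ∃ s : Om → ℕ, (∀ γ < δ, p ∈ b γ (s γ)) ∧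
    A.Fv (dat p.1 k) δ s ξ}

/-! ### The path of a given function -/

/-- A coherent sequence of injections. -/
noncomputable def aa : Om → Om → ℕ := Classical.choose exists_cohInj

/-- The announcing stages. -/
def CC (E Cy : Set Om) : Set Om := {δ | (∀ a, δ ≤ a) ∨ (LimE E δ ∧ δ ∈ Cy)}

/-- The next element of `C` above `η`. -/
noncomputable def nxt (C : Set Om) (η : Om) : Om := by
  classical exact if h : ∃ γ, γ ∈ C ∧ η < γ then
    (wellFounded_lt : WellFounded ((· < ·) : Om → Om → Prop)).min {γ | γ ∈ C ∧ η < γ} h else η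

/-- The number of a function in an enumeration. -/
noncomputable def numF (E : ℕ → Om → ℕ) (z : Om → ℕ) : ℕ := by
  classical exact if h : ∃ n, E n = z then Nat.find h else 0

/-- The path of the function `y`. -/
noncomputable def xpath (e : Om → ℕ → Om → ℕ) (E Cy : Set Om) (y : Om → ℕ) (η : Om) : ℕ := by
  classical exact if η ∈ E then
    (if base E η ∈ CC E Cy then 2 * numF (e (base E η)) (tr (base E η) y) + 1
      else 2 * aa (nxt (CC E Cy) η) η) else 0

/-- Finite modifications of functions. -/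
def lookup (L : List (ℕ × ℕ)) (m : ℕ) : ℕ :=
  match L with
  | [] => m
  | a :: L' => if a.1 = m then a.2 else lookup L' m

/-- Gluing: `e γ n'` below `γ`, then the value `v` at the first element of `E`, then twice a
finite modification of `aa δ` on `E`. -/
noncomputable def glue (δ : Om) (e : Om → ℕ → Om → ℕ) (E : Set Om) (γ : Om) (n' v : ℕ)
    (L : List (ℕ × ℕ)) : Om → ℕ := by
  classical exact fun ξ => if ξ < γ then e γ n' ξ else
    if ξ ∈ E ∧ ξ < δ then (if ∃ η ∈ E, γ ≤ η ∧ η < ξ then 2 * lookup L (aa δ ξ) else v) else 0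

/-- The global operation. -/
noncomputable def G0 : Glo := fun δ e l n => by
  classical exact match n, l with
  | 0, _ => fun _ => 1
  | 1, [y, z₁, z₂] => msk (dei z₁) δ (xpath e (dei z₁) (dei z₂) y)
  | n + 2, [z] =>
    match (Encodable.decode n : Option (ℕ × ℕ × ℕ × List (ℕ × ℕ))) with
    | some (i, n', v, L) =>
      if h : ∃ γ, γ < δ ∧ aa δ γ = i then glue δ e (dei z) (Classical.choose h) n' v L else 0
    | none => 0
  | _, _ => 0

/-! ### The tree of all paths -/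

/-- Level `γ` of the tree. -/
def Lv (e : Om → ℕ → Om → ℕ) (γ : Om) : Set (Om → ℕ) :=
  {z | tr γ z = z ∧ ∀ δ ≤ γ, IsLim δ → tr δ z ∈ range (e δ)}

/-- The system of the tree. -/
def pistar (G : Glo) (γ γ' : Om) (m' m : ℕ) : RO (Cnd G) :=
  gen {p | γ ≤ p.1.ht ∧ γ' ≤ p.1.ht ∧
    IsLeast {n | enumF (Lv p.1.e γ) n = tr γ (enumF (Lv p.1.e γ') m')} m}

end Pool.Agent.KSt
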