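import Pool.Agent.Lib.MP_d9d638_lc.KS.Defs

/-!
# KS, module ExIdx: existence of indices

PROOF. For every `a` choose `s a : ℕ → Idx` with `range (s a) = (q a).D`
(`Set.Countable.exists_eq_range`) and take `Idx.mk lam u s Φ` with
`u a = ⟨(q a).ht, (q a).e, fun n => (q a).f (s a n), fun n => (q a).c (s a n)⟩`. For `j ∈ (q a).D`
one has `s a (num (s a) j) = j` (`Nat.find_spec`), so `k.pre a` and `q a` have the same height,
`e`, `D` and the same `f j`, `c j` for `j ∈ D`.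
-/

set_option autoImplicit false

namespace Pool.Agent.KSt

open Pool.Agent.Lib.SymModel Set

private theorem ExIdx_num {D : ℕ → Idx} {j : Idx} (h : j ∈ range D) : D (num D j) = j := by
  classical
  obtain ⟨n, hn⟩ := h
  have h1 : ∃ n, D n = j := ⟨n, hn⟩
  unfold num
  rw [dif_pos h1]
  exact Nat.find_spec h1

/-- the order does not change if the values outside `D` change -/
private theorem ExIdx_equiv {r q : Raw} (h1 : r.ht = q.ht) (h2 : r.e = q.e) (h3 : r.D = q.D)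
    (h4 : ∀ j ∈ q.D, r.f j = q.f j) (h5 : ∀ j ∈ q.D, r.c j = q.c j) : r ≤ q ∧ q ≤ r := by
  constructor
  · exact ⟨h1.ge, fun δ _ => by rw [h2], h3.ge, fun k hk ξ _ => by rw [h4 k hk],
      fun k hk δ _ => by rw [h5 k hk]⟩
  · exact ⟨h1.le, fun δ _ => by rw [h2], h3.le, fun k hk ξ _ => by rw [h4 k (h3 ▸ hk)],
      fun k hk δ _ => by rw [h5 k (h3 ▸ hk)]⟩

theorem exists_idx (lam : Ordinal.{0}) (q : Ordinal.{0} → Raw) (hc : ∀ a, (q a).D.Countable)
    (hn : ∀ a, (q a).D.Nonempty) (Φ : Op) : ∃ k : Idx, k.lam = lam ∧ k.op = Φ ∧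
      ∀ a, (k.pre a).D = (q a).D ∧ (∀ p : Raw, p ≤ k.pre a ↔ p ≤ q a) ∧
        ∀ p : Raw, k.pre a ≤ p ↔ q a ≤ p := by
  have hs : ∀ a, ∃ s : ℕ → Idx, (q a).D = range s := fun a => (hc a).exists_eq_range (hn a)
  choose s hs using hs
  refine ⟨Idx.mk lam (fun a => ⟨(q a).ht, (q a).e, fun n => (q a).f (s a n),
    fun n => (q a).c (s a n)⟩) s Φ, rfl, rfl, fun a => ?_⟩
  have hD : ((Idx.mk lam (fun a => ⟨(q a).ht, (q a).e, fun n => (q a).f (s a n),
    fun n => (q a).c (s a n)⟩) s Φ).pre a).D = (q a).D := (hs a).symm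
  have h := ExIdx_equiv (r := (Idx.mk lam (fun a => ⟨(q a).ht, (q a).e,
    fun n => (q a).f (s a n), fun n => (q a).c (s a n)⟩) s Φ).pre a) (q := q a) rfl rfl hD
    (fun j hj => by
      change (q a).f (s a (num (s a) j)) = (q a).f j
      rw [ExIdx_num (D := s a) (j := j) (hs a ▸ hj)])
    (fun j hj => by
      change (q a).c (s a (num (s a) j)) = (q a).c j
      rw [ExIdx_num (D := s a) (j := j) (hs a ▸ hj)])
  exact ⟨hD, fun p => ⟨fun hp => hp.trans h.1, fun hp => hp.trans h.2⟩,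
    fun p => ⟨fun hp => h.2.trans hp, fun hp => h.1.trans hp⟩⟩

end Pool.Agent.KSt
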