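import Pool.Agent.Lib.MP_d9d638_lc.KS.TPath
import Pool.Agent.Lib.MP_d9d638_lc.KS.XOk
import Pool.Agent.Lib.MP_d9d638_lc.KS.YLem
import Pool.Agent.Lib.MP_d9d638_lc.KS.Fusion
import Pool.Agent.Lib.MP_d9d638_lc.KS.Amal

/-!
# KS, module TSurj: the map from the branches of the tree is onto

PROOF. Notation: for `p ≤ q`, `ky ∈ p.D`: `C = Cyd dec (p.f ky) (p.c ky)`,
`x = xT p = xpath p.e univ C (ydec dec (trf p.ht (p.f ky)))`, `CC univ C`. As in the modules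
XpP, CofC,
BName, BRho, but with `E = univ` and without the main index: `XH p.e univ C yv p.ht`
(`hE`: `ind (Iio δ) = tr δ (G0 δ _ [] 0) ∈ range (p.e δ)`; the rest from `IsCond`, `y_mem`,
`c_mem`,
`c_clo`); so `x` is valid at all `θ ∈ CC univ C`, `θ ≤ p.ht` (`x_valid`), `Ok` below (`x_ok`);
locality
under `p' ≤ p` (`xpath_congr`, `cc_congr`, `cyd_ext`, `y_ext`). Unboundedness: `fusion` with
`T ξ r = (ky ∈ r.D ∧ ∃ η < r.ht, r.f ky η ≠ 0 ∧ (dec (r.f ky η)).1 = ξ)`: the limit height `θ` is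
in `Cyd` and a limit, so in `CC univ _` (`LimE univ θ ↔ IsLim θ`).
`tset γ m`: for `γ < θ`, `tr γ (xT p) ∈ Lv p.e γ` (valid), so a least number exists. Branch:
`pistar_iff`. `tsurj_rho`: for `t ≤ p` find `t' ≤ t` with `θ₁ < θ₂ < θ₃` in `CC`, `ξ < θ₁`; `base
univ η = η`; take `η = θ₁`, `s γ` = the number at `γ` for `γ < θ₃`; then
`tpath t'.e s = xT t'` below `θ₂` (`enumF (Lv (sc ξ)) (s (sc ξ)) = tr (sc ξ) (xT t')`), so
`Ok`, and `Ann .. θ₁ ξ` iff the decoded value at `ξ` is `1` (`x_ann`) iff `t' ∈ y ξ 1`. If it is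
`1`,
`t' ∈ rsetT`. If `t'' ≤ t'` is in `rsetT (tnm ..) ξ` (with `δ, s', η'`), then `s'` agrees with `s`
below `δ` and `θ₃` (`IsNm.uni`), and `Ok` at the larger of `η'`, `θ₁` gives that the values
announced
at `ξ` by `η'` and by `θ₁` agree (`Ok.coh`), so the value is `1`.
-/

set_option autoImplicit false

namespace Pool.Agent.KSt

open Pool.Agent.Lib.SymModel Set

variable {ky : Idx} {dec : Ordinal.{0} → Om × ℕ} {q p p' : Cnd G0}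
  {y : Om → ℕ → RO (Cnd G0)} {θ η ξ : Om}

/-- The path computed from the condition `p`. -/
noncomputable def xT (ky : Idx) (dec : Ordinal.{0} → Om × ℕ) (p : Raw) : Om → ℕ :=
  xpath p.e univ (Cyd dec (p.f ky) (p.c ky)) (ydec dec (trf p.ht (p.f ky)))

/-- The conditions which decide the number `m` of the node at `γ`. -/
noncomputable def tset (ky : Idx) (dec : Ordinal.{0} → Om × ℕ) (q : Cnd G0) (γ : Om) (m : ℕ) :
    Set (Cnd G0) :=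
  {p | ky ∈ p.1.D ∧ p ≤ q ∧ ∃ θ ∈ CC univ (Cyd dec (p.1.f ky) (p.1.c ky)), θ ≤ p.1.ht ∧ γ < θ ∧
    IsLeast {n | enumF (Lv p.1.e γ) n = tr γ (xT ky dec p.1)} m}

/-- The name of the branch. -/
noncomputable def tnm (ky : Idx) (dec : Ordinal.{0} → Om × ℕ) (q : Cnd G0) (γ : Om) (m : ℕ) :
    RO (Cnd G0) := gen (tset ky dec q γ m)

private theorem TSurj_tr_lt {δ ξ : Om} {z : Om → ℕ} (h : ξ < δ) : tr δ z ξ = z ξ := by
  unfold tr
  exact if_pos h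

private theorem TSurj_tr_ge {δ ξ : Om} {z : Om → ℕ} (h : ¬ ξ < δ) : tr δ z ξ = 0 := by
  unfold tr
  exact if_neg h

private theorem TSurj_tr_tr {δ γ : Om} (h : δ ≤ γ) (z : Om → ℕ) : tr δ (tr γ z) = tr δ z := by
  funext ξ
  by_cases h1 : ξ < δ
  · rw [TSurj_tr_lt h1, TSurj_tr_lt h1, TSurj_tr_lt (h1.trans_le h)]
  · rw [TSurj_tr_ge h1, TSurj_tr_ge h1]

private theorem TSurj_msk (δ : Om) (x : Om → ℕ) : msk univ δ x = tr δ x := by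
  funext ξ
  unfold msk
  by_cases h : ξ < δ
  · rw [TSurj_tr_lt h]
    exact if_pos ⟨mem_univ _, h⟩
  · rw [TSurj_tr_ge h]
    exact if_neg fun h1 => h h1.2

private theorem TSurj_mono {e : Om → ℕ → Om → ℕ} {E Cy : Set Om} {z : Om → ℕ} {θ' : Om}
    (h : XH e E Cy z θ') (hθ : θ ≤ θ') : XH e E Cy z θ :=
  ⟨fun δ hδ => h.supp δ (hδ.trans hθ), fun δ hδ => h.gcl δ (hδ.trans hθ),
    fun δ hδ => h.hE δ (hδ.trans hθ), fun δ hδ => h.hy δ (hδ.trans hθ),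
    fun δ hδ => h.hC δ (hδ.trans hθ), fun δ hδ => h.clo δ (hδ.trans hθ)⟩

private theorem TSurj_lim {δ : Om} (h : IsLim δ) : LimE univ δ := by
  refine ⟨h, fun a ha => ?_⟩
  obtain ⟨b, h1, h2⟩ := h.2 a ha
  exact ⟨b, mem_univ _, h1, h2⟩

private theorem TSurj_cc (hky : ky ∈ p.1.D) (hp : p' ≤ p) (hθp : θ ≤ p.1.ht) :
    θ ∈ CC univ (Cyd dec (p'.1.f ky) (p'.1.c ky)) ↔
      θ ∈ CC univ (Cyd dec (p.1.f ky) (p.1.c ky)) :=
  cc_congr (fun _ _ => Iff.rfl) (cyd_ext hp hky hθp)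

/-- Coherence: an announcement at one place gives the announcement at another place. -/
private theorem TSurj_ann {e : Om → ℕ → Om → ℕ} {E : Set Om} {z : Om → ℕ} {M η₁ η₂ : Om}
    (hok : Ok e E z M) (h1 : η₁ ∈ E) (h2 : η₂ ∈ E) (h1M : η₁ ≤ M) (h2M : η₂ ≤ M)
    (ha : Ann e E z η₁ ξ) (ho : z η₂ % 2 = 1) (hξ : ξ < base E η₂) : Ann e E z η₂ ξ := by
  refine ⟨ho, hξ, ?_⟩
  rcases lt_trichotomy η₁ η₂ with h | h | h
  · rw [hok.coh η₁ h1 η₂ h2 h h2M ha.1 ho ξ ha.2.1]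
    exact ha.2.2
  · rw [← h]
    exact ha.2.2
  · rw [← hok.coh η₂ h2 η₁ h1 h h1M ho ha.1 ξ hξ]
    exact ha.2.2

theorem xT_xh (hy : IsNm q y) (hY : IsY q y ky dec) (hky : ky ∈ p.1.D) (hq : p ≤ q) :
    XH p.1.e univ (Cyd dec (p.1.f ky) (p.1.c ky)) (ydec dec (trf p.1.ht (p.1.f ky))) p.1.ht := by
  refine ⟨p.2.supp, p.2.gcl, fun δ hδ hL => ?_, fun δ hδ hC => y_mem hy hY hq hky hδ hC,
    fun δ hδ hC => c_mem hY hky hδ hC, fun δ hδ hl hc => c_clo hky hδ hl hc⟩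
  have h1 := p.2.gcl δ hδ hL.1 [] (fun z hz => absurd hz List.not_mem_nil) 0
  have h2 : ind (univ ∩ Iio δ) = tr δ (G0 δ (tre δ p.1.e) [] 0) := by
    funext ξ
    have h3 : G0 δ (tre δ p.1.e) [] 0 = fun _ => 1 := rfl
    rw [h3]
    unfold ind
    by_cases hξ : ξ < δ
    · rw [TSurj_tr_lt hξ]
      exact if_pos ⟨mem_univ _, hξ⟩
    · rw [TSurj_tr_ge hξ]
      exact if_neg fun h4 => hξ h4.2
  rw [h2]
  exact h1

theorem xT_ext (hy : IsNm q y) (hY : IsY q y ky dec) (hky : ky ∈ p.1.D) (hp : p' ≤ p)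
    (hq : p' ≤ q) (hθ : θ ∈ CC univ (Cyd dec (p.1.f ky) (p.1.c ky))) (hθp : θ ≤ p.1.ht)
    (hlt : η < θ) : xT ky dec p'.1 η = xT ky dec p.1 η := by
  have hle : Raw.Le p'.1 p.1 := hp
  refine (xpath_congr hθ hlt (fun ε hε => (hle.e ε (hε.le.trans hθp)).symm)
    (fun _ _ => Iff.rfl)
    (fun ξ hξ => (cyd_ext hp hky (hξ.trans hθp)).symm) fun ξ hξ => ?_).symm
  rcases hθ with h1 | ⟨-, -, h1⟩
  · exact absurd hξ (not_lt.2 (h1 ξ))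
  · obtain ⟨ζ, h2, h3⟩ := h1 ξ hξ
    exact (y_ext hy hY hp hq hky ⟨ζ, h2.trans_le hθp, h3⟩).symm

theorem cofT (hY : IsY q y ky dec) (hky : ky ∈ p.1.D) (hq : p ≤ q) (a : Om) :
    ∃ p' ≤ p, ∃ θ ∈ CC univ (Cyd dec (p'.1.f ky) (p'.1.c ky)), a < θ ∧ p.1.ht < θ ∧
      θ ≤ p'.1.ht := by
  obtain ⟨p₀, hp₀, ha₀, -⟩ := ht_ext p a
  have h0 : Raw.Le p₀.1 p.1 := hp₀
  obtain ⟨p', hp', hlt, hlim, hc, hT, -⟩ := fusion p₀
    (fun ξ r => ky ∈ r.1.D ∧ ∃ η < r.1.ht, r.1.f ky η ≠ 0 ∧ (dec (r.1.f ky η)).1 = ξ)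
    (fun _ _ => True)
    (fun ξ t r hrt h => by
      obtain ⟨h2, η, h3, h4, h5⟩ := h
      have hle : Raw.Le r.1 t.1 := hrt
      refine ⟨hle.D h2, η, h3.trans_le hle.ht, ?_, ?_⟩
      · rwa [hle.f ky h2 η h3]
      · rwa [hle.f ky h2 η h3])
    (fun ξ t ht => by
      have h1 : t ≤ p := ht.trans hp₀
      have h1' : Raw.Le t.1 p.1 := h1
      obtain ⟨r, hr, η, hη, hf, hd⟩ := hY.dense t (h1.trans hq) (h1'.D hky) ξ
      have hr' : Raw.Le r.1 t.1 := hr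
      exact ⟨r, hr, hr'.D (h1'.D hky), η, hη, hf, hd⟩)
    (fun _ _ _ _ _ => trivial) (fun _ t _ => ⟨t, le_rfl, trivial⟩)
  have h1 : Raw.Le p'.1 p₀.1 := hp'
  refine ⟨p', hp'.trans hp₀, p'.1.ht, Or.inr ⟨TSurj_lim hlim, hc ky (h1.D (h0.D hky)),
    fun ξ hξ => (hT ξ hξ).2⟩, ha₀.trans hlt, h0.ht.trans_lt hlt, le_rfl⟩

private theorem TSurj_lv (hy : IsNm q y) (hY : IsY q y ky dec) (hky : ky ∈ p.1.D) (hq : p ≤ q)
    (hθ : θ ∈ CC univ (Cyd dec (p.1.f ky) (p.1.c ky))) (hθp : θ ≤ p.1.ht) {γ : Om}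
    (hγ : γ < θ) : tr γ (xT ky dec p.1) ∈ Lv p.1.e γ := by
  refine ⟨TSurj_tr_tr le_rfl _, fun δ hδ hL => ?_⟩
  rw [TSurj_tr_tr hδ, ← TSurj_msk]
  exact x_valid (TSurj_mono (xT_xh hy hY hky hq) hθp) hθ δ (hδ.trans hγ.le) (TSurj_lim hL)

private theorem TSurj_ex (hy : IsNm q y) (hY : IsY q y ky dec) (hky : ky ∈ p.1.D) (hq : p ≤ q)
    (hθ : θ ∈ CC univ (Cyd dec (p.1.f ky) (p.1.c ky))) (hθp : θ ≤ p.1.ht) {γ : Om}
    (hγ : γ < θ) : ∃ m, p ∈ tset ky dec q γ m := by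
  classical
  have h1 := TSurj_lv hy hY hky hq hθ hθp hγ
  rw [← enumF_lv p (hγ.le.trans hθp)] at h1
  have h2 : ∃ n, enumF (Lv p.1.e γ) n = tr γ (xT ky dec p.1) := h1
  exact ⟨Nat.find h2, hky, hq, θ, hθ, hθp, hγ, Nat.find_spec h2, fun n hn => Nat.find_min' h2 hn⟩

private theorem TSurj_down (hy : IsNm q y) (hY : IsY q y ky dec) {γ : Om} {m : ℕ} (hp : p' ≤ p)
    (h : p ∈ tset ky dec q γ m) : p' ∈ tset ky dec q γ m := by
  obtain ⟨hky, hq, θ, hθ, hθp, hγ, hm⟩ := h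
  have hle : Raw.Le p'.1 p.1 := hp
  refine ⟨hle.D hky, hp.trans hq, θ, (TSurj_cc hky hp hθp).2 hθ, hθp.trans hle.ht, hγ, ?_⟩
  have h1 : Lv p'.1.e γ = Lv p.1.e γ :=
    lv_congr fun δ hδ => hle.e δ (hδ.trans (hγ.le.trans hθp))
  have h2 : tr γ (xT ky dec p'.1) = tr γ (xT ky dec p.1) := by
    funext ξ
    by_cases hξ : ξ < γ
    · rw [TSurj_tr_lt hξ, TSurj_tr_lt hξ]
      exact xT_ext hy hY hky hp (hp.trans hq) hθ hθp (hξ.trans hγ)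
    · rw [TSurj_tr_ge hξ, TSurj_tr_ge hξ]
  rw [h1, h2]
  exact hm

private theorem TSurj_mem {γ : Om} {m : ℕ} (h : p ∈ tset ky dec q γ m) :
    p ∈ tnm ky dec q γ m :=
  mem_gen.2 fun q' hq' => ⟨q', le_rfl, p, h, hq'⟩

private theorem TSurj_get (hy : IsNm q y) (hY : IsY q y ky dec) {γ : Om} {m : ℕ}
    (h : p ∈ tnm ky dec q γ m) : ∃ p' ≤ p, p' ∈ tset ky dec q γ m := by
  obtain ⟨r, hr, t, ht, hrt⟩ := mem_gen.1 h p le_rfl
  exact ⟨r, hr, TSurj_down hy hY hrt ht⟩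

private theorem TSurj_uni (hy : IsNm q y) (hY : IsY q y ky dec) {γ : Om} {m m' : ℕ}
    (h : p ∈ tset ky dec q γ m) (h' : p ∈ tnm ky dec q γ m') : m = m' := by
  obtain ⟨r, hr, h1⟩ := TSurj_get hy hY h'
  obtain ⟨_, _, _, _, _, _, h2⟩ := TSurj_down hy hY hr h
  obtain ⟨_, _, _, _, _, _, h3⟩ := h1
  exact h2.unique h3

theorem tnm_br (hy : IsNm q y) (hY : IsY q y ky dec) (hky : ky ∈ p.1.D) (hq : p ≤ q) :
    IsBr p (pistar G0) (tnm ky dec q) := by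
  refine ⟨⟨?_, ?_⟩, ?_⟩
  · intro γ r hr
    have hr' : Raw.Le r.1 p.1 := hr
    obtain ⟨r', h1, θ, hθ, h2, -, h3⟩ := cofT hY (hr'.D hky) (hr.trans hq) γ
    have h1' : Raw.Le r'.1 r.1 := h1
    obtain ⟨m, hm⟩ := TSurj_ex hy hY (h1'.D (hr'.D hky)) ((h1.trans hr).trans hq) hθ h3 h2
    exact ⟨r', h1, m, TSurj_mem hm⟩
  · intro γ m m' r hr h h'
    obtain ⟨r1, h1, h2⟩ := TSurj_get hy hY h
    exact TSurj_uni hy hY h2 ((tnm ky dec q γ m').down h' h1)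
  · intro γ γ' m' m hγ r hr h h'
    refine RO.mem_of_dense _ fun q' hq' => ?_
    obtain ⟨s, hs, h1⟩ := TSurj_get hy hY ((tnm ky dec q γ' m').down h hq')
    refine ⟨s, hs, TSurj_mem ?_⟩
    obtain ⟨h2, h3, θ, hθ, hθs, hγθ, h4⟩ := h1
    have h5 := (pistar_iff s (hγ.trans (hγθ.le.trans hθs)) (hγθ.le.trans hθs) m' m).1
      (RO.down _ h' (hs.trans hq'))
    have h6 : enumF (Lv s.1.e γ') m' = tr γ' (xT ky dec s.1) := h4.1
    rw [h6, TSurj_tr_tr hγ] at h5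
    exact ⟨h2, h3, θ, hθ, hθs, hγ.trans_lt hγθ, h5⟩

private theorem TSurj_path {γ : Om} {m : ℕ} {s : Om → ℕ} (h : p ∈ tset ky dec q γ m)
    (hs : s γ = m) (hγ : γ = sc η) : tpath p.1.e s η = xT ky dec p.1 η := by
  obtain ⟨_, _, _, _, _, _, h1⟩ := h
  have h2 : enumF (Lv p.1.e γ) m = tr γ (xT ky dec p.1) := h1.1
  unfold tpath
  rw [← hγ, hs, h2, TSurj_tr_lt]
  rw [hγ]
  exact lt_sc η

/-- The statement for conditions with two announcing stages above `ξ`. -/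
private theorem TSurj_key {t : Cnd G0} (hy : IsNm q y) (hY : IsY q y ky dec)
    (hky : ky ∈ t.1.D) (hq : t ≤ q) (ξ θ₁ θ₂ : Om)
    (h1 : θ₁ ∈ CC univ (Cyd dec (t.1.f ky) (t.1.c ky)))
    (h2 : θ₂ ∈ CC univ (Cyd dec (t.1.f ky) (t.1.c ky))) (hξ : ξ < θ₁) (h12 : θ₁ < θ₂)
    (h2t : θ₂ ≤ t.1.ht) : t ∈ rhoT (tnm ky dec q) ξ ↔ t ∈ y ξ 1 := by
  classical
  have g1 : LimE univ θ₁ ∧ θ₁ ∈ Cyd dec (t.1.f ky) (t.1.c ky) := by
    rcases h1 with h | h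
    · exact absurd (h ξ) (not_le.2 hξ)
    · exact h
  have g2 : LimE univ θ₂ := by
    rcases h2 with h | h
    · exact absurd (h θ₁) (not_le.2 h12)
    · exact h.1
  have hsc : ∀ ζ < θ₂, sc ζ < θ₂ := by
    intro ζ hζ
    obtain ⟨b, h3, h4⟩ := g2.1.2 ζ hζ
    exact (sc_le h3).trans_lt h4
  have hbase : base univ θ₁ = θ₁ := base_of_lim g1.1 le_rfl fun η' _ h3 => not_lt.2 h3
  have hex : ∃ η < t.1.ht, t.1.f ky η ≠ 0 ∧ (dec (t.1.f ky η)).1 = ξ := by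
    obtain ⟨η', h3, h4, h5⟩ := g1.2.2 ξ hξ
    exact ⟨η', h3.trans (h12.trans_le h2t), h4, h5⟩
  have hv := y_val hY hky hex
  -- facts about the conditions below `t`
  have hfact : ∀ r ≤ t, Ok r.1.e univ (xT ky dec r.1) θ₁ ∧
      (∀ M < θ₂, Ok r.1.e univ (xT ky dec r.1) M) ∧ xT ky dec r.1 θ₁ % 2 = 1 ∧
      (Ann r.1.e univ (xT ky dec r.1) θ₁ ξ ↔ ydec dec (trf r.1.ht (r.1.f ky)) ξ = 1) := by
    intro r hr
    have hle : Raw.Le r.1 t.1 := hr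
    have hk : ky ∈ r.1.D := hle.D hky
    have c1 := (TSurj_cc (dec := dec) hky hr (h12.le.trans h2t)).2 h1
    have c2 := (TSurj_cc (dec := dec) hky hr h2t).2 h2
    have hx := xT_xh hy hY hk (hr.trans hq)
    have hM : ∀ M < θ₂, Ok r.1.e univ (xT ky dec r.1) M := fun M hM =>
      x_ok (TSurj_mono hx (h2t.trans hle.ht)) c2 (mem_univ _) hM
    have hb : base univ θ₁ ∈ CC univ (Cyd dec (r.1.f ky) (r.1.c ky)) := by
      rw [hbase]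
      exact c1
    refine ⟨hM _ h12, hM, xpath_odd (mem_univ _) hb, ?_⟩
    exact x_ann hx (mem_univ _) (h12.trans_le (h2t.trans hle.ht)) hb (by rw [hbase]; exact hξ)
  have hfy : ∀ r ≤ t, r ∈ y ξ (ydec dec (trf r.1.ht (r.1.f ky)) ξ) := by
    intro r hr
    have hle : Raw.Le r.1 t.1 := hr
    refine y_val hY (hle.D hky) ?_
    obtain ⟨η', h3, h4, h5⟩ := hex
    refine ⟨η', h3.trans_le hle.ht, ?_, ?_⟩
    · rwa [hle.f ky hky η' h3]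
    · rwa [hle.f ky hky η' h3]
  have hlev : ∀ γ, γ < θ₂ → ∃ m, t ∈ tset ky dec q γ m := fun γ hγ =>
    TSurj_ex hy hY hky hq h2 h2t hγ
  obtain ⟨s, hs⟩ : ∃ s : Om → ℕ, ∀ γ < θ₂, t ∈ tset ky dec q γ (s γ) := by
    refine ⟨fun γ => if h : γ < θ₂ then Classical.choose (hlev γ h) else 0, fun γ hγ => ?_⟩
    simp only [dif_pos hγ]
    exact Classical.choose_spec (hlev γ hγ)
  constructor
  · intro h
    obtain ⟨r, hr, u, ⟨δ, hδ, s', hs', η, hη, hok, hann⟩, hru⟩ := mem_gen.1 h t le_rfl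
    have hle : Raw.Le r.1 u.1 := hru
    have hηu : η ≤ u.1.ht := (lt_sc η).le.trans (hη.le.trans hδ)
    have hscm : ∀ ζ ≤ η, sc ζ < δ := fun ζ hζ =>
      (sc_le (hζ.trans_lt (lt_sc η))).trans_lt hη
    have hpth : ∀ ζ ≤ η, tpath r.1.e s' ζ = tpath u.1.e s' ζ := fun ζ hζ =>
      tpath_lt hru hδ (fun _ _ => rfl) (hscm ζ hζ)
    have he : ∀ ε ≤ η, r.1.e ε = u.1.e ε := fun ε hε => hle.e ε (hε.trans hηu)
    have hok' : Ok r.1.e univ (tpath r.1.e s') η :=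
      (ok_congr he (fun _ _ => Iff.rfl) hpth).2 hok
    have hann' : Ann r.1.e univ (tpath r.1.e s') η ξ :=
      (ann_congr he (fun _ _ => Iff.rfl) (hpth η le_rfl)).2 hann
    have hagr : ∀ ζ < θ₂, sc ζ < δ → tpath r.1.e s' ζ = xT ky dec r.1 ζ := by
      intro ζ hζ hζδ
      have h3 : r ∈ tset ky dec q (sc ζ) (s (sc ζ)) := TSurj_down hy hY hr (hs _ (hsc ζ hζ))
      have h4 : r ∈ tnm ky dec q (sc ζ) (s' (sc ζ)) := (tnm ky dec q _ _).down (hs' _ hζδ) hru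
      exact TSurj_path h3 (TSurj_uni hy hY h3 h4).symm rfl
    obtain ⟨f1, f2, f3, f4⟩ := hfact r hr
    have hA : Ann r.1.e univ (xT ky dec r.1) θ₁ ξ := by
      rcases lt_or_ge η θ₂ with hη2 | hη2
      · have h3 : Ann r.1.e univ (xT ky dec r.1) η ξ :=
          (ann_congr (fun _ _ => rfl) (fun _ _ => Iff.rfl)
            (hagr η hη2 (hscm η le_rfl))).1 hann'
        exact TSurj_ann (f2 (max η θ₁) (max_lt hη2 h12)) (mem_univ _) (mem_univ _)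
          (le_max_left _ _) (le_max_right _ _) h3 f3 (by rw [hbase]; exact hξ)
      · have h3 : tpath r.1.e s' θ₁ = xT ky dec r.1 θ₁ :=
          hagr θ₁ h12 (hscm θ₁ (h12.le.trans hη2))
        have h4 : Ann r.1.e univ (tpath r.1.e s') θ₁ ξ :=
          TSurj_ann hok' (mem_univ _) (mem_univ _) le_rfl (h12.le.trans hη2) hann'
            (by rw [h3]; exact f3) (by rw [hbase]; exact hξ)
        exact (ann_congr (fun _ _ => rfl) (fun _ _ => Iff.rfl) h3).1 h4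
    have h5 : r ∈ y ξ 1 := by
      have h6 := hfy r hr
      rwa [f4.1 hA] at h6
    have h7 := hy.uni ξ _ _ r (hr.trans hq) ((y ξ _).down hv hr) h5
    rwa [h7] at hv
  · intro h
    have h3 := hy.uni ξ _ _ t hq hv h
    obtain ⟨f1, f2, f3, f4⟩ := hfact t le_rfl
    have hA := f4.2 h3
    have hagr : ∀ ζ < θ₂, tpath t.1.e s ζ = xT ky dec t.1 ζ := fun ζ hζ =>
      TSurj_path (hs _ (hsc ζ hζ)) rfl rfl
    have hmem : t ∈ rsetT (tnm ky dec q) ξ := by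
      refine ⟨θ₂, h2t, s, fun γ hγ => TSurj_mem (hs γ hγ), θ₁, hsc θ₁ h12, ?_, ?_⟩
      · exact (ok_congr (fun _ _ => rfl) (fun _ _ => Iff.rfl)
          fun ζ hζ => hagr ζ (hζ.trans_lt h12)).2 f1
      · exact (ann_congr (fun _ _ => rfl) (fun _ _ => Iff.rfl) (hagr θ₁ h12)).2 hA
    exact mem_gen.2 fun q' hq' => ⟨q', le_rfl, t, hmem, hq'⟩

private theorem TSurj_dense (hy : IsNm q y) (hY : IsY q y ky dec) (hky : ky ∈ p.1.D)
    (hq : p ≤ q) (ξ : Om) : ∃ t ≤ p, (t ∈ rhoT (tnm ky dec q) ξ ↔ t ∈ y ξ 1) := by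
  obtain ⟨t₁, ht₁, θ₁, hc₁, hξ, -, hθ₁⟩ := cofT hY hky hq ξ
  have ht₁' : Raw.Le t₁.1 p.1 := ht₁
  obtain ⟨t₂, ht₂, θ₂, hc₂, h12, -, hθ₂⟩ := cofT hY (ht₁'.D hky) (ht₁.trans hq) θ₁
  have ht₂' : Raw.Le t₂.1 t₁.1 := ht₂
  exact ⟨t₂, ht₂.trans ht₁, TSurj_key hy hY (ht₂'.D (ht₁'.D hky)) ((ht₂.trans ht₁).trans hq)
    ξ θ₁ θ₂ ((TSurj_cc (ht₁'.D hky) ht₂ hθ₁).2 hc₁) hc₂ hξ h12 hθ₂⟩

theorem tnm_rho (hy : IsNm q y) (hY : IsY q y ky dec) (hky : ky ∈ p.1.D) (hq : p ≤ q) (ξ : Om) :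
    p ∈ rhoT (tnm ky dec q) ξ ↔ p ∈ y ξ 1 := by
  constructor
  · intro h
    refine RO.mem_of_dense _ fun r hr => ?_
    have hr' : Raw.Le r.1 p.1 := hr
    obtain ⟨t, ht, he⟩ := TSurj_dense hy hY (hr'.D hky) (hr.trans hq) ξ
    exact ⟨t, ht, he.mp (RO.down _ h (ht.trans hr))⟩
  · intro h
    refine RO.mem_of_dense _ fun r hr => ?_
    have hr' : Raw.Le r.1 p.1 := hr
    obtain ⟨t, ht, he⟩ := TSurj_dense hy hY (hr'.D hky) (hr.trans hq) ξ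
    exact ⟨t, ht, he.mpr (RO.down _ h (ht.trans hr))⟩

end Pool.Agent.KSt
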