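import Pool.Agent.Lib.MP_d9d638_lc.KS.MainA
import Pool.Agent.Lib.MP_d9d638_lc.KS.TSurj
import Pool.Agent.Lib.MP_d9d638_lc.KS.Col

/-!
# KS, module FactsA: the forcing has all the required properties

PROOF. `kt_star`: `π = pistar G0`, `pistar_sys`. Given `r` and names `b i`, `i : Om`: let
`Y i = (rhoT (b i) i)ᶜ` and `y ξ 1 = Y ξ`, `y ξ 0 = (Y ξ)ᶜ`, `y ξ m = ⊥` otherwise, a name of a
function below `r`; `exists_yidx r y`, `add_idx`: `r' ≤ r`, `ky ∈ r'.D`; `c = tnm ky dec r`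
(`tnm_br`, `tnm_rho`). Suppose that for some `i` and `s ≤ r'` with `IsBr s π (b i)` there are no
`t ≤ s`, `γ`, `m` with `t ∈ c γ m`, `t ∉ b i γ m`.
Then for all `t ≤ s`: `t ∈ c γ m ↔ t ∈ b i γ m` (→: assumption;
←: `c`
is total and unique, `b i` is unique: if `t ∈ b i γ m` and `t' ≤ t` decides `c γ m'`, then
`t' ∈ b i γ m'`, so `m' = m`). So `t ∈ rhoT c i ↔ t ∈ rhoT (b i) i` for `t ≤ s` (`rhoT_ext`), and
`t ∈ rhoT c i ↔ t ∈ (rhoT (b i) i)ᶜ`: contradiction (decide).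
`facts`: `ne`: `exists_top`; `clo`: `cnd_closed`; `col`: `col`; `kt`: `kt_star`; `main`:
`main_kur`.
-/

set_option autoImplicit false

namespace Pool.Agent.KSt

open Pool.Agent.Lib.SymModel Set

theorem kt_star : ∃ π : Om → Om → ℕ → ℕ → RO (Cnd G0), (∀ q, IsSys q π) ∧
    ∀ (r : Cnd G0) (b : Om → Om → ℕ → RO (Cnd G0)), ∃ r' ≤ r, ∃ c, IsBr r' π c ∧
      ∀ i, ∀ s ≤ r', IsBr s π (b i) → ∃ t ≤ s, ∃ γ m, t ∈ c γ m ∧ t ∉ b i γ m := by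
  classical
  refine ⟨pistar G0, pistar_sys, fun r b => ?_⟩
  obtain ⟨y, hy1, hy0, hy2⟩ : ∃ y : Om → ℕ → RO (Cnd G0), (∀ ξ, y ξ 1 = (rhoT (b ξ) ξ)ᶜ) ∧
      (∀ ξ, y ξ 0 = ((rhoT (b ξ) ξ)ᶜ)ᶜ) ∧ ∀ ξ m, m ≠ 0 → m ≠ 1 → y ξ m = ⊥ :=
    ⟨fun ξ m => if m = 1 then (rhoT (b ξ) ξ)ᶜ else if m = 0 then ((rhoT (b ξ) ξ)ᶜ)ᶜ else ⊥,
      fun ξ => if_pos rfl, fun ξ => (if_neg (by norm_num)).trans (if_pos rfl),
      fun ξ m h0 h1 => (if_neg h1).trans (if_neg h0)⟩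
  have hy : IsNm r y := by
    refine ⟨fun γ r1 _ => ?_, fun γ m m' r1 _ h1 h2 => ?_⟩
    · by_cases h : ∃ r' ≤ r1, r' ∈ (rhoT (b γ) γ)ᶜ
      · obtain ⟨r', h1, h2⟩ := h
        exact ⟨r', h1, 1, by rw [hy1]; exact h2⟩
      · push Not at h
        refine ⟨r1, le_rfl, 0, ?_⟩
        rw [hy0]
        exact RO.mem_compl.mpr h
    · have key : ∀ m, r1 ∈ y γ m → (m = 0 ∧ r1 ∈ ((rhoT (b γ) γ)ᶜ)ᶜ) ∨
          (m = 1 ∧ r1 ∈ (rhoT (b γ) γ)ᶜ) := by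
        intro m hm
        by_cases h0 : m = 0
        · left
          rw [h0, hy0] at hm
          exact ⟨h0, hm⟩
        · by_cases h1 : m = 1
          · right
            rw [h1, hy1] at hm
            exact ⟨h1, hm⟩
          · rw [hy2 γ m h0 h1] at hm
            exact absurd hm (RO.notMem_bot r1)
      rcases key m h1 with ⟨e1, h3⟩ | ⟨e1, h3⟩
      · rcases key m' h2 with ⟨e2, h4⟩ | ⟨e2, h4⟩
        · rw [e1, e2]
        · exact absurd h4 (RO.mem_compl.mp h3 r1 le_rfl)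
      · rcases key m' h2 with ⟨e2, h4⟩ | ⟨e2, h4⟩
        · exact absurd h3 (RO.mem_compl.mp h4 r1 le_rfl)
        · rw [e1, e2]
  obtain ⟨k, dec, hY⟩ := exists_yidx r y hy
  obtain ⟨r', hr', -, hD⟩ := add_idx r k
  have hk : k ∈ r'.1.D := by
    rw [hD]
    exact mem_insert _ _
  have hc : IsBr r' (pistar G0) (tnm k dec r) := tnm_br hy hY hk hr'
  refine ⟨r', hr', tnm k dec r, hc, fun i s hs hbi => ?_⟩
  by_contra hcon
  have h1 : ∀ γ m, ∀ t ≤ s, t ∈ tnm k dec r γ m → t ∈ b i γ m := by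
    intro γ m t ht h
    by_contra h'
    exact hcon ⟨t, ht, γ, m, h, h'⟩
  have h2 : ∀ γ m, ∀ t ≤ s, t ∈ b i γ m → t ∈ tnm k dec r γ m := by
    intro γ m t ht h
    refine RO.mem_of_dense _ fun q hq => ?_
    obtain ⟨r1, hr1, m', hm'⟩ := hc.nm.tot γ q ((hq.trans ht).trans hs)
    have e := hbi.nm.uni γ m' m r1 (hr1.trans (hq.trans ht))
      (h1 γ m' r1 (hr1.trans (hq.trans ht)) hm') ((b i γ m).down h (hr1.trans hq))
    rw [e] at hm'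
    exact ⟨r1, hr1, hm'⟩
  have h3 : ∀ t ≤ s, (t ∈ rhoT (tnm k dec r) i ↔ t ∈ rhoT (b i) i) := fun t ht =>
    ⟨fun h => rhoT_ext (fun γ m r1 hr1 => ⟨h1 γ m r1 (hr1.trans ht), h2 γ m r1 (hr1.trans ht)⟩) h,
      fun h => rhoT_ext (fun γ m r1 hr1 =>
        ⟨h2 γ m r1 (hr1.trans ht), h1 γ m r1 (hr1.trans ht)⟩) h⟩
  have h4 : ∀ t ≤ s, (t ∈ rhoT (tnm k dec r) i ↔ t ∈ (rhoT (b i) i)ᶜ) := by
    intro t ht
    have hle : Raw.Le t.1 r'.1 := ht.trans hs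
    have h5 := tnm_rho hy hY (hle.D hk) ((ht.trans hs).trans hr') i
    rw [hy1] at h5
    exact h5
  by_cases h : ∃ t ≤ s, t ∈ rhoT (b i) i
  · obtain ⟨t, ht, h5⟩ := h
    exact RO.mem_compl.mp ((h4 t ht).mp ((h3 t ht).mpr h5)) t le_rfl h5
  · push Not at h
    exact h s le_rfl ((h3 s le_rfl).mp ((h4 s le_rfl).mpr (RO.mem_compl.mpr h)))

theorem facts : Facts (Cnd G0) := by
  obtain ⟨p, -⟩ := exists_top G0
  exact ⟨⟨p⟩, cnd_closed G0, fun I _ => col G0 I, kt_star, main_kur⟩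

end Pool.Agent.KSt
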