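import Pool.Agent.Lib.MP_d9d638_lc.KS.OmB

/-!
# KS, module LimR: limits of chains of raw conditions

PROOF. `limf_eq`, `mem_limc`, `lime_eq`: two conditions of the chain which are both defined at the
place agree there, since one extends the other (`Raw.Le`). `limR_le` follows (`ε ≤ r.ht < δ`).
`limR_isCond`: for `k ∈ limD S` and `ξ < δ` there is `r ∈ S` with `k ∈ r.D`, `ξ < r.ht` (take the
smaller of two members of the chain), so below `ξ` everything (`f`, `c`, `e`, hence `tre`, `trf`,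
`c ∩ Iio`) agrees with `r`; `pre`: `limR ≤ r ≤ k.pre _`. At `δ` itself use the hypotheses; note
`tre δ (limR S δ E K).e = tre δ (lime S)` and `(limR S δ E K).c k ∩ Iio δ = limc S k ∩ Iio δ`.
Countability of `limD S`: a countable union.
-/

set_option autoImplicit false

namespace Pool.Agent.KSt

open Pool.Agent.Lib.SymModel Set

variable {S : Set Raw} {G : Glo} {δ : Om} {E : ℕ → Om → ℕ} {K : Set Idx}

private theorem LimR_tre {δ : Om} {e e' : Om → ℕ → Om → ℕ} (h : ∀ ε < δ, e ε = e' ε) :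
    tre δ e = tre δ e' := by
  funext ε n
  unfold tre
  by_cases hε : ε < δ
  · simp only [if_pos hε, h ε hε]
  · simp only [if_neg hε]

private theorem LimR_trf {δ : Om} {f f' : Om → Ordinal.{0}} (h : ∀ ξ < δ, f ξ = f' ξ) :
    trf δ f = trf δ f' := by
  funext ξ
  unfold trf
  by_cases hξ : ξ < δ
  · simp only [if_pos hξ, h ξ hξ]
  · simp only [if_neg hξ]

private theorem LimR_e_self : (limR S δ E K).e δ = E := by
  simp [limR]

private theorem LimR_e_ne {ε : Om} (h : ε ≠ δ) : (limR S δ E K).e ε = lime S ε := by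
  simp [limR, h]

theorem limf_eq (hS : IsChain (· ≤ ·) S) {r : Raw} (hr : r ∈ S) {k : Idx} (hk : k ∈ r.D) {ξ : Om}
    (hξ : ξ < r.ht) : limf S k ξ = r.f k ξ := by
  have h : ∃ r, r ∈ S ∧ k ∈ r.D ∧ ξ < r.ht := ⟨r, hr, hk, hξ⟩
  have h1 : limf S k ξ = (Classical.choose h).f k ξ := by
    unfold limf
    exact dif_pos h
  rw [h1]
  obtain ⟨h2, h3, h4⟩ := Classical.choose_spec h
  rcases hS.total h2 hr with h5 | h5
  · exact h5.f k hk ξ hξ
  · exact (h5.f k h3 ξ h4).symm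

theorem mem_limc (hS : IsChain (· ≤ ·) S) {r : Raw} (hr : r ∈ S) {k : Idx} (hk : k ∈ r.D) {ε : Om}
    (hε : ε ≤ r.ht) : ε ∈ limc S k ↔ ε ∈ r.c k := by
  constructor
  · rintro ⟨r', h2, h3, h4, h6⟩
    rcases hS.total h2 hr with h5 | h5
    · exact (h5.c k hk ε hε).1 h6
    · exact (h5.c k h3 ε h4).2 h6
  · intro h
    exact ⟨r, hr, hk, hε, h⟩

theorem lime_eq (hS : IsChain (· ≤ ·) S) {r : Raw} (hr : r ∈ S) {ε : Om} (hε : ε ≤ r.ht) :
    lime S ε = r.e ε := by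
  have h : ∃ r, r ∈ S ∧ ε ≤ r.ht := ⟨r, hr, hε⟩
  have h1 : lime S ε = (Classical.choose h).e ε := by
    unfold lime
    exact dif_pos h
  rw [h1]
  obtain ⟨h2, h4⟩ := Classical.choose_spec h
  rcases hS.total h2 hr with h5 | h5
  · exact h5.e ε hε
  · exact (h5.e ε h4).symm

theorem limR_le (hS : IsChain (· ≤ ·) S) {r : Raw} (hr : r ∈ S) (h : r.ht < δ) :
    limR S δ E K ≤ r := by
  refine ⟨h.le, fun ε hε => ?_, fun k hk => ⟨r, hr, hk⟩, fun k hk ξ hξ => limf_eq hS hr hk hξ,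
    fun k hk ε hε => ?_⟩
  · rw [LimR_e_ne (hε.trans_lt h).ne]
    exact lime_eq hS hr hε
  · constructor
    · rintro (h1 | ⟨h1, -⟩)
      · exact (mem_limc hS hr hk hε).1 h1
      · exact absurd h1 (hε.trans_lt h).ne
    · intro h1
      exact Or.inl ((mem_limc hS hr hk hε).2 h1)

theorem limR_isCond (hS : IsChain (· ≤ ·) S) (hne : S.Nonempty) (hcnt : S.Countable)
    (hc : ∀ r ∈ S, IsCond G r) (hδ : IsLim δ) (hlt : ∀ r ∈ S, r.ht < δ)
    (hcof : ∀ a < δ, ∃ r ∈ S, a < r.ht) (hE : ∀ n ξ, δ ≤ ξ → E n ξ = 0)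
    (hK : ∀ k ∈ limD S, (∀ a < δ, ∃ b ∈ limc S k, a < b ∧ b < δ) → k ∈ K)
    (hG : ClosedAt δ E (G δ (tre δ (lime S))))
    (hop : ∀ k ∈ limD S, k ∈ K →
      ClosedAt δ E (k.op δ (tre δ (lime S)) (trf δ (limf S k)) (limc S k ∩ Iio δ))) :
    IsCond G (limR S δ E K) := by
  -- a member of the chain which knows `k` and is higher than `ε`
  have hex : ∀ k ∈ limD S, ∀ ε < δ, ∃ r ∈ S, k ∈ r.D ∧ ε < r.ht := by
    rintro k ⟨r0, h0, hk0⟩ ε hε
    obtain ⟨r1, h1, hε1⟩ := hcof ε hε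
    rcases hS.total h0 h1 with h | h
    · exact ⟨r0, h0, hk0, hε1.trans_le h.ht⟩
    · exact ⟨r1, h1, h.D hk0, hε1⟩
  have hce : ∀ {r : Raw}, r ∈ S → ∀ {k : Idx}, k ∈ r.D → ∀ {ε : Om}, ε ≤ r.ht →
      (ε ∈ (limR S δ E K).c k ↔ ε ∈ r.c k) := fun {r} hr {k} hk {ε} hε =>
    (limR_le (E := E) (K := K) hS hr (hlt r hr)).c k hk ε hε
  have hee : ∀ {r : Raw}, r ∈ S → ∀ {ε : Om}, ε ≤ r.ht → (limR S δ E K).e ε = r.e ε :=
    fun {r} hr {ε} hε => (limR_le (E := E) (K := K) hS hr (hlt r hr)).e ε hε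
  have htre : ∀ {r : Raw}, r ∈ S → ∀ {ε : Om}, ε ≤ r.ht →
      tre ε (limR S δ E K).e = tre ε r.e := fun {r} hr {ε} hε =>
    LimR_tre fun ε' hε' => hee hr (hε'.le.trans hε)
  have htreδ : tre δ (limR S δ E K).e = tre δ (lime S) :=
    LimR_tre fun ε' hε' => LimR_e_ne hε'.ne
  have hcδ : ∀ k, ∀ b < δ, (b ∈ (limR S δ E K).c k ↔ b ∈ limc S k) := by
    intro k b hb
    constructor
    · rintro (h | ⟨h, -⟩)
      · exact h
      · exact absurd h hb.ne
    · intro h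
      exact Or.inl h
  refine ⟨?_, ?_, ?_, ?_, ?_, ?_, ?_, ?_⟩
  · obtain ⟨r, hr⟩ := hne
    exact ⟨r, hr, (hc r hr).nil⟩
  · have h1 : (limR S δ E K).D = ⋃ r ∈ S, r.D := by
      ext k
      simp only [mem_iUnion, exists_prop]
      exact Iff.rfl
    rw [h1]
    exact hcnt.biUnion fun r hr => (hc r hr).cnt
  · intro ε hε n ξ hξ
    rcases eq_or_ne ε δ with h | h
    · rw [h, LimR_e_self]
      exact hE n ξ (h ▸ hξ)
    · obtain ⟨r, hr, hεr⟩ := hcof ε (lt_of_le_of_ne hε h)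
      rw [hee hr hεr.le]
      exact (hc r hr).supp ε hεr.le n ξ hξ
  · intro k hk ξ hξ
    obtain ⟨r, hr, hkr, hξr⟩ := hex k hk ξ hξ
    have h1 : (limR S δ E K).f k ξ = r.f k ξ := limf_eq hS hr hkr hξr
    rw [h1]
    rcases (hc r hr).pre k hkr ξ hξr with h | ⟨h2, h3⟩
    · exact Or.inl h
    · exact Or.inr ⟨h2, (limR_le hS hr (hlt r hr)).trans h3⟩
  · rintro k hk ε (⟨r, hr, hkr, hεr, hεc⟩ | ⟨h, -⟩) hε
    · exact (hc r hr).lim k hkr ε hεc hεr
    · rw [h]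
      exact hδ
  · intro k hk ε hε hlim hcl
    rcases eq_or_ne ε δ with h | h
    · subst h
      refine Or.inr ⟨rfl, hK k hk fun a ha => ?_⟩
      obtain ⟨b, hb, hab, hbε⟩ := hcl a ha
      exact ⟨b, (hcδ k b hbε).1 hb, hab, hbε⟩
    · obtain ⟨r, hr, hkr, hεr⟩ := hex k hk ε (lt_of_le_of_ne hε h)
      refine (hce hr hkr hεr.le).2 ((hc r hr).clo k hkr ε hεr.le hlim fun a ha => ?_)
      obtain ⟨b, hb, hab, hbε⟩ := hcl a ha
      exact ⟨b, (hce hr hkr (hbε.le.trans hεr.le)).1 hb, hab, hbε⟩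
  · intro ε hε hlim
    rcases eq_or_ne ε δ with h | h
    · subst h
      rw [LimR_e_self, htreδ]
      exact hG
    · obtain ⟨r, hr, hεr⟩ := hcof ε (lt_of_le_of_ne hε h)
      rw [hee hr hεr.le, htre hr hεr.le]
      exact (hc r hr).gcl ε hεr.le hlim
  · intro k hk ε hεc hε
    rcases eq_or_ne ε δ with h | h
    · subst h
      have hkK : k ∈ K := by
        rcases hεc with ⟨r, hr, -, hεr, -⟩ | ⟨-, h⟩
        · exact absurd (hlt r hr) (not_lt.mpr hεr)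
        · exact h
      have h2 : (limR S ε E K).c k ∩ Iio ε = limc S k ∩ Iio ε := by
        ext b
        exact ⟨fun hb => ⟨(hcδ k b hb.2).1 hb.1, hb.2⟩, fun hb => ⟨(hcδ k b hb.2).2 hb.1, hb.2⟩⟩
      rw [LimR_e_self, htreδ, h2]
      exact hop k hk hkK
    · obtain ⟨r, hr, hkr, hεr⟩ := hex k hk ε (lt_of_le_of_ne hε h)
      have h2 : (limR S δ E K).c k ∩ Iio ε = r.c k ∩ Iio ε := by
        ext b
        have hb' : b < ε → (b ∈ (limR S δ E K).c k ↔ b ∈ r.c k) := fun hb =>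
          hce hr hkr (hb.le.trans hεr.le)
        exact ⟨fun hb => ⟨(hb' hb.2).1 hb.1, hb.2⟩, fun hb => ⟨(hb' hb.2).2 hb.1, hb.2⟩⟩
      have h3 : trf ε ((limR S δ E K).f k) = trf ε (r.f k) :=
        LimR_trf fun ξ hξ => limf_eq hS hr hkr (hξ.trans hεr)
      rw [hee hr hεr.le, htre hr hεr.le, h2, h3]
      exact (hc r hr).kcl k hkr ε ((hce hr hkr hεr.le).1 hεc) hεr.le

end Pool.Agent.KSt
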