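import Pool.Agent.Lib.MP_d9d638_lc.KS.Chn
import Pool.Agent.Lib.MP_d9d638_lc.KS.LimR

/-!
# KS, module LimPath: the chain along a valid path has a limit

PROOF. `E = isE (dat p k)`, `S = A.chn (p.f k) E δ x`. For `η ∈ E`, `η < δ`:
`η' ≤ (cond η x).ht ≤ η` for all `η' ∈ E`, `η' < η` (`Acc.htl`, `Acc.htu`), and `cond ≤ q0` gives
`q0.ht ≤ η < δ`; so the heights in `S` are `< δ` and cofinal in `δ`. By `chn_res`, `p ≤ t.res B`
for `t ∈ S`; so `lime S ε = p.e ε` for `ε < δ` (`lime_eq`), `tre δ (lime S) = tre δ p.e`, and for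
`j ∈ limD S ∩ B`: `j ∈ p.D`, `limf S j = p.f j` below `δ`, `limc S j ∩ Iio δ = p.c j ∩ Iio δ`.
Let `K = {j | j ∈ B ∧ δ ∈ p.c j ∨ j ∉ B ∧ ∀ a < δ, ∃ b ∈ limc S j, a < b ∧ b < δ}` and
`r = limR S δ (p.e δ) K`. `limR_isCond`: `hK`: for `j ∈ B` use `IsCond.clo` of `p`. `hG`:
`IsCond.gcl` of `p`. `hop` for `j ∈ B`: `IsCond.kcl` of `p`. `hop` for `j ∉ B`: `δ ∈ p.c k`
(`limE_mem_c`), so `p.e δ` is closed under `k.op = A.op0` (`Setup.op`) applied to
`tre δ p.e, trf δ (p.f k), p.c k ∩ Iio δ`; apply it to the list `msk E δ x :: l` (the head is in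
the range of `p.e δ` since `x` is valid at `δ`) and the number `Nat.pair m n` with
`enumI (limD S) m = j` (`limD S` is countable and nonempty, `Classical.choose_spec`): by
`isE_tr`, `chn_congr` the chain computed from the restricted data and `msk E δ x` is `S`.
`r.1.D = limD S ⊆ B'` (`chn_D`); `limR_le`; `p ≤ r.res B`: at `δ` itself `δ ∉ limc S j`, and for
`j ∈ B` one has `j ∈ K ↔ δ ∈ p.c j`.
-/

set_option autoImplicit false

namespace Pool.Agent.KSt

open Pool.Agent.Lib.SymModel Set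

private theorem LimPath_limD_countable {G : Glo} {S : Set Raw} (hcnt : S.Countable)
    (hc : ∀ r ∈ S, IsCond G r) : (limD S).Countable := by
  have e : limD S = ⋃ r ∈ S, r.D := by
    ext j
    simp [limD]
  rw [e]
  exact hcnt.biUnion fun r hr => (hc r hr).cnt

private theorem LimPath_enumI {D : Set Idx} (hD : D.Countable) {j : Idx} (hj : j ∈ D) :
    ∃ m, enumI D m = j := by
  have h : ∃ s : ℕ → Idx, range s = D := by
    obtain ⟨s, hs⟩ := hD.exists_eq_range ⟨j, hj⟩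
    exact ⟨s, hs.symm⟩
  have h2 : range (enumI D) = D := by
    unfold enumI
    rw [dif_pos h]
    exact Classical.choose_spec h
  rw [← h2] at hj
  exact hj

theorem lim_path {G : Glo} {B B' : Set Idx} {A : Prm G} {k : Idx} (hS : Setup B B' A k)
    {p : Cnd G} (hk : k ∈ p.1.D) (hp : p ≤ A.q0) {δ : Om} (hδ : δ ≤ p.1.ht)
    (hL : LimE (A.isE (dat p.1 k)) δ) {x : Om → ℕ}
    (hx : Valid p.1.e (A.isE (dat p.1 k)) δ x) :
    ∃ r : Cnd G, r.1.D ⊆ B' ∧ (∀ t ∈ A.chn (p.1.f k) (A.isE (dat p.1 k)) δ x, r.1 ≤ t) ∧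
      p.1 ≤ r.1.res B := by
  classical
  obtain ⟨E, hE⟩ : ∃ E, E = A.isE (dat p.1 k) := ⟨_, rfl⟩
  have hacc : ∀ η ∈ E, A.Acc (dat p.1 k) E η := by
    intro η hη
    rw [hE] at hη ⊢
    exact (isE_iff A _ η).1 hη
  have hchain : IsChain (· ≤ ·) (A.chn (p.1.f k) (A.isE (dat p.1 k)) δ x) :=
    chn_isChain (d := dat p.1 k) hx
  have hres := chn_res (x := x) hS hk hp hδ
  have hkc : δ ∈ p.1.c k := limE_mem_c hk hδ hL
  have hle0 : ∀ η ∈ E, η < δ → A.cond (p.1.f k) E η x ≤ A.q0 := by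
    intro η hη hη'
    rw [hE] at hη ⊢
    exact cond_le_q0 (d := dat p.1 k) hη (valid_mono hη'.le hx)
  rw [← hE] at hL hx hchain hres ⊢
  obtain ⟨S, hSdef⟩ : ∃ S, S = A.chn (p.1.f k) E δ x := ⟨_, rfl⟩
  have hcond : ∀ r ∈ S, IsCond G r := by
    rw [hSdef]
    exact chn_isCond
  have hcnt : S.Countable := by
    rw [hSdef]
    exact chn_countable
  have hSD : ∀ r ∈ S, r.D ⊆ B' := by
    rw [hSdef]
    exact chn_D hS
  rw [← hSdef] at hchain hres ⊢
  have hq0 : A.q0.1 ∈ S := by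
    rw [hSdef]
    exact mem_insert _ _
  have hmem : ∀ η ∈ E, η < δ → (A.cond (p.1.f k) E η x).1 ∈ S := by
    intro η hη hη'
    rw [hSdef]
    exact Or.inr ⟨η, hη, hη', rfl⟩
  have hval : ∀ η < δ, Valid p.1.e E η x := fun η h => valid_mono h.le hx
  have hhtu : ∀ η ∈ E, η < δ → (A.cond (p.1.f k) E η x).1.ht ≤ η := fun η hη hη' =>
    (hacc η hη).htu x (hval η hη') (x η)
  have hlt : ∀ r ∈ S, r.ht < δ := by
    intro r hr
    rw [hSdef] at hr
    rcases hr with rfl | ⟨η, hη, hη', rfl⟩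
    · obtain ⟨a, ha⟩ := hL.1.1
      obtain ⟨η, hη, -, hη'⟩ := hL.2 a ha
      have h1 : Raw.Le (A.cond (p.1.f k) E η x).1 A.q0.1 := hle0 η hη hη'
      exact (h1.ht.trans (hhtu η hη hη')).trans_lt hη'
    · exact (hhtu η hη hη').trans_lt hη'
  have hcof : ∀ a < δ, ∃ r ∈ S, a < r.ht := by
    intro a ha
    obtain ⟨η', h1, h2, h3⟩ := hL.2 a ha
    obtain ⟨η, h4, h5, h6⟩ := hL.2 η' h3
    exact ⟨_, hmem η h4 h6, h2.trans_le ((hacc η h4).htl x (hval η h6) (x η) η' h1 h5)⟩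
  -- a member of the chain with a given index and large height
  have hboth : ∀ j ∈ limD S, ∀ a < δ, ∃ r ∈ S, j ∈ r.D ∧ a < r.ht := by
    rintro j ⟨r0, hr0, hj⟩ a ha
    obtain ⟨r1, hr1, ha1⟩ := hcof a ha
    rcases hchain.total hr0 hr1 with h | h
    · have h' : Raw.Le r0 r1 := h
      exact ⟨r0, hr0, hj, ha1.trans_le h'.ht⟩
    · have h' : Raw.Le r1 r0 := h
      exact ⟨r1, hr1, h'.D hj, ha1⟩
  have hlime : ∀ ε < δ, lime S ε = p.1.e ε := by
    intro ε hε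
    obtain ⟨r, hr, hr'⟩ := hcof ε hε
    have h' : Raw.Le p.1 (r.res B) := hres r hr
    rw [lime_eq hchain hr hr'.le]
    exact (h'.e ε hr'.le).symm
  have htre : tre δ (lime S) = tre δ p.1.e := by
    funext ε n
    unfold tre
    by_cases h : ε < δ
    · rw [if_pos h, if_pos h, hlime ε h]
    · rw [if_neg h, if_neg h]
  have hlimf : ∀ j ∈ limD S, j ∈ B → ∀ ξ < δ, limf S j ξ = p.1.f j ξ := by
    intro j hj hjB ξ hξ
    obtain ⟨r, hr, hjr, hr'⟩ := hboth j hj ξ hξ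
    have h' : Raw.Le p.1 (r.res B) := hres r hr
    rw [limf_eq hchain hr hjr hr']
    exact (h'.f j ⟨hjr, hjB⟩ ξ hr').symm
  have htrf : ∀ j ∈ limD S, j ∈ B → trf δ (limf S j) = trf δ (p.1.f j) := by
    intro j hj hjB
    funext ξ
    unfold trf
    by_cases h : ξ < δ
    · rw [if_pos h, if_pos h, hlimf j hj hjB ξ h]
    · rw [if_neg h, if_neg h]
  have hlimc : ∀ j ∈ limD S, j ∈ B → ∀ ε < δ, (ε ∈ limc S j ↔ ε ∈ p.1.c j) := by
    intro j hj hjB ε hε
    obtain ⟨r, hr, hjr, hr'⟩ := hboth j hj ε hε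
    have h' : Raw.Le p.1 (r.res B) := hres r hr
    rw [mem_limc hchain hr hjr hr'.le]
    exact (h'.c j ⟨hjr, hjB⟩ ε hr'.le).symm
  have hlimc' : ∀ j ∈ limD S, j ∈ B → limc S j ∩ Iio δ = p.1.c j ∩ Iio δ := by
    intro j hj hjB
    ext ε
    constructor
    · rintro ⟨h1, h2⟩
      exact ⟨(hlimc j hj hjB ε h2).1 h1, h2⟩
    · rintro ⟨h1, h2⟩
      exact ⟨(hlimc j hj hjB ε h2).2 h1, h2⟩
  have hDp : ∀ j ∈ limD S, j ∈ B → j ∈ p.1.D := by
    rintro j ⟨r, hr, hj⟩ hjB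
    have h' : Raw.Le p.1 (r.res B) := hres r hr
    exact h'.D ⟨hj, hjB⟩
  have hnotc : ∀ j, δ ∉ limc S j := by
    rintro j ⟨r, hr, -, h1, -⟩
    exact absurd (hlt r hr) (not_lt.2 h1)
  obtain ⟨K, hKdef⟩ : ∃ K : Set Idx, K = {j | (j ∈ B ∧ δ ∈ p.1.c j) ∨
      (j ∉ B ∧ ∀ a < δ, ∃ b ∈ limc S j, a < b ∧ b < δ)} := ⟨_, rfl⟩
  have hKB : ∀ j ∈ B, (j ∈ K ↔ δ ∈ p.1.c j) := by
    intro j hj
    rw [hKdef]
    constructor
    · rintro (⟨-, h⟩ | ⟨h, -⟩)
      · exact h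
      · exact absurd hj h
    · intro h
      exact Or.inl ⟨hj, h⟩
  have hLR : IsCond G (limR S δ (p.1.e δ) K) := by
    refine limR_isCond hchain ⟨_, hq0⟩ hcnt hcond hL.1 hlt hcof (p.2.supp δ hδ) ?_ ?_ ?_
    · intro j hj hc
      by_cases hjB : j ∈ B
      · rw [hKB j hjB]
        refine p.2.clo j (hDp j hj hjB) δ hδ hL.1 fun a ha => ?_
        obtain ⟨b, hb, hab, hbδ⟩ := hc a ha
        exact ⟨b, (hlimc j hj hjB b hbδ).1 hb, hab, hbδ⟩
      · rw [hKdef]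
        exact Or.inr ⟨hjB, hc⟩
    · rw [htre]
      exact p.2.gcl δ hδ hL.1
    · intro j hj hjK
      by_cases hjB : j ∈ B
      · rw [htre, htrf j hj hjB, hlimc' j hj hjB]
        exact p.2.kcl j (hDp j hj hjB) δ ((hKB j hjB).1 hjK) hδ
      · intro l hl n
        obtain ⟨m, hm⟩ := LimPath_enumI (LimPath_limD_countable hcnt hcond) hj
        have h1 := p.2.kcl k hk δ hkc hδ
        rw [hS.op] at h1
        have h2 := h1 (msk E δ x :: l) (by
          intro z hz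
          rcases List.mem_cons.1 hz with rfl | hz
          · exact hx δ le_rfl hL
          · exact hl z hz) (Nat.pair m n)
        have h3 : A.chn (trf δ (p.1.f k))
            (A.isE ⟨tre δ p.1.e, trf δ (p.1.f k), p.1.c k ∩ Iio δ⟩) δ (msk E δ x) = S := by
          rw [hSdef]
          have hEE : ∀ ξ < δ, (ξ ∈ A.isE ⟨tre δ p.1.e, trf δ (p.1.f k), p.1.c k ∩ Iio δ⟩ ↔
              ξ ∈ E) := by
            rw [hE]
            exact isE_tr A p.1 k δ
          refine chn_congr (fun ξ hξ => ?_) hEE (fun ξ hξ hξ' => ?_)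
          · unfold trf
            rw [if_pos hξ]
          · unfold msk
            rw [if_pos ⟨(hEE ξ hξ').1 hξ, hξ'⟩]
        have h4 : A.op0 δ (tre δ p.1.e) (trf δ (p.1.f k)) (p.1.c k ∩ Iio δ) (msk E δ x :: l)
            (Nat.pair m n) =
            j.op δ (tre δ (lime S)) (trf δ (limf S j)) (limc S j ∩ Iio δ) l n := by
          simp only [Prm.op0, h3, Nat.unpair_pair, hm, htre]
        rw [h4] at h2
        exact h2
  refine ⟨⟨limR S δ (p.1.e δ) K, hLR⟩, ?_, fun t ht => limR_le hchain ht (hlt t ht), ?_⟩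
  · rintro j ⟨r, hr, hj⟩
    exact hSD r hr hj
  · refine show Raw.Le p.1 ((limR S δ (p.1.e δ) K).res B) from
      ⟨hδ, ?_, fun j hj => hDp j hj.1 hj.2, fun j hj ξ hξ => (hlimf j hj.1 hj.2 ξ hξ).symm, ?_⟩
    · intro ε hε
      change p.1.e ε = if ε = δ then p.1.e δ else lime S ε
      by_cases h : ε = δ
      · rw [if_pos h, h]
      · rw [if_neg h]
        exact (hlime ε (lt_of_le_of_ne hε h)).symm
    · intro j hj ε hε
      change ε ∈ p.1.c j ↔ ε ∈ limc S j ∪ {ε | ε = δ ∧ j ∈ K}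
      rcases eq_or_lt_of_le hε with h | h
      · subst h
        constructor
        · intro h1
          exact Or.inr ⟨rfl, (hKB j hj.2).2 h1⟩
        · rintro (h1 | ⟨-, h1⟩)
          · exact absurd h1 (hnotc j)
          · exact (hKB j hj.2).1 h1
      · have hlt' : ε < δ := h
        constructor
        · intro h1
          exact Or.inl ((hlimc j hj.1 hj.2 ε hlt').2 h1)
        · rintro (h1 | ⟨h1, -⟩)
          · exact (hlimc j hj.1 hj.2 ε hlt').1 h1
          · exact absurd h1 (ne_of_lt hlt')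

end Pool.Agent.KSt
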