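import Pool.Agent.Lib.MP_d9d638_lc.KS.Res

/-!
# KS, module SmCnd: the conditions with indices in a small set form a small set

PROOF. Let `lm` be an ordinal above all `k.lam`, `k ∈ B` (`B` is small:
`Ordinal.bddAbove_of_small` / `le_ciSup`-like), `lm > 0`. Let `b = Shrink B : Type`,
`L = Shrink (Iio lm) : Type`. To `q` with `q.D ⊆ B` associate
`code q : Om × (Om → ℕ → Om → ℕ) × Set b × (b → Om → L) × (b → Set Om)`: the height; `q.e`
truncated (`0` above the height); `{k | k ∈ q.D}`; `f k ξ` for `k ∈ q.D`, `ξ < q.ht` (these values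
are `< lm` by `IsCond.pre`), `0` otherwise; `q.c k ∩ Iic q.ht` for `k ∈ q.D`, `∅` otherwise.
Equal codes give `q ≤ q'` and `q' ≤ q`. `I` = the subtype of all codes of conditions with indices
in `B`, `en` chooses a condition with the given code.
-/

set_option autoImplicit false

namespace Pool.Agent.KSt

open Pool.Agent.Lib.SymModel Set

/-- The type of codes. -/
abbrev SmCnd_T (B : Set Idx) (lm : Ordinal.{0}) : Type 1 :=
  Om × (Om → ℕ → Om → ℕ) × Set B × (B → Om → Iio lm) × (B → Set Om)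

open Classical in
/-- The code of a raw condition. -/
noncomputable def SmCnd_code (B : Set Idx) (lm : Ordinal.{0}) (h0 : 0 < lm) (q : Raw) :
    SmCnd_T B lm :=
  ⟨q.ht, fun δ n ξ => if δ ≤ q.ht then q.e δ n ξ else 0, {k | k.1 ∈ q.D},
    fun k ξ => if h : k.1 ∈ q.D ∧ ξ < q.ht ∧ q.f k.1 ξ < lm then ⟨q.f k.1 ξ, h.2.2⟩
      else ⟨0, h0⟩,
    fun k => {δ | k.1 ∈ q.D ∧ δ ≤ q.ht ∧ δ ∈ q.c k.1}⟩

theorem SmCnd_lt {G : Glo} {B : Set Idx} {lm : Ordinal.{0}} (h0 : 0 < lm)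
    (hl : ∀ k ∈ B, k.lam ≤ lm) {q : Raw} (hq : IsCond G q) (hB : q.D ⊆ B) {k : Idx}
    (hk : k ∈ q.D) {ξ : Om} (hξ : ξ < q.ht) : q.f k ξ < lm := by
  rcases hq.pre k hk ξ hξ with h | h
  · rw [h]
    exact h0
  · exact h.1.trans_le (hl k (hB hk))

theorem SmCnd_le {G : Glo} {B : Set Idx} {lm : Ordinal.{0}} (h0 : 0 < lm)
    (hl : ∀ k ∈ B, k.lam ≤ lm) {p q : Raw} (hp : IsCond G p) (hq : IsCond G q)
    (hpB : p.D ⊆ B) (hqB : q.D ⊆ B)
    (h : SmCnd_code B lm h0 p = SmCnd_code B lm h0 q) : p ≤ q := by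
  have e1 : p.ht = q.ht := congrArg (fun t => t.1) h
  have e2 := congrArg (fun t => t.2.1) h
  have e3 := congrArg (fun t => t.2.2.1) h
  have e4 := congrArg (fun t => t.2.2.2.1) h
  have e5 := congrArg (fun t => t.2.2.2.2) h
  have hD : ∀ k ∈ q.D, k ∈ p.D := by
    intro k hk
    have i1 : (⟨k, hqB hk⟩ : B) ∈ (SmCnd_code B lm h0 p).2.2.1 := by
      rw [e3]
      exact hk
    exact i1
  refine ⟨e1.ge, fun δ hδ => ?_, fun k hk => hD k hk, fun k hk ξ hξ => ?_,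
    fun k hk δ hδ => ?_⟩
  · funext n ξ
    have i1 := congrFun (congrFun (congrFun e2 δ) n) ξ
    change (if δ ≤ p.ht then p.e δ n ξ else 0) = (if δ ≤ q.ht then q.e δ n ξ else 0) at i1
    rw [if_pos (e1 ▸ hδ), if_pos hδ] at i1
    exact i1
  · have hξp : ξ < p.ht := e1 ▸ hξ
    have hkp := hD k hk
    have i1 := congrFun (congrFun e4 ⟨k, hqB hk⟩) ξ
    have c1 : k ∈ p.D ∧ ξ < p.ht ∧ p.f k ξ < lm := ⟨hkp, hξp, SmCnd_lt h0 hl hp hpB hkp hξp⟩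
    have c2 : k ∈ q.D ∧ ξ < q.ht ∧ q.f k ξ < lm := ⟨hk, hξ, SmCnd_lt h0 hl hq hqB hk hξ⟩
    have i2 : (SmCnd_code B lm h0 p).2.2.2.1 ⟨k, hqB hk⟩ ξ = ⟨p.f k ξ, c1.2.2⟩ := dif_pos c1
    have i3 : (SmCnd_code B lm h0 q).2.2.2.1 ⟨k, hqB hk⟩ ξ = ⟨q.f k ξ, c2.2.2⟩ := dif_pos c2
    have i4 : (⟨p.f k ξ, c1.2.2⟩ : Iio lm) = ⟨q.f k ξ, c2.2.2⟩ := i2.symm.trans (i1.trans i3)
    exact congrArg Subtype.val i4
  · have hδp : δ ≤ p.ht := e1 ▸ hδ
    have hkp := hD k hk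
    have i1 := congrFun e5 ⟨k, hqB hk⟩
    have i2 : (k ∈ p.D ∧ δ ≤ p.ht ∧ δ ∈ p.c k) ↔ (k ∈ q.D ∧ δ ≤ q.ht ∧ δ ∈ q.c k) :=
      Set.ext_iff.1 i1 δ
    constructor
    · intro j
      exact (i2.1 ⟨hkp, hδp, j⟩).2.2
    · intro j
      exact (i2.2 ⟨hk, hδ, j⟩).2.2

theorem small_cnd {G : Glo} (B : Set Idx) [Small.{0} B] : ∃ (I : Type) (en : I → Cnd G),
    (∀ i, (en i).1.D ⊆ B) ∧ ∀ q : Cnd G, q.1.D ⊆ B → ∃ i, q ≤ en i ∧ en i ≤ q := by
  classical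
  obtain ⟨l0, hl0⟩ := Ordinal.bddAbove_of_small (s := range fun k : B => k.1.lam)
  have h0 : (0 : Ordinal.{0}) < l0 + 1 := by
    rw [← Order.succ_eq_add_one]
    exact Order.bot_lt_succ l0
  have hl : ∀ k ∈ B, k.lam ≤ l0 + 1 := fun k hk =>
    (hl0 ⟨⟨k, hk⟩, rfl⟩).trans (le_self_add)
  obtain ⟨lm, hlm⟩ : ∃ lm : Ordinal.{0}, lm = l0 + 1 := ⟨_, rfl⟩
  rw [← hlm] at h0 hl
  let R : Type 1 := {t : SmCnd_T B lm // ∃ q : Cnd G, q.1.D ⊆ B ∧ SmCnd_code B lm h0 q.1 = t}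
  have hR : Small.{0} R := small_subtype _ _
  refine ⟨Shrink.{0} R, fun i => Classical.choose ((equivShrink R).symm i).2, fun i => ?_,
    fun q hq => ?_⟩
  · exact (Classical.choose_spec ((equivShrink R).symm i).2).1
  · let t : R := ⟨SmCnd_code B lm h0 q.1, q, hq, rfl⟩
    refine ⟨equivShrink R t, ?_⟩
    have i1 := Classical.choose_spec ((equivShrink R).symm (equivShrink R t)).2
    obtain ⟨q', hq'⟩ : ∃ q' : Cnd G,
      q' = Classical.choose ((equivShrink R).symm (equivShrink R t)).2 := ⟨_, rfl⟩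
    rw [← hq'] at i1
    have i2 : SmCnd_code B lm h0 q'.1 = SmCnd_code B lm h0 q.1 := by
      rw [i1.2, Equiv.symm_apply_apply]
    change q ≤ Classical.choose ((equivShrink R).symm (equivShrink R t)).2 ∧
      Classical.choose ((equivShrink R).symm (equivShrink R t)).2 ≤ q
    rw [← hq']
    exact ⟨SmCnd_le h0 hl q.2 q'.2 hq i1.1 i2.symm, SmCnd_le h0 hl q'.2 q.2 i1.1 hq i2⟩

end Pool.Agent.KSt
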