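import Pool.Agent.Lib.MP_d9d638_lc.KS.OrdCode
import Pool.Agent.Lib.MP_d9d638_lc.KS.SmCnd

/-!
# KS, module SetupX: existence of the main index

PROOF. `small_cnd` for `B` (`I`, `en`) and for `B'` (`I'`, `en'`). Let
`J = {t : ((Om → ℕ) → ℕ → I') × I // ∀ x n, (en t.2).1 ≤ (en' (t.1 x n)).1.res B}` and
apply `exists_idx_fam J (fun t => en t.1.2)` with `Φ dcd = (Prm.mk q0 cv (tb dcd)).op0`,
`tb dcd a x n = en' (t.1.1 x n)` if `dcd a = some t`, `q0` otherwise. `full`: choose `i' x n` with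
`en' (i' x n)` equivalent to `R x n` and `i` with `en i` equivalent to `s`; `res_mono`.
-/

set_option autoImplicit false

namespace Pool.Agent.KSt

open Pool.Agent.Lib.SymModel Set

theorem exists_setup {G : Glo} {B B' : Set Idx} [Small.{0} B] [Small.{0} B'] (hB : Clsd B)
    (hB' : Clsd B') (sub : B ⊆ B') (q0 : Cnd G) (hq : q0.1.D ⊆ B') (cv : Om → ℕ → RO (Cnd G))
    (nm : IsNm q0 cv)
    (hbase : ∀ γ, ∀ q : Cnd G, q.1.D ⊆ B' → q ≤ q0 → ∃ r ≤ q, r.1.D ⊆ B' ∧ ∃ m, r ∈ cv γ m)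
    (new : ∀ N : Om → ℕ → Set (Cnd G), (∀ γ m, ∀ n ∈ N γ m, n.1.D ⊆ B) → ∀ q ≤ q0,
      ¬ ∀ γ m, ∀ t ≤ q, (t ∈ cv γ m ↔ ∀ t' ≤ t, ∃ t'' ≤ t', ∃ n ∈ N γ m, t'' ≤ n)) :
    ∃ (A : Prm G) (k : Idx), A.q0 = q0 ∧ A.cv = cv ∧ Setup B B' A k := by
  classical
  obtain ⟨I, en, h1, h2⟩ := small_cnd (G := G) B
  obtain ⟨I', en', h1', h2'⟩ := small_cnd (G := G) B'
  let J : Type := {t : ((Om → ℕ) → ℕ → I') × I // ∀ x n,
    (en t.2).1 ≤ (en' (t.1 x n)).1.res B}
  let tb : (Ordinal.{0} → Option J) → Ordinal.{0} → (Om → ℕ) → ℕ → Cnd G := fun dcd a x n =>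
    match dcd a with
    | some t => en' (t.1.1 x n)
    | none => q0
  have tbs : ∀ (dcd : Ordinal.{0} → Option J) (a : Ordinal.{0}) (t : J), dcd a = some t →
      ∀ x n, tb dcd a x n = en' (t.1.1 x n) := by
    intro dcd a t h x n
    show (match dcd a with
      | some t => en' (t.1.1 x n)
      | none => q0) = _
    rw [h]
  have tbn : ∀ (dcd : Ordinal.{0} → Option J) (a : Ordinal.{0}), dcd a = none →
      ∀ x n, tb dcd a x n = q0 := by
    intro dcd a h x n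
    show (match dcd a with
      | some t => en' (t.1.1 x n)
      | none => q0) = _
    rw [h]
  obtain ⟨k, dcd, hk, hk1, hk2⟩ := exists_idx_fam J (fun t => en t.1.2)
    (fun dcd => (Prm.mk q0 cv (tb dcd)).op0)
  refine ⟨Prm.mk q0 cv (tb dcd), k, rfl, rfl,
    ⟨hB, hB', sub, hq, fun a x n => ?_, fun a ha hak x n => ?_, hk,
      fun R s hR hs hRs => ?_, nm, hbase, new⟩⟩
  · show (tb dcd a x n).1.D ⊆ B'
    cases h : dcd a with
    | none =>
      rw [tbn dcd a h]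
      exact hq
    | some t =>
      rw [tbs dcd a t h]
      exact h1' _
  · obtain ⟨t, ht, hp⟩ := hk1 a ha hak
    show k.pre a ≤ (tb dcd a x n).1.res B
    rw [tbs dcd a t ht]
    exact (hp _).2.2 (t.2 x n)
  · choose i' hi' using fun x n => h2' (R x n) (hR x n)
    obtain ⟨i, hi1, hi2⟩ := h2 s hs
    have hi3 : (en i).1 ≤ s.1 := hi2
    let t : J := ⟨(i', i), fun x n =>
      (hi3.trans (hRs x n)).trans (res_mono (show (R x n).1 ≤ (en' (i' x n)).1 from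
        (hi' x n).1))⟩
    obtain ⟨a, ha0, hak, had⟩ := hk2 t
    refine ⟨a, ha0, hak, ?_, fun x n => ?_⟩
    · obtain ⟨t', ht', hp⟩ := hk1 a ha0 hak
      have e : t' = t := Option.some.inj (ht'.symm.trans had)
      subst e
      exact (hp s.1).1.2 hi1
    · show tb dcd a x n ≤ R x n ∧ R x n ≤ tb dcd a x n
      rw [tbs dcd a t had]
      exact ⟨(hi' x n).2, (hi' x n).1⟩

end Pool.Agent.KSt
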