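import Pool.Agent.Lib.MP_d9d638_lc.KS.OrdCode
import Pool.Agent.Lib.MP_d9d638_lc.KS.CloseOff
import Pool.Agent.Lib.MP_d9d638_lc.KS.Amal
import Pool.Agent.Lib.MP_d9d638_lc.KS.Succ

/-!
# KS, module YIdx: every name of a function has an index

PROOF. `close_off` for `q`, `J = Om`, `T ξ r = ∃ m, r ∈ y ξ m` (`hy.tot`), `A` = the (countable,
hence small) index set of `q`: `B`. `small_cnd` for `B`: `I`, `en`. Let
`I₀ = {t : Om × ℕ × I // en t.2.2 ∈ y t.1 t.2.1}`, `exists_idx_fam I₀ (fun t => en t.1.2.2)` with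
the operation `yop dec`, `dec a = (t.1.1, t.1.2.1)` if `dcd a = some t`, `dec a = (ξ₀, 0)`
otherwise (`Φ dcd = yop (dec of dcd)`). `val`: `IsCond.pre` gives `p ≤ k.pre a`, so `p ≤ en i`.
`dense`: `p ≤ q`, so `p.res B ≤ q` (`res_le`), there is `r ≤ p.res B` with indices in `B` that
decides `y ξ` (as `m`), `r` is equivalent to some `en i`, `amal` gives `p₁ ≤ p`, `p₁ ≤ r ≤ en i`,
and `succ_step` for `p₁`, `k` and the ordinal of `(ξ, m, i)` gives `p'`.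
-/

set_option autoImplicit false

namespace Pool.Agent.KSt

open Pool.Agent.Lib.SymModel Set

/-- The decoding of an ordinal. -/
private noncomputable def YIdx_dec {I₀ : Type} (φ : I₀ → Om × ℕ) (o : Option I₀) : Om × ℕ :=
  o.elim (Classical.arbitrary Om, 0) φ

theorem exists_yidx {G : Glo} (q : Cnd G) (y : Om → ℕ → RO (Cnd G)) (hy : IsNm q y) :
    ∃ (k : Idx) (dec : Ordinal.{0} → Om × ℕ), IsY q y k dec := by
  have hc : Countable q.1.D := q.2.cnt.to_subtype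
  have hsm : Small.{0} q.1.D := Countable.toSmall _
  obtain ⟨B, hqB, hBs, hB, hBd⟩ := close_off q Om (fun ξ r => ∃ m, r ∈ y ξ m)
    (fun ξ r hr => hy.tot ξ r hr) q.1.D
  obtain ⟨I, en, hen, hcov⟩ := small_cnd (G := G) B
  obtain ⟨k, dcd, hop, hpre, hsurj⟩ := exists_idx_fam
    {t : Om × ℕ × I // en t.2.2 ∈ y t.1 t.2.1} (fun t => en t.1.2.2)
    (fun d => yop fun a => YIdx_dec (fun t => (t.1.1, t.1.2.1)) (d a))
  refine ⟨k, fun a => YIdx_dec (fun t => (t.1.1, t.1.2.1)) (dcd a), ?_, hop, ?_⟩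
  · intro p hk η hη h0
    rcases p.2.pre k hk η hη with h1 | ⟨h1, h2⟩
    · exact absurd h1 h0
    · obtain ⟨t, ht, h3⟩ := hpre _ h0 h1
      have h4 : p ≤ en t.1.2.2 := (h3 p.1).1.1 h2
      have h5 := (y t.1.1 t.1.2.1).down t.2 h4
      change p ∈ y (YIdx_dec _ (dcd (p.1.f k η))).1 (YIdx_dec _ (dcd (p.1.f k η))).2
      rw [ht]
      exact h5
  · intro p hp hk ξ
    have h1 : Cnd.res hB p ≤ q := res_le hqB hp
    obtain ⟨r, hr, hrB, m, hm⟩ := hBd ξ (Cnd.res hB p) (fun j hj => hj.2) h1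
    obtain ⟨i, hi1, hi2⟩ := hcov r hrB
    have h2 : en i ∈ y ξ m := (y ξ m).down hm hi2
    obtain ⟨p₁, hp1, hp2, -, hD, -⟩ := amal hB p r hrB hr
    obtain ⟨a, ha0, hal, hda⟩ := hsurj ⟨(ξ, m, i), h2⟩
    obtain ⟨t, ht, h3⟩ := hpre a ha0 hal
    have h4 : t = ⟨(ξ, m, i), h2⟩ := by
      rw [hda] at ht
      exact (Option.some_inj.1 ht).symm
    subst h4
    have h5 : p₁.1 ≤ k.pre a := (h3 p₁.1).1.2 (hp2.trans hi1)
    obtain ⟨p', h6, h7, h8, h9⟩ := succ_step p₁ k a (Or.inr ⟨hal, h5⟩)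
    have hk1 : k ∈ p₁.1.D := by
      rw [hD]
      exact Or.inl hk
    have h10 := h9 hk1
    refine ⟨p', h6.trans hp1, p₁.1.ht, ?_, ?_, ?_⟩
    · rw [h7]
      exact lt_sc _
    · rw [h10]
      exact ha0
    · change (YIdx_dec _ (dcd (p'.1.f k p₁.1.ht))).1 = ξ
      rw [h10, hda]
      rfl

end Pool.Agent.KSt
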