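import Pool.Agent.Lib.MP_d9d638_lc.KS.BBr
import Pool.Agent.Lib.MP_d9d638_lc.KS.BRho
import Pool.Agent.Lib.MP_d9d638_lc.KS.Cont
import Pool.Agent.Lib.MP_d9d638_lc.KS.SetupX
import Pool.Agent.Lib.MP_d9d638_lc.KS.YIdx
import Pool.Agent.Lib.MP_d9d638_lc.KS.AddIdx
import Pool.Agent.Lib.MP_d9d638_lc.KS.Closed

/-!
# KS, module MainA: every system with many branches is strong

PROOF. Given `q, π`, `hsys`, `hkur`, `r ≤ q`. (1) `close_off` for `r`, `J = Om × Om × ℕ`,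
`T (γ, γ', m') t = (γ ≤ γ' → ∃ m, t ∈ π γ γ' m' m)`, starting from `r.D`: `B ⊇ r.D` (so `q1 = r`).
(2) `small_cnd` for `B`: `I`, `en`. Apply `hkur` at `r` to the type `Om → ℕ → Set I` and the
family
`b N γ m = gen {en i | i ∈ N γ m}`: `r₁ ≤ r`, `c` with `IsBr r₁ π c`. (3) `close_off` for `r₁`,
`J = Om`, `T γ t = ∃ m, t ∈ c γ m`, starting from `B ∪ r₁.D`: `B'`. (4) The hypothesis `new` of
`exists_setup` (for `q0 = r₁`, `cv = c`): given `N : Om → ℕ → Set (Cnd G0)` with indices in `B`,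
let
`N' γ m = {i | ∃ n ∈ N γ m, n ≤ en i ∧ en i ≤ n}`; if the equivalence held below `q' ≤ r₁` then
`t ∈ c γ m ↔ t ∈ b N' γ m` for all `t ≤ q'`, so `IsBr q' π (b N')`, and `hkur` gives a
contradiction. (5) `exists_setup`: `A`, `k`. `add_idx`: `r' ≤ r₁` with `k ∈ r'.D`. Take
`ρ = A.rho k`: `ext` is `rho_ext`, `cont` is `rho_cont`. `surj`: given `s ≤ r'` and `Y`, let
`y ξ 1 = Y ξ`, `y ξ 0 = (Y ξ)ᶜ`, `y ξ m = ⊥` otherwise, a name of a function below `s`;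
`exists_yidx` for `s`, `add_idx`: `s' ≤ s` with `ky ∈ s'.D`; the branch is `bnm A k ky dec s`:
`bnm_br` (for `q1 = r`), `bnm_rho`.
-/

set_option autoImplicit false

namespace Pool.Agent.KSt

open Pool.Agent.Lib.SymModel Set

private theorem MainA_nm {P : Type 1} [Preorder P] {p q : P} {b : Om → ℕ → RO P} (h : IsNm q b)
    (hp : p ≤ q) : IsNm p b :=
  ⟨fun γ r hr => h.tot γ r (hr.trans hp), fun γ m m' r hr => h.uni γ m m' r (hr.trans hp)⟩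

private theorem MainA_sys {P : Type 1} [Preorder P] {p q : P} {π : Om → Om → ℕ → ℕ → RO P}
    (h : IsSys q π) (hp : p ≤ q) : IsSys p π :=
  ⟨fun γ γ' m' hγ r hr => h.tot γ γ' m' hγ r (hr.trans hp),
    fun γ γ' m' m n hγ r hr => h.uni γ γ' m' m n hγ r (hr.trans hp),
    fun γ γ' γ'' m'' m' m hγ hγ' r hr => h.coh γ γ' γ'' m'' m' m hγ hγ' r (hr.trans hp)⟩

/-- A name which is equal to a branch is a branch. -/
private theorem MainA_br {P : Type 1} [Preorder P] {p q : P} {π : Om → Om → ℕ → ℕ → RO P}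
    {b c : Om → ℕ → RO P} (h : IsBr q π c) (hp : p ≤ q)
    (hbc : ∀ γ m, ∀ t ≤ p, (t ∈ c γ m ↔ t ∈ b γ m)) : IsBr p π b := by
  refine ⟨⟨fun γ r hr => ?_, fun γ m m' r hr h1 h2 => ?_⟩, fun γ γ' m' m hγ r hr h1 h2 => ?_⟩
  · obtain ⟨r', hr', m, hm⟩ := h.nm.tot γ r (hr.trans hp)
    exact ⟨r', hr', m, (hbc γ m r' (hr'.trans hr)).1 hm⟩
  · exact h.nm.uni γ m m' r (hr.trans hp) ((hbc γ m r hr).2 h1) ((hbc γ m' r hr).2 h2)
  · exact (hbc γ m r hr).1 (h.coh γ γ' m' m hγ r (hr.trans hp) ((hbc γ' m' r hr).2 h1) h2)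

/-- The name of the indicator function of a name of a set. -/
private noncomputable def MainA_y (Y : Om → RO (Cnd G0)) (ξ : Om) (m : ℕ) : RO (Cnd G0) := by
  classical exact if m = 1 then Y ξ else if m = 0 then (Y ξ)ᶜ else ⊥

private theorem MainA_ynm (Y : Om → RO (Cnd G0)) (s : Cnd G0) : IsNm s (MainA_y Y) := by
  have y1 : ∀ ξ, MainA_y Y ξ 1 = Y ξ := fun ξ => if_pos rfl
  have y0 : ∀ ξ, MainA_y Y ξ 0 = (Y ξ)ᶜ := fun ξ => (if_neg zero_ne_one).trans (if_pos rfl)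
  have yn : ∀ ξ m, m ≠ 1 → m ≠ 0 → MainA_y Y ξ m = ⊥ := fun ξ m h1 h0 =>
    (if_neg h1).trans (if_neg h0)
  refine ⟨fun ξ r _ => ?_, fun ξ m m' r _ h h' => ?_⟩
  · by_cases h : ∃ r' ≤ r, r' ∈ Y ξ
    · obtain ⟨r', hr', h⟩ := h
      exact ⟨r', hr', 1, by rw [y1]; exact h⟩
    · push Not at h
      exact ⟨r, le_rfl, 0, by rw [y0]; exact RO.mem_compl.2 h⟩
  · have key : ∀ j, r ∈ MainA_y Y ξ j → j = 1 ∧ r ∈ Y ξ ∨ j = 0 ∧ r ∈ (Y ξ)ᶜ := by
      intro j hj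
      by_cases h1 : j = 1
      · subst h1
        rw [y1] at hj
        exact Or.inl ⟨rfl, hj⟩
      · by_cases h0 : j = 0
        · subst h0
          rw [y0] at hj
          exact Or.inr ⟨rfl, hj⟩
        · rw [yn ξ j h1 h0] at hj
          exact absurd hj (RO.notMem_bot r)
    rcases key m h with ⟨e, h1⟩ | ⟨e, h1⟩ <;> rcases key m' h' with ⟨e', h2⟩ | ⟨e', h2⟩
    · rw [e, e']
    · exact absurd h1 (RO.mem_compl.1 h2 r le_rfl)
    · exact absurd h2 (RO.mem_compl.1 h1 r le_rfl)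
    · rw [e, e']

theorem main_kur (q : Cnd G0) (π : Om → Om → ℕ → ℕ → RO (Cnd G0)) (hsys : IsSys q π)
    (hkur : Kur q π) : ∀ r ≤ q, ∃ r' ≤ r, ∃ ρ, IsStr r' π ρ := by
  classical
  intro r hr
  have hsysr : IsSys r π := MainA_sys hsys hr
  -- (1)
  have hrc : Countable r.1.D := r.2.cnt.to_subtype
  have hrs : Small.{0} r.1.D := Countable.toSmall _
  obtain ⟨B, hrB, hBs, hB, hBd⟩ := close_off r (Om × Om × ℕ)
    (fun j t => j.1 ≤ j.2.1 → ∃ m, t ∈ π j.1 j.2.1 j.2.2 m) (by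
      rintro ⟨γ, γ', m'⟩ t ht
      by_cases hγ : γ ≤ γ'
      · obtain ⟨t', ht', m, hm⟩ := hsysr.tot γ γ' m' hγ t ht
        exact ⟨t', ht', fun _ => ⟨m, hm⟩⟩
      · exact ⟨t, le_rfl, fun h => absurd h hγ⟩) r.1.D
  -- (2)
  obtain ⟨I, en, hen, hcov⟩ := small_cnd (G := G0) B
  obtain ⟨r₁, hr₁, c, hbr, hnew⟩ := hkur (Om → ℕ → Set I)
    (fun N γ m => gen {n | ∃ i ∈ N γ m, n = en i}) r hr
  -- (3)
  have hr₁c : Countable r₁.1.D := r₁.2.cnt.to_subtype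
  have hr₁s : Small.{0} r₁.1.D := Countable.toSmall _
  have hBU : Small.{0} (B ∪ r₁.1.D : Set Idx) := small_union B _
  obtain ⟨B', hBB', hBs', hB', hBd'⟩ := close_off r₁ Om (fun γ t => ∃ m, t ∈ c γ m)
    (fun γ t ht => hbr.nm.tot γ t ht) (B ∪ r₁.1.D)
  -- (4), (5)
  obtain ⟨A, k, hA0, hAc, hS⟩ := exists_setup hB hB' (fun j hj => hBB' (Or.inl hj)) r₁
    (fun j hj => hBB' (Or.inr hj)) c hbr.nm (fun γ t htB ht => by
      obtain ⟨t', ht', h1, m, hm⟩ := hBd' γ t htB ht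
      exact ⟨t', ht', h1, m, hm⟩) (by
      intro N hN q' hq' H
      have hiff : ∀ γ m, ∀ t ≤ q', (t ∈ c γ m ↔
          t ∈ gen {n | ∃ i ∈ {i | ∃ n ∈ N γ m, n ≤ en i ∧ en i ≤ n}, n = en i}) := by
        intro γ m t ht
        rw [H γ m t ht, mem_gen]
        constructor
        · intro h t' ht'
          obtain ⟨t'', ht'', n, hn, hle⟩ := h t' ht'
          obtain ⟨i, hi1, hi2⟩ := hcov n (hN γ m n hn)
          exact ⟨t'', ht'', en i, ⟨i, ⟨n, hn, hi1, hi2⟩, rfl⟩, hle.trans hi1⟩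
        · intro h t' ht'
          obtain ⟨t'', ht'', x, ⟨i, ⟨n, hn, hi1, hi2⟩, rfl⟩, hle⟩ := h t' ht'
          exact ⟨t'', ht'', n, hn, hle.trans hi2⟩
      have hbr' := MainA_br hbr hq' hiff
      obtain ⟨q'', hq'', γ, m, h1, h2⟩ := hnew
        (fun γ m => {i | ∃ n ∈ N γ m, n ≤ en i ∧ en i ≤ n}) q' hq' hbr'
      exact h2 ((hiff γ m q'' hq'').1 h1))
  obtain ⟨r', hr', -, hD'⟩ := add_idx r₁ k
  have hk : k ∈ r'.1.D := by
    rw [hD']
    exact Or.inl rfl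
  have hr'0 : r' ≤ A.q0 := by
    rw [hA0]
    exact hr'
  refine ⟨r', hr'.trans hr₁, A.rho k, ?_, ?_, ?_⟩
  · intro s _ b b' hbb ξ hρ
    exact rho_ext hbb hρ
  · intro s hs b hb α
    have hs' : Raw.Le s.1 r'.1 := hs
    obtain ⟨s', hs', γ, hγ⟩ := rho_cont hS (hs'.D hk) (hs.trans hr'0) hb.nm α
    exact ⟨s', hs', γ, fun b' t ht hb' hag ξ hξ => hγ b' t ht hb'.nm hag ξ hξ⟩
  · intro s hs Y
    have hy := MainA_ynm Y s
    obtain ⟨ky, dec, hY⟩ := exists_yidx s (MainA_y Y) hy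
    obtain ⟨s', hss, -, hDs⟩ := add_idx s ky
    have hs1 : Raw.Le s.1 r'.1 := hs
    have hs2 : Raw.Le s'.1 s.1 := hss
    have hks : k ∈ s'.1.D := hs2.D (hs1.D hk)
    have hkys : ky ∈ s'.1.D := by
      rw [hDs]
      exact Or.inl rfl
    have hp : s' ≤ A.q0 := (hss.trans hs).trans hr'0
    have h01 : A.q0 ≤ r := by
      rw [hA0]
      exact hr₁
    have hcv : IsBr A.q0 π A.cv := by
      rw [hA0, hAc]
      exact hbr
    refine ⟨s', hss, bnm A k ky dec s, bnm_br hS hy hY hks hkys hp hss hsysr hrB h01 hcv ?_, ?_⟩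
    · intro γ γ' m' hγ t htB ht
      obtain ⟨t', ht', h1, h2⟩ := hBd (γ, γ', m') t htB ht
      exact ⟨t', ht', h1, h2 hγ⟩
    · intro ξ t ht
      have ht' : Raw.Le t.1 s'.1 := ht
      have h1 := bnm_rho hS hy hY (ht'.D hks) (ht'.D hkys) (ht.trans hp) (ht.trans hss) ξ
      have y1 : MainA_y Y ξ 1 = Y ξ := if_pos rfl
      rw [h1, y1]

end Pool.Agent.KSt
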