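import Pool.Agent.Lib.MP_d9d638_lc.KS.Defs2
import Pool.Agent.Lib.MP_d9d638_lc.KS.OmB

/-!
# KS, module MskL: locality of the recursion

PROOF. The lemmas on `msk`, `Valid`, `cond` are direct (`LimE E δ'` for `δ' ≤ δ` depends only on
`E ∩ Iio δ`). `acc_congr`: all clauses of `Acc` at `η` depend only on `d.f ξ`, `ξ ≤ η`,
`d.e ε`, `ε ≤ η`, `d.c` up to `η`, `E ∩ Iio η` (for `cond` at `η' < η` use `cond_congr`). `isE_iff`:
`WellFounded.fix_eq` and `acc_congr` for the sets `{η' | η' < η ∧ η' ∈ isE}` and `isE`.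
`isE_congr`: induction on `η`. `isE_ext`, `isE_tr`: special cases (`tre`, `trf`).
-/

set_option autoImplicit false

namespace Pool.Agent.KSt

open Pool.Agent.Lib.SymModel Set

variable {G : Glo} {e e' : Om → ℕ → Om → ℕ} {E E' : Set Om} {δ δ' η : Om} {x x' : Om → ℕ}

private theorem MskL_in {ξ : Om} (h1 : ξ ∈ E) (h2 : ξ < δ) : msk E δ x ξ = x ξ := by
  unfold msk
  exact if_pos ⟨h1, h2⟩

private theorem MskL_out {ξ : Om} (h : ¬ (ξ ∈ E ∧ ξ < δ)) : msk E δ x ξ = 0 := by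
  unfold msk
  exact if_neg h

private theorem MskL_tr_in {ξ : Om} (h : ξ < δ) : tr δ x ξ = x ξ := by
  unfold tr
  exact if_pos h

private theorem MskL_tr_out {ξ : Om} (h : ¬ ξ < δ) : tr δ x ξ = 0 := by
  unfold tr
  exact if_neg h

theorem msk_congr (hE : ∀ ξ < δ, (ξ ∈ E ↔ ξ ∈ E')) (hx : ∀ ξ ∈ E, ξ < δ → x ξ = x' ξ) :
    msk E δ x = msk E' δ x' := by
  funext ξ
  by_cases h : ξ ∈ E ∧ ξ < δ
  · rw [MskL_in h.1 h.2, MskL_in ((hE ξ h.2).1 h.1) h.2, hx ξ h.1 h.2]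
  · rw [MskL_out h, MskL_out fun h' => h ⟨(hE ξ h'.2).2 h'.1, h'.2⟩]

theorem msk_msk (h : δ' ≤ δ) : msk E δ' (msk E δ x) = msk E δ' x :=
  msk_congr (fun _ _ => Iff.rfl) fun _ h1 h2 => MskL_in h1 (h2.trans_le h)

theorem tr_msk (h : δ' ≤ δ) : tr δ' (msk E δ x) = msk E δ' x := by
  funext ξ
  by_cases h1 : ξ < δ'
  · rw [MskL_tr_in h1]
    by_cases h2 : ξ ∈ E
    · rw [MskL_in h2 (h1.trans_le h), MskL_in h2 h1]
    · rw [MskL_out fun h3 => h2 h3.1, MskL_out fun h3 => h2 h3.1]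
  · rw [MskL_tr_out h1, MskL_out fun h3 => h1 h3.2]

theorem limE_congr (hE : ∀ ξ < δ, (ξ ∈ E ↔ ξ ∈ E')) : LimE E δ ↔ LimE E' δ := by
  unfold LimE
  constructor
  · rintro ⟨h1, h2⟩
    refine ⟨h1, fun a ha => ?_⟩
    obtain ⟨b, h3, h4, h5⟩ := h2 a ha
    exact ⟨b, (hE b h5).1 h3, h4, h5⟩
  · rintro ⟨h1, h2⟩
    refine ⟨h1, fun a ha => ?_⟩
    obtain ⟨b, h3, h4, h5⟩ := h2 a ha
    exact ⟨b, (hE b h5).2 h3, h4, h5⟩

private theorem MskL_valid (he : ∀ ε ≤ δ, e ε = e' ε) (hE : ∀ ξ < δ, (ξ ∈ E ↔ ξ ∈ E'))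
    (hx : ∀ ξ ∈ E, ξ < δ → x ξ = x' ξ) (h : Valid e E δ x) : Valid e' E' δ x' := by
  intro δ₁ h1 h2
  have hE1 : ∀ ξ < δ₁, (ξ ∈ E ↔ ξ ∈ E') := fun ξ h3 => hE ξ (h3.trans_le h1)
  have h3 := h δ₁ h1 ((limE_congr hE1).2 h2)
  rw [msk_congr hE1 fun ξ h4 h5 => hx ξ h4 (h5.trans_le h1), he δ₁ h1] at h3
  exact h3

theorem valid_congr (he : ∀ ε ≤ δ, e ε = e' ε) (hE : ∀ ξ < δ, (ξ ∈ E ↔ ξ ∈ E'))
    (hx : ∀ ξ ∈ E, ξ < δ → x ξ = x' ξ) : Valid e E δ x ↔ Valid e' E' δ x' :=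
  ⟨MskL_valid he hE hx, MskL_valid (fun ε h => (he ε h).symm) (fun ξ h => (hE ξ h).symm)
    fun ξ h1 h2 => (hx ξ ((hE ξ h2).2 h1) h2).symm⟩

theorem valid_mono (h : δ' ≤ δ) (hv : Valid e E δ x) : Valid e E δ' x :=
  fun δ₁ h1 h2 => hv δ₁ (h1.trans h) h2

theorem valid_msk : Valid e E δ (msk E δ x) ↔ Valid e E δ x :=
  valid_congr (fun _ _ => rfl) (fun _ _ => Iff.rfl) fun _ h1 h2 => MskL_in h1 h2

theorem cond_congr (A : Prm G) {f f' : Om → Ordinal.{0}} (hf : f η = f' η)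
    (hE : ∀ ξ < η, (ξ ∈ E ↔ ξ ∈ E')) (hx : ∀ ξ ∈ E, ξ < η → x ξ = x' ξ) (hη : x η = x' η) :
    A.cond f E η x = A.cond f' E' η x' := by
  unfold Prm.cond
  rw [hf, msk_congr hE hx, hη]

private theorem MskL_acc (A : Prm G) {d d' : Dat} (he : ∀ ε ≤ η, d.e ε = d'.e ε)
    (hf : ∀ ξ ≤ η, d.f ξ = d'.f ξ) (hc : ∀ ε ≤ η, (ε ∈ d.c ↔ ε ∈ d'.c))
    (hE : ∀ ξ < η, (ξ ∈ E ↔ ξ ∈ E')) (h : A.Acc d E η) : A.Acc d' E' η := by
  have hm : ∀ x : Om → ℕ, msk E' η x = msk E η x := fun x =>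
    (msk_congr hE fun _ _ _ => rfl).symm
  have hv : ∀ x : Om → ℕ, Valid d'.e E' η x → Valid d.e E η x := fun x =>
    (valid_congr he hE fun _ _ _ => rfl).2
  have hf1 : d'.f η = d.f η := (hf η le_rfl).symm
  have hcd : ∀ x : Om → ℕ, ∀ η' < η, A.cond d'.f E' η' x = A.cond d.f E η' x := fun x η' h1 =>
    (cond_congr A (hf η' h1.le) (fun ξ h2 => hE ξ (h2.trans h1)) (fun _ _ _ => rfl) rfl).symm
  refine ⟨?_, ?_, ?_, ?_, ?_, ?_, ?_, ?_⟩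
  · rw [hf1]
    exact h.ne
  · intro η' h1 h2
    obtain ⟨ε, h3, h4, h5⟩ := h.sep η' ((hE η' h2).2 h1) h2
    exact ⟨ε, (hc ε h5).1 h3, h4, h5⟩
  · intro x hx n
    rw [hf1, hm x]
    exact h.leq x (hv x hx) n
  · intro x hx n η' h1 h2
    rw [hf1, hm x, hcd x η' h2]
    exact h.lec x (hv x hx) n η' ((hE η' h2).2 h1) h2
  · intro x hx n η' h1 h2
    rw [hf1, hm x]
    exact h.htl x (hv x hx) n η' ((hE η' h2).2 h1) h2
  · intro x hx n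
    rw [hf1, hm x]
    exact h.htu x (hv x hx) n
  · intro x hx n η' h1 h2 γ h3
    rw [hf1, hm x]
    exact h.lev x (hv x hx) n η' ((hE η' h2).2 h1) h2 γ h3
  · intro x hx n n' hn
    rw [hf1, hm x]
    exact h.spl x (hv x hx) n n' hn

theorem acc_congr (A : Prm G) {d d' : Dat} (he : ∀ ε ≤ η, d.e ε = d'.e ε)
    (hf : ∀ ξ ≤ η, d.f ξ = d'.f ξ) (hc : ∀ ε ≤ η, (ε ∈ d.c ↔ ε ∈ d'.c))
    (hE : ∀ ξ < η, (ξ ∈ E ↔ ξ ∈ E')) : A.Acc d E η ↔ A.Acc d' E' η :=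
  ⟨MskL_acc A he hf hc hE, MskL_acc A (fun ε h => (he ε h).symm) (fun ξ h => (hf ξ h).symm)
    (fun ε h => (hc ε h).symm) fun ξ h => (hE ξ h).symm⟩

theorem isE_iff (A : Prm G) (d : Dat) (η : Om) : η ∈ A.isE d ↔ A.Acc d (A.isE d) η := by
  have h1 : η ∈ A.isE d ↔ A.Acc d {η' | ∃ _ : η' < η, η' ∈ A.isE d} η := by
    have h2 := (wellFounded_lt : WellFounded ((· < ·) : Om → Om → Prop)).fix_eq
      (C := fun _ => Prop) (fun η ih => A.Acc d {η' | ∃ h : η' < η, ih η' h} η) η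
    exact Iff.of_eq h2
  rw [h1]
  exact acc_congr A (fun _ _ => rfl) (fun _ _ => rfl) (fun _ _ => Iff.rfl) fun ξ h =>
    ⟨fun h2 => h2.2, fun h2 => ⟨h, h2⟩⟩

theorem isE_congr (A : Prm G) {d d' : Dat} (he : ∀ ε < δ, d.e ε = d'.e ε)
    (hf : ∀ ξ < δ, d.f ξ = d'.f ξ) (hc : ∀ ε < δ, (ε ∈ d.c ↔ ε ∈ d'.c)) :
    ∀ η < δ, (η ∈ A.isE d ↔ η ∈ A.isE d') := by
  intro η
  induction η using (wellFounded_lt : WellFounded ((· < ·) : Om → Om → Prop)).induction with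
  | _ η ih =>
    intro h
    rw [isE_iff A d η, isE_iff A d' η]
    exact acc_congr A (fun ε h1 => he ε (h1.trans_lt h)) (fun ε h1 => hf ε (h1.trans_lt h))
      (fun ε h1 => hc ε (h1.trans_lt h)) fun ξ h1 => ih ξ h1 (h1.trans h)

theorem isE_ext (A : Prm G) {p p' : Raw} {k : Idx} (h : p' ≤ p) (hk : k ∈ p.D) :
    ∀ η < p.ht, (η ∈ A.isE (dat p' k) ↔ η ∈ A.isE (dat p k)) := by
  have h' : Raw.Le p' p := h
  exact isE_congr A (fun ε h1 => h'.e ε h1.le) (fun ξ h1 => h'.f k hk ξ h1)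
    fun ε h1 => h'.c k hk ε h1.le

theorem isE_tr (A : Prm G) (p : Raw) (k : Idx) (δ : Om) :
    ∀ η < δ, (η ∈ A.isE ⟨tre δ p.e, trf δ (p.f k), p.c k ∩ Iio δ⟩ ↔
      η ∈ A.isE (dat p k)) := by
  refine isE_congr A (fun ε h => ?_) (fun ξ h => ?_) fun ε h => ?_
  · change tre δ p.e ε = p.e ε
    unfold tre
    funext n
    exact if_pos h
  · change trf δ (p.f k) ξ = p.f k ξ
    unfold trf
    exact if_pos h
  · exact ⟨fun h1 => h1.1, fun h1 => ⟨h1, h⟩⟩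

end Pool.Agent.KSt
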