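import Pool.Agent.Lib.MP_d9d638_lc.KS.Table
import Pool.Agent.Lib.MP_d9d638_lc.KS.Succ
import Pool.Agent.Lib.MP_d9d638_lc.KS.Ext

/-!
# KS, module Progress: the set of acceptance times is unbounded

PROOF. `exists_table` for `p`: `p₁ ≤ p`, `R`. Let `β` be above all `(R z n).ht` and all splitting
levels `γ`, for the countably many `z = msk E p.ht x`, `x` valid at `p.ht` (`countable_valid`),
and
all `n, n'` (`Om.bdd`). `ht_ext`: `p₂ ≤ p₁` with `β < p₂.ht`; `lim_ext`: `p₃ ≤ p₂` with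
`p₃.ht ∈ p₃.c k`, `p.ht < p₃.ht`. If some `η ∈ isE (dat p₃ k)` has `p.ht ≤ η < p₃.ht`, we are done
with `p' = p₃`. Otherwise let `s = res B p₃`, `s ≤ (R z n).res B` (`res_le`-like: `p₃ ≤ (R z
n).res B`,
`le_res_res`), `Setup.full` gives `a`; `p₃ ≤ s ≤ k.pre a`, so `succ_step` gives `p' ≤ p₃` of
height
`sc p₃.ht` with `p'.f k p₃.ht = a`. Take `η = p₃.ht`. `isE_iff`: below `η` the set `isE (dat p'
k)`
is `E ∩ Iio p.ht` (`isE_ext`), so `msk _ η x = msk E p.ht x`, and `x` valid at `η` is valid at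
`p.ht` for `p` (`valid_congr`, `valid_mono`); `A.tb a z n` is equivalent to `R z n`; conditions at
`η' < p.ht` are the same for `p'` and `p` (`cond_congr`). `sep`: `ε = η`.
-/

set_option autoImplicit false

namespace Pool.Agent.KSt

open Pool.Agent.Lib.SymModel Set

theorem progress {G : Glo} {B B' : Set Idx} {A : Prm G} {k : Idx} (hS : Setup B B' A k)
    {p : Cnd G} (hk : k ∈ p.1.D) (hp : p ≤ A.q0) :
    ∃ p' ≤ p, ∃ η ∈ A.isE (dat p'.1 k), p.1.ht ≤ η ∧ η < p'.1.ht := by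
  classical
  obtain ⟨p₁, hp₁, R, hR, hT⟩ := exists_table hS hk hp
  obtain ⟨E, hEdef⟩ : ∃ E, E = A.isE (dat p.1 k) := ⟨_, rfl⟩
  rw [← hEdef] at hT
  obtain ⟨Z, hZdef⟩ : ∃ Z : Set (Om → ℕ),
      Z = {z | ∃ x, Valid p.1.e E p.1.ht x ∧ z = msk E p.1.ht x} := ⟨_, rfl⟩
  have hZc : Z.Countable := by
    rw [hZdef]
    exact countable_valid p.1.e E p.1.ht
  -- the splitting levels
  have hg : ∀ (z : Om → ℕ) (n n' : ℕ), ∃ γ : Om, z ∈ Z → n ≠ n' → ∃ m m', m ≠ m' ∧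
      R z n ∈ A.cv γ m ∧ R z n' ∈ A.cv γ m' := by
    intro z n n'
    by_cases hz : z ∈ Z
    · by_cases hn : n = n'
      · exact ⟨p.1.ht, fun _ h => absurd hn h⟩
      · rw [hZdef] at hz
        obtain ⟨x, hx, hzx⟩ := hz
        obtain ⟨γ, m, m', h1, h2, h3⟩ := (hT x hx n).2.2.2.2 n' hn
        rw [← hzx] at h2 h3
        exact ⟨γ, fun _ _ => ⟨m, m', h1, h2, h3⟩⟩
    · exact ⟨p.1.ht, fun h => absurd h hz⟩
  choose g hg using hg
  obtain ⟨β, hβ⟩ : ∃ β : Om, ∀ a ∈ ⋃ z ∈ Z, ⋃ n : ℕ, ⋃ n' : ℕ,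
      ({(R z n).1.ht, g z n n'} : Set Om), a < β := by
    refine MP_d9d638_lc.Om.bdd_set ?_
    exact hZc.biUnion fun z _ => countable_iUnion fun n => countable_iUnion fun n' =>
      (Set.toFinite _).countable
  have hβ1 : ∀ z ∈ Z, ∀ n, (R z n).1.ht < β := by
    intro z hz n
    refine hβ _ ?_
    simp only [mem_iUnion, mem_insert_iff, mem_singleton_iff, exists_prop]
    exact ⟨z, hz, n, 0, Or.inl rfl⟩
  have hβ2 : ∀ z ∈ Z, ∀ n n', g z n n' < β := by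
    intro z hz n n'
    refine hβ _ ?_
    simp only [mem_iUnion, mem_insert_iff, mem_singleton_iff, exists_prop]
    exact ⟨z, hz, n, n', Or.inr rfl⟩
  obtain ⟨p₂, hp₂, hβp₂, -⟩ := ht_ext p₁ β
  obtain ⟨p₃, hp₃, hp₂₃, -, -, hc₃, -⟩ := lim_ext p₂ ∅ countable_empty
  have h32 : p₃.1 ≤ p₂.1 := hp₃
  have h21 : p₂.1 ≤ p₁.1 := hp₂
  have h10 : p₁.1 ≤ p.1 := hp₁
  have h31 : p₃.1 ≤ p₁.1 := h32.trans h21
  have h30 : p₃.1 ≤ p.1 := h31.trans h10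
  have hk₃ : k ∈ p₃.1.D := Raw.Le.D h30 hk
  have hht : p.1.ht ≤ p₃.1.ht := Raw.Le.ht h30
  have hβ₃ : β < p₃.1.ht := hβp₂.trans hp₂₃
  by_cases hex : ∃ η ∈ A.isE (dat p₃.1 k), p.1.ht ≤ η ∧ η < p₃.1.ht
  · exact ⟨p₃, h30, hex⟩
  obtain ⟨a, ha0, hak, hsa, hRa⟩ := hS.full R (Cnd.res hS.hB p₃) (fun z n => (hR z n).1)
    inter_subset_right fun z n => le_res_res (h31.trans (hR z n).2)
  obtain ⟨p', hp', hht', -, hfa⟩ := succ_step p₃ k a (Or.inr ⟨hak, (le_res p₃.1).trans hsa⟩)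
  have h43 : p'.1 ≤ p₃.1 := hp'
  have h40 : p'.1 ≤ p.1 := h43.trans h30
  have hfa' : p'.1.f k p₃.1.ht = a := hfa hk₃
  obtain ⟨E', hE'def⟩ : ∃ E', E' = A.isE (dat p'.1 k) := ⟨_, rfl⟩
  have hEE : ∀ ξ < p₃.1.ht, (ξ ∈ E' ↔ ξ ∈ E ∧ ξ < p.1.ht) := by
    intro ξ hξ
    rw [hE'def, hEdef, isE_ext A h43 hk₃ ξ hξ]
    constructor
    · intro h
      have h1 : ξ < p.1.ht := by
        by_contra h2
        exact hex ⟨ξ, h, not_lt.1 h2, hξ⟩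
      exact ⟨(isE_ext A h30 hk ξ h1).1 h, h1⟩
    · rintro ⟨h, h1⟩
      exact (isE_ext A h30 hk ξ h1).2 h
  have hEE0 : ∀ ξ < p.1.ht, (ξ ∈ E' ↔ ξ ∈ E) := fun ξ hξ => by
    rw [hEE ξ (hξ.trans_le hht)]
    exact ⟨fun h => h.1, fun h => ⟨h, hξ⟩⟩
  have hmsk : ∀ x : Om → ℕ, msk E' p₃.1.ht x = msk E p.1.ht x := by
    intro x
    funext ξ
    have h1 : (ξ ∈ E' ∧ ξ < p₃.1.ht) ↔ (ξ ∈ E ∧ ξ < p.1.ht) := by
      constructor
      · rintro ⟨h2, h3⟩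
        exact (hEE ξ h3).1 h2
      · rintro ⟨h2, h3⟩
        exact ⟨(hEE0 ξ h3).2 h2, h3.trans_le hht⟩
    unfold msk
    by_cases h2 : ξ ∈ E ∧ ξ < p.1.ht
    · rw [if_pos h2, if_pos (h1.2 h2)]
    · rw [if_neg h2, if_neg fun h => h2 (h1.1 h)]
  have hval : ∀ x : Om → ℕ, Valid p'.1.e E' p₃.1.ht x → Valid p.1.e E p.1.ht x := by
    intro x hx
    refine (valid_congr (fun ε hε => ?_) hEE0 fun _ _ _ => rfl).1 (valid_mono hht hx)
    exact Raw.Le.e h40 ε hε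
  have hzZ : ∀ x : Om → ℕ, Valid p'.1.e E' p₃.1.ht x → msk E p.1.ht x ∈ Z := by
    intro x hx
    rw [hZdef]
    exact ⟨x, hval x hx, rfl⟩
  have hf : (dat p'.1 k).f p₃.1.ht = a := hfa'
  have htb : ∀ z n, A.tb a z n ≤ R z n := fun z n => (hRa z n).1
  have hbt : ∀ z n, R z n ≤ A.tb a z n := fun z n => (hRa z n).2
  have hacc : A.Acc (dat p'.1 k) E' p₃.1.ht := by
    refine ⟨?_, ?_, ?_, ?_, ?_, ?_, ?_, ?_⟩
    · rw [hf]
      exact ha0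
    · intro η' _ hη'
      exact ⟨p₃.1.ht, (Raw.Le.c h43 k hk₃ _ le_rfl).2 (hc₃ k hk₃), hη', le_rfl⟩
    · intro x hx n
      rw [hf, hmsk]
      exact (htb _ n).trans (hT x (hval x hx) n).1
    · intro x hx n η' hη' hη'3
      rw [hf, hmsk]
      obtain ⟨h1, h2⟩ := (hEE η' hη'3).1 hη'
      have h3 : A.cond (dat p'.1 k).f E' η' x = A.cond (p.1.f k) E η' x := by
        refine cond_congr A ?_ (fun ξ hξ => hEE0 ξ (hξ.trans h2)) (fun _ _ _ => rfl) rfl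
        exact Raw.Le.f h40 k hk η' h2
      rw [h3]
      exact (htb _ n).trans ((hT x (hval x hx) n).2.1 η' h1 h2)
    · intro x hx n η' hη' hη'3
      rw [hf, hmsk]
      obtain ⟨h1, h2⟩ := (hEE η' hη'3).1 hη'
      have h3 : (R (msk E p.1.ht x) n).1.ht ≤ (A.tb a (msk E p.1.ht x) n).1.ht :=
        Raw.Le.ht (htb _ n)
      exact (h2.le.trans (hT x (hval x hx) n).2.2.1).trans h3
    · intro x hx n
      rw [hf, hmsk]
      have h3 : (A.tb a (msk E p.1.ht x) n).1.ht ≤ (R (msk E p.1.ht x) n).1.ht :=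
        Raw.Le.ht (hbt _ n)
      exact (h3.trans (hβ1 _ (hzZ x hx) n).le).trans hβ₃.le
    · intro x hx n η' hη' hη'3 γ hγ
      rw [hf, hmsk]
      obtain ⟨h1, h2⟩ := (hEE η' hη'3).1 hη'
      obtain ⟨m, hm⟩ := (hT x (hval x hx) n).2.2.2.1 γ (hγ.trans h2.le)
      exact ⟨m, (A.cv γ m).down hm (htb _ n)⟩
    · intro x hx n n' hn
      rw [hf, hmsk]
      obtain ⟨m, m', h1, h2, h3⟩ := hg _ n n' (hzZ x hx) hn
      exact ⟨_, ((hβ2 _ (hzZ x hx) n n').le.trans hβ₃.le), m, m', h1,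
        (A.cv _ m).down h2 (htb _ n), (A.cv _ m').down h3 (htb _ n')⟩
  refine ⟨p', h40, p₃.1.ht, ?_, hht, ?_⟩
  · rw [isE_iff, ← hE'def]
    exact hacc
  · rw [hht']
    exact lt_sc _

end Pool.Agent.KSt
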