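import Pool.Agent.Lib.MP_d9d638_lc.KS.RhoL
import Pool.Agent.Lib.MP_d9d638_lc.KS.DecSeg
import Pool.Agent.Lib.MP_d9d638_lc.KS.Progress

/-!
# KS, module NoWait: no branch waits for ever

PROOF. Suppose not. (★) for all `p' ≤ p`, `δ ≤ p'.ht`, `s` with `p' ∈ b γ (s γ)` for `γ < δ`,
and `η < δ`, `η ∈ isE (dat p' k)`: some `x` is live at `η` for `s`, and every such `x` with `x
η` odd
has `base η < α`. Get `p₁ ≤ p` and `η⋆ ∈ isE (dat p₁ k)`, `η⋆ < p₁.ht`, `α ≤ base η⋆` (`ht_ext`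
above
`α`, `progress` twice, `base_gt`). For `n : ℕ` let `W n r` say: there are `η ∈ isE (dat r k)`,
`η⋆ ≤ η`, `δ ≤ r.ht`, `η < δ`, `s` with `r ∈ b γ (s γ)` for `γ < δ`, and `x` live at `η` for `s`
with
`x η = n`; it passes to extensions (`live_ext`, `isE_ext`). `fusion` with
`U n r = (W n r ∨ ∀ r' ≤ r, ¬ W n r')`, `T = fun _ _ => True` from `p₁` gives `q`. `progress` from
`q`: `q₂ ≤ q`, `η ∈ isE (dat q₂ k)`, `q.ht ≤ η < q₂.ht`. `dec_seg`: `q₃ ≤ q₂` with `s`. By (★)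
some
`x` is live at `η` for `s`; let `n = x η`: `W n q₃`. So `W n q`, with `η_n < q.ht ≤ η`, `s_n`,
`x_n η_n = n`; `s_n` and `s` agree below `δ_n` (`IsNm.uni`), so `x_n` is live for `s` and
`x η_n = n` (`live_unique`). For `η₃ ∈ isE` between `η_n` and `η`, `x` is live at `η₃`
(`live_mono`)
and `base η₃ ≥ base η⋆ ≥ α` (`base_mono`), so `x η₃` is not odd (★). `Ok.inj`: `x η_n ≠ x η`,
contradiction. (Use `hp.trans` for `p' ≤ A.q0`.)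
-/

set_option autoImplicit false

namespace Pool.Agent.KSt

open Pool.Agent.Lib.SymModel Set

theorem det_dense {G : Glo} {B B' : Set Idx} {A : Prm G} {k : Idx} (hS : Setup B B' A k)
    {p : Cnd G} (hk : k ∈ p.1.D) (hp : p ≤ A.q0) {b : Om → ℕ → RO (Cnd G)} (hb : IsNm p b)
    (α : Om) : ∃ p' ≤ p, ∃ δ ≤ p'.1.ht, ∃ s : Om → ℕ, (∀ γ < δ, p' ∈ b γ (s γ)) ∧
      A.Det (dat p'.1 k) δ s α := by
  classical
  by_contra hcon
  have star : ∀ p' ≤ p, ∀ δ ≤ p'.1.ht, ∀ s : Om → ℕ, (∀ γ < δ, p' ∈ b γ (s γ)) →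
      ¬ A.Det (dat p'.1 k) δ s α := fun p' h1 δ h2 s h3 h4 => hcon ⟨p', h1, δ, h2, s, h3, h4⟩
  have hD : ∀ {r r' : Cnd G}, r' ≤ r → k ∈ r.1.D → k ∈ r'.1.D := by
    intro r r' h hkr
    have h' : Raw.Le r'.1 r.1 := h
    exact h'.D hkr
  have hHt : ∀ {r r' : Cnd G}, r' ≤ r → r.1.ht ≤ r'.1.ht := by
    intro r r' h
    have h' : Raw.Le r'.1 r.1 := h
    exact h'.ht
  -- the starting point
  obtain ⟨p₁, hp₁, ηs, hηs, hηs', hbase⟩ : ∃ p₁ ≤ p, ∃ ηs ∈ A.isE (dat p₁.1 k), ηs < p₁.1.ht ∧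
      α ≤ base (A.isE (dat p₁.1 k)) ηs := by
    obtain ⟨q, hq, hαq, hqD⟩ := ht_ext p α
    have hkq : k ∈ q.1.D := hD hq hk
    obtain ⟨q1, hq1, ηa, ha1, ha2, ha3⟩ := progress hS hkq (hq.trans hp)
    have hkq1 : k ∈ q1.1.D := hD hq1 hkq
    obtain ⟨q2, hq2, ηb, hb1, hb2, hb3⟩ := progress hS hkq1 ((hq1.trans hq).trans hp)
    refine ⟨q2, (hq2.trans hq1).trans hq, ηb, hb1, hb3, ?_⟩
    have h1 : ηa ∈ A.isE (dat q2.1 k) := (isE_ext A (Cnd.le_def.1 hq2) hkq1 ηa ha3).2 ha1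
    have h2 : ηa < ηb := ha3.trans_le hb2
    exact ((hαq.trans_le ha2).trans (base_gt h1 h2)).le
  have hk₁ : k ∈ p₁.1.D := hD hp₁ hk
  obtain ⟨W, hW⟩ : ∃ W : ℕ → Cnd G → Prop, ∀ n r, W n r ↔ (k ∈ r.1.D ∧
      ∃ η ∈ A.isE (dat r.1 k), ηs ≤ η ∧ ∃ δ ≤ r.1.ht, η < δ ∧ ∃ s : Om → ℕ,
        (∀ γ < δ, r ∈ b γ (s γ)) ∧ ∃ x, A.Live (dat r.1 k) η x s ∧ x η = n) :=
    ⟨_, fun _ _ => Iff.rfl⟩
  have hWo : ∀ n q r, r ≤ q → W n q → W n r := by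
    intro n q r hr h
    rw [hW] at h ⊢
    obtain ⟨hkq, η, h1, h2, δ, h3, h4, s, h5, x, h6, h7⟩ := h
    have hη : η < q.1.ht := h4.trans_le h3
    exact ⟨hD hr hkq, η, (isE_ext A (Cnd.le_def.1 hr) hkq η hη).2 h1, h2, δ, h3.trans (hHt hr),
      h4, s, fun γ hγ => (b γ _).down (h5 γ hγ) hr, x, (live_ext hr hkq hη).2 h6, h7⟩
  obtain ⟨q, hq, hqht, -, -, -, hU⟩ := fusion p₁ (fun _ _ => True)
    (fun n r => W n r ∨ ∀ r' ≤ r, ¬ W n r') (fun _ _ _ _ h => h)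
    (fun _ q _ => ⟨q, le_rfl, trivial⟩)
    (fun n q r hr h => by
      rcases h with h | h
      · exact Or.inl (hWo n q r hr h)
      · exact Or.inr fun r' hr' => h r' (hr'.trans hr))
    (fun n q _ => by
      by_cases h : ∃ r ≤ q, W n r
      · obtain ⟨r, hr, h⟩ := h
        exact ⟨r, hr, Or.inl h⟩
      · push Not at h
        exact ⟨q, le_rfl, Or.inr h⟩)
  have hkq : k ∈ q.1.D := hD hq hk₁
  have hqp : q ≤ p := hq.trans hp₁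
  obtain ⟨q₂, hq₂, η, hη1, hη2, hη3⟩ := progress hS hkq (hqp.trans hp)
  have hkq₂ : k ∈ q₂.1.D := hD hq₂ hkq
  have hq₂p : q₂ ≤ p := hq₂.trans hqp
  have hbq₂ : IsNm q₂ b := ⟨fun γ r hr => hb.tot γ r (hr.trans hq₂p),
    fun γ m m' r hr => hb.uni γ m m' r (hr.trans hq₂p)⟩
  obtain ⟨q₃, hq₃, hht₃, s, hs⟩ := dec_seg hbq₂
  have hkq₃ : k ∈ q₃.1.D := hD hq₃ hkq₂
  have hq₃p : q₃ ≤ p := hq₃.trans hq₂p
  have hq₃q : q₃ ≤ q := hq₃.trans hq₂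
  have hηE : η ∈ A.isE (dat q₃.1 k) := (isE_ext A (Cnd.le_def.1 hq₃) hkq₂ η hη3).2 hη1
  have hη₃ : η < q₃.1.ht := hη3.trans hht₃
  have hst := star q₃ hq₃p q₃.1.ht le_rfl s hs
  have hex : ∃ x, A.Live (dat q₃.1 k) η x s := by
    by_contra h
    exact hst (Or.inr ⟨η, hη₃, hηE, h⟩)
  obtain ⟨x, hx⟩ := hex
  have hηsη : ηs ≤ η := (hηs'.trans hqht).le.trans hη2
  have hW₃ : W (x η) q₃ := by
    rw [hW]
    exact ⟨hkq₃, η, hηE, hηsη, q₃.1.ht, le_rfl, hη₃, s, hs, x, hx, rfl⟩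
  have hWq : W (x η) q := by
    rcases hU (x η) with h | h
    · exact h
    · exact absurd hW₃ (h q₃ hq₃q)
  rw [hW] at hWq
  obtain ⟨-, ηn, h1, h2, δ, h3, h4, s', h5, x', h6, h7⟩ := hWq
  have hηn : ηn < q.1.ht := h4.trans_le h3
  have hηn' : ηn < η := hηn.trans_le hη2
  have hl1 : A.Live (dat q₃.1 k) ηn x' s' := (live_ext hq₃q hkq hηn).2 h6
  have hss : ∀ γ ≤ ηn, s' γ = s γ := by
    intro γ hγ
    exact hb.uni γ (s' γ) (s γ) q₃ hq₃p ((b γ _).down (h5 γ (hγ.trans_lt h4)) hq₃q)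
      (hs γ ((hγ.trans_lt hηn').trans hη₃))
  have hl2 : A.Live (dat q₃.1 k) ηn x' s := live_congr_s hss hl1
  have hηnE : ηn ∈ A.isE (dat q₃.1 k) := (isE_ext A (Cnd.le_def.1 hq₃q) hkq ηn hηn).2 h1
  have huq := live_unique hl2 hx hηn'.le ηn hηnE le_rfl
  have hbs : base (A.isE (dat q₃.1 k)) ηs = base (A.isE (dat p₁.1 k)) ηs :=
    base_congr fun ξ hξ => isE_ext A (Cnd.le_def.1 (hq₃q.trans hq)) hk₁ ξ (hξ.trans hηs')
  refine hx.ok.inj ηn hηnE η hηE hηn' le_rfl (fun η₃ h8 h9 h10 h11 => ?_) ?_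
  · refine hst (Or.inl ⟨η₃, h10.trans_lt hη₃, x, live_mono hx h8 h10, h11, ?_⟩)
    calc α ≤ base (A.isE (dat p₁.1 k)) ηs := hbase
      _ = base (A.isE (dat q₃.1 k)) ηs := hbs.symm
      _ ≤ base (A.isE (dat q₃.1 k)) η₃ := base_mono (h2.trans h9)
  · rw [← huq, h7]

end Pool.Agent.KSt
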