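import Pool.Agent.Lib.MP_d9d638_lc.KS.ExIdx
import Pool.Agent.Lib.MP_d9d638_lc.KS.Defs2

/-!
# KS, module OrdCode: coding small types by ordinals; indices from families of conditions

PROOF. `ord_code`: well-order `I` (`WellOrderingRel`), `j i = 1 + Ordinal.typein _ i`,
`lam = 1 + Ordinal.type _`; `a ≠ 0`, `a < lam` gives `a = 1 + b` with `b < type`
(`Ordinal.add_sub_cancel_of_le`), so `b = typein i` (`Ordinal.typein_surj`).
`exists_idx_fam`: `dcd a = some i` if `a = j i`, `none` if there is no such `i`; apply `exists_idx`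
to `lam` and to the family which is `(q i).1` at `j i` and a fixed raw condition with
`D = {nil}` at the other ordinals, with the operation `Φ dcd`. The conditions have countable
nonempty index sets (`IsCond.cnt`, `IsCond.nil`).
-/

set_option autoImplicit false

namespace Pool.Agent.KSt

open Pool.Agent.Lib.SymModel Set

theorem ord_code (I : Type) : ∃ (lam : Ordinal.{0}) (j : I → Ordinal.{0}), Function.Injective j ∧
    (∀ i, j i ≠ 0 ∧ j i < lam) ∧ ∀ a, a ≠ 0 → a < lam → ∃ i, j i = a := by
  refine ⟨1 + Ordinal.type (WellOrderingRel : I → I → Prop),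
    fun i => 1 + Ordinal.typein (WellOrderingRel : I → I → Prop) i, ?_, ?_, ?_⟩
  · intro i i' h
    have h1 : Ordinal.typein (WellOrderingRel : I → I → Prop) i =
        Ordinal.typein (WellOrderingRel : I → I → Prop) i' := by
      simpa using h
    exact Ordinal.typein_injective _ h1
  · intro i
    refine ⟨?_, ?_⟩
    · have h1 : (1 : Ordinal.{0}) ≤ 1 + Ordinal.typein (WellOrderingRel : I → I → Prop) i :=
        le_add_of_nonneg_right zero_le
      intro h
      have h2 : (1 + Ordinal.typein (WellOrderingRel : I → I → Prop) i) = 0 := h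
      rw [h2] at h1
      exact absurd h1 (by simp)
    · have h1 := Ordinal.typein_lt_type (WellOrderingRel : I → I → Prop) i
      simpa using h1
  · intro a ha0 ha
    have h1 : (1 : Ordinal.{0}) ≤ a := Order.one_le_iff_pos.2 (pos_iff_ne_zero.2 ha0)
    have h2 : 1 + (a - 1) = a := Ordinal.add_sub_cancel_of_le h1
    have h3 : a - 1 < Ordinal.type (WellOrderingRel : I → I → Prop) := by
      rw [← h2] at ha
      simpa using ha
    obtain ⟨i, hi⟩ := Ordinal.typein_surj (WellOrderingRel : I → I → Prop) h3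
    refine ⟨i, ?_⟩
    change 1 + Ordinal.typein (WellOrderingRel : I → I → Prop) i = a
    rw [hi, h2]

theorem exists_idx_fam {G : Glo} (I : Type) (q : I → Cnd G)
    (Φ : (Ordinal.{0} → Option I) → Op) : ∃ (k : Idx) (dcd : Ordinal.{0} → Option I),
      k.op = Φ dcd ∧
      (∀ a, a ≠ 0 → a < k.lam → ∃ i, dcd a = some i ∧
        ∀ p : Raw, (p ≤ k.pre a ↔ p ≤ (q i).1) ∧ (k.pre a ≤ p ↔ (q i).1 ≤ p)) ∧
      ∀ i, ∃ a, a ≠ 0 ∧ a < k.lam ∧ dcd a = some i := by
  classical
  obtain ⟨lam, j, hj, hj1, hj2⟩ := ord_code I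
  let dcd : Ordinal.{0} → Option I := fun a =>
    if h : ∃ i, j i = a then some (Classical.choose h) else none
  have hdcd : ∀ i, dcd (j i) = some i := by
    intro i
    have h : ∃ i', j i' = j i := ⟨i, rfl⟩
    change (if h : ∃ i', j i' = j i then some (Classical.choose h) else none) = some i
    rw [dif_pos h]
    exact congrArg some (hj (Classical.choose_spec h))
  let r0 : Raw := ⟨Classical.arbitrary Om, 0, {Idx.nil}, 0, fun _ => ∅⟩
  let qq : Ordinal.{0} → Raw := fun a =>
    match dcd a with
    | some i => (q i).1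
    | none => r0
  have hqq : ∀ a i, dcd a = some i → qq a = (q i).1 := by
    intro a i h
    simp only [qq, h]
  have hqn : ∀ a, dcd a = none → qq a = r0 := by
    intro a h
    simp only [qq, h]
  obtain ⟨k, hk1, hk2, hk3⟩ := exists_idx lam qq
    (by
      intro a
      rcases hd : dcd a with _ | i
      · rw [hqn a hd]; exact countable_singleton _
      · rw [hqq a i hd]; exact (q i).2.cnt)
    (by
      intro a
      rcases hd : dcd a with _ | i
      · rw [hqn a hd]; exact singleton_nonempty _
      · rw [hqq a i hd]; exact ⟨_, (q i).2.nil⟩) (Φ dcd)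
  refine ⟨k, dcd, hk2, ?_, ?_⟩
  · intro a ha0 ha
    rw [hk1] at ha
    obtain ⟨i, hi⟩ := hj2 a ha0 ha
    have hd : dcd a = some i := by rw [← hi]; exact hdcd i
    refine ⟨i, hd, fun p => ?_⟩
    have h := hk3 a
    rw [hqq a i hd] at h
    exact ⟨h.2.1 p, h.2.2 p⟩
  · intro i
    refine ⟨j i, (hj1 i).1, ?_, hdcd i⟩
    rw [hk1]
    exact (hj1 i).2

end Pool.Agent.KSt
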