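import Pool.Agent.Lib.MP_d9d638_lc.KS.LimR
import Pool.Agent.Lib.MP_d9d638_lc.KS.CloE

/-!
# KS, module SeqLim: limits of sequences of conditions

PROOF. `S = range fun n => (p n).1`, a countable chain; `δ` the supremum of the heights
(`exists_sup`), `K = univ`; `exists_closed` for `Z` and the countably many operations
`G δ (tre δ (lime S))` and `k.op δ (tre δ (lime S)) (trf δ (limf S k)) (limc S k ∩ Iio δ)`,
`k ∈ limD S` (countable: enumerate). `limR_isCond`, `limR_le`.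
-/

set_option autoImplicit false

namespace Pool.Agent.KSt

open Pool.Agent.Lib.SymModel Set

theorem seq_lim {G : Glo} (p : ℕ → Cnd G) (hp : ∀ n, p (n + 1) ≤ p n)
    (hht : ∀ n, (p n).1.ht < (p (n + 1)).1.ht) (Z : Set (Om → ℕ)) (hZ : Z.Countable) :
    ∃ q : Cnd G, (∀ n, q ≤ p n) ∧ IsLim q.1.ht ∧ (∀ n, (p n).1.ht < q.1.ht) ∧
      (∀ a < q.1.ht, ∃ n, a < (p n).1.ht) ∧ (∀ k, k ∈ q.1.D ↔ ∃ n, k ∈ (p n).1.D) ∧
      (∀ k ∈ q.1.D, q.1.ht ∈ q.1.c k) ∧ ∀ z ∈ Z, tr q.1.ht z ∈ range (q.1.e q.1.ht) := by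
  obtain ⟨δ, hδ, h1, h2⟩ := exists_sup (fun n => (p n).1.ht) hht
  have hpm : Antitone p := antitone_nat_of_succ_le hp
  obtain ⟨S, hS⟩ : ∃ S : Set Raw, S = range fun n => (p n).1 := ⟨_, rfl⟩
  have hm : ∀ n, (p n).1 ∈ S := fun n => hS ▸ mem_range_self n
  have hch : IsChain (· ≤ ·) S := by
    rw [hS]
    rintro _ ⟨m, rfl⟩ _ ⟨n, rfl⟩ _
    rcases le_total m n with h | h
    · exact Or.inr (hpm h)
    · exact Or.inl (hpm h)
  have hcnt : S.Countable := hS ▸ countable_range _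
  have hall : ∀ r ∈ S, ∃ n, r = (p n).1 := by
    intro r hr
    rw [hS] at hr
    obtain ⟨n, hn⟩ := hr
    exact ⟨n, hn.symm⟩
  have hDc : (limD S).Countable := by
    have : limD S ⊆ ⋃ n, (p n).1.D := by
      rintro k ⟨r, hr, hk⟩
      obtain ⟨n, rfl⟩ := hall r hr
      exact mem_iUnion.2 ⟨n, hk⟩
    exact (countable_iUnion fun n => (p n).2.cnt).mono this
  have hDn : (limD S).Nonempty := ⟨Idx.nil, (p 0).1, hm 0, (p 0).2.nil⟩
  obtain ⟨kk, hkk⟩ := hDc.exists_eq_range hDn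
  obtain ⟨E, hE, hZE, hcl⟩ := exists_closed δ
    (fun i => Nat.casesOn i (G δ (tre δ (lime S))) fun i =>
      (kk i).op δ (tre δ (lime S)) (trf δ (limf S (kk i))) (limc S (kk i) ∩ Iio δ)) Z hZ
  have hc : IsCond G (limR S δ E univ) := by
    refine limR_isCond hch ⟨_, hm 0⟩ hcnt ?_ hδ ?_ ?_ hE (fun _ _ _ => mem_univ _) (hcl 0) ?_
    · intro r hr
      obtain ⟨n, rfl⟩ := hall r hr
      exact (p n).2
    · intro r hr
      obtain ⟨n, rfl⟩ := hall r hr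
      exact h1 n
    · intro a ha
      obtain ⟨n, hn⟩ := h2 a ha
      exact ⟨_, hm n, hn⟩
    · intro k hk _
      rw [hkk] at hk
      obtain ⟨i, rfl⟩ := hk
      exact hcl (i + 1)
  refine ⟨⟨limR S δ E univ, hc⟩, fun n => limR_le hch (hm n) (h1 n), hδ, h1, h2, ?_, ?_, ?_⟩
  · intro k
    constructor
    · rintro ⟨r, hr, hk⟩
      obtain ⟨n, rfl⟩ := hall r hr
      exact ⟨n, hk⟩
    · rintro ⟨n, hk⟩
      exact ⟨_, hm n, hk⟩
  · intro k _
    exact Or.inr ⟨rfl, mem_univ _⟩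
  · intro z hz
    have h : (limR S δ E univ).e δ = E := by
      simp [limR]
    change tr δ z ∈ range ((limR S δ E univ).e δ)
    rw [h]
    exact hZE z hz

end Pool.Agent.KSt
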