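import Pool.Agent.Lib.MP_d9d638_lc.KS.Defs2
import Pool.Agent.Lib.MP_d9d638_lc.KS.Amal

/-!
# KS, module Split: two extensions which decide the branch differently

PROOF. Suppose not. `P := Cnd.res hS.hB p` (indices in `B`), `P.1 ≤ r.1.res B` (`le_res_res`), so
`amal` (for `r`, `P`) gives `q₁ ≤ r`, `q₁ ≤ P`, indices in `B'`, `P.1 ≤ q₁.1.res B`. Put
`N γ m = {n | n.1.D ⊆ B ∧ ∃ r' ≤ r, r'.1.D ⊆ B' ∧ n.1 ≤ r'.1.res B ∧ r' ∈ cv γ m}`; apply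
`hS.new` to `N` and `q₁` (`q₁ ≤ r ≤ q0`), and show the equivalence for `t ≤ q₁`.
(→) `t ∈ cv γ m`, `t' ≤ t`: `t'.res B' ≤ q₁` (`res_le`), `hS.base` gives `u ≤ t'.res B'` with
indices in `B'` and `u ∈ cv γ m'`; `amal hS.hB' t' u` gives `t'' ≤ t'`, `t'' ≤ u`; `m' = m` by
`hS.nm.uni`; `n = res B u ∈ N γ m` and `t'' ≤ u ≤ n` (`le_res`).
(←) regularity (`RO.mem_of_dense`): let `t' ≤ t`; take `t'' ≤ t'` and `n ∈ N γ m`, `t'' ≤ n`, with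
`r'`. `hS.base`: `u ≤ t''.res B'` with `u ∈ cv γ m₂`; `amal`: `t₃ ≤ t''`, `t₃ ≤ u`. If `m₂ = m` then
`t₃ ∈ cv γ m`, done. Otherwise: `t₃ ≤ q₁ ≤ P`, so `t₃.res B ≤ p.res B` (`res_le`), `amal` (for `p`
and `res B t₃`) gives `p' ≤ p`, `p' ≤ res B t₃`; `r1 = u` (`u ≤ q₁ ≤ r`, since `q₁.1.D ⊆ B'`),
`r2 = r'`: `t₃.res B ≤ u.res B` (`res_mono`), `t₃.res B ≤ r'.res B` (`le_res_res`), `γ, m₂, m`
contradict the assumption.
-/

set_option autoImplicit false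

namespace Pool.Agent.KSt

open Pool.Agent.Lib.SymModel Set

theorem split {G : Glo} {B B' : Set Idx} {A : Prm G} {k : Idx} (hS : Setup B B' A k)
    (p r : Cnd G) (hr : r.1.D ⊆ B') (hr0 : r ≤ A.q0) (hp : p.1 ≤ r.1.res B) :
    ∃ p' ≤ p, ∃ r1 r2 : Cnd G, r1 ≤ r ∧ r2 ≤ r ∧ r1.1.D ⊆ B' ∧ r2.1.D ⊆ B' ∧
      p'.1 ≤ r1.1.res B ∧ p'.1 ≤ r2.1.res B ∧
      ∃ γ m1 m2, m1 ≠ m2 ∧ r1 ∈ A.cv γ m1 ∧ r2 ∈ A.cv γ m2 := by
  by_contra hcon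
  have hPD : (Cnd.res hS.hB p).1.D ⊆ B := inter_subset_right
  obtain ⟨q₁, hq1r, hq1P, -, hq1D, -⟩ := amal hS.hB r (Cnd.res hS.hB p) hPD (le_res_res hp)
  have hq1D' : q₁.1.D ⊆ B' := by
    rw [hq1D]
    exact union_subset hr (hPD.trans hS.sub)
  -- every condition below `q₁` has a decision with indices in `B'`
  have key : ∀ γ, ∀ t' ≤ q₁, ∃ u : Cnd G, u ≤ r ∧ u.1.D ⊆ B' ∧ (∃ m, u ∈ A.cv γ m) ∧
      ∃ t'' ≤ t', t'' ≤ u := by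
    intro γ t' ht'
    have h1 : Cnd.res hS.hB' t' ≤ q₁ := res_le hq1D' ht'
    obtain ⟨u, hu, huD, hum⟩ := hS.base γ (Cnd.res hS.hB' t') inter_subset_right
      (h1.trans (hq1r.trans hr0))
    obtain ⟨t'', h2, h3, -, -, -⟩ := amal hS.hB' t' u huD hu
    exact ⟨u, (hu.trans h1).trans hq1r, huD, hum, t'', h2, h3⟩
  refine hS.new (fun γ m => {n | n.1.D ⊆ B ∧ ∃ r' ≤ r, r'.1.D ⊆ B' ∧ n.1 ≤ r'.1.res B ∧
    r' ∈ A.cv γ m}) (fun γ m n hn => hn.1) q₁ (hq1r.trans hr0) ?_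
  intro γ m t ht
  constructor
  · intro htm t' ht'
    obtain ⟨u, hur, huD, ⟨m', hum⟩, t'', h2, h3⟩ := key γ t' (ht'.trans ht)
    have hm : m' = m := hS.nm.uni γ m' m t''
      ((h2.trans (ht'.trans ht)).trans (hq1r.trans hr0)) ((A.cv γ m').down hum h3)
      ((A.cv γ m).down htm (h2.trans ht'))
    subst hm
    exact ⟨t'', h2, Cnd.res hS.hB u, ⟨inter_subset_right, u, hur, huD, le_rfl, hum⟩,
      h3.trans (le_res u.1)⟩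
  · intro hall
    refine (A.cv γ m).mem_of_dense fun t' ht' => ?_
    obtain ⟨t'', ht'', n, ⟨-, r', hr'r, hr'D, hnr', hr'm⟩, htn⟩ := hall t' ht'
    have htq : t'' ≤ q₁ := ht''.trans (ht'.trans ht)
    obtain ⟨u, hur, huD, ⟨m₂, hum⟩, t₃, h2, h3⟩ := key γ t'' htq
    by_cases hm : m₂ = m
    · subst hm
      exact ⟨t₃, h2.trans ht'', (A.cv γ m₂).down hum h3⟩
    · exfalso
      have h3P : t₃ ≤ Cnd.res hS.hB p := (h2.trans htq).trans hq1P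
      obtain ⟨p', hp'p, hp't, -, -, -⟩ := amal hS.hB p (Cnd.res hS.hB t₃) inter_subset_right
        (res_le hPD h3P)
      have h4 : p'.1 ≤ t₃.1.res B := hp't
      have h5 : t₃.1 ≤ r'.1.res B := ((show t₃.1 ≤ t''.1 from h2).trans htn).trans hnr'
      exact hcon ⟨p', hp'p, u, r', hur, hr'r, huD, hr'D, h4.trans (res_mono h3),
        h4.trans (le_res_res h5), γ, m₂, m, hm, hum, hr'm⟩

end Pool.Agent.KSt
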