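import Pool.Agent.Lib.MP_d9d638_lc.KS.Split
import Pool.Agent.Lib.MP_d9d638_lc.KS.DecAll
import Pool.Agent.Lib.MP_d9d638_lc.KS.Closed

/-!
# KS, module SplitMany: infinitely many extensions which decide the branch differently

PROOF. Build `p = p₀ ≥ p₁ ≥ ...` and `r = r₀ ≥ r₁ ≥ ...` with indices in `B'` and `p_j ≤ r_j.res B`:
`split` for `p_j, r_j` gives `p_{j+1}`, `r1 =: S_j` and `r2 =: r_{j+1}` with
`p_{j+1} ≤ S_j.res B, r_{j+1}.res B`, deciding `cv γ_j` differently. For `j < j'` one has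
`S_{j'} ≤ r_{j+1}`, so `S_j`, `S_{j'}` decide `cv γ_j` differently. A lower bound `p_ω` of the `p_j`
(`cnd_closed`). Then again `ω` steps: `dec_all` for the current condition and `S_j` gives
`R_j ≤ S_j`; a lower bound is `p'`.
-/

set_option autoImplicit false

namespace Pool.Agent.KSt

open Pool.Agent.Lib.SymModel Set

theorem split_many {G : Glo} {B B' : Set Idx} {A : Prm G} {k : Idx} (hS : Setup B B' A k)
    (p r : Cnd G) (hr : r.1.D ⊆ B') (hr0 : r ≤ A.q0) (hp : p.1 ≤ r.1.res B) (α : Om) :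
    ∃ p' ≤ p, ∃ R : ℕ → Cnd G, ∀ n, (R n).1.D ⊆ B' ∧ R n ≤ r ∧ p'.1 ≤ (R n).1.res B ∧
      α ≤ (R n).1.ht ∧ (∀ γ ≤ α, ∃ m, R n ∈ A.cv γ m) ∧
      ∀ n', n ≠ n' → ∃ γ m m', m ≠ m' ∧ R n ∈ A.cv γ m ∧ R n' ∈ A.cv γ m' := by
  classical
  -- the first construction
  let St : Type 1 := {x : Cnd G × Cnd G // x.1 ≤ p ∧ x.2 ≤ r ∧ x.2.1.D ⊆ B' ∧
    x.1.1 ≤ x.2.1.res B}
  have step : ∀ x : St, ∃ (y : St) (S : Cnd G), y.1.1 ≤ x.1.1 ∧ y.1.2 ≤ x.1.2 ∧ S ≤ x.1.2 ∧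
      S.1.D ⊆ B' ∧ y.1.1.1 ≤ S.1.res B ∧ ∃ γ m m', m ≠ m' ∧ S ∈ A.cv γ m ∧
      y.1.2 ∈ A.cv γ m' := by
    rintro ⟨⟨a, b⟩, h1, h2, h3, h4⟩
    obtain ⟨p', hp', r1, r2, hr1, hr2, hD1, hD2, hl1, hl2, γ, m1, m2, hm, hc1, hc2⟩ :=
      split hS a b h3 (h2.trans hr0) h4
    exact ⟨⟨(p', r2), hp'.trans h1, hr2.trans h2, hD2, hl2⟩, r1, hp', hr2, hr1, hD1, hl1,
      γ, m1, m2, hm, hc1, hc2⟩
  choose nx S hS1 hS2 hS3 hS4 hS5 hS6 using step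
  let x0 : St := ⟨(p, r), le_rfl, le_rfl, hr, hp⟩
  let x : ℕ → St := fun n => nx^[n] x0
  have hx : ∀ n, x (n + 1) = nx (x n) := fun n => Function.iterate_succ_apply' nx n x0
  have hP : ∀ n, (x (n + 1)).1.1 ≤ (x n).1.1 := fun n => by
    rw [hx]
    exact hS1 _
  have hR : ∀ n, (x (n + 1)).1.2 ≤ (x n).1.2 := fun n => by
    rw [hx]
    exact hS2 _
  have hRa : ∀ {m n : ℕ}, m ≤ n → (x n).1.2 ≤ (x m).1.2 := fun h =>
    antitone_nat_of_succ_le (f := fun n => (x n).1.2) hR h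
  obtain ⟨pw, hpw⟩ := cnd_closed G (fun n => (x n).1.1) hP
  have hlt : ∀ {j j' : ℕ}, j < j' → ∃ γ m m', m ≠ m' ∧ S (x j) ∈ A.cv γ m ∧
      S (x j') ∈ A.cv γ m' := by
    intro j j' h
    obtain ⟨γ, m, m', hm, h1, h2⟩ := hS6 (x j)
    refine ⟨γ, m, m', hm, h1, (A.cv γ m').down h2 ?_⟩
    refine (hS3 (x j')).trans ((hRa (Nat.succ_le_of_lt h)).trans ?_)
    rw [hx]
  have hpS : ∀ n, pw.1 ≤ (S (x n)).1.res B := fun n => by
    have h1 : pw ≤ (nx (x n)).1.1 := by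
      rw [← hx]
      exact hpw (n + 1)
    exact le_trans (Cnd.le_def.mp h1) (hS5 (x n))
  have hSr : ∀ n, S (x n) ≤ r := fun n => (hS3 (x n)).trans (x n).2.2.1
  -- the second construction
  let T : Type 1 := {t : Cnd G // t ≤ pw}
  have step2 : ∀ (n : ℕ) (t : T), ∃ (t' : T) (R : Cnd G), t'.1 ≤ t.1 ∧ R ≤ S (x n) ∧
      R.1.D ⊆ B' ∧ t'.1.1 ≤ R.1.res B ∧ α ≤ R.1.ht ∧ ∀ γ ≤ α, ∃ m, R ∈ A.cv γ m := by
    rintro n ⟨t, ht⟩
    obtain ⟨p', hp', r', hr', hD, hl, hα, hdec⟩ := dec_all hS t (S (x n)) (hS4 (x n))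
      ((hSr n).trans hr0) (le_trans (Cnd.le_def.mp ht) (hpS n)) α
    exact ⟨⟨p', hp'.trans ht⟩, r', hp', hr', hD, hl, hα, hdec⟩
  choose nt R hT1 hT2 hT3 hT4 hT5 hT6 using step2
  let y : ℕ → T := fun n => Nat.rec (motive := fun _ => T) ⟨pw, le_rfl⟩ (fun n t => nt n t) n
  have hy : ∀ n, y (n + 1) = nt n (y n) := fun n => rfl
  obtain ⟨p', hp'⟩ := cnd_closed G (fun n => (y n).1) (fun n => by
    rw [hy]
    exact hT1 n (y n))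
  refine ⟨p', ((hp' 0).trans (y 0).2).trans (hpw 0), fun n => R n (y n), fun n =>
    ⟨hT3 n (y n), (hT2 n (y n)).trans (hSr n), ?_, hT5 n (y n), hT6 n (y n), ?_⟩⟩
  · have h1 : p' ≤ (nt n (y n)).1 := by
      rw [← hy]
      exact hp' (n + 1)
    exact le_trans (Cnd.le_def.mp h1) (hT4 n (y n))
  · intro n' hn
    rcases lt_or_gt_of_ne hn with h | h
    · obtain ⟨γ, m, m', hm, h1, h2⟩ := hlt h
      exact ⟨γ, m, m', hm, (A.cv γ m).down h1 (hT2 n (y n)),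
        (A.cv γ m').down h2 (hT2 n' (y n'))⟩
    · obtain ⟨γ, m, m', hm, h1, h2⟩ := hlt h
      exact ⟨γ, m', m, hm.symm, (A.cv γ m').down h2 (hT2 n (y n)),
        (A.cv γ m).down h1 (hT2 n' (y n'))⟩

end Pool.Agent.KSt
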