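import Pool.Agent.Lib.MP_d9d638_lc.KS.CntMask
import Pool.Agent.Lib.MP_d9d638_lc.KS.OmB

/-!
# KS, module TLev: the levels of the tree of all paths

PROOF. `lv_congr`, `lv_tr`: direct. `lv_countable`: for `z ∈ Lv e γ` one has `Valid e univ γ z`
(`LimE univ δ` implies `IsLim δ`, `msk univ δ z = tr δ z`) and `msk univ γ z = z`, so `Lv e γ` is
contained in the set of `countable_valid`. `lv_zero`: `0 ∈ Lv p.e γ`: for a limit `δ ≤ p.ht` the
set `range (p.e δ)` is closed under `G0 δ _`, and `G0 δ _ [] 1 = 0`. `enumF_lv`: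
`Classical.choose_spec`.
-/

set_option autoImplicit false

namespace Pool.Agent.KSt

open Pool.Agent.Lib.SymModel Set

variable {e e' : Om → ℕ → Om → ℕ} {γ γ' : Om} {z : Om → ℕ}

private theorem TLev_pos {δ ξ : Om} {x : Om → ℕ} (h : ξ < δ) : tr δ x ξ = x ξ := by
  unfold tr
  exact if_pos h

private theorem TLev_neg {δ ξ : Om} {x : Om → ℕ} (h : ¬ ξ < δ) : tr δ x ξ = 0 := by
  unfold tr
  exact if_neg h

private theorem TLev_msk (δ : Om) (x : Om → ℕ) : msk univ δ x = tr δ x := by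
  funext ξ
  unfold msk
  by_cases h : ξ < δ
  · rw [TLev_pos h]
    exact if_pos ⟨mem_univ _, h⟩
  · rw [TLev_neg h]
    exact if_neg fun h' => h h'.2

private theorem TLev_tr {δ γ : Om} (h : δ ≤ γ) (x : Om → ℕ) : tr δ (tr γ x) = tr δ x := by
  funext ξ
  by_cases h1 : ξ < δ
  · rw [TLev_pos h1, TLev_pos h1, TLev_pos (h1.trans_le h)]
  · rw [TLev_neg h1, TLev_neg h1]

private theorem TLev_zero (δ : Om) : tr δ (0 : Om → ℕ) = 0 := by
  funext ξ
  by_cases h1 : ξ < δ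
  · rw [TLev_pos h1]
  · rw [TLev_neg h1]
    rfl

private theorem TLev_sub (h : ∀ δ ≤ γ, e δ = e' δ) : Lv e γ ⊆ Lv e' γ :=
  fun z hz => ⟨hz.1, fun δ hδ hL => by
    rw [← h δ hδ]
    exact hz.2 δ hδ hL⟩

theorem lv_congr (h : ∀ δ ≤ γ, e δ = e' δ) : Lv e γ = Lv e' γ :=
  Subset.antisymm (TLev_sub h) (TLev_sub fun δ hδ => (h δ hδ).symm)

theorem lv_tr (h : γ ≤ γ') (hz : z ∈ Lv e γ') : tr γ z ∈ Lv e γ :=
  ⟨TLev_tr le_rfl z, fun δ hδ hL => by
    rw [TLev_tr hδ]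
    exact hz.2 δ (hδ.trans h) hL⟩

theorem lv_countable (e : Om → ℕ → Om → ℕ) (γ : Om) : (Lv e γ).Countable := by
  refine (countable_valid e univ γ).mono ?_
  intro z hz
  refine ⟨z, fun δ hδ hL => ?_, ?_⟩
  · rw [TLev_msk]
    exact hz.2 δ hδ hL.1
  · rw [TLev_msk]
    exact hz.1.symm

theorem lv_zero (p : Cnd G0) (h : γ ≤ p.1.ht) : 0 ∈ Lv p.1.e γ := by
  refine ⟨TLev_zero γ, fun δ hδ hL => ?_⟩
  have h1 := p.2.gcl δ (hδ.trans h) hL [] (fun z hz => absurd hz (List.not_mem_nil)) 1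
  exact h1

theorem enumF_lv (p : Cnd G0) (h : γ ≤ p.1.ht) : range (enumF (Lv p.1.e γ)) = Lv p.1.e γ := by
  obtain ⟨s, hs⟩ := (lv_countable p.1.e γ).exists_eq_range ⟨0, lv_zero p h⟩
  have h1 : ∃ s : ℕ → Om → ℕ, range s = Lv p.1.e γ := ⟨s, hs.symm⟩
  have h2 : enumF (Lv p.1.e γ) = Classical.choose h1 := by
    unfold enumF
    exact dif_pos h1
  rw [h2]
  exact Classical.choose_spec h1

end Pool.Agent.KSt
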