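import Pool.Agent.Lib.MP_d9d638_lc.KS.TSys
import Pool.Agent.Lib.MP_d9d638_lc.KS.BaseL
import Pool.Agent.Lib.MP_d9d638_lc.KS.MskL

/-!
# KS, module TPath: branches of the tree of all paths

PROOF. `tpath_tr`: let `ξ < γ`; then `sc ξ ≤ γ < δ`, and with `m = s (sc ξ)`: `p ∈ b (sc ξ) m`,
`p ∈ b γ (s γ)`; by `pistar_iff` some number `m₁` is least with
`enumF (Lv (sc ξ)) m₁ = tr (sc ξ) (enumF (Lv γ) (s γ))`, `IsBr.coh` and `IsNm.uni` give `m₁ = m`.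
`tpath_valid`: `tr δ' (tpath) = tr δ' (enumF (Lv γ) (s γ))` for `δ' ≤ γ` and the definition of
`Lv`;
`msk univ δ' x = tr δ' x`. `tpath_lt`: for `sc ξ < δ` the value is computed from `s (sc ξ)` and
`e` up to `sc ξ` (`lv_congr`). `rhoT_ext`: as `rho_ext`: if `r ≤ t`, `t` in the generating set,
then
`r ≤ p` itself is in the generating set for `b'` (same `e` up to `δ`, `tpath_lt`; `Ok`, `Ann` at
`η`
use `x` up to `η` and `e` up to `η`).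
-/

set_option autoImplicit false

namespace Pool.Agent.KSt

open Pool.Agent.Lib.SymModel Set

variable {p p' : Cnd G0} {b b' : Om → ℕ → RO (Cnd G0)} {s s' : Om → ℕ} {δ γ η ξ : Om}

private theorem TPath_tr_lt {δ ξ : Om} {z : Om → ℕ} (h : ξ < δ) : tr δ z ξ = z ξ := by
  classical
  unfold tr
  rw [if_pos h]

private theorem TPath_tr_ge {δ ξ : Om} {z : Om → ℕ} (h : ¬ ξ < δ) : tr δ z ξ = 0 := by
  classical
  unfold tr
  rw [if_neg h]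

private theorem TPath_tr_tr {δ δ' : Om} {z : Om → ℕ} (h : δ' ≤ δ) : tr δ' (tr δ z) = tr δ' z := by
  funext ξ
  by_cases hξ : ξ < δ'
  · rw [TPath_tr_lt hξ, TPath_tr_lt hξ, TPath_tr_lt (hξ.trans_le h)]
  · rw [TPath_tr_ge hξ, TPath_tr_ge hξ]

private theorem TPath_msk_univ {δ : Om} {z : Om → ℕ} : msk univ δ z = tr δ z := by
  classical
  funext ξ
  by_cases hξ : ξ < δ
  · rw [TPath_tr_lt hξ]
    unfold msk
    rw [if_pos ⟨mem_univ _, hξ⟩]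
  · rw [TPath_tr_ge hξ]
    unfold msk
    rw [if_neg fun h => hξ h.2]

private theorem TPath_mem (p : Cnd G0) {γ : Om} (h : γ ≤ p.1.ht) (n : ℕ) :
    enumF (Lv p.1.e γ) n ∈ Lv p.1.e γ := by
  have h1 : enumF (Lv p.1.e γ) n ∈ range (enumF (Lv p.1.e γ)) := mem_range_self n
  rwa [enumF_lv p h] at h1

private theorem TPath_least (p : Cnd G0) {γ : Om} (h : γ ≤ p.1.ht) {z : Om → ℕ}
    (hz : z ∈ Lv p.1.e γ) : ∃ m, IsLeast {n | enumF (Lv p.1.e γ) n = z} m := by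
  classical
  have h1 : ∃ n, enumF (Lv p.1.e γ) n = z := by
    rw [← enumF_lv p h] at hz
    exact hz
  exact ⟨Nat.find h1, Nat.find_spec h1, fun n hn => Nat.find_min' h1 hn⟩

private theorem TPath_sc_mono {a b : Om} (h : a ≤ b) : sc a ≤ sc b :=
  sc_le (h.trans_lt (lt_sc b))

private theorem TPath_ok {e e' : Om → ℕ → Om → ℕ} {E E' : Set Om} {x x' : Om → ℕ} {η : Om}
    (he : ∀ ε ≤ η, e ε = e' ε) (hE : ∀ ξ ≤ η, (ξ ∈ E ↔ ξ ∈ E')) (hx : ∀ ξ ≤ η, x ξ = x' ξ)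
    (h : Ok e E x η) : Ok e' E' x' η := by
  have hb : ∀ η' ≤ η, base E η' = base E' η' := fun η' h' =>
    base_congr fun ξ hξ => hE ξ (hξ.le.trans h')
  constructor
  · intro η₁ h1 η₂ h2 h12 h2η ho1 ho2 ξ hξ
    have h1η : η₁ ≤ η := h12.le.trans h2η
    rw [← hx _ h1η] at ho1
    rw [← hx _ h2η] at ho2
    rw [← hb _ h1η] at hξ
    have := h.coh η₁ ((hE _ h1η).2 h1) η₂ ((hE _ h2η).2 h2) h12 h2η ho1 ho2 ξ hξ
    rw [← hb _ h1η, ← hb _ h2η, ← he _ ((base_le E η₁).trans h1η),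
      ← he _ ((base_le E η₂).trans h2η), ← hx _ h1η, ← hx _ h2η]
    exact this
  · intro η₁ h1 η₂ h2 h12 h2η hno
    have h1η : η₁ ≤ η := h12.le.trans h2η
    rw [← hx _ h1η, ← hx _ h2η]
    refine h.inj η₁ ((hE _ h1η).2 h1) η₂ ((hE _ h2η).2 h2) h12 h2η fun η₃ h3 h13 h32 => ?_
    have h3η : η₃ ≤ η := h32.trans h2η
    rw [hx _ h3η]
    exact hno η₃ ((hE _ h3η).1 h3) h13 h32

/-- The path given by the numbers `s` of the nodes. -/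
noncomputable def tpath (e : Om → ℕ → Om → ℕ) (s : Om → ℕ) (ξ : Om) : ℕ :=
  enumF (Lv e (sc ξ)) (s (sc ξ)) ξ

/-- The generating set of the map from the branches to the subsets of `ω₁`. -/
noncomputable def rsetT (b : Om → ℕ → RO (Cnd G0)) (ξ : Om) : Set (Cnd G0) :=
  {p | ∃ δ ≤ p.1.ht, ∃ s : Om → ℕ, (∀ γ < δ, p ∈ b γ (s γ)) ∧ ∃ η, sc η < δ ∧
    Ok p.1.e univ (tpath p.1.e s) η ∧ Ann p.1.e univ (tpath p.1.e s) η ξ}

/-- The map from the branches to the subsets of `ω₁`. -/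
noncomputable def rhoT (b : Om → ℕ → RO (Cnd G0)) (ξ : Om) : RO (Cnd G0) := gen (rsetT b ξ)

theorem tpath_tr (hb : IsBr p (pistar G0) b) (hδ : δ ≤ p.1.ht) (hs : ∀ γ < δ, p ∈ b γ (s γ))
    (hγ : γ < δ) : tr γ (tpath p.1.e s) = enumF (Lv p.1.e γ) (s γ) := by
  have hγht : γ ≤ p.1.ht := hγ.le.trans hδ
  have hT : enumF (Lv p.1.e γ) (s γ) ∈ Lv p.1.e γ := by
    exact TPath_mem p hγht _
  funext ξ
  by_cases hξ : ξ < γ
  · have hsc : sc ξ ≤ γ := sc_le hξ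
    have hscht : sc ξ ≤ p.1.ht := hsc.trans hγht
    have h1 : tr (sc ξ) (enumF (Lv p.1.e γ) (s γ)) ∈ Lv p.1.e (sc ξ) := lv_tr hsc hT
    obtain ⟨m, hm⟩ := TPath_least p hscht h1
    have h2 : p ∈ pistar G0 (sc ξ) γ (s γ) m := (pistar_iff p hscht hγht (s γ) m).2 hm
    have h3 : p ∈ b (sc ξ) m := hb.coh _ _ _ _ hsc p le_rfl (hs γ hγ) h2
    have h4 : m = s (sc ξ) :=
      hb.nm.uni _ _ _ p le_rfl h3 (hs _ (hsc.trans_lt hγ))
    have h5 : enumF (Lv p.1.e (sc ξ)) m = tr (sc ξ) (enumF (Lv p.1.e γ) (s γ)) := hm.1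
    rw [TPath_tr_lt hξ]
    unfold tpath
    rw [← h4, h5, TPath_tr_lt (lt_sc ξ)]
  · rw [TPath_tr_ge hξ, ← hT.1, TPath_tr_ge hξ]

theorem tpath_valid (hb : IsBr p (pistar G0) b) (hδ : δ ≤ p.1.ht)
    (hs : ∀ γ < δ, p ∈ b γ (s γ)) (hγ : γ < δ) : Valid p.1.e univ γ (tpath p.1.e s) := by
  intro δ' hδ' hl
  have hγht : γ ≤ p.1.ht := hγ.le.trans hδ
  have hT : enumF (Lv p.1.e γ) (s γ) ∈ Lv p.1.e γ := TPath_mem p hγht _
  rw [TPath_msk_univ, ← TPath_tr_tr hδ', tpath_tr hb hδ hs hγ]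
  exact hT.2 δ' hδ' hl.1

theorem tpath_lt (hp : p' ≤ p) (hδ : δ ≤ p.1.ht) (hs : ∀ γ < δ, s γ = s' γ) (hξ : sc ξ < δ) :
    tpath p'.1.e s' ξ = tpath p.1.e s ξ := by
  unfold tpath
  rw [hs _ hξ, lv_congr (e := p'.1.e) (e' := p.1.e) (γ := sc ξ)
    fun δ' h => hp.e δ' (h.trans (hξ.le.trans hδ))]

theorem ok_congr {e e' : Om → ℕ → Om → ℕ} {E E' : Set Om} {x x' : Om → ℕ}
    (he : ∀ ε ≤ η, e ε = e' ε) (hE : ∀ ξ ≤ η, (ξ ∈ E ↔ ξ ∈ E')) (hx : ∀ ξ ≤ η, x ξ = x' ξ) :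
    Ok e E x η ↔ Ok e' E' x' η := by
  constructor
  · exact TPath_ok he hE hx
  · exact TPath_ok (fun ε h => (he ε h).symm) (fun ξ h => (hE ξ h).symm) fun ξ h => (hx ξ h).symm

theorem ann_congr {e e' : Om → ℕ → Om → ℕ} {E E' : Set Om} {x x' : Om → ℕ}
    (he : ∀ ε ≤ η, e ε = e' ε) (hE : ∀ ξ < η, (ξ ∈ E ↔ ξ ∈ E')) (hx : x η = x' η) :
    Ann e E x η ξ ↔ Ann e' E' x' η ξ := by
  unfold Ann
  have h1 : base E η = base E' η := base_congr hE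
  rw [← h1, hx, he _ (base_le E η)]

theorem rhoT_ext (h : ∀ γ m, ∀ r' ≤ p, (r' ∈ b γ m ↔ r' ∈ b' γ m)) (hρ : p ∈ rhoT b ξ) :
    p ∈ rhoT b' ξ := by
  refine mem_gen.2 fun q hq => ?_
  obtain ⟨r, hr, t, ht, hrt⟩ := mem_gen.1 hρ q hq
  obtain ⟨δ, hδ, s, hs, η, hη, hok, hann⟩ := ht
  have hrp : r ≤ p := hr.trans hq
  have hx : ∀ ξ' ≤ η, tpath r.1.e s ξ' = tpath t.1.e s ξ' := fun ξ' h' =>
    tpath_lt hrt hδ (fun _ _ => rfl) ((TPath_sc_mono h').trans_lt hη)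
  have he : ∀ ε ≤ η, r.1.e ε = t.1.e ε := fun ε h' =>
    hrt.e ε (h'.trans ((lt_sc η).le.trans (hη.le.trans hδ)))
  refine ⟨r, hr, r, ⟨δ, hδ.trans hrt.ht, s, fun γ hγ => ?_, η, hη, ?_, ?_⟩, le_rfl⟩
  · exact (h γ (s γ) r hrp).1 ((b γ (s γ)).down (hs γ hγ) hrt)
  · exact (ok_congr he (fun _ _ => Iff.rfl) hx).2 hok
  · exact (ann_congr he (fun _ _ => Iff.rfl) (hx η le_rfl)).2 hann

end Pool.Agent.KSt
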