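import Pool.Agent.Lib.MP_d9d638_lc.KS.TLev
import Pool.Agent.Lib.MP_d9d638_lc.KS.Ext

/-!
# KS, module TSys: the tree of all paths is a system

PROOF. `pistar_iff`: if the heights are large enough then `p` decides everything (`lv_congr`), so
`mem_gen` reduces to the statement about `p` itself. `pistar_sys`: total: extend the height
(`ht_ext`); a least `n` exists since `tr γ (enumF (Lv γ') m') ∈ Lv γ` (`lv_tr`, `enumF_lv`).
Unique
and coherent: extend the given condition to a height above all levels, use `pistar_iff`, and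
`tr γ (tr γ' z) = tr γ z`; coherence for `r` follows by regularity (`RO.mem_of_dense`).
-/

set_option autoImplicit false

namespace Pool.Agent.KSt

open Pool.Agent.Lib.SymModel Set

private theorem TSys_tr_tr {γ γ' : Om} (h : γ ≤ γ') (z : Om → ℕ) :
    tr γ (tr γ' z) = tr γ z := by
  funext ξ
  unfold tr
  by_cases h1 : ξ < γ
  · simp [h1, h1.trans_le h]
  · simp [h1]

theorem pistar_iff (p : Cnd G0) {γ γ' : Om} (h : γ ≤ p.1.ht) (h' : γ' ≤ p.1.ht) (m' m : ℕ) :
    p ∈ pistar G0 γ γ' m' m ↔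
      IsLeast {n | enumF (Lv p.1.e γ) n = tr γ (enumF (Lv p.1.e γ') m')} m := by
  constructor
  · intro hp
    obtain ⟨r, hr, t, ht, hrt⟩ := hp p le_rfl
    have e1 : ∀ {a : Om}, a ≤ p.1.ht → a ≤ t.1.ht → Lv t.1.e a = Lv p.1.e a := by
      intro a ha hb
      refine lv_congr fun δ hδ => ?_
      rw [← hr.e δ (hδ.trans ha)]
      exact (hrt.e δ (hδ.trans hb)).symm
    have h2 := ht.2.2
    rw [e1 h ht.1, e1 h' ht.2.1] at h2
    exact h2
  · intro hp q hq
    exact ⟨q, le_rfl, p, ⟨h, h', hp⟩, hq⟩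

theorem pistar_sys (q : Cnd G0) : IsSys q (pistar G0) := by
  refine ⟨?_, ?_, ?_⟩
  · intro γ γ' m' hγ r _
    obtain ⟨r', hr', h1, _⟩ := ht_ext r γ'
    have h2 : tr γ (enumF (Lv r'.1.e γ') m') ∈ range (enumF (Lv r'.1.e γ)) := by
      rw [enumF_lv r' (hγ.trans h1.le)]
      refine lv_tr hγ ?_
      have h5 := mem_range_self (f := enumF (Lv r'.1.e γ')) m'
      rw [enumF_lv r' h1.le] at h5
      exact h5
    obtain ⟨n, hn⟩ := h2
    classical
    have h3 : ∃ n, enumF (Lv r'.1.e γ) n = tr γ (enumF (Lv r'.1.e γ') m') := ⟨n, hn⟩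
    refine ⟨r', hr', Nat.find h3, (pistar_iff r' (hγ.trans h1.le) h1.le m' _).2 ?_⟩
    exact ⟨Nat.find_spec h3, fun n hn => Nat.find_min' h3 hn⟩
  · intro γ γ' m' m n hγ r _ h1 h2
    obtain ⟨r', hr', h3, _⟩ := ht_ext r γ'
    have h4 := (pistar_iff r' (hγ.trans h3.le) h3.le m' m).1 (RO.down _ h1 hr')
    have h5 := (pistar_iff r' (hγ.trans h3.le) h3.le m' n).1 (RO.down _ h2 hr')
    exact h4.unique h5
  · intro γ γ' γ'' m'' m' m hγ hγ' r _ h1 h2
    refine RO.mem_of_dense _ fun s hs => ?_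
    obtain ⟨r', hr', h3, _⟩ := ht_ext s γ''
    have h4 := (pistar_iff r' (hγ'.trans h3.le) h3.le m'' m').1 (RO.down _ h1 (hr'.trans hs))
    have h5 := (pistar_iff r' (hγ.trans (hγ'.trans h3.le)) (hγ'.trans h3.le) m' m).1
      (RO.down _ h2 (hr'.trans hs))
    refine ⟨r', hr', (pistar_iff r' (hγ.trans (hγ'.trans h3.le)) h3.le m'' m).2 ?_⟩
    have h6 : enumF (Lv r'.1.e γ') m' = tr γ' (enumF (Lv r'.1.e γ'') m'') := h4.1
    rw [h6, TSys_tr_tr hγ] at h5
    exact h5

end Pool.Agent.KSt
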