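import Pool.Agent.Lib.MP_d9d638_lc.KS.BelowR
import Pool.Agent.Lib.MP_d9d638_lc.KS.CntMask
import Pool.Agent.Lib.MP_d9d638_lc.KS.SplitMany
import Pool.Agent.Lib.MP_d9d638_lc.KS.MskL
import Pool.Agent.Lib.MP_d9d638_lc.KS.Res
import Pool.Agent.Lib.MP_d9d638_lc.KS.Closed

/-!
# KS, module Table: the conditions for the next level

PROOF. `E = isE (dat p k)`. The set `X` of all `msk E p.ht x`, `x` valid at `p.ht`, is countable
(`countable_valid`); if it is empty take `p' = p`, `R = fun _ _ => A.q0`. Otherwise enumerate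
`X = {z j : j ∈ ℕ}`; the `z j` are valid and `msk E p.ht (z j) = z j` (`valid_msk`, `msk_msk`).
`exists_below` for `p` and `z j` gives `r j`. Build `p = p₀ ≥ p₁ ≥ ...`: `split_many` for `p_j`,
`r j` (`p_j ≤ p ≤ (r j).res B`), `α = p.ht` gives `p_{j+1}` and `R_j`. `p'`: `cnd_closed`. Put
`R z n = R_j n` if `z = z j` (choose such a `j`), `R z n = A.q0` for `z ∉ X`
(`p' ≤ q0 ≤ q0.res B`). For a valid `x`: `A.cond _ E η x = A.cond _ E η (msk E p.ht x)`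
(`cond_congr`).
-/

set_option autoImplicit false

namespace Pool.Agent.KSt

open Pool.Agent.Lib.SymModel Set

private theorem Table_cond {G : Glo} (A : Prm G) (f : Om → Ordinal.{0}) (E : Set Om) {η δ : Om}
    (hη : η ∈ E) (h : η < δ) (x : Om → ℕ) :
    A.cond f E η (msk E δ x) = A.cond f E η x := by
  classical
  refine cond_congr A rfl (fun _ _ => Iff.rfl) (fun ξ hξ hξη => ?_) ?_
  · unfold msk
    rw [if_pos ⟨hξ, hξη.trans h⟩]
  · unfold msk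
    rw [if_pos ⟨hη, h⟩]

/-- the sequence of conditions for countably many functions -/
private theorem Table_seq {G : Glo} {B B' : Set Idx} {A : Prm G} {k : Idx} (hS : Setup B B' A k)
    {p : Cnd G} (r : ℕ → Cnd G) (hD : ∀ j, (r j).1.D ⊆ B') (h0 : ∀ j, r j ≤ A.q0)
    (hp : ∀ j, p.1 ≤ (r j).1.res B) (α : Om) :
    ∃ p' ≤ p, ∃ R : ℕ → ℕ → Cnd G, ∀ j n, (R j n).1.D ⊆ B' ∧ R j n ≤ r j ∧
      p'.1 ≤ (R j n).1.res B ∧ α ≤ (R j n).1.ht ∧ (∀ γ ≤ α, ∃ m, R j n ∈ A.cv γ m) ∧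
      ∀ n', n ≠ n' → ∃ γ m m', m ≠ m' ∧ R j n ∈ A.cv γ m ∧ R j n' ∈ A.cv γ m' := by
  let T : Type 1 := {t : Cnd G // t ≤ p}
  have step : ∀ (j : ℕ) (t : T), ∃ (t' : T) (R : ℕ → Cnd G), t'.1 ≤ t.1 ∧
      ∀ n, (R n).1.D ⊆ B' ∧ R n ≤ r j ∧ t'.1.1 ≤ (R n).1.res B ∧
      α ≤ (R n).1.ht ∧ (∀ γ ≤ α, ∃ m, R n ∈ A.cv γ m) ∧
      ∀ n', n ≠ n' → ∃ γ m m', m ≠ m' ∧ R n ∈ A.cv γ m ∧ R n' ∈ A.cv γ m' := by
    rintro j ⟨t, ht⟩
    obtain ⟨p', hp', R, hR⟩ := split_many hS t (r j) (hD j) (h0 j)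
      (le_trans (Cnd.le_def.mp ht) (hp j)) α
    exact ⟨⟨p', hp'.trans ht⟩, R, hp', hR⟩
  choose nt R hT hR using step
  let y : ℕ → T := fun j => Nat.rec (motive := fun _ => T) ⟨p, le_rfl⟩ (fun j t => nt j t) j
  have hy : ∀ j, y (j + 1) = nt j (y j) := fun j => rfl
  obtain ⟨p', hp'⟩ := cnd_closed G (fun j => (y j).1) (fun j => by
    rw [hy]
    exact hT j (y j))
  refine ⟨p', (hp' 0).trans (y 0).2, fun j => R j (y j), fun j n => ?_⟩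
  obtain ⟨h1, h2, h3, h4, h5, h6⟩ := hR j (y j) n
  refine ⟨h1, h2, ?_, h4, h5, h6⟩
  have h7 : p' ≤ (nt j (y j)).1 := by
    rw [← hy]
    exact hp' (j + 1)
  exact le_trans (Cnd.le_def.mp h7) h3

theorem exists_table {G : Glo} {B B' : Set Idx} {A : Prm G} {k : Idx} (hS : Setup B B' A k)
    {p : Cnd G} (hk : k ∈ p.1.D) (hp : p ≤ A.q0) :
    ∃ p' ≤ p, ∃ R : (Om → ℕ) → ℕ → Cnd G, (∀ z n, (R z n).1.D ⊆ B' ∧ p'.1 ≤ (R z n).1.res B) ∧
      ∀ x, Valid p.1.e (A.isE (dat p.1 k)) p.1.ht x → ∀ n,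
        R (msk (A.isE (dat p.1 k)) p.1.ht x) n ≤ A.q0 ∧
        (∀ η ∈ A.isE (dat p.1 k), η < p.1.ht → R (msk (A.isE (dat p.1 k)) p.1.ht x) n ≤
          A.cond (p.1.f k) (A.isE (dat p.1 k)) η x) ∧
        p.1.ht ≤ (R (msk (A.isE (dat p.1 k)) p.1.ht x) n).1.ht ∧
        (∀ γ ≤ p.1.ht, ∃ m, R (msk (A.isE (dat p.1 k)) p.1.ht x) n ∈ A.cv γ m) ∧
        ∀ n', n ≠ n' → ∃ γ m m', m ≠ m' ∧ R (msk (A.isE (dat p.1 k)) p.1.ht x) n ∈ A.cv γ m ∧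
          R (msk (A.isE (dat p.1 k)) p.1.ht x) n' ∈ A.cv γ m' := by
  classical
  obtain ⟨E, hE⟩ : ∃ E, E = A.isE (dat p.1 k) := ⟨_, rfl⟩
  rw [← hE]
  obtain ⟨X, hX⟩ : ∃ X : Set (Om → ℕ), X = {z | ∃ x, Valid p.1.e E p.1.ht x ∧
    z = msk E p.1.ht x} := ⟨_, rfl⟩
  have hXc : X.Countable := by
    rw [hX]
    exact countable_valid _ _ _
  by_cases hne : X.Nonempty
  · obtain ⟨z, hz⟩ := hXc.exists_eq_range hne
    have hzX : ∀ j, ∃ x, Valid p.1.e E p.1.ht x ∧ z j = msk E p.1.ht x := by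
      intro j
      have h1 : z j ∈ X := by
        rw [hz]
        exact ⟨j, rfl⟩
      rw [hX] at h1
      exact h1
    have hzv : ∀ j, Valid p.1.e E p.1.ht (z j) := by
      intro j
      obtain ⟨x, hx, hj⟩ := hzX j
      rw [hj]
      exact valid_msk.2 hx
    have hbel : ∀ j, ∃ r : Cnd G, r.1.D ⊆ B' ∧ r ≤ A.q0 ∧
        (∀ η ∈ E, η < p.1.ht → r ≤ A.cond (p.1.f k) E η (z j)) ∧ p.1 ≤ r.1.res B := by
      intro j
      have h1 := exists_below hS hk hp (δ := p.1.ht) le_rfl (x := z j)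
      rw [← hE] at h1
      exact h1 (hzv j)
    choose r hr1 hr2 hr3 hr4 using hbel
    obtain ⟨p', hp', R, hR⟩ := Table_seq hS r hr1 hr2 hr4 p.1.ht
    have hF : ∀ w, ∃ F : ℕ → Cnd G, (∃ j, z j = w ∧ ∀ n, F n = R j n) ∨
        ((¬ ∃ j, z j = w) ∧ ∀ n, F n = A.q0) := by
      intro w
      by_cases h : ∃ j, z j = w
      · obtain ⟨j, hj⟩ := h
        exact ⟨R j, Or.inl ⟨j, hj, fun _ => rfl⟩⟩
      · exact ⟨fun _ => A.q0, Or.inr ⟨h, fun _ => rfl⟩⟩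
    choose F hF using hF
    refine ⟨p', hp', F, fun w n => ?_, fun x hx n => ?_⟩
    · rcases hF w with ⟨j, -, h⟩ | ⟨-, h⟩
      · rw [h]
        exact ⟨(hR _ n).1, (hR _ n).2.2.1⟩
      · rw [h]
        exact ⟨hS.q0D, le_trans (Cnd.le_def.mp (hp'.trans hp)) (le_res _)⟩
    · have h : ∃ j, z j = msk E p.1.ht x := by
        have h1 : msk E p.1.ht x ∈ X := by
          rw [hX]
          exact ⟨x, hx, rfl⟩
        rw [hz] at h1
        exact h1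
      obtain ⟨j, hzj, hRe⟩ : ∃ j, z j = msk E p.1.ht x ∧ ∀ n, F (msk E p.1.ht x) n = R j n :=
        (hF (msk E p.1.ht x)).resolve_right fun h' => h'.1 h
      simp only [hRe]
      obtain ⟨h1, h2, h3, h4, h5, h6⟩ := hR j n
      refine ⟨h2.trans (hr2 j), fun η hη hlt => ?_, h4, h5, h6⟩
      have h7 := hr3 j η hη hlt
      rw [hzj, Table_cond A _ E hη hlt] at h7
      exact h2.trans h7
  · refine ⟨p, le_rfl, fun _ _ => A.q0, fun w n => ⟨hS.q0D, ?_⟩, fun x hx n => ?_⟩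
    · exact le_trans (Cnd.le_def.mp hp) (le_res _)
    · refine absurd ⟨msk E p.1.ht x, ?_⟩ hne
      rw [hX]
      exact ⟨x, hx, rfl⟩

end Pool.Agent.KSt
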