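import Pool.Agent.Lib.MP_d9d638_lc.KS.MskL
import Pool.Agent.Lib.MP_d9d638_lc.KS.BaseL

/-!
# KS, module Uniq: the live path is unique

PROOF. `live_unique`: let `η' ∈ E`, `η' ≤ η` be the least element of `E` with `x η' ≠ x₂ η'`; then
`msk E η' x = msk E η' x₂` and `Acc.spl` at `η'` (`isE_iff`; `x` is valid at `η'`, `valid_mono`)
for
`n = x η'`, `n' = x₂ η'` gives `γ ≤ η'` and `m ≠ m'` with `cond η' x ∈ cv γ m`,
`cond η' x₂ ∈ cv γ m'`; `Agree` for both: `s γ = m`, `s γ = m'`. `live_mono`, `live_congr_*`: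
direct
(`Ok` at `η` only uses `x` on `E ∩ Iic η` and `e` up to `η` (`base_le`); `cond_congr`).
`live_ext`:
`isE_ext`, `base_congr`. `ann_indep`: say `η ≤ η₂`; then `x₂ η = x η` (`live_unique`), and
if `η < η₂` use `Ok.coh` of `x₂` at `η₂`. `fv_ext`: `live_ext`, and `Ann` at `η < δ ≤ p.ht` is the
same for both.
-/

set_option autoImplicit false

namespace Pool.Agent.KSt

open Pool.Agent.Lib.SymModel Set

variable {G : Glo} {A : Prm G} {k : Idx} {p p' : Cnd G} {x x' x₂ s s' : Om → ℕ}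
  {η η' η₂ δ ξ : Om} {d : Dat}

theorem live_unique (h : A.Live d η x s) (h₂ : A.Live d η₂ x₂ s) (hle : η ≤ η₂) :
    ∀ η' ∈ A.isE d, η' ≤ η → x η' = x₂ η' := by
  intro η'
  induction η' using (wellFounded_lt : WellFounded ((· < ·) : Om → Om → Prop)).induction with
  | _ η' ih =>
    intro h1 h3
    by_contra hne
    have hm : msk (A.isE d) η' x = msk (A.isE d) η' x₂ :=
      msk_congr (fun _ _ => Iff.rfl) fun ξ hξ hlt => ih ξ hlt hξ (hlt.le.trans h3)
    obtain ⟨γ, hγ, m, m', hmm, e1, e2⟩ :=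
      ((isE_iff A d η').1 h1).spl x (valid_mono h3 h.valid) (x η') (x₂ η') hne
    have a1 : s γ = m := h.agree η' h1 h3 γ hγ m e1
    rw [hm] at e2
    have a2 : s γ = m' := h₂.agree η' h1 (h3.trans hle) γ hγ m' e2
    exact hmm (a1.symm.trans a2)

theorem live_mono (h : A.Live d η₂ x s) (hη : η ∈ A.isE d) (hle : η ≤ η₂) : A.Live d η x s := by
  exact
    { mem := hη
      valid := valid_mono hle h.valid
      ok :=
        { coh := fun a ha b hb hab hbη => h.ok.coh a ha b hb hab (hbη.trans hle)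
          inj := fun a ha b hb hab hbη => h.ok.inj a ha b hb hab (hbη.trans hle) }
      agree := fun a ha haη => h.agree a ha (haη.trans hle) }

theorem live_congr_s (hs : ∀ γ ≤ η, s γ = s' γ) (h : A.Live d η x s) : A.Live d η x s' := by
  exact
    { mem := h.mem
      valid := h.valid
      ok := h.ok
      agree := fun a ha haη γ hγ m hm =>
        (hs γ (hγ.trans haη)).symm.trans (h.agree a ha haη γ hγ m hm) }

theorem live_congr_x (hx : ∀ η' ∈ A.isE d, η' ≤ η → x η' = x' η') (h : A.Live d η x s) :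
    A.Live d η x' s := by
  exact
    { mem := h.mem
      valid := (valid_congr (fun _ _ => rfl) (fun _ _ => Iff.rfl)
        fun ξ hξ hlt => hx ξ hξ hlt.le).1 h.valid
      ok :=
        { coh := fun a ha b hb hab hbη h1 h2 => by
            rw [← hx a ha (hab.le.trans hbη)] at h1 ⊢
            rw [← hx b hb hbη] at h2 ⊢
            exact h.ok.coh a ha b hb hab hbη h1 h2
          inj := fun a ha b hb hab hbη h1 => by
            rw [← hx a ha (hab.le.trans hbη), ← hx b hb hbη]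
            refine h.ok.inj a ha b hb hab hbη fun c hc hac hcb => ?_
            rw [hx c hc (hcb.trans hbη)]
            exact h1 c hc hac hcb }
      agree := fun a ha haη γ hγ m hm => by
        refine h.agree a ha haη γ hγ m ?_
        rwa [cond_congr A rfl (fun _ _ => Iff.rfl)
          (fun ξ hξ hlt => hx ξ hξ (hlt.le.trans haη)) (hx a ha haη)] }

private theorem Uniq_congr {d' : Dat} (he : ∀ ε ≤ η, d.e ε = d'.e ε)
    (hf : ∀ ξ ≤ η, d.f ξ = d'.f ξ) (hE : ∀ ξ ≤ η, (ξ ∈ A.isE d ↔ ξ ∈ A.isE d'))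
    (h : A.Live d η x s) : A.Live d' η x s := by
  have hb : ∀ a ≤ η, base (A.isE d') a = base (A.isE d) a := fun a ha =>
    (base_congr fun ξ hξ => hE ξ (hξ.le.trans ha)).symm
  have hbe : ∀ a ≤ η, d'.e (base (A.isE d') a) = d.e (base (A.isE d) a) := fun a ha => by
    rw [hb a ha]
    exact (he _ ((base_le _ _).trans ha)).symm
  exact
    { mem := (hE η le_rfl).1 h.mem
      valid := (valid_congr he (fun ξ hξ => hE ξ hξ.le) fun _ _ _ => rfl).1 h.valid
      ok :=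
        { coh := fun a ha b hb' hab hbη h1 h2 ξ hξ => by
            rw [hb a (hab.le.trans hbη)] at hξ
            rw [hbe a (hab.le.trans hbη), hbe b hbη]
            exact h.ok.coh a ((hE a (hab.le.trans hbη)).2 ha) b ((hE b hbη).2 hb') hab hbη
              h1 h2 ξ hξ
          inj := fun a ha b hb' hab hbη h1 =>
            h.ok.inj a ((hE a (hab.le.trans hbη)).2 ha) b ((hE b hbη).2 hb') hab hbη
              fun c hc hac hcb => h1 c ((hE c (hcb.trans hbη)).1 hc) hac hcb }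
      agree := fun a ha haη γ hγ m hm => by
        refine h.agree a ((hE a haη).2 ha) haη γ hγ m ?_
        rwa [cond_congr A (hf a haη) (fun ξ hξ => hE ξ (hξ.le.trans haη))
          (fun _ _ _ => rfl) rfl] }

theorem live_ext (hp : p' ≤ p) (hk : k ∈ p.1.D) (hη : η < p.1.ht) :
    A.Live (dat p'.1 k) η x s ↔ A.Live (dat p.1 k) η x s := by
  have hp' : p'.1 ≤ p.1 := hp
  have he : ∀ ε ≤ η, (dat p'.1 k).e ε = (dat p.1 k).e ε := fun ε hε =>
    hp'.e ε (hε.trans hη.le)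
  have hf : ∀ ξ ≤ η, (dat p'.1 k).f ξ = (dat p.1 k).f ξ := fun ξ hξ =>
    hp'.f k hk ξ (hξ.trans_lt hη)
  have hE : ∀ ξ ≤ η, (ξ ∈ A.isE (dat p'.1 k) ↔ ξ ∈ A.isE (dat p.1 k)) := fun ξ hξ =>
    isE_ext A hp' hk ξ (hξ.trans_lt hη)
  exact ⟨Uniq_congr he hf hE, Uniq_congr (fun ε h => (he ε h).symm)
    (fun ξ h => (hf ξ h).symm) fun ξ h => (hE ξ h).symm⟩

theorem ann_ext (hp : p' ≤ p) (hk : k ∈ p.1.D) (hη : η < p.1.ht) :
    Ann p'.1.e (A.isE (dat p'.1 k)) x η ξ ↔ Ann p.1.e (A.isE (dat p.1 k)) x η ξ := by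
  have hp' : p'.1 ≤ p.1 := hp
  have hb : base (A.isE (dat p'.1 k)) η = base (A.isE (dat p.1 k)) η :=
    base_congr fun a ha => isE_ext A hp' hk a (ha.trans hη)
  have he : p'.1.e (base (A.isE (dat p.1 k)) η) = p.1.e (base (A.isE (dat p.1 k)) η) :=
    hp'.e _ ((base_le _ _).trans hη.le)
  unfold Ann
  rw [hb, he]

private theorem Uniq_indep (h : A.Live d η x s) (h₂ : A.Live d η₂ x₂ s) (ho : x η % 2 = 1)
    (ho₂ : x₂ η₂ % 2 = 1) (hξ : ξ < base (A.isE d) η) (hξ₂ : ξ < base (A.isE d) η₂)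
    (hle : η ≤ η₂) : Ann d.e (A.isE d) x η ξ ↔ Ann d.e (A.isE d) x₂ η₂ ξ := by
  have h1 : x η = x₂ η := live_unique h h₂ hle η h.mem le_rfl
  rcases hle.eq_or_lt with rfl | hlt
  · unfold Ann
    rw [h1]
  · have h2 := h₂.ok.coh η h.mem η₂ h₂.mem hlt le_rfl (by rw [← h1]; exact ho) ho₂ ξ hξ
    unfold Ann
    rw [h2, h1]
    constructor
    · rintro ⟨_, _, h3⟩
      exact ⟨ho₂, hξ₂, h3⟩
    · rintro ⟨_, _, h3⟩
      exact ⟨by rw [← h1]; exact ho, hξ, h3⟩

theorem ann_indep (h : A.Live d η x s) (h₂ : A.Live d η₂ x₂ s) (ho : x η % 2 = 1)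
    (ho₂ : x₂ η₂ % 2 = 1) (hξ : ξ < base (A.isE d) η) (hξ₂ : ξ < base (A.isE d) η₂) :
    Ann d.e (A.isE d) x η ξ ↔ Ann d.e (A.isE d) x₂ η₂ ξ := by
  rcases le_total η η₂ with hle | hle
  · exact Uniq_indep h h₂ ho ho₂ hξ hξ₂ hle
  · exact (Uniq_indep h₂ h ho₂ ho hξ₂ hξ hle).symm

theorem fv_ext (hp : p' ≤ p) (hk : k ∈ p.1.D) (hδ : δ ≤ p.1.ht) :
    A.Fv (dat p'.1 k) δ s ξ ↔ A.Fv (dat p.1 k) δ s ξ := by
  constructor
  · rintro ⟨a, ha, y, h1, h2⟩
    exact ⟨a, ha, y, (live_ext hp hk (ha.trans_le hδ)).1 h1,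
      (ann_ext hp hk (ha.trans_le hδ)).1 h2⟩
  · rintro ⟨a, ha, y, h1, h2⟩
    exact ⟨a, ha, y, (live_ext hp hk (ha.trans_le hδ)).2 h1,
      (ann_ext hp hk (ha.trans_le hδ)).2 h2⟩

end Pool.Agent.KSt
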