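import Pool.Agent.Lib.MP_d9d638_lc.KS.BaseL
import Pool.Agent.Lib.MP_d9d638_lc.KS.MskL

/-!
# KS, module XCong: locality of the path of a function

PROOF. `cc_congr`: `limE_congr`. `nxt_spec`: `WellFounded.min`. `xpath_congr`: `base E η ≤ η < θ`
(`base_congr`, `base_le`), so membership of `base E η` in the two sets `CC` is the same
(`cc_congr`), and `tr (base E η) y = tr (base E η) y'`; the next elements of the two sets `CC`
above `η` are `≤ θ`, hence equal.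
-/

set_option autoImplicit false

namespace Pool.Agent.KSt

open Pool.Agent.Lib.SymModel Set

variable {e e' : Om → ℕ → Om → ℕ} {E E' Cy Cy' C : Set Om} {y y' : Om → ℕ} {δ η θ : Om}

theorem cc_congr (hE : ∀ ξ < δ, (ξ ∈ E ↔ ξ ∈ E')) (hC : δ ∈ Cy ↔ δ ∈ Cy') :
    δ ∈ CC E Cy ↔ δ ∈ CC E' Cy' := by
  exact or_congr Iff.rfl (and_congr (limE_congr hE) hC)

theorem cc_clo (hδ : IsLim δ) (hclo : (∀ a < δ, ∃ b ∈ Cy, a < b ∧ b < δ) → δ ∈ Cy)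
    (h : ∀ a < δ, ∃ b ∈ CC E Cy, a < b ∧ b < δ) : δ ∈ CC E Cy := by
  have key : ∀ a b, b ∈ CC E Cy → a < b → LimE E b ∧ b ∈ Cy := by
    intro a b hb hab
    rcases hb with hb | hb
    · exact absurd (hb a) (not_le.2 hab)
    · exact hb
  refine Or.inr ⟨⟨hδ, fun a ha => ?_⟩, hclo fun a ha => ?_⟩
  · obtain ⟨b, hb, hab, hbδ⟩ := h a ha
    obtain ⟨η, hη, h1, h2⟩ := (key a b hb hab).1.2 a hab
    exact ⟨η, hη, h1, h2.trans hbδ⟩
  · obtain ⟨b, hb, hab, hbδ⟩ := h a ha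
    exact ⟨b, (key a b hb hab).2, hab, hbδ⟩

theorem nxt_spec (h : ∃ γ ∈ C, η < γ) :
    nxt C η ∈ C ∧ η < nxt C η ∧ ∀ γ ∈ C, η < γ → nxt C η ≤ γ := by
  classical
  have e : nxt C η = (wellFounded_lt : WellFounded ((· < ·) : Om → Om → Prop)).min
      {γ | γ ∈ C ∧ η < γ} h := by
    unfold nxt
    exact dif_pos h
  have h1 := WellFounded.min_mem (wellFounded_lt : WellFounded ((· < ·) : Om → Om → Prop))
    {γ | γ ∈ C ∧ η < γ} h
  rw [← e] at h1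
  refine ⟨h1.1, h1.2, fun γ hγ hηγ => ?_⟩
  rw [e]
  exact not_lt.1 (WellFounded.not_lt_min _ {γ | γ ∈ C ∧ η < γ} ⟨hγ, hηγ⟩)

theorem xpath_congr (hθ : θ ∈ CC E Cy) (hη : η < θ) (he : ∀ ε < θ, e ε = e' ε)
    (hE : ∀ ξ < θ, (ξ ∈ E ↔ ξ ∈ E')) (hC : ∀ ξ ≤ θ, (ξ ∈ Cy ↔ ξ ∈ Cy'))
    (hy : ∀ ξ < θ, y ξ = y' ξ) : xpath e E Cy y η = xpath e' E' Cy' y' η := by
  classical
  have hb : base E η = base E' η := base_congr fun ξ hξ => hE ξ (hξ.trans hη)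
  have hbθ : base E' η < θ := (base_le E' η).trans_lt hη
  have hcc : ∀ δ ≤ θ, (δ ∈ CC E Cy ↔ δ ∈ CC E' Cy') := fun δ hδ =>
    cc_congr (fun ξ hξ => hE ξ (hξ.trans_le hδ)) (hC δ hδ)
  have ht : tr (base E' η) y = tr (base E' η) y' := by
    funext ξ
    unfold tr
    by_cases h : ξ < base E' η
    · rw [if_pos h, if_pos h]
      exact hy ξ (h.trans hbθ)
    · rw [if_neg h, if_neg h]
  have hn : nxt (CC E Cy) η = nxt (CC E' Cy') η := by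
    have s1 := nxt_spec (C := CC E Cy) (η := η) ⟨θ, hθ, hη⟩
    have hθ' : θ ∈ CC E' Cy' := (hcc θ le_rfl).1 hθ
    have s2 := nxt_spec (C := CC E' Cy') (η := η) ⟨θ, hθ', hη⟩
    refine le_antisymm ?_ ?_
    · exact s1.2.2 _ ((hcc _ (s2.2.2 θ hθ' hη)).2 s2.1) s2.2.1
    · exact s2.2.2 _ ((hcc _ (s1.2.2 θ hθ hη)).1 s1.1) s1.2.1
  unfold xpath
  rw [hb, he _ hbθ, ht, hn]
  by_cases h1 : η ∈ E
  · rw [if_pos h1, if_pos ((hE η hη).1 h1)]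
    by_cases h2 : base E' η ∈ CC E Cy
    · rw [if_pos h2, if_pos ((hcc _ hbθ.le).1 h2)]
    · rw [if_neg h2, if_neg fun h => h2 ((hcc _ hbθ.le).2 h)]
  · rw [if_neg h1, if_neg fun h => h1 ((hE η hη).2 h)]

end Pool.Agent.KSt
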