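import Pool.Agent.Lib.MP_d9d638_lc.KS.Defs2

/-!
# KS, module XGlue: the glued functions are in M

PROOF. Let `X = {ξ < δ | aa δ ξ ≠ aa γ' ξ}`, finite (`exists_cohInj`, `Classical.choose_spec`,
`δ ≤ γ'`), and `L` the list of the pairs `(aa δ ξ, aa γ' ξ)`, `ξ ∈ X`; since `aa δ` is injective
below `δ`, `lookup L (aa δ ξ) = aa γ' ξ` for all `ξ < δ` (if `ξ ∉ X` then `aa δ ξ` is not a first
coordinate in `L`). Let `N = Encodable.encode (aa δ γ, n', v, L)` and apply `hcl` to the list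
`[ind (E ∩ Iio δ)]` and the number `N + 2`: by `Encodable.encodek` and the injectivity of `aa δ`
the value of `G0` is `glue δ (tre δ e) (dei (ind (E ∩ Iio δ))) γ n' v L`, with
`dei (ind X) = X`, `tre δ e γ = e γ`; its restriction to `δ` is the required function.
-/

set_option autoImplicit false

namespace Pool.Agent.KSt

open Pool.Agent.Lib.SymModel Set

private theorem XGlue_inj {δ ξ η : Om} (h1 : ξ < δ) (h2 : η < δ) (h : aa δ ξ = aa δ η) :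
    ξ = η :=
  (Classical.choose_spec exists_cohInj).1 δ ξ η h1 h2 h

private theorem XGlue_fin {γ δ : Om} (h : γ ≤ δ) : {ξ | ξ < γ ∧ aa γ ξ ≠ aa δ ξ}.Finite :=
  (Classical.choose_spec exists_cohInj).2 γ δ h

private theorem XGlue_lookup {δ γ' : Om} (l : List Om) (hl : ∀ ξ ∈ l, ξ < δ) {ξ : Om}
    (hξ : ξ < δ) : (ξ ∈ l → lookup (l.map fun ξ => (aa δ ξ, aa γ' ξ)) (aa δ ξ) = aa γ' ξ) ∧
      (ξ ∉ l → lookup (l.map fun ξ => (aa δ ξ, aa γ' ξ)) (aa δ ξ) = aa δ ξ) := by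
  induction l with
  | nil => exact ⟨fun h => absurd h List.not_mem_nil, fun _ => rfl⟩
  | cons a l ih =>
    have ih' := ih fun ξ hξ => hl ξ (List.mem_cons_of_mem _ hξ)
    have ha : a < δ := hl a List.mem_cons_self
    have e : lookup ((a :: l).map fun ξ => (aa δ ξ, aa γ' ξ)) (aa δ ξ) =
        if aa δ a = aa δ ξ then aa γ' a else
          lookup (l.map fun ξ => (aa δ ξ, aa γ' ξ)) (aa δ ξ) := rfl
    rw [e]
    by_cases h : aa δ a = aa δ ξ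
    · have h1 : a = ξ := XGlue_inj ha hξ h
      subst h1
      rw [if_pos rfl]
      exact ⟨fun _ => rfl, fun h2 => absurd List.mem_cons_self h2⟩
    · rw [if_neg h]
      refine ⟨fun h2 => ih'.1 ?_, fun h2 => ih'.2 fun h3 => h2 (List.mem_cons_of_mem _ h3)⟩
      rcases List.mem_cons.1 h2 with h3 | h3
      · exact absurd (by rw [h3]) h
      · exact h3

private theorem XGlue_dei (X : Set Om) : dei (ind X) = X := by
  classical
  ext ξ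
  show ind X ξ = 1 ↔ ξ ∈ X
  unfold ind
  by_cases h : ξ ∈ X
  · rw [if_pos h]
    exact ⟨fun _ => h, fun _ => rfl⟩
  · rw [if_neg h]
    exact ⟨fun h1 => absurd h1 zero_ne_one, fun h1 => absurd h1 h⟩

private theorem XGlue_G0 {δ : Om} {e : Om → ℕ → Om → ℕ} {z : Om → ℕ} {γ : Om} (hγ : γ < δ)
    (n' v : ℕ) (L : List (ℕ × ℕ)) :
    G0 δ e [z] (Encodable.encode ((aa δ γ, n', v, L) : ℕ × ℕ × ℕ × List (ℕ × ℕ)) + 2) =
      glue δ e (dei z) γ n' v L := by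
  classical
  have h : ∃ γ', γ' < δ ∧ aa δ γ' = aa δ γ := ⟨γ, hγ, rfl⟩
  have h1 : Classical.choose h = γ :=
    XGlue_inj (Classical.choose_spec h).1 hγ (Classical.choose_spec h).2
  unfold G0
  simp only [Encodable.encodek]
  rw [dif_pos h, h1]

theorem glue_mem {e : Om → ℕ → Om → ℕ} {E : Set Om} {δ : Om}
    (hcl : ClosedAt δ (e δ) (G0 δ (tre δ e))) (hE : ind (E ∩ Iio δ) ∈ range (e δ)) {γ : Om}
    (hγ : γ < δ) {z : Om → ℕ} {n' : ℕ} (hz : ∀ ξ < γ, e γ n' ξ = z ξ) (v : ℕ) {γ' : Om}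
    (hγ' : δ ≤ γ') (w : Om → ℕ)
    (h1 : ∀ ξ < γ, w ξ = z ξ) (h2 : ∀ ξ, γ ≤ ξ → ξ < δ → ξ ∉ E → w ξ = 0)
    (h3 : ∀ ξ ∈ E, γ ≤ ξ → ξ < δ → (∃ η ∈ E, γ ≤ η ∧ η < ξ) → w ξ = 2 * aa γ' ξ)
    (h4 : ∀ ξ ∈ E, γ ≤ ξ → ξ < δ → (¬ ∃ η ∈ E, γ ≤ η ∧ η < ξ) → w ξ = v) :
    tr δ w ∈ range (e δ) := by
  classical
  have hX := XGlue_fin hγ'
  obtain ⟨l, hl⟩ : ∃ l : List Om, ∀ ξ, ξ ∈ l ↔ ξ < δ ∧ aa δ ξ ≠ aa γ' ξ :=
    ⟨hX.toFinset.toList, fun ξ => by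
      rw [Finset.mem_toList, Set.Finite.mem_toFinset]
      exact Iff.rfl⟩
  obtain ⟨L, hLdef⟩ : ∃ L, L = l.map fun ξ => (aa δ ξ, aa γ' ξ) := ⟨_, rfl⟩
  have hL : ∀ ξ < δ, lookup L (aa δ ξ) = aa γ' ξ := by
    intro ξ hξ
    rw [hLdef]
    have h := XGlue_lookup (γ' := γ') l (fun ξ hξ => ((hl ξ).1 hξ).1) hξ
    by_cases h5 : ξ ∈ l
    · exact h.1 h5
    · rw [h.2 h5]
      by_contra h6
      exact h5 ((hl ξ).2 ⟨hξ, h6⟩)
  have hmem := hcl [ind (E ∩ Iio δ)] (fun z hz => by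
    rw [List.mem_singleton] at hz
    rw [hz]
    exact hE) (Encodable.encode ((aa δ γ, n', v, L) : ℕ × ℕ × ℕ × List (ℕ × ℕ)) + 2)
  rw [XGlue_G0 hγ, XGlue_dei] at hmem
  have key : tr δ w = tr δ (glue δ (tre δ e) (E ∩ Iio δ) γ n' v L) := by
    funext ξ
    unfold tr
    by_cases hξ : ξ < δ
    · rw [if_pos hξ, if_pos hξ]
      unfold glue
      by_cases h5 : ξ < γ
      · have h6 : tre δ e γ n' ξ = e γ n' ξ := by
          unfold tre
          rw [if_pos hγ]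
        rw [if_pos h5, h6, hz ξ h5]
        exact h1 ξ h5
      · rw [if_neg h5]
        have h5' : γ ≤ ξ := not_lt.1 h5
        by_cases h6 : ξ ∈ E
        · have h7 : ξ ∈ E ∩ Iio δ ∧ ξ < δ := ⟨⟨h6, hξ⟩, hξ⟩
          rw [if_pos h7]
          by_cases h8 : ∃ η ∈ E, γ ≤ η ∧ η < ξ
          · have h9 : ∃ η ∈ E ∩ Iio δ, γ ≤ η ∧ η < ξ := by
              obtain ⟨η, a1, a2, a3⟩ := h8
              exact ⟨η, ⟨a1, a3.trans hξ⟩, a2, a3⟩
            rw [if_pos h9, hL ξ hξ]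
            exact h3 ξ h6 h5' hξ h8
          · have h9 : ¬ ∃ η ∈ E ∩ Iio δ, γ ≤ η ∧ η < ξ := by
              rintro ⟨η, a1, a2, a3⟩
              exact h8 ⟨η, a1.1, a2, a3⟩
            rw [if_neg h9]
            exact h4 ξ h6 h5' hξ h8
        · have h7 : ¬ (ξ ∈ E ∩ Iio δ ∧ ξ < δ) := fun h => h6 h.1.1
          rw [if_neg h7]
          exact h2 ξ h5' hξ h6
    · rw [if_neg hξ, if_neg hξ]
  rw [key]
  exact hmem

end Pool.Agent.KSt
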