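import Pool.Agent.Lib.MP_d9d638_lc.KS.XCong
import Pool.Agent.Lib.MP_d9d638_lc.KS.XGlue

/-!
# KS, module XVal: the path of a function is valid

PROOF. Let `x = xpath e E Cy y`, `C = CC E Cy`; the least element `o` of `Om` is in `C`. By
induction on `δ' ≤ θ` with `LimE E δ'`: `msk E δ' x ∈ range (e δ')`.
Case 1: `C` is cofinal in `δ'`. Then `Cy` is, so `δ' ∈ Cy` (`clo`), and `tr δ' y`,
`ind (Cy ∩ Iio δ')`, `ind (E ∩ Iio δ')` are in `range (e δ')`. Apply `gcl` to the list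
`[tr δ' y, ind (E ∩ Iio δ'), ind (Cy ∩ Iio δ')]` and the number `1`: the value of `G0` is
`msk E' δ' (xpath (tre δ' e) E' C' (tr δ' y))` with `E' = E ∩ Iio δ'`, `C' = Cy ∩ Iio δ'`
(`dei (ind X) = X`), and for `η ∈ E`, `η < δ'` there is `γ ∈ C`, `η < γ < δ'`, so
`xpath_congr` (for `θ := γ`) says that it is `msk E δ' x`.
Case 2: not. `exists_max` (`C` is closed below `δ'` by `cc_clo`): let `γ` be the largest element
of
`C` below `δ'`. If `γ` is not minimal then `LimE E γ`, and by induction `msk E γ x = e γ n'` for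
some `n'`. Let `γ'` be the least element of `C` with `δ' ≤ γ'` (`θ` is one). For all `η < δ'` with
`γ ≤ η` one has `nxt C η = γ'`. `glue_mem` with `z = x` masked below `γ` and
`w = msk E δ' x`, `v = 2 * numF (e γ) (tr γ y) + 1`: if `ξ ∈ E`, `γ ≤ ξ < δ'` and some `η ∈ E` is
in `[γ, ξ)`, then `base E ξ > γ` (`base_gt`; `base E ξ ≤ ξ < δ'`), so `base E ξ ∉ C`
and `x ξ = 2 * aa γ' ξ`; otherwise `base E ξ = γ` (`base_of_lim` if `γ` is a limit; if `γ` is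
minimal, `exists_mem_base`) and `x ξ = v`. (`tr_msk`: `tr δ' (msk E δ' x) = msk E δ' x`.)
-/

set_option autoImplicit false

namespace Pool.Agent.KSt

open Pool.Agent.Lib.SymModel Set

/-- The assumptions on the data up to `θ`. -/
structure XH (e : Om → ℕ → Om → ℕ) (E Cy : Set Om) (y : Om → ℕ) (θ : Om) : Prop where
  supp : ∀ δ ≤ θ, ∀ n ξ, δ ≤ ξ → e δ n ξ = 0
  gcl : ∀ δ ≤ θ, IsLim δ → ClosedAt δ (e δ) (G0 δ (tre δ e))
  hE : ∀ δ ≤ θ, LimE E δ → ind (E ∩ Iio δ) ∈ range (e δ)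
  hy : ∀ δ ≤ θ, δ ∈ Cy → tr δ y ∈ range (e δ)
  hC : ∀ δ ≤ θ, δ ∈ Cy → IsLim δ ∧ ind (Cy ∩ Iio δ) ∈ range (e δ)
  clo : ∀ δ ≤ θ, IsLim δ → (∀ a < δ, ∃ b ∈ Cy, a < b ∧ b < δ) → δ ∈ Cy

private theorem XVal_dei (X : Set Om) : dei (ind X) = X := by
  classical
  ext ξ
  show ind X ξ = 1 ↔ ξ ∈ X
  unfold ind
  by_cases h : ξ ∈ X
  · rw [if_pos h]
    exact ⟨fun _ => h, fun _ => rfl⟩
  · rw [if_neg h]
    exact ⟨fun h1 => absurd h1 (by norm_num), fun h1 => absurd h1 h⟩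

private theorem XVal_msk_pos {E : Set Om} {δ ξ : Om} {x : Om → ℕ} (h1 : ξ ∈ E) (h2 : ξ < δ) :
    msk E δ x ξ = x ξ := by
  unfold msk
  exact if_pos ⟨h1, h2⟩

private theorem XVal_msk_neg {E : Set Om} {δ ξ : Om} {x : Om → ℕ} (h1 : ξ ∉ E) :
    msk E δ x ξ = 0 := by
  unfold msk
  exact if_neg fun h => h1 h.1

/-- Case 1: the announcing stages are cofinal. -/
private theorem XVal_one {e : Om → ℕ → Om → ℕ} {E Cy : Set Om} {y : Om → ℕ} {θ δ : Om}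
    (h : XH e E Cy y θ) (hδ : δ ≤ θ) (hl : LimE E δ)
    (hc : ∀ a < δ, ∃ b ∈ CC E Cy, a < b ∧ b < δ) :
    msk E δ (xpath e E Cy y) ∈ range (e δ) := by
  have hCy : δ ∈ Cy := by
    refine h.clo δ hδ hl.1 fun a ha => ?_
    obtain ⟨b, h1, h2, h3⟩ := hc a ha
    rcases h1 with h1 | h1
    · exact absurd (h1 a) (not_le.2 h2)
    · exact ⟨b, h1.2, h2, h3⟩
  have h1 := h.gcl δ hδ hl.1 [tr δ y, ind (E ∩ Iio δ), ind (Cy ∩ Iio δ)]
    (by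
      intro z hz
      rcases List.mem_cons.1 hz with rfl | hz
      · exact h.hy δ hδ hCy
      rcases List.mem_cons.1 hz with rfl | hz
      · exact h.hE δ hδ hl
      rw [List.mem_singleton] at hz
      rw [hz]
      exact (h.hC δ hδ hCy).2) 1
  have h2 : G0 δ (tre δ e) [tr δ y, ind (E ∩ Iio δ), ind (Cy ∩ Iio δ)] 1 =
      msk (dei (ind (E ∩ Iio δ))) δ (xpath (tre δ e) (dei (ind (E ∩ Iio δ)))
        (dei (ind (Cy ∩ Iio δ))) (tr δ y)) := rfl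
  rw [h2, tr_msk le_rfl, XVal_dei, XVal_dei] at h1
  have h3 : msk E δ (xpath e E Cy y) = msk (E ∩ Iio δ) δ
      (xpath (tre δ e) (E ∩ Iio δ) (Cy ∩ Iio δ) (tr δ y)) := by
    refine msk_congr (fun ξ hξ => ⟨fun h4 => ⟨h4, hξ⟩, fun h4 => h4.1⟩) fun ξ _ hξ => ?_
    obtain ⟨γ, h4, h5, h6⟩ := hc ξ hξ
    refine xpath_congr h4 h5 (fun ε hε => ?_)
      (fun ζ hζ => ⟨fun h7 => ⟨h7, hζ.trans h6⟩, fun h7 => h7.1⟩)
      (fun ζ hζ => ⟨fun h7 => ⟨h7, hζ.trans_lt h6⟩, fun h7 => h7.1⟩) fun ζ hζ => ?_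
    · unfold tre
      funext n
      exact (if_pos (hε.trans h6)).symm
    · unfold tr
      exact (if_pos (hζ.trans h6)).symm
  rw [h3]
  exact h1

/-- Case 2: there is a last announcing stage. -/
private theorem XVal_two {e : Om → ℕ → Om → ℕ} {E Cy : Set Om} {y : Om → ℕ} {θ δ : Om}
    (h : XH e E Cy y θ) (hθ : θ ∈ CC E Cy) (hδ : δ ≤ θ) (hl : LimE E δ)
    (hc : ¬ ∀ a < δ, ∃ b ∈ CC E Cy, a < b ∧ b < δ)
    (ih : ∀ γ < δ, LimE E γ → msk E γ (xpath e E Cy y) ∈ range (e γ)) :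
    msk E δ (xpath e E Cy y) ∈ range (e δ) := by
  classical
  obtain ⟨o, ho⟩ := exists_bot
  have h0 : ∃ γ ∈ CC E Cy, γ < δ := by
    obtain ⟨a, ha⟩ := hl.1.1
    exact ⟨o, Or.inl ho, (ho a).trans_lt ha⟩
  obtain ⟨γ, hγC, hγ, hmax⟩ := exists_max h0
    (fun ε hε hlim hcof => cc_clo hlim (h.clo ε (hε.trans hδ) hlim) hcof) hc
  obtain ⟨γ', ⟨hγ'C, hδγ'⟩, hmin⟩ := MP_d9d638_lc.Om.least
    (S := {u : Om | u ∈ CC E Cy ∧ δ ≤ u}) ⟨θ, hθ, hδ⟩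
  have hnxt : ∀ η, γ ≤ η → η < δ → nxt (CC E Cy) η = γ' := by
    intro η h1 h2
    obtain ⟨h3, h4, h5⟩ := nxt_spec (C := CC E Cy) (η := η) ⟨γ', hγ'C, h2.trans_le hδγ'⟩
    refine le_antisymm (h5 γ' hγ'C (h2.trans_le hδγ')) (hmin _ ⟨h3, ?_⟩)
    by_contra hcon
    exact absurd (h4.trans_le ((hmax _ h3 (not_le.1 hcon)).trans h1)) (lt_irrefl _)
  obtain ⟨n', hn'⟩ : ∃ n', ∀ ξ < γ, e γ n' ξ = msk E δ (xpath e E Cy y) ξ := by
    rcases hγC with h1 | h1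
    · exact ⟨0, fun ξ hξ => absurd (h1 ξ) (not_le.2 hξ)⟩
    · obtain ⟨n', hn'⟩ := ih γ hγ h1.1
      refine ⟨n', fun ξ hξ => ?_⟩
      rw [hn']
      by_cases h2 : ξ ∈ E
      · rw [XVal_msk_pos h2 hξ, XVal_msk_pos h2 (hξ.trans hγ)]
      · rw [XVal_msk_neg h2, XVal_msk_neg h2]
  have hg := glue_mem (h.gcl δ hδ hl.1) (h.hE δ hδ hl) hγ hn'
    (2 * numF (e γ) (tr γ y) + 1) hδγ' (msk E δ (xpath e E Cy y)) (fun _ _ => rfl)
    (fun ξ _ _ h3 => XVal_msk_neg h3)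
    (fun ξ hξ h1 h2 h3 => ?_) (fun ξ hξ h1 h2 h3 => ?_)
  · rw [tr_msk le_rfl] at hg
    exact hg
  · obtain ⟨η, h4, h5, h6⟩ := h3
    have h7 : γ < base E ξ := h5.trans_lt (base_gt h4 h6)
    have h8 : base E ξ ∉ CC E Cy := fun h9 =>
      absurd (hmax _ h9 ((base_le E ξ).trans_lt h2)) (not_le.2 h7)
    rw [XVal_msk_pos hξ h2]
    unfold xpath
    rw [if_pos hξ, if_neg h8, hnxt ξ h1 h2]
  · have h4 : ∀ η' ∈ E, γ ≤ η' → ¬ η' < ξ := fun η' h5 h6 h7 => h3 ⟨η', h5, h6, h7⟩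
    have h5 : base E ξ = γ := by
      rcases hγC with h6 | h6
      · refine le_antisymm ?_ (h6 _)
        by_contra h7
        obtain ⟨η', h8, h9, h10⟩ := exists_mem_base (not_le.1 h7)
        exact h4 η' h8 h9 (h10.trans_le (base_le E ξ))
      · exact base_of_lim h6.1 h1 h4
    rw [XVal_msk_pos hξ h2]
    unfold xpath
    rw [if_pos hξ, h5, if_pos hγC]

theorem x_valid {e : Om → ℕ → Om → ℕ} {E Cy : Set Om} {y : Om → ℕ} {θ : Om}
    (h : XH e E Cy y θ) (hθ : θ ∈ CC E Cy) : Valid e E θ (xpath e E Cy y) := by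
  intro δ'
  induction δ' using WellFoundedLT.induction with
  | ind δ ih =>
    intro hδ hl
    by_cases hc : ∀ a < δ, ∃ b ∈ CC E Cy, a < b ∧ b < δ
    · exact XVal_one h hδ hl hc
    · exact XVal_two h hθ hδ hl hc fun γ hγ => ih γ hγ (hγ.le.trans hδ)

end Pool.Agent.KSt
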